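import Pool.Agent.HQ.SMean

/-!
# HQ: powers of the conformal size
-/

set_option autoImplicit false

open Complex Metric Set Filter Topology MeasureTheory
open scoped ComplexConjugate Real

namespace Pool.Agent.HQ

/-- Cauchy estimate for `(A ∘ mob z)''(0)`:
`(A ∘ mob z)''(0) = (1-|z|²)² A''(z) - 2 conj z (1-|z|²) A'(z)`. -/
theorem loc_second {K : ℝ} (hK : Loc K) {A B : ℂ → ℂ} (h : HPair A B) {z : ℂ} (hz : ‖z‖ < 1) :
    ‖((1 - ‖z‖ ^ 2 : ℝ) : ℂ) * (deriv (deriv A) z / deriv A z) - 2 * conj z‖ ≤ 8 * K := by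
  have hz1 : z ∈ closedBall (0 : ℂ) 1 := mem_closedBall_zero_iff.2 hz.le
  have hP := h.comp_mob hz
  set F : ℂ → ℂ := fun w => A (mob z w) with hF
  set D : ℂ := ((1 - ‖z‖ ^ 2 : ℝ) : ℂ) with hD
  have hDne : D ≠ 0 := by
    rw [hD, ofReal_ne_zero]
    nlinarith [norm_nonneg z]
  have hdne := h.deriv_ne hz1
  have hdF : ∀ w ∈ closedBall (0 : ℂ) 1,
      deriv F w = deriv A (mob z w) * (D / (1 + conj z * w) ^ 2) := by
    intro w hw
    have h1 := (h.anA _ (mob_mem_closedBall hz hw)).differentiableAt.hasDerivAt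
    have h2 := hasDerivAt_mob hz (mem_closedBall_zero_iff.1 hw)
    exact (h1.comp w h2).deriv
  have hD0 : deriv F 0 = deriv A z * D := by
    rw [hdF 0 (by simp)]
    simp
  have hev : deriv F =ᶠ[𝓝 0] fun w => deriv A (mob z w) * (D / (1 + conj z * w) ^ 2) := by
    filter_upwards [ball_mem_nhds (0 : ℂ) one_pos] with w hw
    exact hdF w (ball_subset_closedBall hw)
  have hA2 : HasDerivAt (deriv A) (deriv (deriv A) (mob z 0)) (mob z 0) := by
    rw [mob_zero_right]
    exact (h.anA z hz1).deriv.differentiableAt.hasDerivAt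
  have hm : HasDerivAt (mob z) D 0 := by
    have h0 := hasDerivAt_mob (z := 0) hz (by simp)
    rw [mul_zero, add_zero, one_pow, div_one] at h0
    exact h0
  have hq : HasDerivAt (fun w : ℂ => D / (1 + conj z * w) ^ 2) (-(2 * conj z * D)) 0 := by
    have h2 : HasDerivAt (fun w : ℂ => 1 + conj z * w) (conj z) 0 := by
      simpa using ((hasDerivAt_id (0 : ℂ)).const_mul (conj z)).const_add 1
    have h3 := h2.fun_pow 2
    have h4 := (hasDerivAt_const (0 : ℂ) D).fun_div h3 (by simp)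
    refine h4.congr_deriv ?_
    simp
    ring
  have hD2 : deriv (deriv F) 0 = deriv (deriv A) z * D * D + deriv A z * (-(2 * conj z * D)) := by
    rw [hev.deriv_eq]
    have h3 := (hA2.comp 0 hm).mul hq
    have h4 := h3.deriv
    simp only [Function.comp_def, mob_zero_right, mul_zero, add_zero, one_pow, div_one] at h4
    exact h4
  have hquot : D * (deriv (deriv A) z / deriv A z) - 2 * conj z =
      deriv (deriv F) 0 / deriv F 0 := by
    rw [hD2, hD0]
    field_simp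
    ring
  rw [hquot, norm_div, div_le_iff₀ (norm_pos_iff.2 (by rw [hD0]; exact mul_ne_zero hdne hDne))]
  set G : ℂ → ℂ := fun w => F w - F 0 with hG
  have hGd : deriv (deriv G) 0 = deriv (deriv F) 0 := by
    have : deriv G = deriv F := by
      funext w
      simp only [hG, deriv_sub_const]
    rw [this]
  have hcl : DiffContOnCl ℂ G (ball 0 (1 / 2)) := by
    have h1 : DifferentiableOn ℂ G (closedBall 0 (1 / 2)) := by
      intro w hw
      have hw1 : w ∈ closedBall (0 : ℂ) 1 := closedBall_subset_closedBall (by norm_num) hw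
      exact ((hP.anA w hw1).differentiableAt.sub_const _).differentiableWithinAt
    exact h1.diffContOnCl_ball subset_rfl
  have hb : ∀ w ∈ sphere (0 : ℂ) (1 / 2), ‖G w‖ ≤ K * ‖deriv F 0‖ := by
    intro w hw
    exact hK.2 _ _ hP w (by simpa using (mem_sphere_zero_iff_norm.1 hw).le)
  have hC := Complex.norm_iteratedDeriv_le_of_forall_mem_sphere_norm_le 2
    (by norm_num : (0 : ℝ) < 1 / 2) hcl hb
  rw [iteratedDeriv_succ, iteratedDeriv_one, hGd] at hC
  refine hC.trans (le_of_eq ?_)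
  norm_num [Nat.factorial]
  ring

/-- `rho ^ b` has a strict super mean value property.  Proof: put `D = 1 - |z|²`,
`c = conj z / D`.  Then `1 - |z+h|² = D |1 - c h|² - |h|² / D` (exact identity), hence on
`|h| = r`: `rho (z+h) = |P h| (1 - r² / (D² |1 - c h|²)) ≤ |P h| (1 - r² / (D + r)²)`,
`P h = D (1 - c h)² A'(z+h)`.  Bernoulli: `rho ^ b ≤ |P|^b (1 - b r² / (D+r)²)` for
`0 < b ≤ 1`, and `|P|^b = |S|²` with `S = exp ((b/2) log P)` analytic near `h = 0`, so its circle
average is `|P 0|^b (1 + (b²/4) |P' 0 / P 0|² r²) + o(r²)`; `D P' 0 / P 0` is the quantity in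
`loc_second`, so for `b ≤ 1 / (64 K²)` the total coefficient of `r²` is at most
`(-b + b² 64 K² / 4) / D² ≤ -b / (2 D²)`. -/
theorem smean_rho_pow {K : ℝ} (hK : Loc K) {A B : ℂ → ℂ} (h : HPair A B) {b : ℝ} (hb : 0 < b)
    (hb1 : b ≤ 1 / (64 * K ^ 2)) {z : ℂ} (hz : ‖z‖ < 1) {ε : ℝ} (hε : 0 < ε) :
    ∀ᶠ r in 𝓝[>] (0 : ℝ), Real.circleAverage (fun w => rho A w ^ b) z r ≤
      rho A z ^ b - (b / 2) * rho A z ^ b / (1 - ‖z‖ ^ 2) ^ 2 * r ^ 2 + ε * r ^ 2 := by
  have hz1 : z ∈ closedBall (0 : ℂ) 1 := mem_closedBall_zero_iff.2 hz.le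
  have hK1 : 1 ≤ K := hK.1
  have hA1 : deriv A z ≠ 0 := h.deriv_ne hz1
  have hbK : b * (64 * K ^ 2) ≤ 1 := by
    rwa [le_div_iff₀ (by positivity)] at hb1
  have hb2 : b ≤ 1 := by nlinarith
  set D : ℝ := 1 - ‖z‖ ^ 2 with hD
  have hD0 : 0 < D := by rw [hD]; nlinarith [norm_nonneg z]
  have hDc : (D : ℂ) ≠ 0 := by exact_mod_cast hD0.ne'
  set c : ℂ := conj z / D with hc
  have hcn : ‖c‖ * D = ‖z‖ := by
    rw [hc, norm_div, norm_real, Real.norm_of_nonneg hD0.le, norm_conj, div_mul_cancel₀ _ hD0.ne']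
  -- the analytic functions
  set P : ℂ → ℂ := fun w => D * (1 - c * (w - z)) ^ 2 * deriv A w with hP
  have hPz : P z = D * deriv A z := by simp [hP]
  have hPne : P z ≠ 0 := by rw [hPz]; exact mul_ne_zero hDc hA1
  have hPan : AnalyticAt ℂ P z := by
    have := (h.anA z hz1).deriv
    fun_prop
  have hPd : deriv P z = -(2 * c * D) * deriv A z + D * deriv (deriv A) z := by
    have h2 : HasDerivAt (fun w : ℂ => 1 - c * (w - z)) (-c) z := by
      have := (((hasDerivAt_id z).sub_const z).const_mul c).const_sub 1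
      simpa using this
    have h3 := (h2.fun_pow 2).const_mul (D : ℂ)
    have h4 := h3.mul (h.anA z hz1).deriv.differentiableAt.hasDerivAt
    have h5 : deriv P z = _ := h4.deriv
    rw [h5]
    simp only [sub_self, mul_zero, sub_zero, one_pow, mul_one]
    push_cast
    ring
  set S : ℂ → ℂ := fun w => ((‖P z‖ ^ (b / 2) : ℝ) : ℂ) * (P w / P z) ^ ((b / 2 : ℝ) : ℂ) with hS
  have hsl : P z / P z ∈ slitPlane := by rw [div_self hPne]; exact one_mem_slitPlane
  have hSan : AnalyticAt ℂ S z := by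
    have h1 : AnalyticAt ℂ (fun w => P w / P z) z := by fun_prop
    exact analyticAt_const.mul (h1.cpow analyticAt_const hsl)
  have hSnorm : ∀ w, ‖S w‖ ^ 2 = ‖P w‖ ^ b := by
    intro w
    have h1 : ‖S w‖ = ‖P w‖ ^ (b / 2) := by
      simp only [hS]
      rw [norm_mul, norm_real, Complex.norm_cpow_real, norm_div,
        Real.div_rpow (norm_nonneg _) (norm_nonneg _), Real.norm_of_nonneg (by positivity)]
      rw [mul_div_cancel₀]
      exact (Real.rpow_pos_of_pos (norm_pos_iff.2 hPne) _).ne'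
    rw [h1, ← Real.rpow_natCast, ← Real.rpow_mul (norm_nonneg _)]
    congr 1
    push_cast
    ring
  have hSd : ‖deriv S z‖ ^ 2 ≤ ‖P z‖ ^ b * (b / (4 * D ^ 2)) := by
    have h1 : HasDerivAt (fun w => P w / P z) (deriv P z / P z) z :=
      hPan.differentiableAt.hasDerivAt.div_const (P z)
    have h2 := (h1.cpow_const (c := ((b / 2 : ℝ) : ℂ)) hsl).const_mul
      ((‖P z‖ ^ (b / 2) : ℝ) : ℂ)
    have h3 : deriv S z = _ := h2.deriv
    have h4 : ‖deriv S z‖ = ‖P z‖ ^ (b / 2) * (b / 2 * ‖deriv P z / P z‖) := by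
      have hx : ∀ (x y : ℝ) (w : ℂ), 0 ≤ x → 0 ≤ y →
          ‖(x : ℂ) * ((y : ℂ) * w)‖ = x * (y * ‖w‖) := by
        intro x y w hx0 hy0
        rw [norm_mul, norm_mul, norm_real, norm_real, Real.norm_of_nonneg hx0,
          Real.norm_of_nonneg hy0]
      rw [h3, div_self hPne, one_cpow, mul_one]
      exact hx _ _ _ (by positivity) (by positivity)
    have h5 : D * ‖deriv P z / P z‖ ≤ 8 * K := by
      have h6 := loc_second hK h hz
      have h7 : (D : ℂ) * (deriv P z / P z) =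
          ((1 - ‖z‖ ^ 2 : ℝ) : ℂ) * (deriv (deriv A) z / deriv A z) - 2 * conj z := by
        rw [hPd, hPz, ← hD, hc]
        field_simp
        ring
      rw [← h7, norm_mul, norm_real, Real.norm_of_nonneg hD0.le] at h6
      exact h6
    have h8 : (‖P z‖ ^ (b / 2)) ^ 2 = ‖P z‖ ^ b := by
      rw [← Real.rpow_natCast, ← Real.rpow_mul (norm_nonneg _)]
      congr 1
      push_cast
      ring
    rw [h4, mul_pow, h8]
    apply mul_le_mul_of_nonneg_left _ (by positivity)
    rw [le_div_iff₀ (by positivity)]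
    have h9 : (D * ‖deriv P z / P z‖) ^ 2 ≤ (8 * K) ^ 2 :=
      pow_le_pow_left₀ (by positivity) h5 2
    have h10 : (b / 2 * ‖deriv P z / P z‖) ^ 2 * (4 * D ^ 2) =
        b ^ 2 * (D * ‖deriv P z / P z‖) ^ 2 := by ring
    rw [h10]
    calc b ^ 2 * (D * ‖deriv P z / P z‖) ^ 2 ≤ b ^ 2 * (8 * K) ^ 2 :=
          mul_le_mul_of_nonneg_left h9 (by positivity)
      _ = b * (b * (64 * K ^ 2)) := by ring
      _ ≤ b * 1 := mul_le_mul_of_nonneg_left hbK hb.le
      _ = b := mul_one b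
  -- the set of good radii
  have hrz : rho A z ^ b = ‖P z‖ ^ b := by
    congr 1
    rw [hPz, norm_mul, norm_real, Real.norm_of_nonneg hD0.le, rho]
  have hgood : ∀ᶠ r in 𝓝[>] (0 : ℝ), 0 < r ∧ r ≤ D / 10 ∧ r < 1 - ‖z‖ := by
    have h1 : 0 < min (D / 10) (1 - ‖z‖) := lt_min (by positivity) (by linarith)
    filter_upwards [Ioo_mem_nhdsGT h1] with r hr
    exact ⟨hr.1, (hr.2.trans_le (min_le_left _ _)).le, hr.2.trans_le (min_le_right _ _)⟩
  filter_upwards [hgood, circleAverage_normSq hSan hε] with r hr hav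
  obtain ⟨hr0, hrD, hrz1⟩ := hr
  -- points of the circle
  have hball : ∀ w ∈ sphere z r, ‖w‖ < 1 := by
    intro w hw
    have hwr : ‖w - z‖ = r := by simpa [dist_eq_norm] using hw
    calc ‖w‖ = ‖(w - z) + z‖ := by ring_nf
      _ ≤ ‖w - z‖ + ‖z‖ := norm_add_le _ _
      _ < 1 := by linarith
  set u : ℝ := b * r ^ 2 / (D + r) ^ 2 with hu
  have hu1 : u ≤ 1 := by
    rw [hu, div_le_one (by positivity)]
    nlinarith [sq_nonneg r, sq_nonneg D, mul_pos hD0 hr0]
  have hpt : ∀ w ∈ sphere z r, rho A w ^ b ≤ (1 - u) * ‖S w‖ ^ 2 := by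
    intro w hw
    have hwr : ‖w - z‖ = r := by simpa [dist_eq_norm] using hw
    have hw1 := hball w hw
    have e1 : 1 - ‖w‖ ^ 2 = D * ‖1 - c * (w - z)‖ ^ 2 - r ^ 2 / D := by
      have h1 : ‖(D : ℂ) - conj z * (w - z)‖ = D * ‖1 - c * (w - z)‖ := by
        have h2 : (D : ℂ) - conj z * (w - z) = D * (1 - c * (w - z)) := by
          rw [hc]; field_simp
        rw [h2, norm_mul, norm_real, Real.norm_of_nonneg hD0.le]
      have h3 : ‖(D : ℂ) - conj z * (w - z)‖ ^ 2 = D * (1 - ‖w‖ ^ 2) + r ^ 2 := by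
        rw [← hwr, ← normSq_eq_norm_sq, ← normSq_eq_norm_sq, ← normSq_eq_norm_sq]
        have hDn : D = 1 - normSq z := by rw [hD, normSq_eq_norm_sq]
        rw [hDn]
        simp only [normSq_apply, sub_re, sub_im, mul_re, mul_im, conj_re, conj_im, ofReal_re,
          ofReal_im]
        ring
      rw [h1, mul_pow] at h3
      field_simp
      linarith
    set q : ℝ := ‖1 - c * (w - z)‖ with hq
    have hqD : D * q ≤ D + r := by
      have h1 : q ≤ 1 + ‖c‖ * r := by
        calc q ≤ ‖(1 : ℂ)‖ + ‖c * (w - z)‖ := norm_sub_le _ _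
          _ = 1 + ‖c‖ * r := by rw [norm_one, norm_mul, hwr]
      calc D * q ≤ D * (1 + ‖c‖ * r) := mul_le_mul_of_nonneg_left h1 hD0.le
        _ = D + (‖c‖ * D) * r := by ring
        _ = D + ‖z‖ * r := by rw [hcn]
        _ ≤ D + 1 * r := by
          have := mul_le_mul_of_nonneg_right hz.le hr0.le
          linarith
        _ = D + r := by ring
    have hPw : ‖P w‖ = D * q ^ 2 * ‖deriv A w‖ := by
      simp only [hP]
      rw [norm_mul, norm_mul, norm_pow, norm_real, Real.norm_of_nonneg hD0.le]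
    have hq0 : 0 ≤ q := norm_nonneg _
    have e2 : rho A w ≤ ‖P w‖ * (1 + -(r ^ 2 / (D + r) ^ 2)) := by
      rw [rho, e1, hPw]
      have h1 : D * q ^ 2 * (r ^ 2 / (D + r) ^ 2) ≤ r ^ 2 / D := by
        rw [← mul_div_assoc, div_le_div_iff₀ (by positivity) hD0]
        have h2 : (D * q) ^ 2 ≤ (D + r) ^ 2 := pow_le_pow_left₀ (by positivity) hqD 2
        calc D * q ^ 2 * r ^ 2 * D = (D * q) ^ 2 * r ^ 2 := by ring
          _ ≤ (D + r) ^ 2 * r ^ 2 := mul_le_mul_of_nonneg_right h2 (by positivity)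
          _ = r ^ 2 * (D + r) ^ 2 := by ring
      calc (D * q ^ 2 - r ^ 2 / D) * ‖deriv A w‖
          ≤ (D * q ^ 2 - D * q ^ 2 * (r ^ 2 / (D + r) ^ 2)) * ‖deriv A w‖ :=
            mul_le_mul_of_nonneg_right (by linarith) (norm_nonneg _)
        _ = _ := by ring
    have hrho0 : 0 ≤ rho A w := by
      rw [rho]
      have : 0 ≤ 1 - ‖w‖ ^ 2 := by nlinarith [norm_nonneg w]
      positivity
    have hfrac : r ^ 2 / (D + r) ^ 2 ≤ 1 := by
      rw [div_le_one (by positivity)]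
      nlinarith [mul_pos hD0 hr0]
    have hbern := rpow_one_add_le_one_add_mul_self
      (by linarith : -1 ≤ -(r ^ 2 / (D + r) ^ 2)) hb.le hb2
    calc rho A w ^ b ≤ (‖P w‖ * (1 + -(r ^ 2 / (D + r) ^ 2))) ^ b :=
          Real.rpow_le_rpow hrho0 e2 hb.le
      _ = ‖P w‖ ^ b * (1 + -(r ^ 2 / (D + r) ^ 2)) ^ b :=
          Real.mul_rpow (norm_nonneg _) (by linarith)
      _ ≤ ‖P w‖ ^ b * (1 + b * -(r ^ 2 / (D + r) ^ 2)) :=
          mul_le_mul_of_nonneg_left hbern (by positivity)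
      _ = (1 - u) * ‖S w‖ ^ 2 := by rw [hSnorm, hu]; ring
  -- integrability
  have hrint : CircleIntegrable (fun w => rho A w ^ b) z r := by
    apply ContinuousOn.circleIntegrable hr0.le
    intro w hw
    have hw1 := hball w hw
    have h1 : ContinuousAt (deriv A) w :=
      (h.anA w (mem_closedBall_zero_iff.2 hw1.le)).deriv.continuousAt
    have h2 : ContinuousAt (rho A) w := by
      unfold rho
      fun_prop
    exact (h2.rpow_const (Or.inr hb.le)).continuousWithinAt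
  have hcmp : Real.circleAverage (fun w => rho A w ^ b) z r ≤
      (1 - u) * Real.circleAverage (fun w => ‖S w‖ ^ 2) z r := by
    have h1 : Real.circleAverage (fun w => (1 - u) * ‖S w‖ ^ 2) z r =
        (1 - u) * Real.circleAverage (fun w => ‖S w‖ ^ 2) z r :=
      Real.circleAverage_fun_smul (a := 1 - u) (f := fun w => ‖S w‖ ^ 2)
    rw [← h1]
    refine Real.circleAverage_mono hrint (hav.1.const_smul (a := 1 - u)) ?_
    intro w hw
    rw [abs_of_pos hr0] at hw
    exact hpt w hw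
  have hup := (abs_le.1 hav.2).2
  have hSz : ‖S z‖ ^ 2 = ‖P z‖ ^ b := hSnorm z
  rw [hSz] at hup
  set M : ℝ := ‖P z‖ ^ b with hM
  have hM0 : 0 ≤ M := by positivity
  have h1 : Real.circleAverage (fun w => ‖S w‖ ^ 2) z r ≤
      M + M * (b / (4 * D ^ 2)) * r ^ 2 + ε * r ^ 2 := by
    have := mul_le_mul_of_nonneg_right hSd (sq_nonneg r)
    linarith
  have hu0 : 0 ≤ u := by positivity
  have h2 : b * r ^ 2 * (3 / (4 * D ^ 2)) ≤ u := by
    rw [hu, ← mul_div_assoc, div_le_div_iff₀ (by positivity) (by positivity)]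
    have h3 : 3 * (D + r) ^ 2 ≤ 4 * D ^ 2 := by nlinarith
    calc b * r ^ 2 * 3 * (D + r) ^ 2 = b * r ^ 2 * (3 * (D + r) ^ 2) := by ring
      _ ≤ b * r ^ 2 * (4 * D ^ 2) := mul_le_mul_of_nonneg_left h3 (by positivity)
  rw [hrz]
  calc Real.circleAverage (fun w => rho A w ^ b) z r
      ≤ (1 - u) * Real.circleAverage (fun w => ‖S w‖ ^ 2) z r := hcmp
    _ ≤ (1 - u) * (M + M * (b / (4 * D ^ 2)) * r ^ 2 + ε * r ^ 2) :=
        mul_le_mul_of_nonneg_left h1 (by linarith)
    _ = M + M * (b / (4 * D ^ 2)) * r ^ 2 - u * M + ε * r ^ 2 -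
        u * (M * (b / (4 * D ^ 2)) * r ^ 2 + ε * r ^ 2) := by ring
    _ ≤ M + M * (b / (4 * D ^ 2)) * r ^ 2 - u * M + ε * r ^ 2 := by
        have : 0 ≤ u * (M * (b / (4 * D ^ 2)) * r ^ 2 + ε * r ^ 2) := by positivity
        linarith
    _ ≤ M + M * (b / (4 * D ^ 2)) * r ^ 2 - (b * r ^ 2 * (3 / (4 * D ^ 2))) * M + ε * r ^ 2 := by
        have := mul_le_mul_of_nonneg_right h2 hM0
        linarith
    _ = M - b / 2 * M / D ^ 2 * r ^ 2 + ε * r ^ 2 := by
        field_simp
        ring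

end Pool.Agent.HQ
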