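import Pool.Agent.HQ.Defs

/-!
# HQ: mean values seen from a point
-/

set_option autoImplicit false

open Complex Metric Set Filter Topology MeasureTheory
open scoped ComplexConjugate Real

namespace Pool.Agent.HQ

private theorem diff_LevM {P : ℂ → ℂ} (hP : Differentiable ℂ P) {z : ℂ} (hz : ‖z‖ < 1) {w : ℂ}
    (hw : ‖w‖ ≤ 1) : DifferentiableAt ℂ (fun w => P (mob z w)) w :=
  (hP _).comp w (analyticAt_mob hz hw).differentiableAt

private theorem avg_LevM {P : ℂ → ℂ} (hP : Differentiable ℂ P) {z : ℂ} (hz : ‖z‖ < 1) {r : ℝ}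
    (hr : 0 ≤ r) (hr1 : r ≤ 1) :
    Real.circleAverage (fun w => (P (mob z w)).re) 0 r = (P z).re := by
  have hd : ∀ w ∈ closedBall (0 : ℂ) |r|, DifferentiableAt ℂ (fun w => P (mob z w)) w := by
    intro w hw
    rw [abs_of_nonneg hr, mem_closedBall_zero_iff] at hw
    exact diff_LevM hP hz (hw.trans hr1)
  have hc : ContinuousOn (fun w => P (mob z w)) (closedBall (0 : ℂ) |r|) := fun w hw =>
    (hd w hw).continuousAt.continuousWithinAt
  have h1 : DiffContOnCl ℂ (fun w => P (mob z w)) (ball (0 : ℂ) |r|) := by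
    refine ⟨fun w hw => (hd w (ball_subset_closedBall hw)).differentiableWithinAt, ?_⟩
    exact hc.mono closure_ball_subset_closedBall
  have h2 : CircleIntegrable (fun w => P (mob z w)) 0 r :=
    (hc.mono (by
      rw [abs_of_nonneg hr]
      exact sphere_subset_closedBall)).circleIntegrable hr
  have h3 := Complex.reCLM.circleAverage_comp_comm h2
  rw [h1.circleAverage, mob_zero_right] at h3
  exact h3

private theorem polar_LevM {g : ℂ → ℝ} {r : ℝ} (hr : 0 < r)
    (hg : ContinuousOn g (closedBall (0 : ℂ) r)) {c : ℝ}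
    (hc : ∀ x ∈ Ioo 0 r, Real.circleAverage g 0 x = c) :
    ∫ w in ball (0 : ℂ) r, g w = π * r ^ 2 * c := by
  have hm : MeasurableSet (Ioo 0 r ×ˢ Ioo (-π) π) := measurableSet_Ioo.prod measurableSet_Ioo
  rw [← integral_indicator measurableSet_ball, ← Complex.integral_comp_polarCoord_symm]
  have h1 : ∀ p ∈ polarCoord.target, p.1 • (ball (0 : ℂ) r).indicator g (Complex.polarCoord.symm p)
      = (Ioo 0 r ×ˢ Ioo (-π) π).indicator (fun p : ℝ × ℝ => p.1 * g (circleMap 0 p.1 p.2)) p := by
    intro p hp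
    have hp1 : 0 < p.1 := hp.1
    have he : Complex.polarCoord.symm p = circleMap 0 p.1 p.2 := by
      rw [Complex.polarCoord_symm_apply, circleMap, Complex.exp_mul_I, zero_add,
        Complex.ofReal_cos, Complex.ofReal_sin]
    have hn : ‖circleMap 0 p.1 p.2‖ = p.1 := by
      rw [norm_circleMap_zero, abs_of_pos hp1]
    rw [he, smul_eq_mul]
    by_cases h : p.1 < r
    · rw [indicator_of_mem, indicator_of_mem]
      · exact ⟨⟨hp1, h⟩, hp.2⟩
      · rw [mem_ball_zero_iff, hn]
        exact h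
    · rw [indicator_of_notMem, indicator_of_notMem, mul_zero]
      · exact fun h' => h h'.1.2
      · rw [mem_ball_zero_iff, hn]
        exact h
  have hmt : MeasurableSet polarCoord.target := polarCoord.open_target.measurableSet
  have hsub : polarCoord.target ∩ Ioo 0 r ×ˢ Ioo (-π) π = Ioo 0 r ×ˢ Ioo (-π) π := by
    refine inter_eq_right.2 fun p hp => ?_
    exact ⟨hp.1.1, hp.2⟩
  rw [setIntegral_congr_fun hmt h1, setIntegral_indicator hm, hsub]
  have hcont : ContinuousOn (fun p : ℝ × ℝ => p.1 * g (circleMap 0 p.1 p.2))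
      (Icc 0 r ×ˢ Icc (-π) π) := by
    have h2 : Continuous fun p : ℝ × ℝ => circleMap 0 p.1 p.2 := by
      unfold circleMap
      fun_prop
    refine continuous_fst.continuousOn.mul (hg.comp h2.continuousOn fun p hp => ?_)
    rw [mem_closedBall_zero_iff, norm_circleMap_zero, abs_of_nonneg hp.1.1]
    exact hp.1.2
  have hint : IntegrableOn (fun p : ℝ × ℝ => p.1 * g (circleMap 0 p.1 p.2))
      (Ioo 0 r ×ˢ Ioo (-π) π) (volume.prod volume) := by
    have h2 : IntegrableOn (fun p : ℝ × ℝ => p.1 * g (circleMap 0 p.1 p.2))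
        (Icc 0 r ×ˢ Icc (-π) π) volume :=
      hcont.integrableOn_compact (isCompact_Icc.prod isCompact_Icc)
    exact h2.mono_set (prod_mono Ioo_subset_Icc_self Ioo_subset_Icc_self)
  have h3 : ∫ p in Ioo 0 r ×ˢ Ioo (-π) π, (fun p : ℝ × ℝ => p.1 * g (circleMap 0 p.1 p.2)) p
      = ∫ x in Ioo 0 r, ∫ y in Ioo (-π) π, x * g (circleMap 0 x y) :=
    setIntegral_prod _ hint
  rw [h3]
  have h4 : ∀ x ∈ Ioo 0 r, ∫ y in Ioo (-π) π, x * g (circleMap 0 x y) = x * (2 * π * c) := by
    intro x hx
    have h5 := hc x hx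
    rw [Real.circleAverage_eq_integral_add (-π)] at h5
    have h6 : ∫ θ in (0 : ℝ)..2 * π, g (circleMap 0 x (θ + -π)) =
        ∫ θ in -π..π, g (circleMap 0 x θ) := by
      rw [intervalIntegral.integral_comp_add_right (fun θ => g (circleMap 0 x θ))]
      congr 1 <;> ring
    rw [h6, intervalIntegral.integral_of_le (by linarith [Real.pi_pos]),
      integral_Ioc_eq_integral_Ioo, smul_eq_mul] at h5
    rw [integral_const_mul, ← h5]
    have := Real.pi_pos
    field_simp
  rw [setIntegral_congr_fun measurableSet_Ioo h4, ← integral_Ioc_eq_integral_Ioo,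
    ← intervalIntegral.integral_of_le hr.le, intervalIntegral.integral_mul_const, integral_id]
  ring

/-- Mean value property seen from `z` (`P ∘ mob z` is analytic on the closed disc). -/
theorem re_comp_mob {P : ℂ → ℂ} (hP : Differentiable ℂ P) {z : ℂ} (hz : ‖z‖ < 1) :
    Real.circleAverage (fun w => (P (mob z w)).re) 0 1 = (P z).re := by
  exact avg_LevM hP hz zero_le_one le_rfl

/-- Area version (polar coordinates). -/
theorem area_mean {P : ℂ → ℂ} (hP : Differentiable ℂ P) {z : ℂ} (hz : ‖z‖ < 1) {r : ℝ}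
    (hr : 0 < r) (hr1 : r < 1) :
    ∫ w in ball (0 : ℂ) r, (P (mob z w)).re = π * r ^ 2 * (P z).re := by
  refine polar_LevM hr ?_ fun x hx => avg_LevM hP hz hx.1.le (hx.2.trans hr1).le
  intro w hw
  rw [mem_closedBall_zero_iff] at hw
  exact (Complex.reCLM.continuous.continuousAt.comp
    (diff_LevM hP hz (hw.trans hr1.le)).continuousAt).continuousWithinAt

end Pool.Agent.HQ
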