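import Pool.Agent.HQ.LevA
import Pool.Agent.HQ.LevM

/-!
# HQ: level approximants and tails
-/

set_option autoImplicit false

open Complex Metric Set Filter Topology MeasureTheory
open scoped ComplexConjugate Real

namespace Pool.Agent.HQ

private theorem continuous_cut_Lev : Continuous cut := by
  unfold cut
  fun_prop

private theorem cut_nonneg_Lev (x : ℝ) : 0 ≤ cut x := le_max_left _ _

private theorem cut_le_one_Lev (x : ℝ) : cut x ≤ 1 :=
  max_le zero_le_one (min_le_left _ _)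

private theorem cut_eq_zero_Lev {x : ℝ} (hx : x ≤ 1 / 2) : cut x = 0 := by
  unfold cut
  exact max_eq_left ((min_le_right _ _).trans (by linarith))

private theorem cut_eq_one_Lev {x : ℝ} (hx : 1 ≤ x) : cut x = 1 := by
  unfold cut
  rw [min_eq_left (by linarith), max_eq_right zero_le_one]

theorem exists_lev {A : ℂ → ℂ} (hA : ContinuousOn A (closedBall 0 1)) {L ε : ℝ} (hL : 0 < L)
    (hε : 0 < ε) : ∃ P : ℂ → ℂ, Lev A L ε P := by
  have h1 : ContinuousOn (fun z => cut (‖A z‖ / L)) (sphere (0 : ℂ) 1) :=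
    continuous_cut_Lev.comp_continuousOn
      ((hA.mono sphere_subset_closedBall).norm.div_const L)
  obtain ⟨P, hP, h⟩ := exists_entire h1 hε
  exact ⟨P, hP, h⟩

private theorem re_bound_Lev {P : ℂ → ℂ} (hP : Differentiable ℂ P) {z : ℂ} (hz : ‖z‖ < 1)
    {g : ℂ → ℝ} (hg : CircleIntegrable g 0 1)
    (h : ∀ w ∈ sphere (0 : ℂ) 1, (P (mob z w)).re ≤ g w) :
    (P z).re ≤ Real.circleAverage g 0 1 := by
  rw [← re_comp_mob hP hz]
  refine Real.circleAverage_mono ?_ hg ?_
  · have hc : ContinuousOn (fun w => (P (mob z w)).re) (sphere (0 : ℂ) 1) := by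
      intro w hw
      have hw1 : ‖w‖ ≤ 1 := (mem_sphere_zero_iff_norm.1 hw).le
      exact (Complex.reCLM.continuous.continuousAt.comp
        ((hP _).comp w (analyticAt_mob hz hw1).differentiableAt).continuousAt).continuousWithinAt
    exact hc.circleIntegrable zero_le_one
  · intro w hw
    rw [abs_one] at hw
    exact h w hw

private theorem bound_re_Lev {P : ℂ → ℂ} (hP : Differentiable ℂ P) {z : ℂ} (hz : ‖z‖ < 1)
    {g : ℂ → ℝ} (hg : CircleIntegrable g 0 1)
    (h : ∀ w ∈ sphere (0 : ℂ) 1, g w ≤ (P (mob z w)).re) :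
    Real.circleAverage g 0 1 ≤ (P z).re := by
  rw [← re_comp_mob hP hz]
  refine Real.circleAverage_mono hg ?_ ?_
  · have hc : ContinuousOn (fun w => (P (mob z w)).re) (sphere (0 : ℂ) 1) := by
      intro w hw
      have hw1 : ‖w‖ ≤ 1 := (mem_sphere_zero_iff_norm.1 hw).le
      exact (Complex.reCLM.continuous.continuousAt.comp
        ((hP _).comp w (analyticAt_mob hz hw1).differentiableAt).continuousAt).continuousWithinAt
    exact hc.circleIntegrable zero_le_one
  · intro w hw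
    rw [abs_one] at hw
    exact h w hw

private theorem mob_sphere_Lev {z w : ℂ} (hz : ‖z‖ < 1) (hw : w ∈ sphere (0 : ℂ) 1) :
    mob z w ∈ sphere (0 : ℂ) 1 :=
  mem_sphere_zero_iff_norm.2 (norm_mob_of_norm_eq hz (mem_sphere_zero_iff_norm.1 hw))

theorem Lev.le {A P : ℂ → ℂ} {L ε : ℝ} (h : Lev A L ε P) {z : ℂ}
    (hz : z ∈ closedBall (0 : ℂ) 1) : (P z).re ≤ 1 + ε := by
  have key : ∀ w ∈ sphere (0 : ℂ) 1, (P w).re ≤ 1 + ε := fun w hw => by
    have h1 := (abs_le.1 (h.near w hw)).2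
    have h2 := cut_le_one_Lev (‖A w‖ / L)
    linarith
  rw [mem_closedBall_zero_iff] at hz
  rcases hz.lt_or_eq with hz | hz
  · have := re_bound_Lev h.ent hz (g := fun _ => 1 + ε) (circleIntegrable_const _ _ _)
      fun w hw => key _ (mob_sphere_Lev hz hw)
    rwa [Real.circleAverage_const] at this
  · exact key z (mem_sphere_zero_iff_norm.2 hz)

theorem Lev.ge {A P : ℂ → ℂ} {L ε : ℝ} (h : Lev A L ε P) {z : ℂ}
    (hz : z ∈ closedBall (0 : ℂ) 1) : -ε ≤ (P z).re := by
  have key : ∀ w ∈ sphere (0 : ℂ) 1, -ε ≤ (P w).re := fun w hw => by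
    have h1 := (abs_le.1 (h.near w hw)).1
    have h2 := cut_nonneg_Lev (‖A w‖ / L)
    linarith
  rw [mem_closedBall_zero_iff] at hz
  rcases hz.lt_or_eq with hz | hz
  · have := bound_re_Lev h.ent hz (g := fun _ => -ε) (circleIntegrable_const _ _ _)
      fun w hw => key _ (mob_sphere_Lev hz hw)
    rwa [Real.circleAverage_const] at this
  · exact key z (mem_sphere_zero_iff_norm.2 hz)

/-- On the circle, where `|A| ≤ L / 2`, the approximant is at most `ε`. -/
theorem Lev.le_of_small {A P : ℂ → ℂ} {L ε : ℝ} (hL : 0 < L) (h : Lev A L ε P) {z : ℂ}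
    (hz : z ∈ sphere (0 : ℂ) 1) (hA : ‖A z‖ ≤ L / 2) : (P z).re ≤ ε := by
  have h1 := (abs_le.1 (h.near z hz)).2
  have h2 : cut (‖A z‖ / L) = 0 := cut_eq_zero_Lev (by
    rw [div_le_iff₀ hL]
    linarith)
  linarith

theorem tail_nonneg (A : ℂ → ℂ) (L : ℝ) : 0 ≤ tail A L := by
  rw [tail, Real.circleAverage_def, smul_eq_mul]
  refine mul_nonneg (inv_nonneg.2 Real.two_pi_pos.le)
    (intervalIntegral.integral_nonneg Real.two_pi_pos.le fun θ _ => ?_)
  exact indicator_nonneg (fun _ _ => zero_le_one) _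

private theorem ind_one_Lev {A : ℂ → ℂ} {L : ℝ} {x : ℂ} (hx : L ≤ ‖A x‖) :
    ({w : ℂ | L ≤ ‖A w‖}.indicator fun _ => (1 : ℝ)) x = 1 :=
  indicator_of_mem (s := {w : ℂ | L ≤ ‖A w‖}) hx _

private theorem ind_zero_Lev {A : ℂ → ℂ} {L : ℝ} {x : ℂ} (hx : ¬ L ≤ ‖A x‖) :
    ({w : ℂ | L ≤ ‖A w‖}.indicator fun _ => (1 : ℝ)) x = 0 :=
  indicator_of_notMem (s := {w : ℂ | L ≤ ‖A w‖}) hx _

private theorem integrable_ind_Lev {A : ℂ → ℂ} (hA : ContinuousOn A (sphere 0 1)) (L : ℝ) :
    CircleIntegrable ({w : ℂ | L ≤ ‖A w‖}.indicator fun _ => (1 : ℝ)) 0 1 := by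
  have hc : Continuous fun θ : ℝ => A (circleMap 0 1 θ) :=
    hA.comp_continuous (continuous_circleMap 0 1) fun θ => circleMap_mem_sphere 0 zero_le_one θ
  have hm : MeasurableSet {θ : ℝ | L ≤ ‖A (circleMap 0 1 θ)‖} :=
    (isClosed_le continuous_const hc.norm).measurableSet
  have he : (fun θ : ℝ => ({w : ℂ | L ≤ ‖A w‖}.indicator (fun _ => (1 : ℝ))) (circleMap 0 1 θ))
      = {θ : ℝ | L ≤ ‖A (circleMap 0 1 θ)‖}.indicator fun _ => (1 : ℝ) := rfl
  unfold CircleIntegrable
  rw [he, intervalIntegrable_iff]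
  refine Integrable.indicator ?_ hm
  exact (intervalIntegrable_iff.1 (intervalIntegrable_const (c := (1 : ℝ))))

private theorem tail_def_Lev (A : ℂ → ℂ) (L : ℝ) :
    tail A L = Real.circleAverage ({w : ℂ | L ≤ ‖A w‖}.indicator fun _ => (1 : ℝ)) 0 1 := rfl

theorem tail_le_one {A : ℂ → ℂ} (hA : ContinuousOn A (sphere 0 1)) (L : ℝ) : tail A L ≤ 1 := by
  refine Real.circleAverage_mono_on_of_le_circle (integrable_ind_Lev hA L) fun x _ => ?_
  exact indicator_le_self' (fun _ _ => zero_le_one) _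

theorem tail_anti {A : ℂ → ℂ} (hA : ContinuousOn A (sphere 0 1)) {L L' : ℝ} (h : L ≤ L') :
    tail A L' ≤ tail A L := by
  refine Real.circleAverage_mono (integrable_ind_Lev hA L') (integrable_ind_Lev hA L)
    fun x _ => ?_
  exact indicator_le_indicator_of_subset (fun w (hw : L' ≤ ‖A w‖) => h.trans hw)
    (fun _ => zero_le_one) _

/-- Chebyshev. -/
theorem tail_le_mean {A : ℂ → ℂ} (hA : ContinuousOn A (sphere 0 1)) {L b : ℝ} (hL : 0 < L)
    (hb : 0 < b) : tail A L ≤ Real.circleAverage (fun z => ‖A z‖ ^ b) 0 1 / L ^ b := by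
  have hLb : 0 < L ^ b := Real.rpow_pos_of_pos hL b
  have hc0 : ContinuousOn (fun z => ‖A z‖ ^ b) (sphere (0 : ℂ) 1) :=
    hA.norm.rpow_const fun _ _ => Or.inr hb.le
  have hc : ContinuousOn (fun z => (L ^ b)⁻¹ • ‖A z‖ ^ b) (sphere (0 : ℂ) 1) := by
    simp only [smul_eq_mul]
    exact continuousOn_const.mul hc0
  have h1 : tail A L ≤ Real.circleAverage (fun z => (L ^ b)⁻¹ • ‖A z‖ ^ b) 0 1 := by
    refine Real.circleAverage_mono (integrable_ind_Lev hA L) (hc.circleIntegrable zero_le_one)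
      fun x _ => ?_
    by_cases hx : L ≤ ‖A x‖
    · rw [ind_one_Lev hx, smul_eq_mul, inv_mul_eq_div, one_le_div hLb]
      exact Real.rpow_le_rpow hL.le hx hb.le
    · rw [ind_zero_Lev hx, smul_eq_mul]
      positivity
  rw [Real.circleAverage_fun_smul, smul_eq_mul, inv_mul_eq_div] at h1
  exact h1

theorem Lev.le_tail {A P : ℂ → ℂ} {L ε : ℝ} (hA : ContinuousOn A (closedBall 0 1)) (hL : 0 < L)
    (h : Lev A L ε P) {z : ℂ} (hz : ‖z‖ < 1) :
    (P z).re ≤ tail (fun w => A (mob z w)) (L / 2) + ε := by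
  have hAm : ContinuousOn (fun w => A (mob z w)) (sphere (0 : ℂ) 1) := by
    refine hA.comp (fun w hw => ?_) fun w hw =>
      mob_mem_closedBall hz (sphere_subset_closedBall hw)
    exact (analyticAt_mob hz (mem_sphere_zero_iff_norm.1 hw).le).continuousAt.continuousWithinAt
  have hi := integrable_ind_Lev hAm (L / 2)
  have h1 := re_bound_Lev h.ent hz
    (g := ({w : ℂ | L / 2 ≤ ‖A (mob z w)‖}.indicator fun _ => (1 : ℝ)) + fun _ => ε)
    (hi.add (circleIntegrable_const _ _ _)) fun w hw => by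
      have h2 := (abs_le.1 (h.near _ (mob_sphere_Lev hz hw))).2
      rw [Pi.add_apply]
      by_cases hx : L / 2 ≤ ‖A (mob z w)‖
      · rw [ind_one_Lev (A := fun w => A (mob z w)) hx]
        have h3 := cut_le_one_Lev (‖A (mob z w)‖ / L)
        linarith
      · rw [ind_zero_Lev (A := fun w => A (mob z w)) hx]
        have h3 : cut (‖A (mob z w)‖ / L) = 0 := cut_eq_zero_Lev (by
          rw [div_le_iff₀ hL]
          linarith [not_le.1 hx])
        linarith
  rwa [Real.circleAverage_add hi (circleIntegrable_const _ _ _), Real.circleAverage_const] at h1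

theorem Lev.tail_le {A P : ℂ → ℂ} {L ε : ℝ} (hA : ContinuousOn A (closedBall 0 1)) (hL : 0 < L)
    (h : Lev A L ε P) {z : ℂ} (hz : ‖z‖ < 1) :
    tail (fun w => A (mob z w)) L ≤ (P z).re + ε := by
  have hAm : ContinuousOn (fun w => A (mob z w)) (sphere (0 : ℂ) 1) := by
    refine hA.comp (fun w hw => ?_) fun w hw =>
      mob_mem_closedBall hz (sphere_subset_closedBall hw)
    exact (analyticAt_mob hz (mem_sphere_zero_iff_norm.1 hw).le).continuousAt.continuousWithinAt
  have hi := integrable_ind_Lev hAm L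
  have h1 := bound_re_Lev h.ent hz
    (g := ({w : ℂ | L ≤ ‖A (mob z w)‖}.indicator fun _ => (1 : ℝ)) + fun _ => -ε)
    (hi.add (circleIntegrable_const _ _ _)) fun w hw => by
      have h2 := (abs_le.1 (h.near _ (mob_sphere_Lev hz hw))).1
      rw [Pi.add_apply]
      by_cases hx : L ≤ ‖A (mob z w)‖
      · rw [ind_one_Lev (A := fun w => A (mob z w)) hx]
        have h3 : cut (‖A (mob z w)‖ / L) = 1 := cut_eq_one_Lev (by
          rwa [le_div_iff₀ hL, one_mul])
        linarith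
      · rw [ind_zero_Lev (A := fun w => A (mob z w)) hx]
        have h3 := cut_nonneg_Lev (‖A (mob z w)‖ / L)
        linarith
  rw [Real.circleAverage_add hi (circleIntegrable_const _ _ _), Real.circleAverage_const] at h1
  have h4 : tail (fun w => A (mob z w)) L
      = Real.circleAverage ({w : ℂ | L ≤ ‖A (mob z w)‖}.indicator fun _ => (1 : ℝ)) 0 1 := rfl
  rw [h4]
  linarith

end Pool.Agent.HQ
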