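import Pool.Agent.HQ.SMean

/-!
# HQ: the minimum principle
-/

set_option autoImplicit false

open Complex Metric Set Filter Topology MeasureTheory
open scoped ComplexConjugate Real

namespace Pool.Agent.HQ

/-- The circle average of `|w|^2` is `|c|^2 + r^2`. -/
private lemma minP_avg_normSq (c : ℂ) (r : ℝ) :
    Real.circleAverage (fun w : ℂ => ‖w‖ ^ 2) c r = ‖c‖ ^ 2 + r ^ 2 := by
  have h1 : Set.EqOn (fun w : ℂ => ‖w‖ ^ 2)
      (fun w => (‖c‖ ^ 2 + r ^ 2) + (2 * conj c * (w - c)).re) (sphere c |r|) := by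
    intro w hw
    have h2 : ‖w - c‖ ^ 2 = r ^ 2 := by
      rw [mem_sphere_iff_norm.mp hw, sq_abs]
    have h3 : ‖w‖ ^ 2 = ‖c‖ ^ 2 + ‖w - c‖ ^ 2 + (2 * conj c * (w - c)).re := by
      rw [← Complex.normSq_eq_norm_sq, ← Complex.normSq_eq_norm_sq, ← Complex.normSq_eq_norm_sq]
      simp only [Complex.normSq_apply, Complex.sub_re, Complex.sub_im, Complex.mul_re,
        Complex.mul_im, Complex.conj_re, Complex.conj_im, Complex.re_ofNat, Complex.im_ofNat]
      ring
    simp only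
    rw [h3, h2]
  rw [Real.circleAverage_congr_sphere h1]
  have hd : Differentiable ℂ (fun w : ℂ => 2 * conj c * (w - c)) := by fun_prop
  have hi1 : CircleIntegrable (fun w : ℂ => 2 * conj c * (w - c)) c r :=
    ContinuousOn.circleIntegrable' hd.continuous.continuousOn
  have hi2 : CircleIntegrable (fun w : ℂ => (2 * conj c * (w - c)).re) c r :=
    ContinuousOn.circleIntegrable' (Complex.continuous_re.comp hd.continuous).continuousOn
  have hi3 : CircleIntegrable (fun _ : ℂ => ‖c‖ ^ 2 + r ^ 2) c r :=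
    ContinuousOn.circleIntegrable' continuousOn_const
  rw [Real.circleAverage_fun_add hi3 hi2, Real.circleAverage_const]
  have h4 : Real.circleAverage (fun w : ℂ => (2 * conj c * (w - c)).re) c r = 0 := by
    have h5 := Complex.reCLM.circleAverage_comp_comm hi1
    have h6 : Real.circleAverage (fun w : ℂ => 2 * conj c * (w - c)) c r = 0 := by
      rw [DiffContOnCl.circleAverage hd.diffContOnCl]
      simp
    rw [h6, map_zero] at h5
    exact h5
  rw [h4, add_zero]

/-- Minimum principle for continuous functions with the super mean value property.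
Proof: suppose `W z₀ < 0`.  Let `V ⊆ closedBall 0 R`; for small `δ > 0` the function
`U z = W z + δ (R ^ 2 - |z| ^ 2)` has `U z₀ < 0`, is `≥ W` on `V`, is continuous, and its infimum
over `V` is negative and attained in `V` (a minimising sequence has a cluster point in the closure
of `V`; at a frontier point `U ≥ W ≥ -ε` nearby).  At a minimum point `z₁` the circle average of
`U` is `≥ U z₁`, but the average of `R ^ 2 - |z| ^ 2` over `|z - z₁| = r` is exactly
`R ^ 2 - |z₁| ^ 2 - r ^ 2`, so it is also `≤ U z₁ + (ε - δ) r ^ 2`; take `ε = δ / 2`. -/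
theorem min_principle {V : Set ℂ} (hV : IsOpen V) (hb : Bornology.IsBounded V) {W : ℂ → ℝ}
    (hc : ContinuousOn W V) (hS : ∀ z ∈ V, SMean W z)
    (hfr : ∀ ζ ∈ frontier V, ∀ ε : ℝ, 0 < ε → ∀ᶠ z in 𝓝[V] ζ, -ε ≤ W z) :
    ∀ z ∈ V, 0 ≤ W z := by
  intro z₀ hz₀
  by_contra hneg
  push Not at hneg
  obtain ⟨R, hR⟩ := hb.subset_closedBall 0
  have hVR : ∀ z ∈ V, ‖z‖ ^ 2 ≤ R ^ 2 := by
    intro z hz
    have h1 := hR hz
    rw [mem_closedBall_zero_iff] at h1
    exact pow_le_pow_left₀ (norm_nonneg _) h1 2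
  set δ : ℝ := -W z₀ / (2 * (R ^ 2 + 1)) with hδ
  have hδ0 : 0 < δ := by
    apply div_pos (by linarith) (by positivity)
  have hδR : δ * R ^ 2 < -W z₀ := by
    have h1 : δ * (2 * (R ^ 2 + 1)) = -W z₀ := by
      rw [hδ]
      field_simp
    nlinarith [sq_nonneg R]
  set U : ℂ → ℝ := fun z => W z + δ * (R ^ 2 - ‖z‖ ^ 2) with hU
  have hUW : ∀ z ∈ V, W z ≤ U z := by
    intro z hz
    have h1 : 0 ≤ δ * (R ^ 2 - ‖z‖ ^ 2) := mul_nonneg hδ0.le (by linarith [hVR z hz])
    simp only [hU]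
    linarith
  have hU0 : U z₀ < 0 := by
    simp only [hU]
    have : 0 ≤ δ * ‖z₀‖ ^ 2 := by positivity
    linarith [mul_sub δ (R ^ 2) (‖z₀‖ ^ 2)]
  have hUc : ContinuousOn U V := by
    apply hc.add
    fun_prop
  set K : Set ℂ := {z ∈ V | U z ≤ U z₀} with hK
  have hKV : K ⊆ V := fun z hz => hz.1
  have hKcl : IsClosed K := by
    apply isClosed_of_closure_subset
    intro ζ hζ
    have hne : (𝓝[K] ζ).NeBot := mem_closure_iff_nhdsWithin_neBot.mp hζ
    have hle : 𝓝[K] ζ ≤ 𝓝[V] ζ := nhdsWithin_mono _ hKV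
    have hKe : ∀ᶠ z in 𝓝[K] ζ, U z ≤ U z₀ := by
      filter_upwards [self_mem_nhdsWithin] with z hz
      exact hz.2
    by_cases hζV : ζ ∈ V
    · refine ⟨hζV, ?_⟩
      have h1 : Tendsto U (𝓝[K] ζ) (𝓝 (U ζ)) := (hUc ζ hζV).mono_left hle
      exact le_of_tendsto h1 hKe
    · exfalso
      have hζf : ζ ∈ frontier V := by
        rw [frontier, hV.interior_eq]
        exact ⟨closure_mono hKV hζ, hζV⟩
      have h1 := hle (hfr ζ hζf (-U z₀ / 2) (by linarith))
      have h2 : ∀ᶠ z in 𝓝[K] ζ, z ∈ K := self_mem_nhdsWithin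
      obtain ⟨z, hz1, hz2⟩ := (Filter.Eventually.and h1 h2).exists
      have h3 := hUW z hz2.1
      have h4 := hz2.2
      linarith
  have hKc : IsCompact K := isCompact_of_isClosed_isBounded hKcl (hb.subset hKV)
  obtain ⟨z₁, hz₁, hmin⟩ := hKc.exists_isMinOn ⟨z₀, hz₀, le_refl _⟩ (hUc.mono hKV)
  have hmin' : ∀ z ∈ V, U z₁ ≤ U z := by
    intro z hz
    by_cases h1 : U z ≤ U z₀
    · exact hmin ⟨hz, h1⟩
    · push Not at h1
      exact hz₁.2.trans h1.le
  have hs := hS z₁ hz₁.1 (δ / 2) (by linarith)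
  obtain ⟨ε₀, hε₀, hball⟩ := Metric.isOpen_iff.mp hV z₁ hz₁.1
  have hsmall : ∀ᶠ r in 𝓝[>] (0 : ℝ), r < ε₀ ∧ 0 < r := by
    have e1 : ∀ᶠ r in 𝓝[>] (0 : ℝ), r < ε₀ := mem_nhdsWithin_of_mem_nhds (Iio_mem_nhds hε₀)
    have e2 : ∀ᶠ r in 𝓝[>] (0 : ℝ), 0 < r := self_mem_nhdsWithin
    exact e1.and e2
  obtain ⟨r, ⟨hint, havg⟩, hr1, hr0⟩ := (hs.and hsmall).exists
  have hi4 : CircleIntegrable (fun w : ℂ => δ * (R ^ 2 - ‖w‖ ^ 2)) z₁ r :=
    ContinuousOn.circleIntegrable' (by fun_prop)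
  have hi5 : CircleIntegrable (fun w : ℂ => ‖w‖ ^ 2) z₁ r :=
    ContinuousOn.circleIntegrable' (by fun_prop)
  have hi6 : CircleIntegrable (fun _ : ℂ => R ^ 2) z₁ r :=
    ContinuousOn.circleIntegrable' continuousOn_const
  have h1 : Real.circleAverage (fun w : ℂ => δ * (R ^ 2 - ‖w‖ ^ 2)) z₁ r
      = δ * (R ^ 2 - (‖z₁‖ ^ 2 + r ^ 2)) := by
    have e1 := Real.circleAverage_fun_smul (a := δ) (f := fun w : ℂ => R ^ 2 - ‖w‖ ^ 2)
      (c := z₁) (R := r)
    simp only [smul_eq_mul] at e1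
    rw [e1, Real.circleAverage_fun_sub hi6 hi5, Real.circleAverage_const, minP_avg_normSq]
  have h2 : Real.circleAverage U z₁ r
      = Real.circleAverage W z₁ r + δ * (R ^ 2 - (‖z₁‖ ^ 2 + r ^ 2)) := by
    rw [← h1]
    exact Real.circleAverage_fun_add hint hi4
  have hUi : CircleIntegrable U z₁ r := hint.add hi4
  have h3 : U z₁ ≤ Real.circleAverage U z₁ r := by
    have e1 := Real.circleAverage_mono (c := z₁) (R := r) (f₁ := fun _ => U z₁) (f₂ := U)
      (ContinuousOn.circleIntegrable' continuousOn_const) hUi (by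
        intro x hx
        apply hmin'
        apply hball
        rw [mem_sphere, abs_of_pos hr0] at hx
        rw [mem_ball, hx]
        exact hr1)
    rwa [Real.circleAverage_const] at e1
  have h4 : U z₁ = W z₁ + δ * (R ^ 2 - ‖z₁‖ ^ 2) := rfl
  have h5 : 0 < δ * r ^ 2 := by positivity
  nlinarith

/-- Version for functions which are continuous up to the boundary. -/
theorem min_principle_cl {V : Set ℂ} (hV : IsOpen V) (hb : Bornology.IsBounded V) {W : ℂ → ℝ}
    (hc : ContinuousOn W (closure V)) (hS : ∀ z ∈ V, SMean W z)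
    (hfr : ∀ ζ ∈ frontier V, 0 ≤ W ζ) : ∀ z ∈ V, 0 ≤ W z := by
  refine min_principle hV hb (hc.mono subset_closure) hS fun ζ hζ ε hε => ?_
  have h1 : Tendsto W (𝓝[V] ζ) (𝓝 (W ζ)) :=
    ((hc ζ (frontier_subset_closure hζ)).mono_left (nhdsWithin_mono _ subset_closure))
  have h2 : -ε < W ζ := by linarith [hfr ζ hζ]
  exact (h1.eventually (lt_mem_nhds h2)).mono fun z hz => le_of_lt hz

end Pool.Agent.HQ
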