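import Pool.Agent.HQ.AprA
import Pool.Agent.HQ.MinP
import Pool.Agent.HQ.Lev

/-!
# HQ: a priori integrability
-/

set_option autoImplicit false

open Complex Metric Set Filter Topology MeasureTheory
open scoped ComplexConjugate Real

namespace Pool.Agent.HQ

private theorem apriori_tangent {p x x0 : ℝ} (hp0 : 0 ≤ p) (hp1 : p ≤ 1) (hx : 0 ≤ x)
    (hx0 : 0 < x0) : x ^ p ≤ x0 ^ p + p * x0 ^ (p - 1) * (x - x0) := by
  have h1 : (-1 : ℝ) ≤ x / x0 - 1 := by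
    have : 0 ≤ x / x0 := div_nonneg hx hx0.le
    linarith
  have h2 := rpow_one_add_le_one_add_mul_self h1 hp0 hp1
  have h3 : 1 + (x / x0 - 1) = x / x0 := by ring
  rw [h3, Real.div_rpow hx hx0.le, div_le_iff₀ (Real.rpow_pos_of_pos hx0 _)] at h2
  refine h2.trans (le_of_eq ?_)
  rw [Real.rpow_sub_one hx0.ne']
  field_simp

/-- The comparison function `P` for `rho`. -/
private noncomputable def aprioriP (A : ℂ → ℂ) (z : ℂ) (w : ℂ) : ℂ :=
  ((1 - ‖z‖ ^ 2 : ℝ) : ℂ) * ((1 - conj z / ((1 - ‖z‖ ^ 2 : ℝ) : ℂ) * (w - z)) ^ 2 * deriv A w)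

private theorem apriori_D {z : ℂ} (hz : ‖z‖ < 1) : 0 < 1 - ‖z‖ ^ 2 := by
  nlinarith [norm_nonneg z]

private theorem apriori_rho_le (A : ℂ → ℂ) {z : ℂ} (hz : ‖z‖ < 1) (w : ℂ) :
    rho A w ≤ ‖aprioriP A z w‖ := by
  have hD := apriori_D hz
  unfold rho aprioriP
  rw [norm_mul, norm_mul, norm_pow, norm_real, Real.norm_of_nonneg hD.le, ← mul_assoc]
  refine mul_le_mul_of_nonneg_right ?_ (norm_nonneg _)
  have h1 : ‖1 - conj z / ((1 - ‖z‖ ^ 2 : ℝ) : ℂ) * (w - z)‖ ^ 2 * (1 - ‖z‖ ^ 2) ^ 2 =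
      ‖((1 - ‖z‖ ^ 2 : ℝ) : ℂ) - conj z * (w - z)‖ ^ 2 := by
    rw [← Real.norm_of_nonneg hD.le, ← norm_real, ← mul_pow, ← norm_mul]
    congr 2
    rw [norm_real, Real.norm_of_nonneg hD.le]
    have hD' : ((1 - ‖z‖ ^ 2 : ℝ) : ℂ) ≠ 0 := by
      rw [ofReal_ne_zero]
      exact hD.ne'
    field_simp
  have h2 : ‖((1 - ‖z‖ ^ 2 : ℝ) : ℂ) - conj z * (w - z)‖ ^ 2 =
      (1 - ‖z‖ ^ 2) * (1 - ‖w‖ ^ 2) + ‖w - z‖ ^ 2 := by
    have e1 : ‖z‖ ^ 2 = z.re * z.re + z.im * z.im := by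
      rw [← normSq_eq_norm_sq, normSq_apply]
    have e2 : ‖w‖ ^ 2 = w.re * w.re + w.im * w.im := by
      rw [← normSq_eq_norm_sq, normSq_apply]
    rw [e1, e2, ← normSq_eq_norm_sq, ← normSq_eq_norm_sq]
    simp only [normSq_apply, sub_re, sub_im, mul_re, mul_im, conj_re, conj_im, ofReal_re,
      ofReal_im]
    ring
  have h3 : (1 - ‖w‖ ^ 2) * (1 - ‖z‖ ^ 2) ≤
      ‖1 - conj z / ((1 - ‖z‖ ^ 2 : ℝ) : ℂ) * (w - z)‖ ^ 2 * (1 - ‖z‖ ^ 2) ^ 2 := by
    rw [h1, h2]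
    nlinarith [sq_nonneg ‖w - z‖]
  generalize ‖1 - conj z / ((1 - ‖z‖ ^ 2 : ℝ) : ℂ) * (w - z)‖ ^ 2 = T at h3 ⊢
  generalize 1 - ‖z‖ ^ 2 = D at h3 hD ⊢
  have h4 : (1 - ‖w‖ ^ 2) * D ≤ (D * T) * D := by nlinarith
  exact le_of_mul_le_mul_right h4 hD

private theorem apriori_deriv {K : ℝ} (hK : Loc K) {A B : ℂ → ℂ} (h : HPair A B) {z : ℂ}
    (hz : ‖z‖ < 1) : AnalyticAt ℂ (aprioriP A z) z ∧
      ‖aprioriP A z z‖ = rho A z ∧ ‖deriv (aprioriP A z) z‖ ≤ 8 * K * ‖deriv A z‖ := by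
  have hD := apriori_D hz
  have hzc : z ∈ closedBall (0 : ℂ) 1 := mem_closedBall_zero_iff.2 hz.le
  have hA := (h.anA z hzc).deriv
  have hD' : ((1 - ‖z‖ ^ 2 : ℝ) : ℂ) ≠ 0 := by
    rw [ofReal_ne_zero]
    exact hD.ne'
  refine ⟨?_, ?_, ?_⟩
  · unfold aprioriP
    have h1 : AnalyticAt ℂ (fun w : ℂ =>
        (1 - conj z / ((1 - ‖z‖ ^ 2 : ℝ) : ℂ) * (w - z)) ^ 2) z := by fun_prop
    exact analyticAt_const.mul (h1.mul hA)
  · unfold aprioriP rho
    rw [sub_self, mul_zero, sub_zero, one_pow, one_mul, norm_mul, norm_real,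
      Real.norm_of_nonneg hD.le]
  · have h1 : HasDerivAt (fun w : ℂ => 1 - conj z / ((1 - ‖z‖ ^ 2 : ℝ) : ℂ) * (w - z))
        (-(conj z / ((1 - ‖z‖ ^ 2 : ℝ) : ℂ))) z := by
      have := (((hasDerivAt_id z).sub_const z).const_mul
        (conj z / ((1 - ‖z‖ ^ 2 : ℝ) : ℂ))).const_sub 1
      simpa using this
    have h2 := ((h1.pow 2).mul hA.differentiableAt.hasDerivAt).const_mul
      (((1 - ‖z‖ ^ 2 : ℝ) : ℂ))
    have h3 : deriv (aprioriP A z) z = deriv A z *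
        (((1 - ‖z‖ ^ 2 : ℝ) : ℂ) * (deriv (deriv A) z / deriv A z) - 2 * conj z) := by
      have h4 : HasDerivAt (aprioriP A z) _ z := h2
      rw [h4.deriv]
      have h5 := h.deriv_ne hzc
      simp only [Pi.pow_apply, sub_self, mul_zero, sub_zero, one_pow, mul_one, one_mul]
      field_simp
      ring
    rw [h3, norm_mul, mul_comm]
    exact mul_le_mul_of_nonneg_right (loc_second hK h hz) (norm_nonneg _)

private theorem apriori_cont {A B : ℂ → ℂ} (h : HPair A B) :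
    ContinuousOn A (closedBall 0 1) ∧ ContinuousOn (deriv A) (closedBall 0 1) ∧
      ContinuousOn (rho A) (closedBall 0 1) := by
  have h1 : ContinuousOn A (closedBall 0 1) := h.anA.continuousOn
  have h2 : ContinuousOn (deriv A) (closedBall 0 1) := h.anA.deriv.continuousOn
  refine ⟨h1, h2, ?_⟩
  unfold rho
  fun_prop

private theorem apriori_avg_sq {K : ℝ} (hK : Loc K) {A B : ℂ → ℂ} (h : HPair A B) {z : ℂ}
    (hz : ‖z‖ < 1) {ε : ℝ} (hε : 0 < ε) : ∀ᶠ r in 𝓝[>] (0 : ℝ),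
      Real.circleAverage (fun w => ‖A w - A 0‖ ^ 2 + rho A w ^ 2) z r ≤
        ‖A z - A 0‖ ^ 2 + rho A z ^ 2 + (1 + 64 * K ^ 2) * ‖deriv A z‖ ^ 2 * r ^ 2 +
          ε * r ^ 2 := by
  have hzc : z ∈ closedBall (0 : ℂ) 1 := mem_closedBall_zero_iff.2 hz.le
  have hf : AnalyticAt ℂ (fun w => A w - A 0) z := (h.anA z hzc).sub analyticAt_const
  obtain ⟨hP, hP0, hP1⟩ := apriori_deriv hK h hz
  obtain ⟨c1, -, c2⟩ := apriori_cont h
  have hsub : ∀ᶠ r in 𝓝[>] (0 : ℝ), 0 < r ∧ closedBall z r ⊆ closedBall (0 : ℂ) 1 := by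
    filter_upwards [Ioo_mem_nhdsGT (show (0 : ℝ) < 1 - ‖z‖ by linarith)] with r hr
    refine ⟨hr.1, fun w hw => ?_⟩
    rw [mem_closedBall, dist_eq_norm] at hw
    rw [mem_closedBall_zero_iff]
    have h1 : ‖w‖ ≤ ‖w - z‖ + ‖z‖ := by
      simpa using norm_add_le (w - z) z
    linarith [hr.2]
  filter_upwards [circleAverage_normSq hf (half_pos hε), circleAverage_normSq hP (half_pos hε),
    hsub] with r a1 a2 a3
  have a4 : sphere z r ⊆ closedBall (0 : ℂ) 1 := sphere_subset_closedBall.trans a3.2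
  have i1 : CircleIntegrable (fun w => rho A w ^ 2) z r :=
    ((c2.mono a4).pow 2).circleIntegrable a3.1.le
  have b0 : Real.circleAverage (fun w => rho A w ^ 2) z r ≤
      Real.circleAverage (fun w => ‖aprioriP A z w‖ ^ 2) z r := by
    refine Real.circleAverage_mono i1 a2.1 fun w hw => ?_
    rw [abs_of_pos a3.1] at hw
    have h0 : 0 ≤ rho A w := by
      have := mem_closedBall_zero_iff.1 (a4 hw)
      unfold rho
      have h1 : 0 ≤ 1 - ‖w‖ ^ 2 := by nlinarith [norm_nonneg w]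
      positivity
    exact pow_le_pow_left₀ h0 (apriori_rho_le A hz w) 2
  have b1 := (abs_le.1 a1.2).2
  have b2 := (abs_le.1 a2.2).2
  rw [hP0] at b2
  have b3 : deriv (fun w => A w - A 0) z = deriv A z := by
    simp
  rw [b3] at b1
  have b4 : ‖deriv (aprioriP A z) z‖ ^ 2 ≤ (8 * K * ‖deriv A z‖) ^ 2 :=
    pow_le_pow_left₀ (norm_nonneg _) hP1 2
  rw [Real.circleAverage_fun_add a1.1 i1]
  nlinarith [mul_le_mul_of_nonneg_right b4 (sq_nonneg r)]

private theorem apriori_sub {z : ℂ} (hz : ‖z‖ < 1) :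
    ∀ᶠ r in 𝓝[>] (0 : ℝ), 0 < r ∧ sphere z r ⊆ closedBall (0 : ℂ) 1 := by
  filter_upwards [Ioo_mem_nhdsGT (show (0 : ℝ) < 1 - ‖z‖ by linarith)] with r hr
  refine ⟨hr.1, fun w hw => ?_⟩
  have hw := sphere_subset_closedBall hw
  rw [mem_closedBall, dist_eq_norm] at hw
  rw [mem_closedBall_zero_iff]
  have h1 : ‖w‖ ≤ ‖w - z‖ + ‖z‖ := by
    simpa using norm_add_le (w - z) z
  linarith [hr.2]

private theorem apriori_contW {A B : ℂ → ℂ} (h : HPair A B) {b : ℝ} (hb : 0 < b) :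
    ContinuousOn (fun w => ‖A w - A 0‖ ^ 2 + rho A w ^ 2) (closedBall 0 1) ∧
    ContinuousOn (fun w => (‖A w - A 0‖ ^ 2 + rho A w ^ 2) ^ (b / 2)) (closedBall 0 1) ∧
    ContinuousOn (fun w => rho A w ^ b) (closedBall 0 1) := by
  obtain ⟨c1, -, c2⟩ := apriori_cont h
  have c3 : ContinuousOn (fun w => ‖A w - A 0‖ ^ 2 + rho A w ^ 2) (closedBall 0 1) := by
    fun_prop
  exact ⟨c3, c3.rpow_const fun w _ => Or.inr (by positivity),
    c2.rpow_const fun w _ => Or.inr hb.le⟩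

private theorem apriori_key {A B : ℂ → ℂ} (h : HPair A B) {b : ℝ} (hb : b ≤ 1) {z : ℂ}
    (hz : ‖z‖ < 1) : (‖A z - A 0‖ ^ 2 + rho A z ^ 2) ^ (b / 2 - 1) * ‖deriv A z‖ ^ 2 ≤
      rho A z ^ b / (1 - ‖z‖ ^ 2) ^ 2 := by
  have hD := apriori_D hz
  have hzc : z ∈ closedBall (0 : ℂ) 1 := mem_closedBall_zero_iff.2 hz.le
  have hρ : 0 < rho A z := mul_pos hD (norm_pos_iff.2 (h.deriv_ne hzc))
  have h1 : (‖A z - A 0‖ ^ 2 + rho A z ^ 2) ^ (b / 2 - 1) ≤ (rho A z ^ 2) ^ (b / 2 - 1) := by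
    refine Real.rpow_le_rpow_of_nonpos (by positivity) ?_ (by linarith)
    nlinarith [sq_nonneg ‖A z - A 0‖]
  have h2 : (rho A z ^ 2) ^ (b / 2 - 1) = rho A z ^ b / rho A z ^ 2 := by
    rw [← Real.rpow_natCast, ← Real.rpow_mul hρ.le, ← Real.rpow_sub hρ]
    congr 1
    push_cast
    ring
  have h3 : ‖deriv A z‖ ^ 2 = rho A z ^ 2 / (1 - ‖z‖ ^ 2) ^ 2 := by
    unfold rho
    field_simp
  rw [h2] at h1
  rw [h3]
  calc (‖A z - A 0‖ ^ 2 + rho A z ^ 2) ^ (b / 2 - 1) * (rho A z ^ 2 / (1 - ‖z‖ ^ 2) ^ 2)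
      ≤ (rho A z ^ b / rho A z ^ 2) * (rho A z ^ 2 / (1 - ‖z‖ ^ 2) ^ 2) :=
        mul_le_mul_of_nonneg_right h1 (by positivity)
    _ = rho A z ^ b / (1 - ‖z‖ ^ 2) ^ 2 := by
        field_simp

/-- `(|A - A 0|² + rho²)^(b/2) + C rho^b` has the super mean value property.
Proof: with `X = |A - A 0|² + rho²`, the tangent line inequality for the concave function
`x ↦ x^(b/2)` gives `avg X^(b/2) ≤ X z ^ (b/2) + (b/2) X z ^ (b/2-1) (avg X - X z)`, and
`avg X - X z ≤ r² (|A' z|² + |P' 0|²) + o(r²) ≤ r² (1 + 64 K²) rho(z)² / D² + o(r²)`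
(`rho (z+h) ≤ |P h|`), and `X z ^ (b/2-1) rho² ≤ rho ^ b`. -/
theorem smean_apriori {K : ℝ} (hK : Loc K) {A B : ℂ → ℂ} (h : HPair A B) {b : ℝ} (hb : 0 < b)
    (hb1 : b ≤ 1 / (64 * K ^ 2)) {z : ℂ} (hz : ‖z‖ < 1) :
    SMean (fun w => (‖A w - A 0‖ ^ 2 + rho A w ^ 2) ^ (b / 2) + (1 + 64 * K ^ 2) * rho A w ^ b)
      z := by
  have hK1 := hK.1
  have hb2 : b ≤ 1 := by
    refine hb1.trans ?_
    rw [div_le_one (by positivity)]
    nlinarith
  have hD := apriori_D hz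
  have hzc : z ∈ closedBall (0 : ℂ) 1 := mem_closedBall_zero_iff.2 hz.le
  have hρ : 0 < rho A z := mul_pos hD (norm_pos_iff.2 (h.deriv_ne hzc))
  obtain ⟨c1, c2, c3⟩ := apriori_contW h hb
  have hkey := apriori_key h hb2 hz
  have hXz : 0 < ‖A z - A 0‖ ^ 2 + rho A z ^ 2 := by positivity
  have hM0 : 0 < b / 2 * (‖A z - A 0‖ ^ 2 + rho A z ^ 2) ^ (b / 2 - 1) := by positivity
  have hC0 : 0 < 1 + 64 * K ^ 2 := by positivity
  intro ε hε
  have e1 : 0 < ε / (2 * (b / 2 * (‖A z - A 0‖ ^ 2 + rho A z ^ 2) ^ (b / 2 - 1))) := by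
    positivity
  have e2 : 0 < ε / (2 * (1 + 64 * K ^ 2)) := by positivity
  filter_upwards [apriori_avg_sq hK h hz e1, smean_rho_pow hK h hb hb1 hz e2, apriori_sub hz]
    with r a1 a2 a3
  have i1 : CircleIntegrable (fun w => (‖A w - A 0‖ ^ 2 + rho A w ^ 2) ^ (b / 2)) z r :=
    (c2.mono a3.2).circleIntegrable a3.1.le
  have i2 : CircleIntegrable (fun w => rho A w ^ b) z r :=
    (c3.mono a3.2).circleIntegrable a3.1.le
  have i3 : CircleIntegrable (fun w => (1 + 64 * K ^ 2) * rho A w ^ b) z r :=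
    i2.const_smul (a := 1 + 64 * K ^ 2)
  have i4 : CircleIntegrable (fun w => ‖A w - A 0‖ ^ 2 + rho A w ^ 2) z r :=
    (c1.mono a3.2).circleIntegrable a3.1.le
  refine ⟨i1.add i3, ?_⟩
  rw [Real.circleAverage_fun_add i1 i3]
  have s1 : Real.circleAverage (fun w => (1 + 64 * K ^ 2) * rho A w ^ b) z r =
      (1 + 64 * K ^ 2) * Real.circleAverage (fun w => rho A w ^ b) z r :=
    Real.circleAverage_fun_smul (a := 1 + 64 * K ^ 2) (f := fun w => rho A w ^ b)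
  rw [s1]
  generalize hX : ‖A z - A 0‖ ^ 2 + rho A z ^ 2 = x at a1 hXz hM0 hkey e1 ⊢
  have t1 : Real.circleAverage (fun w => (‖A w - A 0‖ ^ 2 + rho A w ^ 2) ^ (b / 2)) z r ≤
      x ^ (b / 2) + b / 2 * x ^ (b / 2 - 1) *
        (Real.circleAverage (fun w => ‖A w - A 0‖ ^ 2 + rho A w ^ 2) z r - x) := by
    have t2 : Real.circleAverage (fun w => (x ^ (b / 2) - b / 2 * x ^ (b / 2 - 1) * x) +
        (b / 2 * x ^ (b / 2 - 1)) * (‖A w - A 0‖ ^ 2 + rho A w ^ 2)) z r =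
        x ^ (b / 2) + b / 2 * x ^ (b / 2 - 1) *
        (Real.circleAverage (fun w => ‖A w - A 0‖ ^ 2 + rho A w ^ 2) z r - x) := by
      have i5 : CircleIntegrable (fun w => (b / 2 * x ^ (b / 2 - 1)) *
          (‖A w - A 0‖ ^ 2 + rho A w ^ 2)) z r := i4.const_smul (a := b / 2 * x ^ (b / 2 - 1))
      have s2 : Real.circleAverage (fun w => (b / 2 * x ^ (b / 2 - 1)) *
          (‖A w - A 0‖ ^ 2 + rho A w ^ 2)) z r = (b / 2 * x ^ (b / 2 - 1)) *
          Real.circleAverage (fun w => ‖A w - A 0‖ ^ 2 + rho A w ^ 2) z r :=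
        Real.circleAverage_fun_smul (a := b / 2 * x ^ (b / 2 - 1))
          (f := fun w => ‖A w - A 0‖ ^ 2 + rho A w ^ 2)
      rw [Real.circleAverage_fun_add (circleIntegrable_const _ _ _) i5,
        Real.circleAverage_const, s2]
      ring
    rw [← t2]
    refine Real.circleAverage_mono i1 ?_ fun w _ => ?_
    · exact (circleIntegrable_const _ _ _).add (i4.const_smul (a := b / 2 * x ^ (b / 2 - 1)))
    · have := apriori_tangent (p := b / 2) (x := ‖A w - A 0‖ ^ 2 + rho A w ^ 2) (x0 := x)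
        (by positivity) (by linarith) (by positivity) hXz
      refine this.trans (le_of_eq ?_)
      ring
  generalize hM : b / 2 * x ^ (b / 2 - 1) = M at t1 hM0 e1 a1
  generalize Real.circleAverage (fun w => ‖A w - A 0‖ ^ 2 + rho A w ^ 2) z r = av at a1 t1
  have t3 : M * (av - x) ≤ M * ((1 + 64 * K ^ 2) * ‖deriv A z‖ ^ 2 * r ^ 2 +
      ε / (2 * M) * r ^ 2) := mul_le_mul_of_nonneg_left (by linarith) hM0.le
  have t4 : M * (ε / (2 * M) * r ^ 2) = ε / 2 * r ^ 2 := by field_simp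
  have t5 : M * ‖deriv A z‖ ^ 2 ≤ b / 2 * (rho A z ^ b / (1 - ‖z‖ ^ 2) ^ 2) := by
    rw [← hM, mul_assoc]
    exact mul_le_mul_of_nonneg_left hkey (by positivity)
  have t6 : (1 + 64 * K ^ 2) * Real.circleAverage (fun w => rho A w ^ b) z r ≤
      (1 + 64 * K ^ 2) * (rho A z ^ b - (b / 2) * rho A z ^ b / (1 - ‖z‖ ^ 2) ^ 2 * r ^ 2 +
        ε / (2 * (1 + 64 * K ^ 2)) * r ^ 2) := mul_le_mul_of_nonneg_left a2 hC0.le
  have t7 : (1 + 64 * K ^ 2) * (ε / (2 * (1 + 64 * K ^ 2)) * r ^ 2) = ε / 2 * r ^ 2 := by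
    field_simp
  have t8 : (1 + 64 * K ^ 2) * r ^ 2 * (M * ‖deriv A z‖ ^ 2) ≤
      (1 + 64 * K ^ 2) * r ^ 2 * (b / 2 * (rho A z ^ b / (1 - ‖z‖ ^ 2) ^ 2)) :=
    mul_le_mul_of_nonneg_left t5 (by positivity)
  have t9 : (1 + 64 * K ^ 2) * ((b / 2) * rho A z ^ b / (1 - ‖z‖ ^ 2) ^ 2 * r ^ 2) =
      (1 + 64 * K ^ 2) * r ^ 2 * (b / 2 * (rho A z ^ b / (1 - ‖z‖ ^ 2) ^ 2)) := by
    ring
  nlinarith

/-- A priori integrability with a small exponent.
Proof: let `W` be the function of `smean_apriori`; it is continuous on the closed disc, equals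
`|A - A 0|^b` on the circle, and is `(2 + 64 K²) |A' 0|^b` at `0`.  Comparison with an entire
function whose real part is within `ε` of `W` on the circle (`exists_entire`, `min_principle` on
the unit disc) gives `avg |A - A 0|^b ≤ (Re P) 0 + ε ≤ W 0 + 3 ε`. -/
theorem apriori {K : ℝ} (hK : Loc K) {A B : ℂ → ℂ} (h : HPair A B) {b : ℝ} (hb : 0 < b)
    (hb1 : b ≤ 1 / (64 * K ^ 2)) :
    Real.circleAverage (fun z => ‖A z - A 0‖ ^ b) 0 1 ≤ (2 + 64 * K ^ 2) * ‖deriv A 0‖ ^ b := by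
  obtain ⟨-, c2, c3⟩ := apriori_contW h hb
  set W : ℂ → ℝ := fun w => (‖A w - A 0‖ ^ 2 + rho A w ^ 2) ^ (b / 2) +
    (1 + 64 * K ^ 2) * rho A w ^ b with hW
  have hWc : ContinuousOn W (closedBall 0 1) := c2.add (continuousOn_const.mul c3)
  have hsc : sphere (0 : ℂ) 1 ⊆ closedBall 0 1 := sphere_subset_closedBall
  have hpow : ∀ x : ℝ, 0 ≤ x → (x ^ 2) ^ (b / 2) = x ^ b := by
    intro x hx
    rw [← Real.rpow_natCast, ← Real.rpow_mul hx]
    congr 1
    push_cast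
    ring
  have hWs : ∀ z ∈ sphere (0 : ℂ) 1, W z = ‖A z - A 0‖ ^ b := by
    intro z hz
    have h1 : rho A z = 0 := by
      unfold rho
      rw [mem_sphere_zero_iff_norm.1 hz]
      ring
    simp only [hW]
    rw [h1, Real.zero_rpow hb.ne', ← hpow _ (norm_nonneg _)]
    ring_nf
  have hW0 : W 0 = (2 + 64 * K ^ 2) * ‖deriv A 0‖ ^ b := by
    have h1 : rho A 0 = ‖deriv A 0‖ := by
      unfold rho
      rw [norm_zero]
      ring
    simp only [hW]
    rw [h1, sub_self, norm_zero, ← hpow _ (norm_nonneg (deriv A 0))]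
    ring_nf
  refine le_of_forall_pos_le_add fun ε hε => ?_
  rw [← hW0]
  obtain ⟨P, hP, hPs⟩ := exists_entire (hWc.mono hsc) (half_pos hε)
  have hm : ∀ z ∈ ball (0 : ℂ) 1, 0 ≤ W z + (-(P z)).re + ε / 2 := by
    refine min_principle_cl isOpen_ball isBounded_ball ?_ ?_ ?_
    · rw [closure_ball (0 : ℂ) one_ne_zero]
      have h1 : ContinuousOn (fun z => (-(P z)).re) (closedBall (0 : ℂ) 1) :=
        (Complex.continuous_re.comp hP.continuous.neg).continuousOn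
      exact (hWc.add h1).add continuousOn_const
    · intro z hz
      have h1 : AnalyticAt ℂ (fun w => -(P w)) z :=
        (hP.differentiableOn.analyticAt univ_mem).neg
      exact ((smean_apriori hK h hb hb1 (mem_ball_zero_iff.1 hz)).add (smean_re h1)).add
        (smean_const _ _)
    · intro z hz
      rw [frontier_ball (0 : ℂ) one_ne_zero] at hz
      have h1 := (abs_le.1 (hPs z hz)).2
      rw [neg_re]
      linarith
  have h0 := hm 0 (mem_ball_self one_pos)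
  rw [neg_re] at h0
  have havg : Real.circleAverage (fun z => (P z).re) 0 1 = (P 0).re := by
    have h1 : CircleIntegrable P 0 1 := hP.continuous.continuousOn.circleIntegrable zero_le_one
    have h2 := Complex.reCLM.circleAverage_comp_comm h1
    have h3 : Real.circleAverage P 0 1 = P 0 := hP.diffContOnCl.circleAverage
    rw [h3] at h2
    exact h2
  have iW : CircleIntegrable (fun z => ‖A z - A 0‖ ^ b) 0 1 := by
    refine ContinuousOn.circleIntegrable zero_le_one ?_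
    exact (hWc.mono hsc).congr fun z hz => (hWs z hz).symm
  have iP : CircleIntegrable (fun z => (P z).re) 0 1 :=
    (Complex.continuous_re.comp hP.continuous).continuousOn.circleIntegrable zero_le_one
  have hle : Real.circleAverage (fun z => ‖A z - A 0‖ ^ b) 0 1 ≤
      Real.circleAverage (fun z => (P z).re + ε / 2) 0 1 := by
    refine Real.circleAverage_mono iW (iP.add (circleIntegrable_const _ _ _)) fun z hz => ?_
    rw [abs_one] at hz
    rw [← hWs z hz]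
    have h1 := (abs_le.1 (hPs z hz)).1
    linarith
  rw [Real.circleAverage_fun_add iP (circleIntegrable_const _ _ _), havg,
    Real.circleAverage_const] at hle
  linarith

end Pool.Agent.HQ
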