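import Pool.Agent.HQ.LoopA

/-! HQ growth half, file LoopDisc. -/

set_option autoImplicit false

open Complex Metric Set Filter Topology MeasureTheory
open scoped ComplexConjugate Real

namespace Pool.Agent.HQ

private theorem ld_diffAt {A : ℂ → ℂ} {d : ℝ} {Φ : ℂ → ℂ} (hΦ : ∀ c < d, ExpBranch A c d Φ)
    {ω : ℂ} (hω : ω.re < d) : DifferentiableAt ℂ Φ ω := by
  have ho : IsOpen {z : ℂ | ω.re - 1 < z.re ∧ z.re < d} :=
    (isOpen_lt continuous_const continuous_re).inter (isOpen_lt continuous_re continuous_const)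
  exact (hΦ (ω.re - 1) (by linarith)).diff.differentiableAt
    (ho.mem_nhds ⟨by linarith, hω⟩)

private theorem ld_mem {A : ℂ → ℂ} {d : ℝ} {Φ : ℂ → ℂ} (hΦ : ∀ c < d, ExpBranch A c d Φ)
    {ω : ℂ} (hω : ω.re < d) : Φ ω ∈ ball (0 : ℂ) 1 :=
  (hΦ (ω.re - 1) (by linarith)).mem ω (by linarith) hω

private theorem ld_eq {A : ℂ → ℂ} {d : ℝ} {Φ : ℂ → ℂ} (hΦ : ∀ c < d, ExpBranch A c d Φ)
    {ω : ℂ} (hω : ω.re < d) : A (Φ ω) = exp ω :=
  (hΦ (ω.re - 1) (by linarith)).eq ω (by linarith) hω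

private theorem ld_per {A : ℂ → ℂ} {d : ℝ} {Φ : ℂ → ℂ} (hΦ : ∀ c < d, ExpBranch A c d Φ)
    {ω : ℂ} (hω : ω.re < d) : Φ (ω + 2 * π * I) = Φ ω :=
  (hΦ (ω.re - 1) (by linarith)).per ω (by linarith) hω

private theorem ld_perN {A : ℂ → ℂ} {d : ℝ} {Φ : ℂ → ℂ} (hΦ : ∀ c < d, ExpBranch A c d Φ)
    (n : ℕ) {ω : ℂ} (hω : ω.re < d) : Φ (ω + n * (2 * π * I)) = Φ ω := by
  induction n with
  | zero => simp
  | succ n ih =>
    have h1 : ω + ((n + 1 : ℕ) : ℂ) * (2 * π * I) = (ω + n * (2 * π * I)) + 2 * π * I := by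
      push_cast
      ring
    have h2 : (ω + n * (2 * π * I)).re < d := by
      simpa using hω
    rw [h1, ld_per hΦ h2, ih]

private theorem ld_perZ {A : ℂ → ℂ} {d : ℝ} {Φ : ℂ → ℂ} (hΦ : ∀ c < d, ExpBranch A c d Φ)
    {ω ω' : ℂ} (hω : ω.re < d) (he : exp ω' = exp ω) : Φ ω' = Φ ω := by
  obtain ⟨n, hn⟩ := exp_eq_exp_iff_exists_int.1 he
  rcases Int.eq_nat_or_neg n with ⟨m, rfl | rfl⟩
  · rw [hn]
    have := ld_perN hΦ m hω
    simpa using this
  · have h1 : ω = ω' + m * (2 * π * I) := by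
      rw [hn]
      push_cast
      ring
    have h2 : ω'.re < d := by
      have h3 : (ω' + m * (2 * π * I)).re = ω'.re := by simp
      rw [h1, h3] at hω
      exact hω
    rw [h1, ld_perN hΦ m h2]

private theorem ld_re {d : ℝ} {w : ℂ} (h0 : w ≠ 0) (hw : w ∈ ball (0 : ℂ) (Real.exp d)) :
    (log w).re < d := by
  rw [mem_ball_zero_iff] at hw
  rw [log_re]
  exact (Real.log_lt_iff_lt_exp (norm_pos_iff.2 h0)).2 hw

private theorem ld_hol {A : ℂ → ℂ} {d : ℝ} {Φ : ℂ → ℂ} (hΦ : ∀ c < d, ExpBranch A c d Φ)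
    {w : ℂ} (h0 : w ≠ 0) (hw : w ∈ ball (0 : ℂ) (Real.exp d)) :
    DifferentiableAt ℂ (fun w => Φ (log w)) w := by
  by_cases hs : w ∈ slitPlane
  · exact (ld_diffAt hΦ (ld_re h0 hw)).comp w (differentiableAt_id.clog hs)
  · have hs' : -w ∈ slitPlane := by
      rw [mem_slitPlane_iff] at hs ⊢
      push Not at hs
      left
      rw [neg_re]
      have h1 : w.re ≠ 0 := fun h => h0 (Complex.ext h hs.2)
      have h2 : w.re < 0 := lt_of_le_of_ne hs.1 h1
      linarith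
    have hexp : ∀ z : ℂ, z ≠ 0 → exp (log (-z) + π * I) = z := fun z hz => by
      rw [exp_add, exp_log (neg_ne_zero.2 hz), exp_pi_mul_I]
      ring
    have hre : (log (-w) + π * I).re < d := by
      have h1 := ld_re (neg_ne_zero.2 h0) (w := -w) (d := d) (by
        rw [mem_ball_zero_iff, norm_neg]
        exact mem_ball_zero_iff.1 hw)
      simpa using h1
    have h3 : DifferentiableAt ℂ (fun w => Φ (log (-w) + π * I)) w := by
      refine (ld_diffAt hΦ hre).comp w ?_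
      exact (differentiableAt_id.neg.clog hs').add_const _
    refine h3.congr_of_eventuallyEq ?_
    have hop : IsOpen ({0}ᶜ ∩ ball (0 : ℂ) (Real.exp d)) :=
      isOpen_compl_singleton.inter isOpen_ball
    filter_upwards [hop.mem_nhds ⟨h0, hw⟩] with z hz
    refine (ld_perZ hΦ (ld_re hz.1 hz.2) ?_).symm
    rw [hexp z hz.1, exp_log hz.1]

/-- PASSAGE TO THE DISC.
Proof. `ψ w := Φ (log w)` for `w ≠ 0`, `|w| < exp d`; holomorphic: away from the negative axis as a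
composition, near the negative axis use `ψ w = Φ (log (-w) + π I)` (periodicity).  `ψ` is bounded by
`1` near `0`, so it extends holomorphically (`Complex.differentiableOn_update_limUnder_of_bddAbove`);
call the extension `ψ` again.  `|ψ| < 1` also at `0`: by the maximum principle (if `|ψ 0| = 1` then
`ψ` is constant, impossible as `A (ψ w) = w`).  By continuity `A (ψ 0) = 0`. -/
theorem loop_disc {A : ℂ → ℂ} (hA : DifferentiableOn ℂ A (ball 0 1)) {d : ℝ} {Φ : ℂ → ℂ}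
    (hΦ : ∀ c < d, ExpBranch A c d Φ) :
    ∃ ψ : ℂ → ℂ, DifferentiableOn ℂ ψ (ball 0 (Real.exp d)) ∧
      (∀ w ∈ ball (0 : ℂ) (Real.exp d), ψ w ∈ ball (0 : ℂ) 1 ∧ A (ψ w) = w) ∧
      ∀ ω : ℂ, ω.re < d → ψ (exp ω) = Φ ω := by
  have hep : 0 < Real.exp d := Real.exp_pos d
  set f : ℂ → ℂ := fun w => Φ (log w) with hf
  set ψ : ℂ → ℂ := Function.update f 0 (limUnder (𝓝[≠] 0) f) with hψ
  have hne : ∀ w : ℂ, w ≠ 0 → ψ w = Φ (log w) := fun w hw => by
    rw [hψ, Function.update_of_ne hw]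
  have hfd : DifferentiableOn ℂ f (ball (0 : ℂ) (Real.exp d) \ {0}) := fun w hw =>
    (ld_hol hΦ hw.2 hw.1).differentiableWithinAt
  have hψd : DifferentiableOn ℂ ψ (ball (0 : ℂ) (Real.exp d)) := by
    refine differentiableOn_update_limUnder_of_bddAbove (ball_mem_nhds 0 hep) hfd ?_
    refine ⟨1, ?_⟩
    rintro _ ⟨w, hw, rfl⟩
    have := ld_mem hΦ (ld_re hw.2 hw.1)
    rw [mem_ball_zero_iff] at this
    exact this.le
  have hlt : ∀ w : ℂ, w ≠ 0 → w ∈ ball (0 : ℂ) (Real.exp d) → ‖ψ w‖ < 1 := fun w h0 hw => by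
    rw [hne w h0]
    exact mem_ball_zero_iff.1 (ld_mem hΦ (ld_re h0 hw))
  have hA1 : ∀ w : ℂ, w ≠ 0 → w ∈ ball (0 : ℂ) (Real.exp d) → A (ψ w) = w := fun w h0 hw => by
    rw [hne w h0, ld_eq hΦ (ld_re h0 hw), exp_log h0]
  have h0b : (0 : ℂ) ∈ ball (0 : ℂ) (Real.exp d) := mem_ball_self hep
  have h01 : ‖ψ 0‖ < 1 := by
    by_contra hcon
    push Not at hcon
    have hmax : IsMaxOn (norm ∘ ψ) (ball (0 : ℂ) (Real.exp d)) 0 := by
      intro w hw
      by_cases h0 : w = 0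
      · show ‖ψ w‖ ≤ ‖ψ 0‖
        rw [h0]
      · exact (hlt w h0 hw).le.trans hcon
    have heq := eqOn_of_isPreconnected_of_isMaxOn_norm
      (convex_ball (0 : ℂ) (Real.exp d)).isPreconnected isOpen_ball hψd h0b hmax
    have hw1 : ((Real.exp d / 2 : ℝ) : ℂ) ∈ ball (0 : ℂ) (Real.exp d) := by
      rw [mem_ball_zero_iff, norm_real, Real.norm_of_nonneg (by positivity)]
      linarith
    have hw0 : ((Real.exp d / 2 : ℝ) : ℂ) ≠ 0 := by
      rw [Ne, ofReal_eq_zero]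
      positivity
    have h2 := heq hw1
    have h3 := hlt _ hw0 hw1
    rw [h2] at h3
    exact absurd h3 (not_lt.2 hcon)
  have hA0 : A (ψ 0) = 0 := by
    have hc1 : ContinuousAt ψ 0 := (hψd.differentiableAt (isOpen_ball.mem_nhds h0b)).continuousAt
    have hc2 : ContinuousAt A (ψ 0) :=
      (hA.differentiableAt (isOpen_ball.mem_nhds (mem_ball_zero_iff.2 h01))).continuousAt
    have hc3 : Tendsto (fun w => A (ψ w)) (𝓝[≠] 0) (𝓝 (A (ψ 0))) :=
      (hc2.comp hc1).tendsto.mono_left nhdsWithin_le_nhds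
    have hc4 : Tendsto (fun w => A (ψ w)) (𝓝[≠] 0) (𝓝 (0 : ℂ)) := by
      have h5 : Tendsto (fun w : ℂ => w) (𝓝[≠] 0) (𝓝 (0 : ℂ)) :=
        tendsto_id.mono_left nhdsWithin_le_nhds
      refine h5.congr' ?_
      filter_upwards [self_mem_nhdsWithin, mem_nhdsWithin_of_mem_nhds (isOpen_ball.mem_nhds h0b)]
        with w hw0 hw1
      exact (hA1 w hw0 hw1).symm
    exact tendsto_nhds_unique hc3 hc4
  refine ⟨ψ, hψd, fun w hw => ?_, fun ω hω => ?_⟩
  · by_cases h0 : w = 0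
    · subst h0
      exact ⟨mem_ball_zero_iff.2 h01, hA0⟩
    · exact ⟨mem_ball_zero_iff.2 (hlt w h0 hw), hA1 w h0 hw⟩
  · rw [hne _ (exp_ne_zero ω)]
    exact ld_perZ hΦ hω (exp_log (exp_ne_zero ω))

end Pool.Agent.HQ
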