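import Pool.Agent.HQ.LoopExt
import Pool.Agent.HQ.LoopDisc

/-! HQ growth half, file LoopC: exclusion of closed arcs through the first hitting point. -/

set_option autoImplicit false

open Complex Metric Set Filter Topology MeasureTheory
open scoped ComplexConjugate Real

namespace Pool.Agent.HQ

/-- NO CLOSED ARC THROUGH THE FIRST HITTING POINT.
Proof. `loop_thicken`, `loop_extend`, `loop_disc` give `ψ` on `ball 0 (t exp ε)`, `A (ψ w) = w`,
`ψ (t exp (θ I)) = z θ` for `θ ∈ Icc a (a + 2π)`; in particular `ψ (A r₀) = r₀`.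
The set `{r ∈ [0, r₀] : ψ (A r) = r}` (`|A r| ≤ t`) contains `r₀`, and `lift_eqOn` on `[0, r₀]` for
`u r = ψ (A r)`, `v r = r` shows that it is all of `[0, r₀]`.  So `ψ 0 = ψ (A 0) = 0`.  By the
Schwarz lemma (`Complex.norm_deriv_le_div_of_mapsTo_ball`) for `ψ : ball 0 t → ball 0 1`,
`|ψ' 0| ≤ 1 / t`; and `A' 0 * ψ' 0 = 1`, so `|A' 0| ≥ t`, a contradiction. -/
theorem no_loop {A B : ℂ → ℂ} (h : HPair A B) (h0 : A 0 = 0) {t r₀ : ℝ}
    (ht : ‖deriv A 0‖ < t) (hr₀ : r₀ ∈ Ioo (0 : ℝ) 1)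
    (hfirst : ∀ r ∈ Ico (0 : ℝ) r₀, ‖A r‖ < t) {a θ₀ : ℝ} {z : ℝ → ℂ}
    (hz : IsLift A t a (a + 2 * π) z) (hper : z (a + 2 * π) = z a)
    (hθ₀ : θ₀ ∈ Icc a (a + 2 * π)) (hzr : z θ₀ = r₀) : False := by
  have hA : DifferentiableOn ℂ A (ball 0 1) :=
    (h.anA.mono ball_subset_closedBall).differentiableOn
  have hA' : ∀ z ∈ ball (0 : ℂ) 1, deriv A z ≠ 0 := fun z hz =>
    h.deriv_ne (ball_subset_closedBall hz)
  have ht0 : 0 < t := lt_of_le_of_lt (norm_nonneg _) ht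
  obtain ⟨ε, hε, Ψ, hΨ, hΨz⟩ := loop_thicken hA hA' ht0 hz hper
  obtain ⟨Φ, hΦ, hΦΨ⟩ := loop_extend hA hA' ht0 hε hΨ
  have hΦ' : ∀ c < Real.log t + ε, ExpBranch A c (Real.log t + ε) Φ := by
    intro c _
    have h1 := hΦ (min c (Real.log t - 1)) (lt_of_le_of_lt (min_le_right _ _) (by linarith))
    have h2 : ∀ x : ℝ, c < x → min c (Real.log t - 1) < x := fun x hx =>
      lt_of_le_of_lt (min_le_left _ _) hx
    exact ⟨h1.diff.mono fun ω hω => ⟨h2 _ hω.1, hω.2⟩, fun ω h3 h4 => h1.mem ω (h2 _ h3) h4,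
      fun ω h3 h4 => h1.eq ω (h2 _ h3) h4, fun ω h3 h4 => h1.per ω (h2 _ h3) h4⟩
  obtain ⟨ψ, hψd, hψ, hψe⟩ := loop_disc hA hΦ'
  have hR : t < Real.exp (Real.log t + ε) := by
    rw [Real.exp_add, Real.exp_log ht0]
    have h1 : 1 < Real.exp ε := Real.one_lt_exp_iff.2 hε
    nlinarith
  have hR0 : 0 < Real.exp (Real.log t + ε) := Real.exp_pos _
  have hAr₀ : A (r₀ : ℂ) = t * exp (θ₀ * I) := by
    rw [← hzr]
    exact hz.eq θ₀ hθ₀
  have hexp : exp ((Real.log t : ℂ) + θ₀ * I) = t * exp (θ₀ * I) := by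
    rw [Complex.exp_add, ← Complex.ofReal_exp, Real.exp_log ht0]
  have hre : ((Real.log t : ℂ) + θ₀ * I).re = Real.log t := by simp
  have hψr₀ : ψ (A (r₀ : ℂ)) = (r₀ : ℂ) := by
    rw [hAr₀, ← hexp, hψe _ (by rw [hre]; linarith), hΦΨ _ (by rw [hre]; linarith)
      (by rw [hre]; linarith), hΨz θ₀ hθ₀, hzr]
  have hball : ∀ r ∈ Icc (0 : ℝ) r₀, (r : ℂ) ∈ ball (0 : ℂ) 1 := by
    intro r hr
    rw [mem_ball_zero_iff, Complex.norm_real, Real.norm_of_nonneg hr.1]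
    exact lt_of_le_of_lt hr.2 hr₀.2
  have hAball : ∀ r ∈ Icc (0 : ℝ) r₀, A (r : ℂ) ∈ ball (0 : ℂ) (Real.exp (Real.log t + ε)) := by
    intro r hr
    rw [mem_ball_zero_iff]
    rcases hr.2.lt_or_eq with h1 | h1
    · exact (hfirst r ⟨hr.1, h1⟩).trans hR
    · rw [h1, hAr₀, norm_mul, Complex.norm_exp_ofReal_mul_I, Complex.norm_real,
        Real.norm_of_nonneg ht0.le, mul_one]
      exact hR
  have hcast : ContinuousOn (fun r : ℝ => (r : ℂ)) (Icc (0 : ℝ) r₀) :=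
    Complex.continuous_ofReal.continuousOn
  have heq : EqOn (fun r : ℝ => ψ (A (r : ℂ))) (fun r : ℝ => (r : ℂ)) (Icc (0 : ℝ) r₀) := by
    refine lift_eqOn isPreconnected_Icc hA hA' (x₀ := r₀) ?_ hcast ?_ hball ?_
      ⟨hr₀.1.le, le_rfl⟩ hψr₀
    · exact hψd.continuousOn.comp (hA.continuousOn.comp hcast hball) hAball
    · exact fun r hr => (hψ _ (hAball r hr)).1
    · exact fun r hr => (hψ _ (hAball r hr)).2
  have hψ0 : ψ 0 = 0 := by
    have h1 := heq (x := 0) ⟨le_rfl, hr₀.1.le⟩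
    simp only [Complex.ofReal_zero, h0] at h1
    exact h1
  have h0b : (0 : ℂ) ∈ ball (0 : ℂ) (Real.exp (Real.log t + ε)) := mem_ball_self hR0
  have hmaps : MapsTo ψ (ball (0 : ℂ) (Real.exp (Real.log t + ε))) (closedBall (ψ 0) 1) := by
    intro w hw
    rw [hψ0]
    exact ball_subset_closedBall (hψ w hw).1
  have hschw := Complex.norm_deriv_le_div_of_mapsTo_ball hψd hmaps hR0
  have hdψ : HasDerivAt ψ (deriv ψ 0) 0 :=
    (hψd.differentiableAt (isOpen_ball.mem_nhds h0b)).hasDerivAt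
  have hdA : HasDerivAt A (deriv A 0) (ψ 0) := by
    rw [hψ0]
    exact (hA.differentiableAt (isOpen_ball.mem_nhds (mem_ball_self one_pos))).hasDerivAt
  have hcomp : HasDerivAt (A ∘ ψ) (deriv A 0 * deriv ψ 0) 0 := hdA.comp 0 hdψ
  have hid : A ∘ ψ =ᶠ[𝓝 0] fun w => w := by
    filter_upwards [isOpen_ball.mem_nhds h0b] with w hw
    exact (hψ w hw).2
  have hone : deriv A 0 * deriv ψ 0 = 1 :=
    (hcomp.congr_of_eventuallyEq hid.symm).unique (hasDerivAt_id 0)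
  have hnorm : ‖deriv A 0‖ * ‖deriv ψ 0‖ = 1 := by
    rw [← norm_mul, hone, norm_one]
  rw [le_div_iff₀ hR0] at hschw
  have h1 : 0 ≤ ‖deriv ψ 0‖ := norm_nonneg _
  have h2 : 0 ≤ ‖deriv A 0‖ := norm_nonneg _
  have h3 : 0 < ‖deriv ψ 0‖ := by
    rcases h1.eq_or_lt with h4 | h4
    · rw [← h4, mul_zero] at hnorm
      exact absurd hnorm zero_ne_one
    · exact h4
  nlinarith

end Pool.Agent.HQ
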