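import Pool.Agent.HQ.StrandsB
import Pool.Agent.HQ.LoopC

/-! HQ growth half, file ArcTwo: injectivity and length of arcs through the first hitting point. -/

set_option autoImplicit false

open Complex Metric Set Filter Topology MeasureTheory
open scoped ComplexConjugate Real

namespace Pool.Agent.HQ

private theorem ArcTwo_mono {A : ℂ → ℂ} {t α β α' β' : ℝ} {z : ℝ → ℂ}
    (hz : IsLift A t α β z) (h1 : α ≤ α') (h2 : β' ≤ β) : IsLift A t α' β' z :=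
  ⟨hz.cont.mono (Icc_subset_Icc h1 h2), fun θ hθ => hz.mem θ (Icc_subset_Icc h1 h2 hθ),
    fun θ hθ => hz.eq θ (Icc_subset_Icc h1 h2 hθ)⟩

private theorem ArcTwo_exp (θ : ℝ) : exp (((θ + 2 * π : ℝ) : ℂ) * I) = exp ((θ : ℂ) * I) := by
  rw [exp_eq_exp_iff_exists_int]
  exact ⟨1, by push_cast; ring⟩

/-- two parameters of the same point differ by a multiple of `2π` -/
private theorem ArcTwo_int {A : ℂ → ℂ} {t α β : ℝ} {z : ℝ → ℂ} (ht : 0 < t)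
    (hz : IsLift A t α β z) {θ₁ θ₂ : ℝ} (h1 : θ₁ ∈ Icc α β) (h2 : θ₂ ∈ Icc α β)
    (h : z θ₁ = z θ₂) (hlt : θ₁ < θ₂) (hlen : θ₂ - θ₁ < 4 * π) : θ₂ = θ₁ + 2 * π := by
  have e1 := hz.eq θ₁ h1
  have e2 := hz.eq θ₂ h2
  rw [h, e2] at e1
  have ht' : (t : ℂ) ≠ 0 := ofReal_ne_zero.2 ht.ne'
  have e3 := mul_left_cancel₀ ht' e1
  rw [exp_eq_exp_iff_exists_int] at e3
  obtain ⟨n, hn⟩ := e3
  have e4 : (θ₂ : ℂ) = θ₁ + n * (2 * π) := by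
    have : (θ₂ : ℂ) * I = (θ₁ + n * (2 * π)) * I := by rw [hn]; ring
    exact mul_right_cancel₀ I_ne_zero this
  have e5 : θ₂ = θ₁ + n * (2 * π) := by exact_mod_cast e4
  have hpi := Real.pi_pos
  have h3 : (0 : ℝ) < n := by
    by_contra hcon
    push Not at hcon
    have : (n : ℝ) * (2 * π) ≤ 0 := mul_nonpos_of_nonpos_of_nonneg hcon (by positivity)
    linarith
  have h4 : (n : ℝ) < 2 := by
    by_contra hcon
    push Not at hcon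
    have : (2 : ℝ) * (2 * π) ≤ n * (2 * π) := mul_le_mul_of_nonneg_right hcon (by positivity)
    linarith
  have h5 : n = 1 := by
    have h6 : (0 : ℤ) < n := by exact_mod_cast h3
    have h7 : n < (2 : ℤ) := by exact_mod_cast h4
    omega
  rw [e5, h5]
  push_cast
  ring

/-- no arc through the first hitting point closes up -/
private theorem ArcTwo_close {A B : ℂ → ℂ} (h : HPair A B) (h0 : A 0 = 0) {t r₀ : ℝ}
    (ht : ‖deriv A 0‖ < t) (hr₀ : r₀ ∈ Ioo (0 : ℝ) 1)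
    (hfirst : ∀ r ∈ Ico (0 : ℝ) r₀, ‖A r‖ < t) {α β θ₀ θ₁ : ℝ} {z : ℝ → ℂ}
    (hz : IsLift A t α β z) (hθ₀ : θ₀ ∈ Icc α β) (hzr : z θ₀ = r₀) (h1 : α ≤ θ₁)
    (h2 : θ₁ + 2 * π ≤ β) (he : z (θ₁ + 2 * π) = z θ₁) : False := by
  have hpi := Real.pi_pos
  have key : EqOn (fun θ => z (θ + 2 * π)) z (Icc α (β - 2 * π)) := by
    have hsh : ∀ θ ∈ Icc α (β - 2 * π), θ + 2 * π ∈ Icc α β := fun θ hθ =>
      ⟨by linarith [hθ.1], by linarith [hθ.2]⟩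
    have hin : ∀ θ ∈ Icc α (β - 2 * π), θ ∈ Icc α β := fun θ hθ =>
      ⟨hθ.1, by linarith [hθ.2]⟩
    refine lift_eqOn isPreconnected_Icc h.diffA
      (fun w hw => h.deriv_ne (ball_subset_closedBall hw)) ?_ (hz.cont.mono hin)
      (fun θ hθ => hz.mem _ (hsh θ hθ)) (fun θ hθ => hz.mem _ (hin θ hθ)) ?_
      (x₀ := θ₁) ⟨h1, by linarith⟩ he
    · exact hz.cont.comp (by fun_prop) hsh
    · intro θ hθ
      rw [hz.eq _ (hsh θ hθ), hz.eq _ (hin θ hθ), ArcTwo_exp]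
  have ha1 : α ≤ min θ₀ (β - 2 * π) := le_min hθ₀.1 (by linarith)
  have ha2 : min θ₀ (β - 2 * π) ≤ β - 2 * π := min_le_right _ _
  refine no_loop h h0 ht hr₀ hfirst (a := min θ₀ (β - 2 * π)) (θ₀ := θ₀)
    (ArcTwo_mono hz ha1 (by linarith)) (key ⟨ha1, ha2⟩) ⟨min_le_left _ _, ?_⟩ hzr
  rcases min_choice θ₀ (β - 2 * π) with h3 | h3
  · rw [h3]; linarith
  · rw [h3]; linarith [hθ₀.2]

/-- INJECTIVITY OF THE ARC THROUGH THE FIRST HITTING POINT.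
Proof. Suppose `z θ₁ = z θ₂` with `θ₁ < θ₂` in `Icc α β`.  Then `exp (θ₁ I) = exp (θ₂ I)`, so
`θ₂ - θ₁ = 2π k` with `k ≥ 1`, and `β - α < 4π` gives `k = 1`.  The functions `θ ↦ z θ` and
`θ ↦ z (θ + 2π)` on `Icc α (β - 2π)` are lifts which agree at `θ₁`, so they agree (`lift_eqOn`).
Choose `a ∈ Icc α (β - 2π)` with `θ₀ ∈ Icc a (a + 2π)` (`a = min θ₀ (β - 2π)`, note `α ≤ β - 2π`).
Then `no_loop` gives a contradiction. -/
theorem arc_injOn {A B : ℂ → ℂ} (h : HPair A B) (h0 : A 0 = 0) {t r₀ : ℝ}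
    (ht : ‖deriv A 0‖ < t) (hr₀ : r₀ ∈ Ioo (0 : ℝ) 1)
    (hfirst : ∀ r ∈ Ico (0 : ℝ) r₀, ‖A r‖ < t) {α β θ₀ : ℝ} {z : ℝ → ℂ}
    (hz : IsLift A t α β z) (hθ₀ : θ₀ ∈ Icc α β) (hzr : z θ₀ = r₀) (hlen : β - α < 4 * π) :
    InjOn z (Icc α β) := by
  have ht0 : 0 < t := (norm_nonneg _).trans_lt ht
  have key : ∀ θ₁ ∈ Icc α β, ∀ θ₂ ∈ Icc α β, θ₁ < θ₂ → z θ₁ = z θ₂ → False := by
    intro θ₁ h1 θ₂ h2 hlt he
    have h3 := ArcTwo_int ht0 hz h1 h2 he hlt (by linarith [h1.1, h2.2])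
    subst h3
    exact ArcTwo_close h h0 ht hr₀ hfirst hz hθ₀ hzr h1.1 h2.2 he.symm
  intro θ₁ h1 θ₂ h2 he
  rcases lt_trichotomy θ₁ θ₂ with h3 | h3 | h3
  · exact (key θ₁ h1 θ₂ h2 h3 he).elim
  · exact h3
  · exact (key θ₂ h2 θ₁ h1 h3 he.symm).elim

/-- LENGTH OF THE ARC THROUGH THE FIRST HITTING POINT: a lift through `r₀` defined on `Icc α β`
has `β - α < 4π`.
Proof. Suppose `β - α ≥ 4π`.  Choose an interval `Icc α' β' ⊆ Icc α β` of length exactly `4π`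
containing `θ₀`, and `k = ⌈α'/π⌉`, so that `Icc (kπ) ((k+3)π) ⊆ Icc α' β'`.  By `no_three_strands`
`z` is not injective on `Icc (kπ) ((k+3)π)`: there are `θ₁ < θ₂` with `z θ₁ = z θ₂`, so
`θ₂ - θ₁ = 2π` (it is `≤ 3π`).  As in `arc_injOn`, `z θ = z (θ + 2π)` on
`Icc α' (β' - 2π)`, and `no_loop` gives a contradiction. -/
theorem arc_len {A B : ℂ → ℂ} (h : HPair A B) (h0 : A 0 = 0) {t r₀ : ℝ}
    (ht : ‖deriv A 0‖ < t) (hr₀ : r₀ ∈ Ioo (0 : ℝ) 1)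
    (hfirst : ∀ r ∈ Ico (0 : ℝ) r₀, ‖A r‖ < t) {α β θ₀ : ℝ} {z : ℝ → ℂ}
    (hz : IsLift A t α β z) (hθ₀ : θ₀ ∈ Icc α β) (hzr : z θ₀ = r₀) : β - α < 4 * π := by
  by_contra hcon
  push Not at hcon
  have hpi := Real.pi_pos
  have ht0 : 0 < t := (norm_nonneg _).trans_lt ht
  set k : ℤ := ⌈α / π⌉ with hk
  have hk1 : α ≤ k * π := by
    have := Int.le_ceil (α / π)
    rw [← hk, div_le_iff₀ hpi] at this
    exact this
  have hk2 : (k : ℝ) * π < α + π := by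
    have := Int.ceil_lt_add_one (α / π)
    rw [← hk] at this
    have h3 := mul_lt_mul_of_pos_right this hpi
    rw [add_mul, one_mul, div_mul_cancel₀ _ hpi.ne'] at h3
    exact h3
  have hk3 : ((k : ℝ) + 3) * π ≤ β := by linarith
  have hz' : IsLift A t (k * π) ((k + 3) * π) z := ArcTwo_mono hz hk1 hk3
  have key : ∀ θ₁ ∈ Icc ((k : ℝ) * π) ((k + 3) * π), ∀ θ₂ ∈ Icc ((k : ℝ) * π) ((k + 3) * π),
      θ₁ < θ₂ → z θ₁ = z θ₂ → False := by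
    intro θ₁ h1 θ₂ h2 hlt he
    have h3 := ArcTwo_int ht0 hz' h1 h2 he hlt (by linarith [h1.1, h2.2])
    subst h3
    exact ArcTwo_close h h0 ht hr₀ hfirst hz hθ₀ hzr (hk1.trans h1.1) (h2.2.trans hk3) he.symm
  refine no_three_strands h ht0 hz' ?_
  intro θ₁ h1 θ₂ h2 he
  rcases lt_trichotomy θ₁ θ₂ with h3 | h3 | h3
  · exact (key θ₁ h1 θ₂ h2 h3 he).elim
  · exact h3
  · exact (key θ₂ h2 θ₁ h1 h3 he.symm).elim

end Pool.Agent.HQ
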