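import Pool.Agent.HQ.LiftExit
import Pool.Agent.HQ.ArcTwo

/-! HQ growth half, file ArcEx: the two-sided arc through the first hitting point. -/

set_option autoImplicit false

open Complex Metric Set Filter Topology MeasureTheory
open scoped ComplexConjugate Real

namespace Pool.Agent.HQ

/-- THE TWO-SIDED ARC.
Proof. `θ₀ := arg (A r₀)`.  `exists_lift_exit` and `exists_lift_exit'` with `T = 4π` give a forward
and a backward piece; glue them (`if θ ≤ θ₀ then z₁ θ else z₂ θ`).  By `arc_len` the total length is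
`< 4π`, so both pieces end outside `U`.  Injectivity: `arc_injOn`. -/
theorem exists_arc {A B : ℂ → ℂ} (h : HPair A B) (h0 : A 0 = 0) {t r₀ : ℝ}
    (ht : ‖deriv A 0‖ < t) (hr₀ : r₀ ∈ Ioo (0 : ℝ) 1)
    (hfirst : ∀ r ∈ Ico (0 : ℝ) r₀, ‖A r‖ < t) (heq : ‖A r₀‖ = t) {U : Set ℂ} (hU : IsOpen U)
    (hUc : IsCompact (closure U)) (hUD : closure U ⊆ ball 0 1) (hrU : (r₀ : ℂ) ∈ U) :
    ∃ α θ₀ β : ℝ, ∃ z : ℝ → ℂ, α < θ₀ ∧ θ₀ < β ∧ β - α < 4 * π ∧ IsLift A t α β z ∧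
      z θ₀ = r₀ ∧ z α ∉ U ∧ z β ∉ U ∧ (∀ θ ∈ Icc α β, z θ ∈ closure U) ∧
      InjOn z (Icc α β) := by
  classical
  have ht0 : 0 < t := (norm_nonneg _).trans_lt ht
  have hπ : 0 < 4 * π := by positivity
  have hA : DifferentiableOn ℂ A (ball 0 1) :=
    (h.anA.mono ball_subset_closedBall).differentiableOn
  have hA' : ∀ z ∈ ball (0 : ℂ) 1, deriv A z ≠ 0 := fun z hz =>
    h.deriv_ne (ball_subset_closedBall hz)
  set θ₀ : ℝ := arg (A r₀) with hθ₀
  have hAr : A r₀ = t * exp (θ₀ * I) := by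
    rw [← heq, hθ₀, norm_mul_exp_arg_mul_I]
  obtain ⟨β, hβ, z₂, hz₂, hz₂0, hz₂U, hz₂e⟩ :=
    exists_lift_exit hA hA' hU hUc hUD ht0 hπ hrU hAr
  obtain ⟨α, hα, z₁, hz₁, hz₁0, hz₁U, hz₁e⟩ :=
    exists_lift_exit' hA hA' hU hUc hUD ht0 hπ hrU hAr
  have hleft : ∀ θ, θ ≤ θ₀ → (if θ ≤ θ₀ then z₁ θ else z₂ θ) = z₁ θ := fun θ hθ => if_pos hθ
  have hright : ∀ θ, θ₀ ≤ θ → (if θ ≤ θ₀ then z₁ θ else z₂ θ) = z₂ θ := by
    intro θ hθ
    rcases hθ.eq_or_lt with h1 | h1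
    · rw [← h1, if_pos le_rfl, hz₁0, hz₂0]
    · exact if_neg (not_le.2 h1)
  set z : ℝ → ℂ := fun θ => if θ ≤ θ₀ then z₁ θ else z₂ θ with hz
  have hcont : ContinuousOn z (Icc α β) := by
    have h1 : ContinuousOn z (Icc α θ₀) := hz₁.cont.congr fun θ hθ => hleft θ hθ.2
    have h2 : ContinuousOn z (Icc θ₀ β) := hz₂.cont.congr fun θ hθ => hright θ hθ.1
    have h3 := h1.union_of_isClosed h2 isClosed_Icc isClosed_Icc
    rwa [Icc_union_Icc_eq_Icc hα.2.le hβ.1.le] at h3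
  have hlift : IsLift A t α β z := by
    refine ⟨hcont, fun θ hθ => ?_, fun θ hθ => ?_⟩
    · rcases le_total θ θ₀ with h1 | h1
      · rw [hz]
        simp only
        rw [hleft θ h1]
        exact hz₁.mem θ ⟨hθ.1, h1⟩
      · rw [hz]
        simp only
        rw [hright θ h1]
        exact hz₂.mem θ ⟨h1, hθ.2⟩
    · rcases le_total θ θ₀ with h1 | h1
      · rw [hz]
        simp only
        rw [hleft θ h1]
        exact hz₁.eq θ ⟨hθ.1, h1⟩
      · rw [hz]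
        simp only
        rw [hright θ h1]
        exact hz₂.eq θ ⟨h1, hθ.2⟩
  have hzr : z θ₀ = r₀ := (hleft θ₀ le_rfl).trans hz₁0
  have hmem : θ₀ ∈ Icc α β := ⟨hα.2.le, hβ.1.le⟩
  have hlen : β - α < 4 * π := arc_len h h0 ht hr₀ hfirst hlift hmem hzr
  refine ⟨α, θ₀, β, z, hα.2, hβ.1, hlen, hlift, hzr, ?_, ?_, ?_,
    arc_injOn h h0 ht hr₀ hfirst hlift hmem hzr hlen⟩
  · have h1 : z α = z₁ α := hleft α hα.2.le
    rw [h1]
    rcases hz₁e with h2 | h2
    · exfalso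
      have := hβ.1
      linarith
    · exact h2
  · have h1 : z β = z₂ β := hright β hβ.1.le
    rw [h1]
    rcases hz₂e with h2 | h2
    · exfalso
      have := hα.2
      linarith
    · exact h2
  · intro θ hθ
    rcases le_total θ θ₀ with h1 | h1
    · have h2 : z θ = z₁ θ := hleft θ h1
      rw [h2]
      rcases hθ.1.eq_or_lt with h3 | h3
      · rw [← h3]
        have h4 : ContinuousWithinAt z₁ (Ioc α θ₀) α :=
          (hz₁.cont α ⟨le_rfl, hα.2.le⟩).mono Ioc_subset_Icc_self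
        refine h4.mem_closure ?_ fun x hx => hz₁U x hx
        rw [closure_Ioc hα.2.ne]
        exact ⟨le_rfl, hα.2.le⟩
      · exact subset_closure (hz₁U θ ⟨h3, h1⟩)
    · have h2 : z θ = z₂ θ := hright θ h1
      rw [h2]
      rcases hθ.2.eq_or_lt with h3 | h3
      · rw [h3]
        have h4 : ContinuousWithinAt z₂ (Ico θ₀ β) β :=
          (hz₂.cont β ⟨hβ.1.le, le_rfl⟩).mono Ico_subset_Icc_self
        refine h4.mem_closure ?_ fun x hx => hz₂U x hx
        rw [closure_Ico hβ.1.ne]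
        exact ⟨hβ.1.le, le_rfl⟩
      · exact subset_closure (hz₂U θ ⟨h1, h3⟩)

end Pool.Agent.HQ
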