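import Mathlib

/-! HQ growth half, file AreaHolo. -/

set_option autoImplicit false

open Complex Metric Set Filter Topology MeasureTheory
open scoped ComplexConjugate Real

namespace Pool.Agent.HQ

private theorem ah_det (a : ℂ) :
    ((a • (1 : ℂ →L[ℂ] ℂ)).restrictScalars ℝ).det = ‖a‖ ^ 2 := by
  have h1 : (((a • (1 : ℂ →L[ℂ] ℂ)).restrictScalars ℝ : ℂ →L[ℝ] ℂ) : ℂ →ₗ[ℝ] ℂ) =
      Algebra.lmul ℝ ℂ a := by
    ext z
    all_goals simp
  rw [ContinuousLinearMap.det, h1, ← Algebra.norm_apply, Algebra.norm_complex_apply,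
    Complex.normSq_eq_norm_sq]

/-- AREA OF AN INJECTIVE HOLOMORPHIC IMAGE.
Proof. `MeasureTheory.lintegral_abs_det_fderiv_eq_addHaar_image` with
`f' x = (deriv g x • 1 : ℂ →L[ℂ] ℂ).restrictScalars ℝ` and `|det| = ‖deriv g x‖ ^ 2`. -/
theorem volume_image_holo {g : ℂ → ℂ} {S : Set ℂ} (hS : MeasurableSet S) (hSo : IsOpen S)
    (hg : DifferentiableOn ℂ g S) (hinj : InjOn g S) :
    volume (g '' S) = ∫⁻ x in S, ENNReal.ofReal (‖deriv g x‖ ^ 2) := by
  have h1 : ∀ x ∈ S, HasFDerivWithinAt g ((deriv g x • (1 : ℂ →L[ℂ] ℂ)).restrictScalars ℝ) S x := by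
    intro x hx
    have h2 : HasDerivAt g (deriv g x) x :=
      (hg.differentiableAt (hSo.mem_nhds hx)).hasDerivAt
    have h3 : HasFDerivAt g (deriv g x • (1 : ℂ →L[ℂ] ℂ)) x := by
      have h4 := h2.hasFDerivAt
      have h5 : ContinuousLinearMap.toSpanSingleton ℂ (deriv g x) =
          deriv g x • (1 : ℂ →L[ℂ] ℂ) := by
        ext
        simp
      rwa [h5] at h4
    exact (h3.restrictScalars ℝ).hasFDerivWithinAt
  rw [← lintegral_abs_det_fderiv_eq_addHaar_image volume hS h1 hinj]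
  refine lintegral_congr (fun x => ?_)
  rw [ah_det, abs_of_nonneg (sq_nonneg _)]

end Pool.Agent.HQ
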