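import Pool.Agent.HQ.AreaP

/-!
# HQ: the area integral of the cost
-/

set_option autoImplicit false

open Complex Metric Set Filter Topology MeasureTheory
open scoped ComplexConjugate Real

namespace Pool.Agent.HQ

private lemma cos_pos' {p : ℝ} (hp : 0 < p) (hp1 : p < 1) : 0 < Real.cos (p * π / 2) := by
  apply Real.cos_pos_of_mem_Ioo
  constructor
  · have := mul_pos hp Real.pi_pos
    have := Real.pi_pos
    linarith
  · have := Real.pi_pos
    nlinarith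

private lemma pointwise {A B : ℂ → ℂ} (h : HPair A B) (hQ : (Qf A B 0).re = 1)
    {τ L N p w d : ℝ} (hτ : 0 < τ) (hL : 0 < L) (hN : 0 < N) (hp : 0 < p) (hp1 : p < 1)
    (hd : 0 < d) (hw0 : 0 < w) {ζ : ℂ} (hζ : ζ ∈ lvl A τ) (hζd : d ≤ rho A ζ)
    (hw : 1 - ‖ζ‖ ≤ w) (hg : 0 < gap (img A B τ) (shearMap A B ζ)) :
    min 1 (cost A B τ L N p ζ) / (1 - ‖ζ‖ ^ 2) ≤
      (‖deriv A ζ‖ ^ 2 * (Qf A B ζ).re) *
        ((8 / Real.cos (p * π / 2) * (w * N * L) ^ p * gap (img A B τ) (shearMap A B ζ) ^ (-p)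
          + 16 * Real.exp (-(N / 2))) / d ^ 2) := by
  have hb : ζ ∈ ball (0 : ℂ) 1 := lvl_subset_ball hζ
  have hn : ‖ζ‖ < 1 := mem_ball_zero_iff.1 hb
  have hn0 := norm_nonneg ζ
  have h1 : 0 < 1 - ‖ζ‖ ^ 2 := by nlinarith
  have hq : 0 < (Qf A B ζ).re := Qf_re_pos h (ball_subset_closedBall hb)
  have hc := cos_pos' hp hp1
  have hcp := cost_pointwise h hQ hτ hL hN hp hp1 hζ hw
  set X : ℝ := 8 / Real.cos (p * π / 2) * (w * N * L) ^ p *
    gap (img A B τ) (shearMap A B ζ) ^ (-p) + 16 * Real.exp (-(N / 2)) with hX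
  have hX0 : 0 ≤ X := by
    have : 0 ≤ w * N * L := by positivity
    positivity
  set C : ℝ := cost A B τ L N p ζ with hC
  have e1 : min 1 C / (1 - ‖ζ‖ ^ 2) ≤ C / (1 - ‖ζ‖ ^ 2) := by
    gcongr
    exact min_le_right _ _
  have e2 : C / (1 - ‖ζ‖ ^ 2) =
      ((1 - ‖ζ‖ ^ 2) / (Qf A B ζ).re * C) * ((Qf A B ζ).re / (1 - ‖ζ‖ ^ 2) ^ 2) := by
    field_simp
  have e3 : C / (1 - ‖ζ‖ ^ 2) ≤ X * ((Qf A B ζ).re / (1 - ‖ζ‖ ^ 2) ^ 2) := by
    rw [e2]
    gcongr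
  have e4 : (Qf A B ζ).re / (1 - ‖ζ‖ ^ 2) ^ 2 ≤ ‖deriv A ζ‖ ^ 2 * (Qf A B ζ).re / d ^ 2 := by
    rw [div_le_div_iff₀ (by positivity) (by positivity)]
    have : d ^ 2 ≤ ‖deriv A ζ‖ ^ 2 * (1 - ‖ζ‖ ^ 2) ^ 2 := by
      have h5 : d ≤ (1 - ‖ζ‖ ^ 2) * ‖deriv A ζ‖ := hζd
      calc d ^ 2 ≤ ((1 - ‖ζ‖ ^ 2) * ‖deriv A ζ‖) ^ 2 := by gcongr
        _ = _ := by ring
    nlinarith
  calc min 1 C / (1 - ‖ζ‖ ^ 2) ≤ X * ((Qf A B ζ).re / (1 - ‖ζ‖ ^ 2) ^ 2) := e1.trans e3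
    _ ≤ X * (‖deriv A ζ‖ ^ 2 * (Qf A B ζ).re / d ^ 2) := by gcongr
    _ = _ := by ring

/-- Area estimate.  `dx dy = |A'|² q dA = rho² q / (1-|ζ|²)² dA` under `shearMap`
(`lintegral_image_eq_lintegral_abs_det_fderiv_mul`), so
`ψ / (1-|ζ|²) dA = ψ ((1-|ζ|²)/q) rho⁻² dx dy ≤ d⁻² (cost_pointwise) dx dy`;
the image of `S` is in `img A B τ ∩ {|y| ≤ Y}` and `|x| < τ` there; then `slice_integral`,
`strip_volume`. -/
theorem area_bound {A B : ℂ → ℂ} (h : HPair A B) (hQ : (Qf A B 0).re = 1)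
    {τ L N p w d Y : ℝ} (hτ : 0 < τ) (hL : 0 < L) (hN : 0 < N) (hp : 0 < p) (hp1 : p < 1)
    (hd : 0 < d) (hw0 : 0 < w) (hY : 0 < Y) {S : Set ℂ} (hS : MeasurableSet S)
    (hS1 : S ⊆ lvl A τ) (hSd : ∀ ζ ∈ S, d ≤ rho A ζ) (hSw : ∀ ζ ∈ S, 1 - ‖ζ‖ ≤ w)
    (hSY : ∀ ζ ∈ S, |(B ζ).im| ≤ Y) :
    ∫ ζ in S, min 1 (cost A B τ L N p ζ) / (1 - ‖ζ‖ ^ 2) ≤
      (64 / (Real.cos (p * π / 2) * (1 - p)) * (w * N * L) ^ p * τ * Y ^ (1 - p)
        + 64 * Real.exp (-(N / 2)) * τ * Y) / d ^ 2 := by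
  have hc := cos_pos' hp hp1
  have hSb : S ⊆ ball (0 : ℂ) 1 := hS1.trans lvl_subset_ball
  set U : Set ℂ := img A B τ with hU
  have hUo : IsOpen U := isOpen_image_shearMap h
    (isOpen_lvl h.anA.continuousOn) lvl_subset_ball
  have hUb : Bornology.IsBounded U := isBounded_image_shearMap h lvl_subset_ball
  have hUτ : ∀ v ∈ U, |v.re| < τ := by
    rintro _ ⟨z, hz, rfl⟩
    exact (Complex.abs_re_le_norm (A z)).trans_lt (norm_lt_of_mem_lvl hz)
  have hgap : ∀ ζ ∈ S, 0 < gap U (shearMap A B ζ) := fun ζ hζ =>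
    gap_pos hUo hUb ⟨ζ, hS1 hζ, rfl⟩
  -- constants
  set C1 : ℝ := 8 / Real.cos (p * π / 2) * (w * N * L) ^ p with hC1
  set C2 : ℝ := 16 * Real.exp (-(N / 2)) with hC2
  have hC1n : 0 ≤ C1 := by
    have : 0 ≤ w * N * L := by positivity
    positivity
  have hC2n : 0 ≤ C2 := by positivity
  -- the derivative
  choose! D hD1 hD2 using fun (z : ℂ) (hz : z ∈ closedBall (0 : ℂ) 1) =>
    hasStrictFDerivAt_shearMap h hz
  have hfd : ∀ z ∈ S, HasFDerivWithinAt (shearMap A B) (D z) S z := fun z hz =>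
    (hD1 z (ball_subset_closedBall (hSb hz))).hasFDerivAt.hasFDerivWithinAt
  have hinj : InjOn (shearMap A B) S := h.inj.mono (hSb.trans ball_subset_closedBall)
  set g : ℂ → ENNReal := fun v => ENNReal.ofReal ((C1 * gap U v ^ (-p) + C2) / d ^ 2) with hg
  have hcv := lintegral_image_eq_lintegral_abs_det_fderiv_mul volume hS hfd hinj g
  -- the integrand
  have hnn : ∀ ζ ∈ S, 0 ≤ min 1 (cost A B τ L N p ζ) / (1 - ‖ζ‖ ^ 2) := by
    intro ζ hζ
    have hb := hSb hζ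
    have hn : ‖ζ‖ < 1 := mem_ball_zero_iff.1 hb
    have h1 : 0 < 1 - ‖ζ‖ ^ 2 := by nlinarith [norm_nonneg ζ]
    have hq : 0 < (Qf A B ζ).re := Qf_re_pos h (ball_subset_closedBall hb)
    have hgp := hgap ζ hζ
    have : 0 ≤ cost A B τ L N p ζ := by
      unfold cost
      have : 0 ≤ (Qf A B ζ).re * N * L / gap (img A B τ) (shearMap A B ζ) := by positivity
      positivity
    have : 0 ≤ min 1 (cost A B τ L N p ζ) := le_min zero_le_one this
    positivity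
  have hmeas : AEStronglyMeasurable (fun ζ => min 1 (cost A B τ L N p ζ) / (1 - ‖ζ‖ ^ 2))
      (volume.restrict S) := by
    have h1 := aestronglyMeasurable_cost (L := L) (N := N) (p := p) (τ := τ) h hS hSb
    have h2 : AEStronglyMeasurable (fun ζ : ℂ => 1 - ‖ζ‖ ^ 2) (volume.restrict S) :=
      (by fun_prop : Continuous fun ζ : ℂ => 1 - ‖ζ‖ ^ 2).aestronglyMeasurable
    exact h1.div₀ h2
  have key : ∫⁻ ζ in S, ENNReal.ofReal (min 1 (cost A B τ L N p ζ) / (1 - ‖ζ‖ ^ 2)) ≤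
      ENNReal.ofReal ((64 / (Real.cos (p * π / 2) * (1 - p)) * (w * N * L) ^ p * τ * Y ^ (1 - p)
        + 64 * Real.exp (-(N / 2)) * τ * Y) / d ^ 2) := by
    calc ∫⁻ ζ in S, ENNReal.ofReal (min 1 (cost A B τ L N p ζ) / (1 - ‖ζ‖ ^ 2))
        ≤ ∫⁻ ζ in S, ENNReal.ofReal |(D ζ).det| * g (shearMap A B ζ) := by
          apply setLIntegral_mono' hS
          intro ζ hζ
          rw [hD2 ζ (ball_subset_closedBall (hSb hζ))]
          have hq : 0 < (Qf A B ζ).re := Qf_re_pos h (ball_subset_closedBall (hSb hζ))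
          rw [abs_of_nonneg (by positivity : 0 ≤ ‖deriv A ζ‖ ^ 2 * (Qf A B ζ).re)]
          rw [hg]
          simp only
          rw [← ENNReal.ofReal_mul (by positivity)]
          apply ENNReal.ofReal_le_ofReal
          exact pointwise h hQ hτ hL hN hp hp1 hd hw0 (hS1 hζ) (hSd ζ hζ) (hSw ζ hζ) (hgap ζ hζ)
      _ = ∫⁻ v in shearMap A B '' S, g v := hcv.symm
      _ ≤ ∫⁻ v in U ∩ {v : ℂ | |v.im| ≤ Y}, g v := by
          apply lintegral_mono_set
          rintro _ ⟨z, hz, rfl⟩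
          exact ⟨⟨z, hS1 hz, rfl⟩, hSY z hz⟩
      _ ≤ ∫⁻ v in U ∩ {v : ℂ | |v.im| ≤ Y}, (ENNReal.ofReal (C1 / d ^ 2) *
            ENNReal.ofReal (gap U v ^ (-p)) + ENNReal.ofReal (C2 / d ^ 2)) := by
          apply lintegral_mono
          intro v
          rw [hg]
          simp only
          rw [← ENNReal.ofReal_mul (by positivity)]
          refine (ENNReal.ofReal_le_ofReal (le_of_eq ?_)).trans ENNReal.ofReal_add_le
          ring
      _ = ENNReal.ofReal (C1 / d ^ 2) * (∫⁻ v in U ∩ {v : ℂ | |v.im| ≤ Y},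
            ENNReal.ofReal (gap U v ^ (-p))) + ENNReal.ofReal (C2 / d ^ 2) *
            volume (U ∩ {v : ℂ | |v.im| ≤ Y}) := by
          rw [lintegral_add_right _ measurable_const, lintegral_const_mul' _ _ ENNReal.ofReal_ne_top,
            lintegral_const, Measure.restrict_apply_univ]
      _ ≤ ENNReal.ofReal (C1 / d ^ 2) * ENNReal.ofReal (8 * τ * Y ^ (1 - p) / (1 - p)) +
            ENNReal.ofReal (C2 / d ^ 2) * ENNReal.ofReal (4 * τ * Y) := by
          gcongr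
          · exact slice_integral hUo hUb hτ hY hp hp1 hUτ
          · refine (measure_mono ?_).trans (strip_volume hτ hY)
            rintro v ⟨hv1, hv2⟩
            exact ⟨hUτ v hv1, hv2⟩
      _ = _ := by
          have h1p : 0 < 1 - p := by linarith
          have hY1 : 0 ≤ Y ^ (1 - p) := by positivity
          rw [← ENNReal.ofReal_mul (by positivity), ← ENNReal.ofReal_mul (by positivity),
            ← ENNReal.ofReal_add (by positivity) (by positivity)]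
          congr 1
          rw [hC1, hC2]
          field_simp
          ring
  rw [integral_eq_lintegral_of_nonneg_ae
    ((ae_restrict_iff' hS).2 (Eventually.of_forall hnn)) hmeas]
  refine ENNReal.toReal_le_of_le_ofReal ?_ key
  have h1p : 0 < 1 - p := by linarith
  have hwNL : 0 ≤ (w * N * L) ^ p := by positivity
  have hY1 : 0 ≤ Y ^ (1 - p) := by positivity
  positivity

end Pool.Agent.HQ
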