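import Pool.Agent.HQ.Defs

/-!
# HQ: the function Q
-/

set_option autoImplicit false

open Complex Metric Set Filter Topology MeasureTheory
open scoped ComplexConjugate Real

namespace Pool.Agent.HQ

variable {A B : ℂ → ℂ} {s : ℝ} {z w : ℂ}

theorem Qf_re_pos (h : HPair A B) (hz : z ∈ closedBall (0 : ℂ) 1) : 0 < (Qf A B z).re := by
  have h1 := h.pos z hz
  have h2 := h.deriv_ne hz
  have h3 : Qf A B z = (deriv B z * conj (deriv A z)) * (((normSq (deriv A z))⁻¹ : ℝ) : ℂ) := by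
    rw [Qf, div_eq_mul_inv, inv_def, mul_assoc]
  rw [h3, re_mul_ofReal]
  exact mul_pos h1 (inv_pos.2 (normSq_pos.2 h2))

theorem Qf_analytic (h : HPair A B) : AnalyticOnNhd ℂ (Qf A B) (closedBall 0 1) := fun z hz =>
  (h.anB z hz).deriv.div (h.anA z hz).deriv (h.deriv_ne hz)

/-- Schwarz's lemma for functions with positive real part. -/
private theorem lvlQ_schwarz {F : ℂ → ℂ} (hF : DifferentiableOn ℂ F (ball 0 1))
    (hp : ∀ z ∈ ball (0 : ℂ) 1, 0 < (F z).re) {z : ℂ} (hz : ‖z‖ < 1) :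
    ∃ g : ℂ, ‖g‖ ≤ ‖z‖ ∧ F z * (1 - g) = F 0 + conj (F 0) * g := by
  have h00 : 0 < (F 0).re := hp 0 (mem_ball_self one_pos)
  have hden : ∀ z ∈ ball (0 : ℂ) 1, F z + conj (F 0) ≠ 0 := by
    intro z hz h0
    have h1 := congrArg Complex.re h0
    simp only [add_re, conj_re, zero_re] at h1
    have := hp z hz
    linarith
  have hmaps : MapsTo (fun z => (F z - F 0) / (F z + conj (F 0))) (ball 0 1) (ball 0 1) := by
    intro z hz
    rw [mem_ball_zero_iff, norm_div, div_lt_one (norm_pos_iff.2 (hden z hz))]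
    apply lt_of_pow_lt_pow_left₀ 2 (norm_nonneg _)
    rw [← normSq_eq_norm_sq, ← normSq_eq_norm_sq, normSq_apply, normSq_apply]
    simp only [sub_re, sub_im, add_re, add_im, conj_re, conj_im]
    have h1 := mul_pos (hp z hz) h00
    nlinarith
  have hd : DifferentiableOn ℂ (fun z => (F z - F 0) / (F z + conj (F 0))) (ball 0 1) :=
    (hF.sub_const _).div (hF.add_const _) hden
  have h0 : (fun z => (F z - F 0) / (F z + conj (F 0))) 0 = 0 := by simp
  have key := Complex.norm_le_norm_of_mapsTo_ball hd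
    (hmaps.mono_right ball_subset_closedBall) h0 hz
  refine ⟨_, key, ?_⟩
  have hz' : z ∈ ball (0 : ℂ) 1 := by rwa [mem_ball_zero_iff]
  have hne := hden z hz'
  field_simp
  ring

private theorem lvlQ_harnack {F : ℂ → ℂ} (hF : DifferentiableOn ℂ F (ball 0 1))
    (hp : ∀ z ∈ ball (0 : ℂ) 1, 0 < (F z).re) {z : ℂ} (hz : ‖z‖ < 1) :
    (F 0).re * ((1 - ‖z‖) / (1 + ‖z‖)) ≤ (F z).re ∧
      ‖F z‖ ≤ ‖F 0‖ * ((1 + ‖z‖) / (1 - ‖z‖)) := by
  obtain ⟨g, hg, he⟩ := lvlQ_schwarz hF hp hz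
  have h00 : 0 < (F 0).re := hp 0 (mem_ball_self one_pos)
  have hg1 : ‖g‖ < 1 := hg.trans_lt hz
  have hg0 := norm_nonneg g
  have hz0 := norm_nonneg z
  have h1g : 1 - ‖g‖ ≤ ‖1 - g‖ := by
    have := norm_sub_norm_le (1 : ℂ) g
    rwa [norm_one] at this
  have h1g' : ‖1 - g‖ ≤ 1 + ‖g‖ := by
    have := norm_sub_le (1 : ℂ) g
    rwa [norm_one] at this
  have hpos : 0 < ‖1 - g‖ := by linarith
  constructor
  · have h2 : (F z).re * ‖1 - g‖ ^ 2 = (F 0).re * (1 - ‖g‖ ^ 2) := by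
      have h3 : F z * (1 - g) * conj (1 - g) = (F 0 + conj (F 0) * g) * conj (1 - g) := by
        rw [he]
      have h4 : F z * (1 - g) * conj (1 - g) = F z * ((‖1 - g‖ ^ 2 : ℝ) : ℂ) := by
        rw [mul_assoc, mul_conj, normSq_eq_norm_sq]
      rw [h4] at h3
      have h5 := congrArg Complex.re h3
      rw [re_mul_ofReal] at h5
      rw [h5, ← normSq_eq_norm_sq, normSq_apply]
      simp only [mul_re, mul_im, add_re, add_im, sub_re, sub_im, conj_re, conj_im, one_re, one_im]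
      ring
    have h3 : (F 0).re * ((1 - ‖g‖) / (1 + ‖g‖)) ≤ (F z).re := by
      have h4 : (F 0).re * (1 - ‖g‖ ^ 2) ≤ (F z).re * (1 + ‖g‖) ^ 2 := by
        rw [← h2]
        have h6 : 0 ≤ (F z).re := (hp z (by rwa [mem_ball_zero_iff])).le
        gcongr
      rw [mul_div_assoc', div_le_iff₀ (by linarith)]
      have h5 : (F 0).re * (1 - ‖g‖) * (1 + ‖g‖) ≤ (F z).re * (1 + ‖g‖) * (1 + ‖g‖) := by
        nlinarith
      exact le_of_mul_le_mul_right h5 (by linarith)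
    refine le_trans ?_ h3
    refine mul_le_mul_of_nonneg_left ?_ h00.le
    rw [div_le_div_iff₀ (by linarith) (by linarith)]
    nlinarith
  · have h2 : ‖F z‖ * ‖1 - g‖ ≤ ‖F 0‖ * (1 + ‖g‖) := by
      rw [← norm_mul, he]
      refine (norm_add_le _ _).trans ?_
      rw [norm_mul, RCLike.norm_conj]
      linarith
    have h3 : ‖F z‖ * (1 - ‖z‖) ≤ ‖F 0‖ * (1 + ‖z‖) := by
      calc ‖F z‖ * (1 - ‖z‖) ≤ ‖F z‖ * ‖1 - g‖ := by
            apply mul_le_mul_of_nonneg_left _ (norm_nonneg _)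
            linarith
        _ ≤ ‖F 0‖ * (1 + ‖g‖) := h2
        _ ≤ _ := by gcongr
    rw [mul_div_assoc', le_div_iff₀ (by linarith)]
    exact h3

/-- Harnack: `Re Q z ≥ Re Q 0 (1 - |z|) / (1 + |z|)`. -/
theorem Qf_re_ge (h : HPair A B) (hz : ‖z‖ < 1) :
    (Qf A B 0).re * ((1 - ‖z‖) / (1 + ‖z‖)) ≤ (Qf A B z).re :=
  (lvlQ_harnack (fun z hz => ((Qf_analytic h) z
    (ball_subset_closedBall hz)).differentiableAt.differentiableWithinAt)
    (fun _ hz => Qf_re_pos h (ball_subset_closedBall hz)) hz).1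

/-- `|Q (mob z w)| ≤ |Q z| (1 + |w|) / (1 - |w|)`. -/
theorem Qf_norm_le (h : HPair A B) (hz : ‖z‖ < 1) (hw : ‖w‖ < 1) :
    ‖Qf A B (mob z w)‖ ≤ ‖Qf A B z‖ * ((1 + ‖w‖) / (1 - ‖w‖)) := by
  have h1 := (lvlQ_harnack (F := fun w => Qf A B (mob z w)) (fun w hw =>
    (((Qf_analytic h) _ (ball_subset_closedBall (mob_mem_ball hz hw))).comp
      (analyticAt_mob hz (mem_ball_zero_iff.1 hw).le)).differentiableAt.differentiableWithinAt)
    (fun _ hw => Qf_re_pos h (ball_subset_closedBall (mob_mem_ball hz hw))) hw).2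
  simpa using h1

/-- `|B (mob z w) - B z| ≤ 24 K |Q z| |w| rho z` for `|w| ≤ 1/4`: integrate
`(B ∘ mob z)' = (Q ∘ mob z) Ã'` along the radius, with `|Ã' w| ≤ 4 K ρ` (Cauchy) and
`|Q (mob z w)| ≤ 3 |Q z|`. -/
theorem B_local_le {K : ℝ} (hK : Loc K) (h : HPair A B) (hz : ‖z‖ < 1) (hw : ‖w‖ ≤ 1 / 4) :
    ‖B (mob z w) - B z‖ ≤ 24 * K * ‖Qf A B z‖ * ‖w‖ * rho A z := by
  have hp := h.comp_mob hz
  set A1 : ℂ → ℂ := fun u => A (mob z u) with hA1
  set B1 : ℂ → ℂ := fun u => B (mob z u) with hB1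
  have hρ : ‖deriv A1 0‖ = rho A z := by
    have h1 := rho_comp_mob h.anA hz (z := 0) (mem_closedBall_self zero_le_one)
    rw [mob_zero_right] at h1
    rw [← h1, rho]
    simp [hA1]
  have hρ0 : 0 ≤ rho A z := by rw [← hρ]; exact norm_nonneg _
  have hloc : ∀ u : ℂ, ‖u‖ ≤ 1 / 2 → ‖A1 u - A1 0‖ ≤ K * rho A z := by
    intro u hu
    rw [← hρ]
    exact hK.2 A1 B1 hp u hu
  have hK0 : 0 ≤ K := by linarith [hK.1]
  -- Cauchy
  have hcauchy : ∀ u : ℂ, ‖u‖ ≤ 1 / 4 → ‖deriv A1 u‖ ≤ 4 * (K * rho A z) := by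
    intro u hu
    have hsub : closedBall u (1 / 4) ⊆ closedBall (0 : ℂ) (1 / 2) := by
      intro v hv
      rw [mem_closedBall, dist_eq_norm] at hv
      rw [mem_closedBall_zero_iff]
      calc ‖v‖ = ‖(v - u) + u‖ := by rw [sub_add_cancel]
        _ ≤ ‖v - u‖ + ‖u‖ := norm_add_le _ _
        _ ≤ 1 / 2 := by linarith
    have hsub' : closedBall (0 : ℂ) (1 / 2) ⊆ closedBall 0 1 :=
      closedBall_subset_closedBall (by norm_num)
    have hd : ∀ v ∈ closedBall u (1 / 4), DifferentiableAt ℂ (fun v => A1 v - A1 0) v :=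
      fun v hv => ((hp.anA v (hsub' (hsub hv))).differentiableAt).sub_const _
    have hdc : DiffContOnCl ℂ (fun v => A1 v - A1 0) (ball u (1 / 4)) := by
      apply DifferentiableOn.diffContOnCl
      rw [closure_ball u (by norm_num)]
      exact fun v hv => (hd v hv).differentiableWithinAt
    have h1 := Complex.norm_deriv_le_of_forall_mem_sphere_norm_le (by norm_num) hdc
      (C := K * rho A z) fun v hv =>
        hloc v (mem_closedBall_zero_iff.1 (hsub (sphere_subset_closedBall hv)))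
    rw [deriv_sub_const] at h1
    linarith
  have hQ0 := norm_nonneg (Qf A B z)
  have hB1 : ∀ u : ℂ, ‖u‖ ≤ 1 / 4 → ‖deriv B1 u‖ ≤ 24 * K * ‖Qf A B z‖ * rho A z := by
    intro u hu
    have hu1 : ‖u‖ < 1 := by linarith
    have huc : u ∈ closedBall (0 : ℂ) 1 := by rw [mem_closedBall_zero_iff]; linarith
    have key : ∀ (G : ℂ → ℂ), AnalyticOnNhd ℂ G (closedBall 0 1) →
        deriv (fun z' => G (mob z z')) u = deriv G (mob z u) * deriv (mob z) u := by
      intro G hG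
      have h1 := (hG _ (mob_mem_closedBall hz huc)).differentiableAt.hasDerivAt
      have h2 := (analyticAt_mob hz hu1.le).differentiableAt.hasDerivAt
      exact (h1.comp u h2).deriv
    have h2 : deriv B1 u = Qf A B (mob z u) * deriv A1 u := by
      rw [key B h.anB, key A h.anA, Qf, ← mul_assoc,
        div_mul_cancel₀ _ (h.deriv_ne (mob_mem_closedBall hz huc))]
    rw [h2, norm_mul]
    have h3 := Qf_norm_le h hz hu1
    have h4 : (1 + ‖u‖) / (1 - ‖u‖) ≤ 3 := by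
      rw [div_le_iff₀ (by linarith)]
      linarith
    have h5 : ‖Qf A B (mob z u)‖ ≤ ‖Qf A B z‖ * 3 :=
      h3.trans (mul_le_mul_of_nonneg_left h4 hQ0)
    have h6 := hcauchy u hu
    have h7 : 0 ≤ K * ‖Qf A B z‖ * rho A z := by positivity
    calc ‖Qf A B (mob z u)‖ * ‖deriv A1 u‖ ≤ (‖Qf A B z‖ * 3) * (4 * (K * rho A z)) :=
          mul_le_mul h5 h6 (norm_nonneg _) (by positivity)
      _ = 12 * (K * ‖Qf A B z‖ * rho A z) := by ring
      _ ≤ 24 * (K * ‖Qf A B z‖ * rho A z) := by linarith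
      _ = _ := by ring
  have hfin := (convex_closedBall (0 : ℂ) (1 / 4)).norm_image_sub_le_of_norm_deriv_le
    (f := B1) (C := 24 * K * ‖Qf A B z‖ * rho A z) (x := 0) (y := w)
    (fun u hu => (hp.anB u (closedBall_subset_closedBall (by norm_num) hu)).differentiableAt)
    (fun u hu => hB1 u (mem_closedBall_zero_iff.1 hu)) (mem_closedBall_self (by norm_num))
    (mem_closedBall_zero_iff.2 hw)
  have e1 : B1 w - B1 0 = B (mob z w) - B z := by
    show B (mob z w) - B (mob z 0) = _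
    rw [mob_zero_right]
  rw [e1, sub_zero] at hfin
  refine hfin.trans (le_of_eq ?_)
  ring

end Pool.Agent.HQ
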