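import Pool.Agent.HQ.LvlTop
import Pool.Agent.HQ.LvlQ

/-!
# HQ: the shear map
-/

set_option autoImplicit false

open Complex Metric Set Filter Topology MeasureTheory
open scoped ComplexConjugate Real

namespace Pool.Agent.HQ

variable {A B : ℂ → ℂ}

private lemma hullF_slice_bdd {U : Set ℂ} (hb : Bornology.IsBounded U) (x : ℝ) :
    BddAbove {y : ℝ | (⟨x, y⟩ : ℂ) ∈ U} ∧ BddBelow {y : ℝ | (⟨x, y⟩ : ℂ) ∈ U} := by
  obtain ⟨M, hM⟩ := hb.exists_norm_le
  constructor
  · refine ⟨M, ?_⟩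
    rintro y hy
    have h1 := hM _ hy
    have h2 := abs_im_le_norm (⟨x, y⟩ : ℂ)
    exact le_trans (le_abs_self y) (h2.trans h1)
  · refine ⟨-M, ?_⟩
    rintro y hy
    have h1 := hM _ hy
    have h2 := abs_im_le_norm (⟨x, y⟩ : ℂ)
    have h3 : |y| ≤ M := h2.trans h1
    exact (abs_le.1 h3).1

private lemma hullF_mk_eq (x y : ℝ) : (⟨x, y⟩ : ℂ) = (x : ℂ) + (y : ℂ) * I := by
  apply Complex.ext <;> simp

theorem gap_pos {U : Set ℂ} (hU : IsOpen U) (hb : Bornology.IsBounded U) {w : ℂ} (hw : w ∈ U) :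
    0 < gap U w := by
  obtain ⟨ha, hbel⟩ := hullF_slice_bdd hb w.re
  obtain ⟨ε, hε, hball⟩ := Metric.isOpen_iff.1 hU w hw
  have key : ∀ t : ℝ, |t| < ε → (⟨w.re, w.im + t⟩ : ℂ) ∈ U := by
    intro t ht
    apply hball
    rw [mem_ball, dist_eq]
    have h1 : (⟨w.re, w.im + t⟩ : ℂ) - w = (t : ℂ) * I := by
      apply Complex.ext <;> simp
    rw [h1, norm_mul, norm_I, mul_one, norm_real, Real.norm_eq_abs]
    exact ht
  have e2 : |ε / 2| < ε := by rw [abs_of_pos (by linarith)]; linarith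
  have e3 : |-(ε / 2)| < ε := by rw [abs_neg]; exact e2
  have h1 := le_csSup ha (key _ e2)
  have h2 := csInf_le hbel (key _ e3)
  rw [gap, lt_min_iff]
  constructor <;> linarith

theorem gap_le {U : Set ℂ} {M : ℝ} (hM : ∀ v ∈ U, |v.im| ≤ M) {w : ℂ} (hw : w ∈ U) :
    gap U w ≤ 2 * M := by
  have h1 : sSup {y : ℝ | (⟨w.re, y⟩ : ℂ) ∈ U} ≤ M := by
    refine csSup_le ⟨w.im, hw⟩ ?_
    intro y hy
    exact (abs_le.1 (hM _ hy)).2
  have h2 := (abs_le.1 (hM w hw)).1
  refine (min_le_left _ _).trans ?_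
  linarith

private lemma hullF_shearMap_eq (A B : ℂ → ℂ) :
    shearMap A B = fun z => ((A z).re : ℂ) + ((B z).im : ℂ) * I := by
  funext z
  exact hullF_mk_eq _ _

theorem continuousOn_shearMap (h : HPair A B) : ContinuousOn (shearMap A B) (closedBall 0 1) := by
  have hA := h.anA.continuousOn
  have hB := h.anB.continuousOn
  rw [hullF_shearMap_eq]
  have h1 : ContinuousOn (fun z => ((A z).re : ℂ)) (closedBall 0 1) :=
    (continuous_ofReal.comp continuous_re).comp_continuousOn hA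
  have h2 : ContinuousOn (fun z => ((B z).im : ℂ)) (closedBall 0 1) :=
    (continuous_ofReal.comp continuous_im).comp_continuousOn hB
  exact h1.add (h2.mul continuousOn_const)

/-- The real linear map `h ↦ ⟨Re (a h), Im (b h)⟩`. -/
private noncomputable def hullF_D (a b : ℂ) : ℂ →L[ℝ] ℂ :=
  ofRealCLM.comp (reCLM.comp ((a • (1 : ℂ →L[ℂ] ℂ)).restrictScalars ℝ)) +
    (I • (1 : ℂ →L[ℂ] ℂ)).restrictScalars ℝ ∘L
      ofRealCLM.comp (imCLM.comp ((b • (1 : ℂ →L[ℂ] ℂ)).restrictScalars ℝ))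

private lemma hullF_D_apply (a b v : ℂ) :
    hullF_D a b v = ((a * v).re : ℂ) + I * ((b * v).im : ℂ) := by
  simp [hullF_D]

private lemma hullF_D_det (a b : ℂ) : (hullF_D a b).det = a.re * b.re + a.im * b.im := by
  have h0 : (hullF_D a b).det = LinearMap.det (hullF_D a b : ℂ →ₗ[ℝ] ℂ) := rfl
  rw [h0, ← LinearMap.det_toMatrix Complex.basisOneI, Matrix.det_fin_two]
  simp [LinearMap.toMatrix_apply, hullF_D_apply]

/-- `shearMap` is a local diffeomorphism; its Jacobian determinant is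
`Re (B' conj A') = |A'|² Re Q`. -/
theorem hasStrictFDerivAt_shearMap (h : HPair A B) {z : ℂ} (hz : z ∈ closedBall (0 : ℂ) 1) :
    ∃ D : ℂ →L[ℝ] ℂ, HasStrictFDerivAt (shearMap A B) D z ∧
      D.det = ‖deriv A z‖ ^ 2 * (Qf A B z).re := by
  refine ⟨hullF_D (deriv A z) (deriv B z), ?_, ?_⟩
  · have hA : HasStrictFDerivAt A ((deriv A z • (1 : ℂ →L[ℂ] ℂ)).restrictScalars ℝ) z := by
      have h1 := (h.anA z hz).hasStrictDerivAt.hasStrictFDerivAt.restrictScalars ℝ
      refine h1.congr_fderiv ?_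
      ext v
      simp [mul_comm]
    have hB : HasStrictFDerivAt B ((deriv B z • (1 : ℂ →L[ℂ] ℂ)).restrictScalars ℝ) z := by
      have h1 := (h.anB z hz).hasStrictDerivAt.hasStrictFDerivAt.restrictScalars ℝ
      refine h1.congr_fderiv ?_
      ext v
      simp [mul_comm]
    have hA' := (ofRealCLM.comp reCLM).hasStrictFDerivAt.comp z hA
    have hB' := ((I • (1 : ℂ →L[ℂ] ℂ)).restrictScalars ℝ ∘L
      ofRealCLM.comp imCLM).hasStrictFDerivAt.comp z hB
    have h3 := hA'.add hB'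
    refine (h3.congr_fderiv ?_).congr_of_eventuallyEq ?_
    · rfl
    · refine Filter.Eventually.of_forall fun x => ?_
      rw [hullF_shearMap_eq]
      simp [mul_comm]
  · rw [hullF_D_det, Qf, div_re]
    have hne := h.deriv_ne hz
    have hn : normSq (deriv A z) ≠ 0 := normSq_eq_zero.not.2 hne
    rw [← normSq_eq_norm_sq]
    field_simp

theorem isOpen_image_shearMap (h : HPair A B) {V : Set ℂ} (hV : IsOpen V) (hV1 : V ⊆ ball 0 1) :
    IsOpen (shearMap A B '' V) := by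
  rw [isOpen_iff_mem_nhds]
  rintro _ ⟨z, hz, rfl⟩
  have hz1 : z ∈ closedBall (0 : ℂ) 1 := ball_subset_closedBall (hV1 hz)
  obtain ⟨D, hD, hdet⟩ := hasStrictFDerivAt_shearMap h hz1
  have hpos : D.det ≠ 0 := by
    rw [hdet]
    have h1 : 0 < ‖deriv A z‖ := norm_pos_iff.2 (h.deriv_ne hz1)
    have h2 : 0 < (Qf A B z).re := Qf_re_pos h hz1
    positivity
  have hD' : HasStrictFDerivAt (shearMap A B)
      ((D.toContinuousLinearEquivOfDetNeZero hpos : ℂ ≃L[ℝ] ℂ) : ℂ →L[ℝ] ℂ) z := by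
    simpa using hD
  rw [← hD'.map_nhds_eq_of_equiv]
  exact image_mem_map (hV.mem_nhds hz)

theorem isBounded_image_shearMap (h : HPair A B) {V : Set ℂ} (hV1 : V ⊆ ball 0 1) :
    Bornology.IsBounded (shearMap A B '' V) :=
  ((isCompact_closedBall (0 : ℂ) 1).image_of_continuousOn
    (continuousOn_shearMap h)).isBounded.subset
    (image_mono (hV1.trans ball_subset_closedBall))

end Pool.Agent.HQ
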