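import Pool.Agent.HQ.Gap
import Pool.Agent.HQ.HullF

/-!
# HQ: pointwise estimate of the cost
-/

set_option autoImplicit false

open Complex Metric Set Filter Topology MeasureTheory
open scoped ComplexConjugate Real

namespace Pool.Agent.HQ

/-- On the open disc `shearMap` is continuous, `deriv A`, `deriv B` are measurable
(`measurable_deriv`), and `gap (img A B τ)` is measurable (`measurable_gap`). -/
theorem measurable_cost {A B : ℂ → ℂ} (h : HPair A B) {τ L N p : ℝ} :
    Measurable ((ball (0 : ℂ) 1).indicator (cost A B τ L N p)) := by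
  classical
  have hUo : IsOpen (img A B τ) := isOpen_image_shearMap h
    (isOpen_lvl h.anA.continuousOn) lvl_subset_ball
  have hUb : Bornology.IsBounded (img A B τ) := isBounded_image_shearMap h lvl_subset_ball
  have hm : MeasurableSet (ball (0 : ℂ) 1) := measurableSet_ball
  have hF : Measurable ((ball (0 : ℂ) 1).piecewise (shearMap A B) (fun _ => 0)) :=
    ((continuousOn_shearMap h).mono ball_subset_closedBall).measurable_piecewise
      continuousOn_const hm
  have hQm : Measurable ((ball (0 : ℂ) 1).piecewise (Qf A B) (fun _ => 0)) :=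
    ((Qf_analytic h).continuousOn.mono ball_subset_closedBall).measurable_piecewise
      continuousOn_const hm
  have h1 : Measurable fun ζ => gap (img A B τ)
      ((ball (0 : ℂ) 1).piecewise (shearMap A B) (fun _ => 0) ζ) :=
    (measurable_gap hUo hUb).comp hF
  have h2 : Measurable fun ζ => ((ball (0 : ℂ) 1).piecewise (Qf A B) (fun _ => 0) ζ).re :=
    Complex.measurable_re.comp hQm
  have h3 : Measurable fun ζ =>
      (((ball (0 : ℂ) 1).piecewise (Qf A B) (fun _ => 0) ζ).re * N * L / gap (img A B τ)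
        ((ball (0 : ℂ) 1).piecewise (shearMap A B) (fun _ => 0) ζ)) ^ p
        / Real.cos (p * π / 2) + 4 * Real.exp (-(N / 2)) :=
    ((((h2.mul_const N).mul_const L).div h1).pow_const p |>.div_const _).add_const _
  convert h3.indicator hm using 1
  funext ζ
  by_cases hζ : ζ ∈ ball (0 : ℂ) 1
  · rw [indicator_of_mem hζ, indicator_of_mem hζ, piecewise_eq_of_mem _ _ _ hζ,
      piecewise_eq_of_mem _ _ _ hζ]
    rfl
  · rw [indicator_of_notMem hζ, indicator_of_notMem hζ]

theorem aestronglyMeasurable_cost {A B : ℂ → ℂ} (h : HPair A B) {τ L N p : ℝ} {S : Set ℂ}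
    (hS : MeasurableSet S) (hS1 : S ⊆ ball 0 1) :
    AEStronglyMeasurable (fun ζ => min 1 (cost A B τ L N p ζ)) (volume.restrict S) := by
  have h1 := measurable_cost h (τ := τ) (L := L) (N := N) (p := p)
  have h2 : Measurable fun ζ => min 1 ((ball (0 : ℂ) 1).indicator (cost A B τ L N p) ζ) :=
    measurable_const.min h1
  refine h2.aestronglyMeasurable.congr ?_
  filter_upwards [ae_restrict_mem hS] with ζ hζ
  rw [indicator_of_mem (hS1 hζ)]

/-- Pointwise estimate.  With `q = Re Q(ζ) ≥ (1 - |ζ|) / (1 + |ζ|)` (`Qf_re_ge`),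
`(1 - |ζ|²) / q ≤ 4` and `(1 - |ζ|²) / q · (q X)^p = ((1-|ζ|²)/q)^(1-p) ((1-|ζ|²) X)^p
≤ 4 · 2 (w X)^p`, `X = N L / gap`. -/
theorem cost_pointwise {A B : ℂ → ℂ} (h : HPair A B) (hQ : (Qf A B 0).re = 1) {τ L N p w : ℝ}
    (hτ : 0 < τ) (hL : 0 < L) (hN : 0 < N) (hp : 0 < p) (hp1 : p < 1) {ζ : ℂ}
    (hζ : ζ ∈ lvl A τ) (hw : 1 - ‖ζ‖ ≤ w) :
    (1 - ‖ζ‖ ^ 2) / (Qf A B ζ).re * cost A B τ L N p ζ ≤
      8 / Real.cos (p * π / 2) * (w * N * L) ^ p * gap (img A B τ) (shearMap A B ζ) ^ (-p)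
        + 16 * Real.exp (-(N / 2)) := by
  have hUo : IsOpen (img A B τ) := isOpen_image_shearMap h
    (isOpen_lvl h.anA.continuousOn) lvl_subset_ball
  have hUb : Bornology.IsBounded (img A B τ) := isBounded_image_shearMap h lvl_subset_ball
  have hg : 0 < gap (img A B τ) (shearMap A B ζ) := gap_pos hUo hUb ⟨ζ, hζ, rfl⟩
  have hb : ζ ∈ ball (0 : ℂ) 1 := lvl_subset_ball hζ
  have hn : ‖ζ‖ < 1 := mem_ball_zero_iff.1 hb
  have hn0 := norm_nonneg ζ
  have hq : 0 < (Qf A B ζ).re := Qf_re_pos h (ball_subset_closedBall hb)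
  have hqge := Qf_re_ge h hn
  rw [hQ, one_mul] at hqge
  have hc : 0 < Real.cos (p * π / 2) := by
    apply Real.cos_pos_of_mem_Ioo
    have h1 := mul_pos hp Real.pi_pos
    have h2 := Real.pi_pos
    constructor
    · linarith
    · nlinarith
  unfold cost
  set g := gap (img A B τ) (shearMap A B ζ) with hgdef
  set q := (Qf A B ζ).re with hqdef
  set r := ‖ζ‖ with hr
  have hw0 : 0 < w := by linarith
  have h1r : 0 < 1 - r ^ 2 := by nlinarith
  set M := (1 - r ^ 2) / q with hM
  have hM0 : 0 < M := by positivity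
  have hM4 : M ≤ 4 := by
    rw [hM, div_le_iff₀ hq]
    have h2 : (1 - r) ≤ q * (1 + r) := by
      rwa [div_le_iff₀ (by linarith)] at hqge
    nlinarith
  have hMq : M * q = 1 - r ^ 2 := by rw [hM]; field_simp
  set X := N * L / g with hX
  have hX0 : 0 < X := by positivity
  have e1 : q * N * L / g = q * X := by rw [hX]; ring
  have e2 : M * (q * X) ^ p = M ^ (1 - p) * ((1 - r ^ 2) * X) ^ p := by
    rw [← hMq, mul_assoc M q X, Real.mul_rpow hM0.le (by positivity), ← mul_assoc,
      ← Real.rpow_add hM0]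
    norm_num
  have e3 : M ^ (1 - p) ≤ 4 := by
    calc M ^ (1 - p) ≤ 4 ^ (1 - p) := Real.rpow_le_rpow hM0.le hM4 (by linarith)
      _ ≤ 4 ^ (1 : ℝ) := Real.rpow_le_rpow_of_exponent_le (by norm_num) (by linarith)
      _ = 4 := by norm_num
  have e4 : ((1 - r ^ 2) * X) ^ p ≤ 2 * (w * X) ^ p := by
    calc ((1 - r ^ 2) * X) ^ p ≤ (2 * (w * X)) ^ p := by
          apply Real.rpow_le_rpow (by positivity) _ hp.le
          have : 1 - r ^ 2 ≤ 2 * w := by nlinarith
          nlinarith
      _ = 2 ^ p * (w * X) ^ p := Real.mul_rpow (by norm_num) (by positivity)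
      _ ≤ 2 * (w * X) ^ p := by
          gcongr
          calc (2 : ℝ) ^ p ≤ 2 ^ (1 : ℝ) :=
                Real.rpow_le_rpow_of_exponent_le (by norm_num) hp1.le
            _ = 2 := by norm_num
  have e5 : (w * X) ^ p = (w * N * L) ^ p * g ^ (-p) := by
    have : w * X = w * N * L * g⁻¹ := by rw [hX]; ring
    rw [this, Real.mul_rpow (by positivity) (by positivity), Real.inv_rpow hg.le,
      Real.rpow_neg hg.le]
  have e6 : M * (q * X) ^ p ≤ 8 * ((w * N * L) ^ p * g ^ (-p)) := by
    rw [e2, ← e5]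
    have h7 : 0 ≤ (w * X) ^ p := by positivity
    calc M ^ (1 - p) * ((1 - r ^ 2) * X) ^ p ≤ 4 * (2 * (w * X) ^ p) := by
          gcongr
      _ = _ := by ring
  rw [e1]
  have e7 : 0 < Real.exp (-(N / 2)) := Real.exp_pos _
  calc M * ((q * X) ^ p / Real.cos (p * π / 2) + 4 * Real.exp (-(N / 2)))
      = (M * (q * X) ^ p) / Real.cos (p * π / 2) + M * 4 * Real.exp (-(N / 2)) := by ring
    _ ≤ (8 * ((w * N * L) ^ p * g ^ (-p))) / Real.cos (p * π / 2)
        + 4 * 4 * Real.exp (-(N / 2)) := by gcongr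
    _ = _ := by ring

end Pool.Agent.HQ
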