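import Pool.Agent.HQ.Thick
import Pool.Agent.HQ.AreaHolo

/-! HQ growth half, file AreaStrip: length-area estimate for a thin strip along an arc. -/

set_option autoImplicit false

open Complex Metric Set Filter Topology MeasureTheory
open scoped ComplexConjugate Real

namespace Pool.Agent.HQ

private theorem isOpen_rect_AS (σ α β : ℝ) : IsOpen (rectNhd σ α β) := by
  have h1 : IsOpen {ω : ℂ | |ω.re| < σ} := isOpen_lt continuous_re.abs continuous_const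
  have h2 : IsOpen {ω : ℂ | α - σ < ω.im} := isOpen_lt continuous_const continuous_im
  have h3 : IsOpen {ω : ℂ | ω.im < β + σ} := isOpen_lt continuous_im continuous_const
  exact h1.inter (h2.inter h3)

private theorem mem_rect_AS {σ₀ α β s θ : ℝ} (hs : |s| < σ₀) (h1 : α ≤ θ) (h2 : θ ≤ β) :
    ((s : ℂ) + θ * I) ∈ rectNhd σ₀ α β := by
  have h0 : 0 < σ₀ := (abs_nonneg s).trans_lt hs
  have e1 : ((s : ℂ) + θ * I).re = s := by simp
  have e2 : ((s : ℂ) + θ * I).im = θ := by simp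
  refine ⟨?_, ?_, ?_⟩
  · rw [e1]; exact hs
  · rw [e2]; linarith
  · rw [e2]; linarith

private theorem vert_AS {g : ℂ → ℂ} {U : Set ℂ} (hU : IsOpen U) (hg : DifferentiableOn ℂ g U)
    {s θ : ℝ} (h : ((s : ℂ) + θ * I) ∈ U) :
    HasDerivAt (fun t : ℝ => g ((s : ℂ) + t * I)) (deriv g ((s : ℂ) + θ * I) * I) θ := by
  have h1 : HasDerivAt g (deriv g ((s : ℂ) + θ * I)) ((s : ℂ) + θ * I) :=
    (hg.differentiableAt (hU.mem_nhds h)).hasDerivAt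
  have h2 : HasDerivAt (fun t : ℂ => (s : ℂ) + t * I) I (θ : ℂ) := by
    simpa using ((hasDerivAt_id (θ : ℂ)).mul_const I).const_add (s : ℂ)
  exact (HasDerivAt.comp (θ : ℂ) h1 h2).comp_ofReal

private theorem contd_AS {g : ℂ → ℂ} {U : Set ℂ} (hU : IsOpen U) (hg : DifferentiableOn ℂ g U)
    {s a b : ℝ} (h : ∀ θ ∈ Icc a b, ((s : ℂ) + θ * I) ∈ U) :
    ContinuousOn (fun θ : ℝ => deriv g ((s : ℂ) + θ * I)) (Icc a b) := by
  refine (hg.deriv hU).continuousOn.comp (t := U) ?_ h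
  fun_prop

private theorem len_AS {g : ℂ → ℂ} {U : Set ℂ} (hU : IsOpen U) (hg : DifferentiableOn ℂ g U)
    {s a b : ℝ} (hab : a ≤ b) (h : ∀ θ ∈ Icc a b, ((s : ℂ) + θ * I) ∈ U) :
    ‖g ((s : ℂ) + b * I) - g ((s : ℂ) + a * I)‖ ≤
      ∫ θ in a..b, ‖deriv g ((s : ℂ) + θ * I)‖ := by
  have hc := contd_AS hU hg h
  have h1 := intervalIntegral.integral_eq_sub_of_hasDerivAt (a := a) (b := b)
    (f := fun t : ℝ => g ((s : ℂ) + t * I)) (f' := fun θ => deriv g ((s : ℂ) + θ * I) * I)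
    (fun θ hθ => vert_AS hU hg (h θ (by rwa [uIcc_of_le hab] at hθ)))
    ((hc.mul continuousOn_const).intervalIntegrable_of_Icc hab)
  rw [← h1]
  refine (intervalIntegral.norm_integral_le_integral_norm hab).trans (le_of_eq ?_)
  refine intervalIntegral.integral_congr fun θ _ => ?_
  show ‖deriv g ((s : ℂ) + θ * I) * I‖ = ‖deriv g ((s : ℂ) + θ * I)‖
  rw [norm_mul, norm_I, mul_one]

private theorem cs_AS {f : ℝ → ℝ} {a b : ℝ} (hab : a < b) (hf : ContinuousOn f (Icc a b)) :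
    (∫ θ in a..b, f θ) ^ 2 ≤ (b - a) * ∫ θ in a..b, f θ ^ 2 := by
  have hi1 : IntervalIntegrable f volume a b := hf.intervalIntegrable_of_Icc hab.le
  have hi2 : IntervalIntegrable (fun θ => f θ ^ 2) volume a b :=
    (hf.pow 2).intervalIntegrable_of_Icc hab.le
  have h0 : 0 < b - a := by linarith
  generalize hM : ∫ θ in a..b, f θ = M
  generalize hQ : ∫ θ in a..b, f θ ^ 2 = Q
  have h1 : 0 ≤ ∫ θ in a..b, (f θ - M / (b - a)) ^ 2 :=
    intervalIntegral.integral_nonneg hab.le fun θ _ => sq_nonneg _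
  have h2 : ∫ θ in a..b, (f θ - M / (b - a)) ^ 2 =
      Q - 2 * (M / (b - a)) * M + (M / (b - a)) ^ 2 * (b - a) := by
    have e : ∀ θ, (f θ - M / (b - a)) ^ 2 =
        f θ ^ 2 - 2 * (M / (b - a)) * f θ + (M / (b - a)) ^ 2 := fun θ => by ring
    simp only [e]
    rw [intervalIntegral.integral_add (hi2.sub (hi1.const_mul _)) intervalIntegrable_const,
      intervalIntegral.integral_sub hi2 (hi1.const_mul _),
      intervalIntegral.integral_const_mul, intervalIntegral.integral_const, hM, hQ, smul_eq_mul,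
      mul_comm (b - a)]
  rw [h2] at h1
  have h3 : M / (b - a) * (b - a) = M := div_mul_cancel₀ M h0.ne'
  have h4 : 0 ≤ (b - a) * (Q - 2 * (M / (b - a)) * M + (M / (b - a)) ^ 2 * (b - a)) :=
    mul_nonneg h0.le h1
  generalize M / (b - a) = c at h3 h4
  nlinarith

private theorem tonelli_AS {f : ℂ → ENNReal} (hf : Measurable f) (σ α β : ℝ) :
    ∫⁻ x in {ω : ℂ | 0 < ω.re ∧ ω.re < σ ∧ α < ω.im ∧ ω.im < β}, f x =
      ∫⁻ s in Ioo 0 σ, ∫⁻ θ in Ioo α β, f ((s : ℂ) + θ * I) := by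
  have h1 := (Complex.volume_preserving_equiv_real_prod.symm).setLIntegral_comp_preimage_emb
    Complex.measurableEquivRealProd.symm.measurableEmbedding f
    {ω : ℂ | 0 < ω.re ∧ ω.re < σ ∧ α < ω.im ∧ ω.im < β}
  rw [← h1]
  have h2 : (Complex.measurableEquivRealProd.symm : ℝ × ℝ → ℂ) ⁻¹'
      {ω : ℂ | 0 < ω.re ∧ ω.re < σ ∧ α < ω.im ∧ ω.im < β} = Ioo 0 σ ×ˢ Ioo α β := by
    ext p
    constructor
    · rintro ⟨a, b, c, d⟩
      exact ⟨⟨a, b⟩, ⟨c, d⟩⟩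
    · rintro ⟨⟨a, b⟩, ⟨c, d⟩⟩
      exact ⟨a, b, c, d⟩
  rw [h2, Measure.volume_eq_prod, ← Measure.prod_restrict, lintegral_prod]
  · refine lintegral_congr fun s => lintegral_congr fun θ => ?_
    congr 1
    apply Complex.ext
    · simp
    · simp
  · exact (hf.comp Complex.measurableEquivRealProd.symm.measurable).aemeasurable

/-- LENGTH-AREA FOR THIN STRIPS.
Proof. Put `L s = ‖g (s + β I) - g (s + θ₀ I)‖ + ‖g (s + θ₀ I) - g (s + α I)‖`, continuous on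
`|s| < σ₀`, `L 0 ≥ 2 d`.  So there is `σ₁ ≤ σ₀` with `L s ^ 2 / (4π) ≥ d ^ 2 / π - ε` for
`0 ≤ s < σ₁`.  For `0 < s < σ₁`:
`L s ≤ ∫ θ in α..β, ‖deriv g (s + θ I)‖` (fundamental theorem of calculus along the vertical
segments) and Cauchy-Schwarz gives `L s ^ 2 ≤ (β - α) ∫ θ in α..β, ‖deriv g (s + θ I)‖ ^ 2`
`≤ 4π ∫ ...`.  By `volume_image_holo` on the open rectangle `(0, σ) × (α, β)` and Tonelli
(`Complex.volume_preserving_equiv_real_prod`/`measurableEquivRealProd`)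
`volume (g '' R) = ∫⁻ s in Ioo 0 σ, ∫⁻ θ in Ioo α β, ‖deriv g‖ ^ 2 ≥ σ (d ^ 2 / π - ε)`. -/
theorem area_strip {g : ℂ → ℂ} {σ₀ α β θ₀ d : ℝ} (hσ₀ : 0 < σ₀) (hα : α < θ₀) (hβ : θ₀ < β)
    (hlen : β - α ≤ 4 * π) (hg : DifferentiableOn ℂ g (rectNhd σ₀ α β))
    (hinj : InjOn g {ω | |ω.re| < σ₀ ∧ α ≤ ω.im ∧ ω.im ≤ β}) (hd : 0 ≤ d)
    (h1 : d ≤ ‖g (α * I) - g (θ₀ * I)‖) (h2 : d ≤ ‖g (β * I) - g (θ₀ * I)‖) {ε : ℝ}
    (hε : 0 < ε) :
    ∃ σ₁ > 0, σ₁ ≤ σ₀ ∧ ∀ σ ∈ Ioo 0 σ₁, ENNReal.ofReal (σ * (d ^ 2 / π - ε)) ≤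
      volume (g '' {ω | 0 < ω.re ∧ ω.re < σ ∧ α < ω.im ∧ ω.im < β}) := by
  have hU := isOpen_rect_AS σ₀ α β
  have hπ := Real.pi_pos
  have hαβ : α < β := hα.trans hβ
  have hcg : ∀ θ ∈ Icc α β, ContinuousAt (fun s : ℝ => g ((s : ℂ) + θ * I)) 0 := by
    intro θ hθ
    have h3 : ((((0 : ℝ) : ℝ) : ℂ) + θ * I) ∈ rectNhd σ₀ α β :=
      mem_rect_AS (by rwa [abs_zero]) hθ.1 hθ.2
    have h4 : ContinuousAt g ((((0 : ℝ) : ℝ) : ℂ) + θ * I) :=
      (hg.differentiableAt (hU.mem_nhds h3)).continuousAt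
    exact ContinuousAt.comp (f := fun s : ℝ => (s : ℂ) + θ * I) h4 (by fun_prop)
  have hL : ContinuousAt (fun s : ℝ => (‖g ((s : ℂ) + β * I) - g ((s : ℂ) + θ₀ * I)‖ +
      ‖g ((s : ℂ) + θ₀ * I) - g ((s : ℂ) + α * I)‖) ^ 2 / (4 * π)) 0 :=
    ((((hcg β ⟨hαβ.le, le_rfl⟩).sub (hcg θ₀ ⟨hα.le, hβ.le⟩)).norm.add
      ((hcg θ₀ ⟨hα.le, hβ.le⟩).sub (hcg α ⟨le_rfl, hαβ.le⟩)).norm).pow 2).div_const _
  have hL0 : d ^ 2 / π - ε < (‖g (((0 : ℝ) : ℂ) + β * I) - g (((0 : ℝ) : ℂ) + θ₀ * I)‖ +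
      ‖g (((0 : ℝ) : ℂ) + θ₀ * I) - g (((0 : ℝ) : ℂ) + α * I)‖) ^ 2 / (4 * π) := by
    rw [ofReal_zero, zero_add, zero_add, zero_add, norm_sub_rev (g (θ₀ * I)) (g (α * I))]
    have h3 : 2 * d ≤ ‖g (β * I) - g (θ₀ * I)‖ + ‖g (α * I) - g (θ₀ * I)‖ := by linarith
    have h4 : (2 * d) ^ 2 ≤ (‖g (β * I) - g (θ₀ * I)‖ + ‖g (α * I) - g (θ₀ * I)‖) ^ 2 :=
      pow_le_pow_left₀ (by linarith) h3 2
    have h5 : d ^ 2 / π = (2 * d) ^ 2 / (4 * π) := by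
      field_simp
      ring
    have h6 : (2 * d) ^ 2 / (4 * π) ≤
        (‖g (β * I) - g (θ₀ * I)‖ + ‖g (α * I) - g (θ₀ * I)‖) ^ 2 / (4 * π) :=
      div_le_div_of_nonneg_right h4 (by positivity)
    linarith
  obtain ⟨η, hη, hηL⟩ := Metric.eventually_nhds_iff.1 (hL.eventually (lt_mem_nhds hL0))
  refine ⟨min η σ₀, lt_min hη hσ₀, min_le_right _ _, fun σ hσ => ?_⟩
  have hση : σ < η := lt_of_lt_of_le hσ.2 (min_le_left _ _)
  have hσσ : σ < σ₀ := lt_of_lt_of_le hσ.2 (min_le_right _ _)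
  have hR : {ω : ℂ | 0 < ω.re ∧ ω.re < σ ∧ α < ω.im ∧ ω.im < β} ⊆
      {ω | |ω.re| < σ₀ ∧ α ≤ ω.im ∧ ω.im ≤ β} := by
    rintro ω ⟨a, b, c, e⟩
    refine ⟨?_, c.le, e.le⟩
    rw [abs_of_pos a]
    linarith
  have hR' : {ω : ℂ | |ω.re| < σ₀ ∧ α ≤ ω.im ∧ ω.im ≤ β} ⊆ rectNhd σ₀ α β := by
    rintro ω ⟨a, b, c⟩
    exact ⟨a, by linarith, by linarith⟩
  have hRo : IsOpen {ω : ℂ | 0 < ω.re ∧ ω.re < σ ∧ α < ω.im ∧ ω.im < β} :=
    (isOpen_lt continuous_const continuous_re).inter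
      ((isOpen_lt continuous_re continuous_const).inter
        ((isOpen_lt continuous_const continuous_im).inter
          (isOpen_lt continuous_im continuous_const)))
  rw [volume_image_holo hRo.measurableSet hRo (hg.mono (hR.trans hR')) (hinj.mono hR),
    tonelli_AS (((measurable_deriv g).norm.pow_const 2).ennreal_ofReal) σ α β]
  have key : ∀ s ∈ Ioo (0 : ℝ) σ, ENNReal.ofReal (d ^ 2 / π - ε) ≤
      ∫⁻ θ in Ioo α β, ENNReal.ofReal (‖deriv g ((s : ℂ) + θ * I)‖ ^ 2) := by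
    intro s hs
    have hs0 : |s| < σ₀ := by
      rw [abs_of_pos hs.1]
      linarith [hs.2]
    have hmem : ∀ θ ∈ Icc α β, ((s : ℂ) + θ * I) ∈ rectNhd σ₀ α β :=
      fun θ hθ => mem_rect_AS hs0 hθ.1 hθ.2
    have hc := (contd_AS hU hg hmem).norm
    have h3 := len_AS hU hg hβ.le (fun θ hθ => hmem θ ⟨hα.le.trans hθ.1, hθ.2⟩)
    have h4 := len_AS hU hg hα.le (fun θ hθ => hmem θ ⟨hθ.1, hθ.2.trans hβ.le⟩)
    have hi1 : IntervalIntegrable (fun θ : ℝ => ‖deriv g ((s : ℂ) + θ * I)‖) volume α θ₀ :=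
      (hc.mono (Icc_subset_Icc le_rfl hβ.le)).intervalIntegrable_of_Icc hα.le
    have hi2 : IntervalIntegrable (fun θ : ℝ => ‖deriv g ((s : ℂ) + θ * I)‖) volume θ₀ β :=
      (hc.mono (Icc_subset_Icc hα.le le_rfl)).intervalIntegrable_of_Icc hβ.le
    have h5 := intervalIntegral.integral_add_adjacent_intervals hi1 hi2
    have h6 := cs_AS hαβ hc
    have h7 := hηL (y := s) (by
      rw [Real.dist_eq, sub_zero, abs_of_pos hs.1]
      linarith [hs.2])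
    have h8 : (‖g ((s : ℂ) + β * I) - g ((s : ℂ) + θ₀ * I)‖ +
        ‖g ((s : ℂ) + θ₀ * I) - g ((s : ℂ) + α * I)‖) ^ 2 ≤
        (∫ θ in α..β, ‖deriv g ((s : ℂ) + θ * I)‖) ^ 2 :=
      pow_le_pow_left₀ (by positivity) (by linarith) 2
    have h9 : 0 ≤ ∫ θ in α..β, ‖deriv g ((s : ℂ) + θ * I)‖ ^ 2 :=
      intervalIntegral.integral_nonneg hαβ.le fun θ _ => by positivity
    have h10 : d ^ 2 / π - ε ≤ ∫ θ in α..β, ‖deriv g ((s : ℂ) + θ * I)‖ ^ 2 := by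
      refine h7.le.trans ?_
      rw [div_le_iff₀ (by positivity)]
      refine (h8.trans h6).trans ?_
      rw [mul_comm]
      exact mul_le_mul_of_nonneg_left hlen h9
    refine (ENNReal.ofReal_le_ofReal h10).trans (le_of_eq ?_)
    rw [intervalIntegral.integral_of_le hαβ.le, integral_Ioc_eq_integral_Ioo,
      ofReal_integral_eq_lintegral_ofReal]
    · exact ((hc.pow 2).integrableOn_Icc (μ := volume)).mono_set Ioo_subset_Icc_self
    · exact Filter.Eventually.of_forall fun θ => by positivity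
  calc ENNReal.ofReal (σ * (d ^ 2 / π - ε)) =
        ENNReal.ofReal (d ^ 2 / π - ε) * volume (Ioo (0 : ℝ) σ) := by
        rw [Real.volume_Ioo, sub_zero, ENNReal.ofReal_mul hσ.1.le, mul_comm]
    _ = ∫⁻ _ in Ioo (0 : ℝ) σ, ENNReal.ofReal (d ^ 2 / π - ε) := by
        rw [setLIntegral_const]
    _ ≤ _ := setLIntegral_mono' measurableSet_Ioo key

end Pool.Agent.HQ
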