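import Mathlib

/-!
# HQ: Hardy spaces of univalent harmonic maps, exponent 1/4 (MP_7da5c3_an)

Base definitions.  For a univalent sense preserving harmonic map `f = h + conj g` put
`A = h + g`, `B = h - g`; then `Re f = Re A`, `Im f = Im B`, `|h'|^2 - |g'|^2 = Re (B' conj A')`.
-/

set_option autoImplicit false

open Complex Metric Set Filter Topology MeasureTheory
open scoped ComplexConjugate Real

namespace Pool.Agent.HQ

/-- `z ↦ Re A(z) + i Im B(z)`. -/
noncomputable def shearMap (A B : ℂ → ℂ) (z : ℂ) : ℂ := ⟨(A z).re, (B z).im⟩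

/-- The pair `(A, B) = (h + g, h - g)` of a harmonic map `h + conj g` that is univalent and sense
preserving on the closed unit disc, with `h, g` analytic at every point of the closed disc. -/
structure HPair (A B : ℂ → ℂ) : Prop where
  anA : AnalyticOnNhd ℂ A (closedBall 0 1)
  anB : AnalyticOnNhd ℂ B (closedBall 0 1)
  inj : InjOn (shearMap A B) (closedBall 0 1)
  pos : ∀ z ∈ closedBall (0 : ℂ) 1, 0 < (deriv B z * conj (deriv A z)).re

/-- The conformal size of `A` at `z`. -/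
noncomputable def rho (A : ℂ → ℂ) (z : ℂ) : ℝ := (1 - ‖z‖ ^ 2) * ‖deriv A z‖

/-- The automorphism of the disc with `mob a 0 = a`. -/
noncomputable def mob (a z : ℂ) : ℂ := (z + a) / (1 + conj a * z)

/-- A lift through `A` of the arc `θ ↦ t e^{iθ}`, `α ≤ θ ≤ β`, in the open unit disc. -/
structure IsLift (A : ℂ → ℂ) (t α β : ℝ) (z : ℝ → ℂ) : Prop where
  cont : ContinuousOn z (Icc α β)
  mem : ∀ θ ∈ Icc α β, z θ ∈ ball (0 : ℂ) 1
  eq : ∀ θ ∈ Icc α β, A (z θ) = t * exp (θ * I)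

variable {A B : ℂ → ℂ}

lemma HPair.deriv_ne (h : HPair A B) {z : ℂ} (hz : z ∈ closedBall (0 : ℂ) 1) : deriv A z ≠ 0 := by
  intro h0
  have := h.pos z hz
  simp [h0] at this

lemma HPair.derivB_ne (h : HPair A B) {z : ℂ} (hz : z ∈ closedBall (0 : ℂ) 1) :
    deriv B z ≠ 0 := by
  intro h0
  have := h.pos z hz
  simp [h0] at this

lemma HPair.diffA (h : HPair A B) : DifferentiableOn ℂ A (ball 0 1) := fun z hz =>
  (h.anA z (ball_subset_closedBall hz)).differentiableAt.differentiableWithinAt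

lemma HPair.diffB (h : HPair A B) : DifferentiableOn ℂ B (ball 0 1) := fun z hz =>
  (h.anB z (ball_subset_closedBall hz)).differentiableAt.differentiableWithinAt

lemma one_add_conj_mul_ne {a z : ℂ} (ha : ‖a‖ < 1) (hz : ‖z‖ ≤ 1) : 1 + conj a * z ≠ 0 := by
  intro h0
  have h1 : conj a * z = -1 := by linear_combination h0
  have h2 : ‖a‖ * ‖z‖ = 1 := by
    have := congrArg norm h1
    simpa using this
  nlinarith [norm_nonneg a, norm_nonneg z]

/-- `1 - |mob a z|^2 = (1-|a|^2)(1-|z|^2)/|1+conj a z|^2`. -/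
lemma one_sub_normSq_mob {a z : ℂ} (ha : ‖a‖ < 1) (hz : ‖z‖ ≤ 1) :
    1 - ‖mob a z‖ ^ 2 = (1 - ‖a‖ ^ 2) * (1 - ‖z‖ ^ 2) / ‖1 + conj a * z‖ ^ 2 := by
  have hne := one_add_conj_mul_ne ha hz
  have hpos : 0 < ‖1 + conj a * z‖ ^ 2 := by positivity
  rw [mob, norm_div, div_pow, eq_div_iff hpos.ne', sub_mul, div_mul_cancel₀ _ hpos.ne', one_mul]
  rw [← normSq_eq_norm_sq, ← normSq_eq_norm_sq, ← normSq_eq_norm_sq, ← normSq_eq_norm_sq]
  simp only [normSq_apply, add_re, add_im, mul_re, mul_im, conj_re, conj_im, one_re, one_im]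
  ring

lemma mob_mem_closedBall {a z : ℂ} (ha : ‖a‖ < 1) (hz : z ∈ closedBall (0 : ℂ) 1) :
    mob a z ∈ closedBall (0 : ℂ) 1 := by
  rw [mem_closedBall_zero_iff] at hz ⊢
  have h := one_sub_normSq_mob ha hz
  have h1 : 0 ≤ (1 - ‖a‖ ^ 2) * (1 - ‖z‖ ^ 2) / ‖1 + conj a * z‖ ^ 2 := by
    have ha2 : 0 ≤ 1 - ‖a‖ ^ 2 := by nlinarith [norm_nonneg a]
    have hz2 : 0 ≤ 1 - ‖z‖ ^ 2 := by nlinarith [norm_nonneg z]
    positivity
  nlinarith [norm_nonneg (mob a z)]

lemma mob_mem_ball {a z : ℂ} (ha : ‖a‖ < 1) (hz : z ∈ ball (0 : ℂ) 1) :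
    mob a z ∈ ball (0 : ℂ) 1 := by
  rw [mem_ball_zero_iff] at hz ⊢
  have h := one_sub_normSq_mob ha hz.le
  have hne := one_add_conj_mul_ne ha hz.le
  have h1 : 0 < (1 - ‖a‖ ^ 2) * (1 - ‖z‖ ^ 2) / ‖1 + conj a * z‖ ^ 2 := by
    have ha2 : 0 < 1 - ‖a‖ ^ 2 := by nlinarith [norm_nonneg a]
    have hz2 : 0 < 1 - ‖z‖ ^ 2 := by nlinarith [norm_nonneg z]
    have : 0 < ‖1 + conj a * z‖ ^ 2 := by positivity
    positivity
  nlinarith [norm_nonneg (mob a z)]

lemma norm_mob_of_norm_eq {a z : ℂ} (ha : ‖a‖ < 1) (hz : ‖z‖ = 1) : ‖mob a z‖ = 1 := by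
  have h := one_sub_normSq_mob ha hz.le
  rw [hz] at h
  have h1 : ‖mob a z‖ ^ 2 = 1 := by
    have : (1 - ‖a‖ ^ 2) * (1 - (1:ℝ) ^ 2) / ‖1 + conj a * z‖ ^ 2 = 0 := by simp
    linarith
  nlinarith [norm_nonneg (mob a z)]

@[simp] lemma mob_zero_right (a : ℂ) : mob a 0 = a := by simp [mob]

@[simp] lemma mob_zero_left (z : ℂ) : mob 0 z = z := by simp [mob]

lemma mob_neg_mob {a z : ℂ} (ha : ‖a‖ < 1) (hz : ‖z‖ ≤ 1) : mob (-a) (mob a z) = z := by
  have hne := one_add_conj_mul_ne ha hz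
  have h2 : (1 : ℂ) - conj a * a ≠ 0 := by
    have : conj a * a = ((‖a‖ ^ 2 : ℝ) : ℂ) := by
      rw [mul_comm, mul_conj, normSq_eq_norm_sq]
    rw [this, ← ofReal_one, ← ofReal_sub, ofReal_ne_zero]
    nlinarith [norm_nonneg a]
  have h3 : 1 + conj (-a) * mob a z = (1 - conj a * a) / (1 + conj a * z) := by
    rw [mob, map_neg, eq_div_iff hne, add_mul, mul_assoc, div_mul_cancel₀ _ hne]; ring
  have h4 : mob a z + -a = z * (1 - conj a * a) / (1 + conj a * z) := by
    rw [mob, eq_div_iff hne, add_mul, div_mul_cancel₀ _ hne]; ring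
  rw [mob, h3, h4, div_div_div_cancel_right₀ hne, mul_div_assoc, div_self h2, mul_one]

lemma mob_injOn {a : ℂ} (ha : ‖a‖ < 1) : InjOn (mob a) (closedBall 0 1) := by
  intro z hz w hw h
  rw [mem_closedBall_zero_iff] at hz hw
  rw [← mob_neg_mob ha hz, ← mob_neg_mob ha hw, h]

lemma analyticAt_mob {a z : ℂ} (ha : ‖a‖ < 1) (hz : ‖z‖ ≤ 1) : AnalyticAt ℂ (mob a) z := by
  have hne := one_add_conj_mul_ne ha hz
  unfold mob
  fun_prop (disch := assumption)

lemma hasDerivAt_mob {a z : ℂ} (ha : ‖a‖ < 1) (hz : ‖z‖ ≤ 1) :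
    HasDerivAt (mob a) (((1 - ‖a‖ ^ 2 : ℝ) : ℂ) / (1 + conj a * z) ^ 2) z := by
  have hne := one_add_conj_mul_ne ha hz
  have h1 : HasDerivAt (fun z : ℂ => z + a) 1 z := (hasDerivAt_id z).add_const a
  have h2 : HasDerivAt (fun z : ℂ => 1 + conj a * z) (conj a) z := by
    simpa using ((hasDerivAt_id z).const_mul (conj a)).const_add 1
  have h3 := h1.div h2 hne
  refine h3.congr_deriv ?_
  have : ((1 - ‖a‖ ^ 2 : ℝ) : ℂ) = 1 - a * conj a := by
    rw [mul_conj, normSq_eq_norm_sq]; push_cast; ring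
  rw [this]
  congr 1
  ring

/-- Pairs are stable under composition with disc automorphisms. -/
lemma HPair.comp_mob (h : HPair A B) {a : ℂ} (ha : ‖a‖ < 1) :
    HPair (fun z => A (mob a z)) (fun z => B (mob a z)) := by
  have key : ∀ (G : ℂ → ℂ), AnalyticOnNhd ℂ G (closedBall 0 1) → ∀ z ∈ closedBall (0:ℂ) 1,
      deriv (fun z => G (mob a z)) z = deriv G (mob a z) * deriv (mob a) z := by
    intro G hG z hz
    have h1 := (hG _ (mob_mem_closedBall ha hz)).differentiableAt.hasDerivAt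
    have h2 := (analyticAt_mob ha (mem_closedBall_zero_iff.1 hz)).differentiableAt.hasDerivAt
    exact (h1.comp z h2).deriv
  refine ⟨fun z hz => ?_, fun z hz => ?_, ?_, ?_⟩
  · exact (h.anA _ (mob_mem_closedBall ha hz)).comp (analyticAt_mob ha (mem_closedBall_zero_iff.1 hz))
  · exact (h.anB _ (mob_mem_closedBall ha hz)).comp (analyticAt_mob ha (mem_closedBall_zero_iff.1 hz))
  · intro z hz w hw hzw
    exact mob_injOn ha hz hw (h.inj (mob_mem_closedBall ha hz) (mob_mem_closedBall ha hw) hzw)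
  · intro z hz
    rw [key A h.anA z hz, key B h.anB z hz]
    have h1 := h.pos _ (mob_mem_closedBall ha hz)
    have hd : deriv (mob a) z ≠ 0 := by
      rw [(hasDerivAt_mob ha (mem_closedBall_zero_iff.1 hz)).deriv]
      have hne := one_add_conj_mul_ne ha (mem_closedBall_zero_iff.1 hz)
      have : ((1 - ‖a‖ ^ 2 : ℝ) : ℂ) ≠ 0 := by
        rw [ofReal_ne_zero]; nlinarith [norm_nonneg a]
      exact div_ne_zero this (pow_ne_zero _ hne)
    have : deriv B (mob a z) * deriv (mob a) z * conj (deriv A (mob a z) * deriv (mob a) z)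
        = (deriv B (mob a z) * conj (deriv A (mob a z))) * ((normSq (deriv (mob a) z) : ℝ) : ℂ) := by
      rw [map_mul, ← mul_conj]; ring
    rw [this, re_mul_ofReal]
    exact mul_pos h1 (normSq_pos.2 hd)

/-- `rho` is conformally invariant. -/
lemma rho_comp_mob (hA : AnalyticOnNhd ℂ A (closedBall 0 1)) {a z : ℂ} (ha : ‖a‖ < 1)
    (hz : z ∈ closedBall (0 : ℂ) 1) : rho (fun z => A (mob a z)) z = rho A (mob a z) := by
  have h1 := (hA _ (mob_mem_closedBall ha hz)).differentiableAt.hasDerivAt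
  have hz' := mem_closedBall_zero_iff.1 hz
  have h2 := hasDerivAt_mob ha hz'
  have h3 : deriv (fun z => A (mob a z)) z = _ := (h1.comp z h2).deriv
  rw [rho, rho, h3, one_sub_normSq_mob ha hz', norm_mul, norm_div, norm_pow, norm_real,
    Real.norm_of_nonneg (by nlinarith [norm_nonneg a] : (0:ℝ) ≤ 1 - ‖a‖ ^ 2)]
  ring

/-- Pairs are stable under affine changes of the image. -/
lemma HPair.affine (h : HPair A B) {c q s : ℝ} (hc : 0 < c) (hq : 0 < q) (d e : ℂ) :
    HPair (fun z => c * A z + d) (fun z => q * (B z - I * s * A z) + e) := by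
  have dA : ∀ z ∈ closedBall (0:ℂ) 1, deriv (fun z => (c:ℂ) * A z + d) z = c * deriv A z := by
    intro z hz
    exact (((h.anA z hz).differentiableAt.hasDerivAt.const_mul (c:ℂ)).add_const d).deriv
  have dB : ∀ z ∈ closedBall (0:ℂ) 1, deriv (fun z => (q:ℂ) * (B z - I * s * A z) + e) z
      = q * (deriv B z - I * s * deriv A z) := by
    intro z hz
    exact ((((h.anB z hz).differentiableAt.hasDerivAt.sub
      ((h.anA z hz).differentiableAt.hasDerivAt.const_mul (I * s))).const_mul (q:ℂ)).add_const e).deriv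
  refine ⟨fun z hz => ?_, fun z hz => ?_, ?_, ?_⟩
  · have := h.anA z hz
    fun_prop
  · have := h.anA z hz
    have := h.anB z hz
    fun_prop
  · intro z hz w hw hzw
    apply h.inj hz hw
    simp only [shearMap, Complex.mk.injEq] at hzw ⊢
    obtain ⟨h1, h2⟩ := hzw
    simp only [add_re, add_im, mul_re, mul_im, sub_re, sub_im, ofReal_re, ofReal_im, I_re, I_im,
      zero_mul, sub_zero, one_mul, zero_add, mul_zero, add_zero] at h1 h2
    have e1 : (A z).re = (A w).re := by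
      have : c * (A z).re = c * (A w).re := by linarith
      exact mul_left_cancel₀ hc.ne' this
    refine ⟨e1, ?_⟩
    have : q * ((B z).im - s * (A z).re) = q * ((B w).im - s * (A w).re) := by linarith
    have := mul_left_cancel₀ hq.ne' this
    rw [e1] at this
    linarith
  · intro z hz
    rw [dA z hz, dB z hz]
    have h1 := h.pos z hz
    have : ((q:ℂ) * (deriv B z - I * s * deriv A z) * conj ((c:ℂ) * deriv A z)).re
        = q * c * (deriv B z * conj (deriv A z)).re := by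
      simp only [map_mul, conj_ofReal, mul_re, mul_im, sub_re, sub_im, ofReal_re, ofReal_im, I_re,
        I_im, conj_re, conj_im]
      ring
    rw [this]
    positivity

end Pool.Agent.HQ
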