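import Pool.Agent.HQ.BootS

/-!
# HQ: iteration of the bootstrap
-/

set_option autoImplicit false

open Complex Metric Set Filter Topology MeasureTheory
open scoped ComplexConjugate Real

namespace Pool.Agent.HQ

/-- Iteration: with `δ = 1/α - a > 0`, by induction on `n` the bound holds with exponent
`min (n b² δ² / 36) a`. -/
theorem boot_real {b c α K1 : ℝ} (hb : 0 < b) (hb1 : b ≤ 1) (hc : 0 < c) (hc1 : c ≤ 1)
    (hα : 1 ≤ α) (hK1 : 0 < K1) (Cf : ℝ → ℝ → ℝ) (hCf : ∀ a p, 0 < Cf a p) {a : ℝ}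
    (ha : 0 < a) (ha1 : a < 1 / α) : ∃ C : ℝ, 0 < C ∧
      ∀ T : ℝ → ℝ, CoreIneq b c α K1 Cf T → ∀ L, 1 ≤ L → T L ≤ C * L ^ (-a) := by
  set η : ℝ := b ^ 2 / 36 * (1 / α - a) ^ 2 with hη
  have hδ : 0 < 1 / α - a := by linarith
  have hη0 : 0 < η := by positivity
  have key : ∀ n : ℕ, ∃ C : ℝ, 0 < C ∧ ∀ T : ℝ → ℝ, CoreIneq b c α K1 Cf T →
      ∀ L, 1 ≤ L → T L ≤ C * L ^ (-(min (n * η) a)) := by
    intro n
    induction n with
    | zero =>
      refine ⟨1, one_pos, fun T hT L hL => ?_⟩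
      have h1 : min (((0 : ℕ) : ℝ) * η) a = 0 := by
        rw [Nat.cast_zero, zero_mul]
        exact min_eq_left ha.le
      rw [h1, neg_zero, Real.rpow_zero, mul_one]
      exact hT.2.1 L
    | succ n ih =>
      obtain ⟨C₀, hC₀, h0⟩ := ih
      have hm0 : 0 ≤ min ((n : ℝ) * η) a := le_min (by positivity) ha.le
      have hma : min ((n : ℝ) * η) a ≤ a := min_le_right _ _
      obtain ⟨C, hC, h1⟩ := boot_step hb hb1 hc hc1 hα hK1 Cf hCf hm0
        (lt_of_le_of_lt hma ha1) hC₀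
      refine ⟨C, hC, fun T hT L hL => (h1 T hT (h0 T hT) L hL).trans ?_⟩
      refine mul_le_mul_of_nonneg_left ?_ hC.le
      refine Real.rpow_le_rpow_of_exponent_le hL ?_
      rw [neg_le_neg_iff]
      have h2 : η ≤ b ^ 2 / 36 * (1 / α - min ((n : ℝ) * η) a) ^ 2 := by
        rw [hη]
        refine mul_le_mul_of_nonneg_left ?_ (by positivity)
        exact pow_le_pow_left₀ hδ.le (by linarith) 2
      have h3 : min (((n + 1 : ℕ) : ℝ) * η) a ≤ min ((n : ℝ) * η) a + η := by
        rcases le_total ((n : ℝ) * η) a with h | h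
        · rw [min_eq_left h]
          refine (min_le_left _ _).trans ?_
          push_cast
          linarith
        · rw [min_eq_right h]
          exact (min_le_right _ _).trans (by linarith)
      linarith
  obtain ⟨n, hn⟩ := exists_nat_ge (a / η)
  obtain ⟨C, hC, h1⟩ := key n
  have h2 : min ((n : ℝ) * η) a = a := by
    refine min_eq_right ?_
    rw [div_le_iff₀ hη0] at hn
    exact hn
  rw [h2] at h1
  exact ⟨C, hC, h1⟩

end Pool.Agent.HQ
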