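import Pool.Agent.HQ.Core
import Pool.Agent.HQ.BootR

/-!
# HQ: tails and means of normalised pairs
-/

set_option autoImplicit false

open Complex Metric Set Filter Topology MeasureTheory
open scoped ComplexConjugate Real

namespace Pool.Agent.HQ

/-- The family of normalised pairs with a given growth. -/
theorem tail_bound {K : ℝ} (hK : Loc K) {α K1 a : ℝ} (hα : 1 ≤ α) (hK1 : 0 < K1) (ha : 0 < a)
    (ha1 : a < 1 / α) : ∃ C : ℝ, 0 < C ∧ ∀ A B : ℂ → ℂ, Nrm A B →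
      (∀ z : ℂ, ‖z‖ < 1 → ‖A z‖ ≤ K1 * (1 - ‖z‖) ^ (-α)) →
        ∀ L, 1 ≤ L → tail A L ≤ C * L ^ (-a) := by
  obtain ⟨b, c, hb, hb1, hc, hc1, hcore⟩ := core hK
  have hex : ∀ a p : ℝ, ∃ C : ℝ, 0 < C ∧ (0 < a → a < 1 → 0 < p → p < 1 →
      ∀ A B : ℂ → ℂ, Nrm A B →
      ∀ t L N d w Y : ℝ, 1 ≤ t → 64 * t ≤ L → 1 ≤ N → 0 < d → 0 < w → 0 < Y →
        (∀ z : ℂ, ‖z‖ < 1 → t / 2 ≤ ‖A z‖ → 1 - ‖z‖ ≤ w) →
        tail A L ≤ C * ((d / L) ^ b + (t / L) ^ a) * tail A (c * t)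
          + C * ((w * N * L) ^ p * t * Y ^ (1 - p) + Real.exp (-(N / 2)) * t * Y) / d ^ 2
          + C * ((N * L / Y) ^ p + Real.exp (-(N / 2)))) := by
    intro a p
    by_cases h : 0 < a ∧ a < 1 ∧ 0 < p ∧ p < 1
    · obtain ⟨C, hC, h1⟩ := hcore a p h.1 h.2.1 h.2.2.1 h.2.2.2
      exact ⟨C, hC, fun _ _ _ _ => h1⟩
    · exact ⟨1, one_pos, fun h1 h2 h3 h4 => absurd ⟨h1, h2, h3, h4⟩ h⟩
  choose Cf hCf hCf2 using hex
  obtain ⟨C, hC, hboot⟩ := boot_real hb hb1 hc hc1 hα hK1 Cf hCf ha ha1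
  refine ⟨C, hC, fun A B hAB hg L hL => ?_⟩
  refine hboot (tail A) ⟨fun L => tail_nonneg A L, fun L => tail_le_one
    (hAB.pair.anA.continuousOn.mono sphere_subset_closedBall) L, ?_⟩ L hL
  intro a' p ha' ha1' hp hp1 t L N d Y ht htL hN hd hY
  have ht0 : 0 < t := by linarith
  have hα0 : 0 < α := by linarith
  have hw0 : 0 < 2 * K1 / t := by positivity
  refine hCf2 a' p ha' ha1' hp hp1 A B hAB t L N d ((2 * K1 / t) ^ (1 / α)) Y ht htL hN hd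
    (Real.rpow_pos_of_pos hw0 _) hY (fun z hz hzt => ?_)
  have h1 : 0 < 1 - ‖z‖ := by linarith
  have h2 : t / 2 ≤ K1 * (1 - ‖z‖) ^ (-α) := hzt.trans (hg z hz)
  have h3 : (1 - ‖z‖) ^ α ≤ 2 * K1 / t := by
    rw [Real.rpow_neg h1.le] at h2
    have h4 : 0 < (1 - ‖z‖) ^ α := Real.rpow_pos_of_pos h1 _
    rw [le_div_iff₀ ht0]
    have h5 : t / 2 * (1 - ‖z‖) ^ α ≤ K1 := by
      have := mul_le_mul_of_nonneg_right h2 h4.le
      rwa [mul_assoc, inv_mul_cancel₀ h4.ne', mul_one] at this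
    linarith
  calc 1 - ‖z‖ = ((1 - ‖z‖) ^ α) ^ (1 / α) := by
        rw [← Real.rpow_mul h1.le, mul_one_div, div_self hα0.ne', Real.rpow_one]
    _ ≤ (2 * K1 / t) ^ (1 / α) :=
        Real.rpow_le_rpow (Real.rpow_nonneg h1.le _) h3 (by positivity)

private theorem boot_ci {A : ℂ → ℂ} (hA : ContinuousOn A (sphere 0 1)) (L : ℝ) :
    CircleIntegrable ({w : ℂ | L ≤ ‖A w‖}.indicator fun _ => (1 : ℝ)) 0 1 := by
  have hc : Continuous (fun θ : ℝ => A (circleMap 0 1 θ)) :=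
    hA.comp_continuous (continuous_circleMap 0 1)
      (fun θ => circleMap_mem_sphere 0 zero_le_one θ)
  have hm : MeasurableSet {θ : ℝ | L ≤ ‖A (circleMap 0 1 θ)‖} :=
    (isClosed_le continuous_const hc.norm).measurableSet
  have e : (fun θ : ℝ => ({w : ℂ | L ≤ ‖A w‖}.indicator fun _ => (1 : ℝ)) (circleMap 0 1 θ)) =
      {θ : ℝ | L ≤ ‖A (circleMap 0 1 θ)‖}.indicator fun _ => (1 : ℝ) := by
    ext θ
    simp only [indicator, mem_ofPred_eq]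
  rw [CircleIntegrable, e]
  have h1 : IntervalIntegrable (fun _ : ℝ => (1 : ℝ)) volume 0 (2 * π) :=
    intervalIntegrable_const
  exact ⟨h1.1.indicator hm, h1.2.indicator hm⟩

private theorem boot_pointwise {p : ℝ} (hp : 0 < p) (n : ℕ) : ∀ x : ℝ, 0 ≤ x → x ≤ 2 ^ n →
    x ^ p ≤ 1 + ∑ k ∈ Finset.range n, (2 ^ (k + 1) : ℝ) ^ p * if (2 : ℝ) ^ k ≤ x then 1 else 0 := by
  induction n with
  | zero =>
    intro x hx hx1
    simp only [pow_zero] at hx1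
    simpa using Real.rpow_le_one hx hx1 hp.le
  | succ n ih =>
    intro x hx hx1
    rw [Finset.sum_range_succ]
    have h0 : ∀ k, (0 : ℝ) ≤ (2 ^ (k + 1) : ℝ) ^ p * if (2 : ℝ) ^ k ≤ x then 1 else 0 := by
      intro k
      apply mul_nonneg (Real.rpow_nonneg (by positivity) _)
      split_ifs <;> norm_num
    rcases le_total x (2 ^ n) with h | h
    · have := ih x hx h
      linarith [h0 n]
    · rw [if_pos h, mul_one]
      have h1 : x ^ p ≤ (2 ^ (n + 1) : ℝ) ^ p := Real.rpow_le_rpow hx hx1 hp.le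
      have h2 := Finset.sum_nonneg fun k (_ : k ∈ Finset.range n) => h0 k
      linarith

/-- Layer cake. -/
theorem mean_of_tail {a p C : ℝ} (hp : 0 < p) (hpa : p < a) (hC : 0 < C) : ∃ M : ℝ, 0 < M ∧
    ∀ A : ℂ → ℂ, ContinuousOn A (sphere 0 1) → (∀ L, 1 ≤ L → tail A L ≤ C * L ^ (-a)) →
      Real.circleAverage (fun z => ‖A z‖ ^ p) 0 1 ≤ M := by
  set q : ℝ := 2 ^ (p - a) with hq
  have hq0 : 0 < q := Real.rpow_pos_of_pos two_pos _
  have hq1 : q < 1 := Real.rpow_lt_one_of_one_lt_of_neg one_lt_two (by linarith)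
  refine ⟨1 + C * (2 ^ p * (1 - q)⁻¹), ?_, fun A hA ht => ?_⟩
  · have : 0 < (1 - q)⁻¹ := inv_pos.mpr (by linarith)
    positivity
  obtain ⟨b, hb⟩ := (isCompact_sphere (0 : ℂ) 1).exists_bound_of_continuousOn hA
  obtain ⟨n, hn⟩ := pow_unbounded_of_one_lt b (one_lt_two (α := ℝ))
  have hci : ∀ k ∈ Finset.range n, CircleIntegrable (fun z : ℂ => (2 ^ (k + 1) : ℝ) ^ p *
      ({w : ℂ | (2 : ℝ) ^ k ≤ ‖A w‖}.indicator fun _ => (1 : ℝ)) z) 0 1 := by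
    intro k _
    exact IntervalIntegrable.const_mul (boot_ci hA (2 ^ k)) _
  have h1 : Real.circleAverage (fun z => ‖A z‖ ^ p) 0 1 ≤
      Real.circleAverage (fun z => 1 + ∑ k ∈ Finset.range n, (2 ^ (k + 1) : ℝ) ^ p *
      ({w : ℂ | (2 : ℝ) ^ k ≤ ‖A w‖}.indicator fun _ => (1 : ℝ)) z) 0 1 := by
    apply Real.circleAverage_mono
    · apply ContinuousOn.circleIntegrable zero_le_one
      exact hA.norm.rpow_const fun _ _ => Or.inr hp.le
    · have hs : CircleIntegrable (∑ k ∈ Finset.range n, fun z : ℂ => (2 ^ (k + 1) : ℝ) ^ p *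
          ({w : ℂ | (2 : ℝ) ^ k ≤ ‖A w‖}.indicator fun _ => (1 : ℝ)) z) 0 1 :=
        CircleIntegrable.sum _ hci
      have hs2 := (circleIntegrable_const (1 : ℝ) 0 1).add hs
      convert! hs2 using 1
      ext z
      simp
    · intro z hz
      rw [abs_one] at hz
      have h2 := boot_pointwise hp n ‖A z‖ (norm_nonneg _) ((hb z hz).trans hn.le)
      refine h2.trans (le_of_eq ?_)
      congr 1
  refine h1.trans ?_
  have h2 : Real.circleAverage (fun z => 1 + ∑ k ∈ Finset.range n, (2 ^ (k + 1) : ℝ) ^ p *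
      ({w : ℂ | (2 : ℝ) ^ k ≤ ‖A w‖}.indicator fun _ => (1 : ℝ)) z) 0 1 =
      1 + ∑ k ∈ Finset.range n, (2 ^ (k + 1) : ℝ) ^ p * tail A (2 ^ k) := by
    have hs : CircleIntegrable (∑ k ∈ Finset.range n, fun z : ℂ => (2 ^ (k + 1) : ℝ) ^ p *
          ({w : ℂ | (2 : ℝ) ^ k ≤ ‖A w‖}.indicator fun _ => (1 : ℝ)) z) 0 1 :=
      CircleIntegrable.sum _ hci
    have hs' : CircleIntegrable (fun z : ℂ => ∑ k ∈ Finset.range n, (2 ^ (k + 1) : ℝ) ^ p *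
          ({w : ℂ | (2 : ℝ) ^ k ≤ ‖A w‖}.indicator fun _ => (1 : ℝ)) z) 0 1 := by
      convert! hs using 1
      ext z
      simp
    rw [Real.circleAverage_fun_add (circleIntegrable_const (1 : ℝ) 0 1) hs',
      Real.circleAverage_const, Real.circleAverage_fun_sum hci]
    congr 1
    apply Finset.sum_congr rfl
    intro k _
    have h3 : (fun z : ℂ => (2 ^ (k + 1) : ℝ) ^ p *
      ({w : ℂ | (2 : ℝ) ^ k ≤ ‖A w‖}.indicator fun _ => (1 : ℝ)) z) =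
      fun z : ℂ => ((2 ^ (k + 1) : ℝ) ^ p) •
      ({w : ℂ | (2 : ℝ) ^ k ≤ ‖A w‖}.indicator fun _ => (1 : ℝ)) z := rfl
    rw [h3, Real.circleAverage_fun_smul, smul_eq_mul, tail]
  rw [h2]
  have h4 : ∀ k ∈ Finset.range n, (2 ^ (k + 1) : ℝ) ^ p * tail A (2 ^ k) ≤
      C * 2 ^ p * q ^ k := by
    intro k _
    have h5 := ht (2 ^ k) (one_le_pow₀ one_le_two)
    have h6 : (0 : ℝ) ≤ (2 ^ (k + 1) : ℝ) ^ p := Real.rpow_nonneg (by positivity) _
    refine (mul_le_mul_of_nonneg_left h5 h6).trans (le_of_eq ?_)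
    have e1 : ((2 : ℝ) ^ (k + 1)) ^ p = 2 ^ p * (2 ^ k) ^ p := by
      rw [pow_succ, Real.mul_rpow (by positivity) two_pos.le, mul_comm]
    have e2 : ((2 : ℝ) ^ k) ^ p * (2 ^ k) ^ (-a) = q ^ k := by
      rw [← Real.rpow_add (by positivity), ← sub_eq_add_neg, hq, ← Real.rpow_natCast 2 k,
        ← Real.rpow_natCast (2 ^ (p - a)) k, ← Real.rpow_mul two_pos.le,
        ← Real.rpow_mul two_pos.le, mul_comm]
    rw [e1]
    calc 2 ^ p * ((2 : ℝ) ^ k) ^ p * (C * (2 ^ k) ^ (-a))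
        = C * 2 ^ p * (((2 : ℝ) ^ k) ^ p * (2 ^ k) ^ (-a)) := by ring
      _ = C * 2 ^ p * q ^ k := by rw [e2]
  have h7 : ∑ k ∈ Finset.range n, (2 ^ (k + 1) : ℝ) ^ p * tail A (2 ^ k) ≤
      C * 2 ^ p * (1 - q)⁻¹ := by
    refine (Finset.sum_le_sum h4).trans ?_
    rw [← Finset.mul_sum]
    apply mul_le_mul_of_nonneg_left _ (by positivity)
    exact (hasSum_geometric_of_lt_one hq0.le hq1).summable.sum_le_tsum _
      (fun k _ => pow_nonneg hq0.le k) |>.trans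
      (le_of_eq (tsum_geometric_of_lt_one hq0.le hq1))
  linarith

/-- Means of normalised pairs with a given growth. -/
theorem nrm_mean {K : ℝ} (hK : Loc K) {α K1 p : ℝ} (hα : 1 ≤ α) (hK1 : 0 < K1) (hp : 0 < p)
    (hp1 : p < 1 / α) : ∃ M : ℝ, 0 < M ∧ ∀ A B : ℂ → ℂ, Nrm A B →
      (∀ z : ℂ, ‖z‖ < 1 → ‖A z‖ ≤ K1 * (1 - ‖z‖) ^ (-α)) →
        Real.circleAverage (fun z => ‖A z‖ ^ p) 0 1 ≤ M := by
  obtain ⟨a, ha, ha1⟩ := exists_between hp1
  obtain ⟨C, hC, h1⟩ := tail_bound hK hα hK1 (hp.trans ha) ha1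
  obtain ⟨M, hM, h2⟩ := mean_of_tail hp ha hC
  exact ⟨M, hM, fun A B hAB hg => h2 A (hAB.pair.anA.continuousOn.mono sphere_subset_closedBall)
    (h1 A B hAB hg)⟩

end Pool.Agent.HQ
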