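import Pool.Agent.HQ.Defs

/-!
# HQ: one step of the bootstrap
-/

set_option autoImplicit false

open Complex Metric Set Filter Topology MeasureTheory
open scoped ComplexConjugate Real

namespace Pool.Agent.HQ

/-- Exponentials of powers beat all powers. -/
private theorem exp_le {k m : ℝ} (hk : 0 < k) : ∃ C : ℝ, 0 < C ∧ ∀ L : ℝ, 1 ≤ L →
    Real.exp (-(L ^ k / 2)) ≤ C * L ^ (-m) := by
  obtain ⟨n, hn⟩ := exists_nat_gt (m / k)
  rw [div_lt_iff₀ hk] at hn
  refine ⟨n.factorial * 2 ^ n, by positivity, fun L hL => ?_⟩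
  have hL0 : 0 < L := by linarith
  have hx : 0 < L ^ k / 2 := by positivity
  have h1 : (L ^ k / 2) ^ n / n.factorial ≤ Real.exp (L ^ k / 2) :=
    Real.pow_div_factorial_le_exp _ hx.le n
  have hf : (0 : ℝ) < n.factorial := by exact_mod_cast n.factorial_pos
  rw [Real.exp_neg, inv_eq_one_div, div_le_iff₀ (Real.exp_pos _)]
  have h2 : (L ^ k / 2) ^ n = L ^ (k * n) / 2 ^ n := by
    rw [div_pow, ← Real.rpow_natCast (L ^ k), ← Real.rpow_mul hL0.le]
  rw [h2] at h1
  have h3 : L ^ m ≤ L ^ (k * n) := Real.rpow_le_rpow_of_exponent_le hL (by linarith)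
  have h4 : L ^ (-m) * L ^ m = 1 := by
    rw [← Real.rpow_add hL0, neg_add_cancel, Real.rpow_zero]
  calc (1 : ℝ) = L ^ (-m) * L ^ m := h4.symm
    _ ≤ L ^ (-m) * L ^ (k * n) := by gcongr
    _ = (n.factorial * 2 ^ n) * L ^ (-m) * (L ^ (k * n) / 2 ^ n / n.factorial) := by
        field_simp
    _ ≤ (n.factorial * 2 ^ n) * L ^ (-m) * Real.exp (L ^ k / 2) := by gcongr

private theorem rpow_add3 {L : ℝ} (hL : 0 < L) (x y z : ℝ) :
    L ^ (x + y + z) = L ^ x * L ^ y * L ^ z := by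
  rw [Real.rpow_add hL (x + y) z, Real.rpow_add hL x y]

/-- One step.  Let `δ = 1/α - a₀ ∈ (0, 1]`.  Take `k = b δ / 36`, `k' = 2 k / b`, `1 - p = δ / 16`,
`a = (1 + a₀) / 2`, `t = L^(1-2k)`, `d = t L^(-k')`, `N = L^k`, `Y = L^4`, for `L` with
`64 t ≤ L`, `c t ≥ 1` (for smaller `L` use `T ≤ 1`).  Exponents of `L` (with
`T (c t) ≤ C t^(-a₀)`):
`(d/L)^b t^(-a₀)`: `-(2k+k') b - a₀ (1-2k) ≤ -a₀ - 2 k b`;
`(t/L)^a t^(-a₀)`: `-a₀ - 2 k (a - a₀) = -a₀ - k (1 - a₀) ≤ -a₀ - k δ`;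
`d⁻² (w N L)^p t Y^(1-p)`: at most `-1/α + 4 (1-p) + 9 k / b ≤ -1/α + δ/2 = -a₀ - δ/2`;
`(N L / Y)^p`: `-(3-k) p ≤ -1`; exponential terms are smaller than any power. -/
theorem boot_step {b c α K1 : ℝ} (hb : 0 < b) (hb1 : b ≤ 1) (hc : 0 < c) (hc1 : c ≤ 1)
    (hα : 1 ≤ α) (hK1 : 0 < K1) (Cf : ℝ → ℝ → ℝ) (hCf : ∀ a p, 0 < Cf a p) {a₀ : ℝ}
    (ha₀ : 0 ≤ a₀) (ha₁ : a₀ < 1 / α) {C₀ : ℝ} (hC₀ : 0 < C₀) : ∃ C : ℝ, 0 < C ∧
      ∀ T : ℝ → ℝ, CoreIneq b c α K1 Cf T → (∀ L, 1 ≤ L → T L ≤ C₀ * L ^ (-a₀)) →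
        ∀ L, 1 ≤ L → T L ≤ C * L ^ (-(a₀ + b ^ 2 / 36 * (1 / α - a₀) ^ 2)) := by
  have hα0 : 0 < α := by linarith
  set β : ℝ := 1 / α with hβ
  have hβ1 : β ≤ 1 := by rw [hβ, div_le_one hα0]; exact hα
  have hβ0 : 0 < β := by positivity
  set δ : ℝ := β - a₀ with hδ
  have hδ0 : 0 < δ := by linarith
  have hδ1 : δ ≤ 1 := by linarith
  set k : ℝ := b * δ / 36 with hk
  have hk0 : 0 < k := by positivity
  have hbδ : b * δ ≤ 1 := mul_le_one₀ hb1 hδ0.le hδ1
  have hbδ' : b * δ ≤ δ := mul_le_of_le_one_left hδ0.le hb1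
  have hk1 : k ≤ 1 / 36 := by rw [hk]; linarith
  have hkδ : k ≤ δ / 36 := by rw [hk]; linarith
  set k' : ℝ := δ / 18 with hk'
  have hk'0 : 0 < k' := by positivity
  have hk'b : k' * b = 2 * k := by rw [hk', hk]; ring
  set p : ℝ := 1 - δ / 16 with hp
  have hp0 : 0 < p := by linarith
  have hp1 : p < 1 := by linarith
  set a : ℝ := (1 + a₀) / 2 with ha
  have ha0 : 0 < a := by positivity
  have ha1 : a < 1 := by rw [ha]; linarith
  set η : ℝ := b ^ 2 / 36 * δ ^ 2 with hη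
  have hη0 : 0 ≤ η := by positivity
  have hb2 : b ^ 2 ≤ b := by
    rw [sq]; exact mul_le_of_le_one_left hb.le hb1
  have hδ2 : δ ^ 2 ≤ δ := by
    rw [sq]; exact mul_le_of_le_one_left hδ0.le hδ1
  have hη1 : η ≤ k * δ := by
    have h1 : b ^ 2 * δ ^ 2 ≤ b * δ ^ 2 := by gcongr
    have h2 : k * δ = b * δ ^ 2 / 36 := by rw [hk]; ring
    rw [h2, hη]
    linarith
  have hη2 : η ≤ 2 * k * b := by
    have h1 : b ^ 2 * δ ^ 2 ≤ b ^ 2 * δ := by gcongr
    have h0 : 0 ≤ b ^ 2 * δ := by positivity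
    have h2 : 2 * k * b = 2 * (b ^ 2 * δ / 36) := by rw [hk]; ring
    rw [h2, hη]
    linarith
  have hη3 : η ≤ δ / 36 := by
    have h1 : k * δ ≤ k := mul_le_of_le_one_right hk0.le hδ1
    linarith
  set e : ℝ := a₀ + η with he
  have he0 : 0 ≤ e := by positivity
  have he2 : e ≤ 2 := by linarith
  set q : ℝ := Cf a p with hq
  have hq0 : 0 < q := hCf a p
  obtain ⟨E₁, hE₁0, hE₁⟩ := exp_le (k := k) (m := 8) hk0
  -- threshold
  obtain ⟨L₀, hL₀1, hL₀a, hL₀b⟩ : ∃ L₀ : ℝ, 1 ≤ L₀ ∧ (∀ L, L₀ ≤ L → 64 ≤ L ^ (2 * k)) ∧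
      ∀ L, L₀ ≤ L → 1 / c ≤ L ^ (1 - 2 * k) := by
    have h1 : ∀ᶠ L : ℝ in atTop, (64 : ℝ) ≤ L ^ (2 * k) :=
      (tendsto_rpow_atTop (by positivity)).eventually_ge_atTop 64
    have h2 : ∀ᶠ L : ℝ in atTop, 1 / c ≤ L ^ (1 - 2 * k) :=
      (tendsto_rpow_atTop (by linarith)).eventually_ge_atTop (1 / c)
    obtain ⟨L₁, h3⟩ := eventually_atTop.mp (h1.and h2)
    exact ⟨max 1 L₁, le_max_left _ _, fun L hL => (h3 L ((le_max_right _ _).trans hL)).1,
      fun L hL => (h3 L ((le_max_right _ _).trans hL)).2⟩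
  set W : ℝ := (2 * K1) ^ (β * p) with hW
  have hW0 : 0 < W := by positivity
  set S : ℝ := C₀ * c ^ (-a₀) with hS
  have hS0 : 0 < S := by positivity
  refine ⟨L₀ ^ e + q * (2 * S + W + E₁ + (1 + E₁)), by positivity, ?_⟩
  intro T hT hT0 L hL
  have hL0 : 0 < L := by linarith
  have hLe : 0 < L ^ (-e) := by positivity
  obtain ⟨hTn, hT1, hcore⟩ := hT
  rcases lt_or_ge L L₀ with hlt | hge
  · have h1 : 1 ≤ L₀ ^ e * L ^ (-e) := by
      rw [Real.rpow_neg hL0.le, ← div_eq_mul_inv, one_le_div (by positivity)]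
      exact Real.rpow_le_rpow hL0.le hlt.le he0
    have h2 : 0 ≤ q * (2 * S + W + E₁ + (1 + E₁)) * L ^ (-e) := by positivity
    calc T L ≤ 1 := hT1 L
      _ ≤ L₀ ^ e * L ^ (-e) + q * (2 * S + W + E₁ + (1 + E₁)) * L ^ (-e) := by linarith
      _ = _ := by ring
  · have hmono : ∀ x : ℝ, x ≤ -e → L ^ x ≤ L ^ (-e) := fun x hx =>
      Real.rpow_le_rpow_of_exponent_le hL hx
    set t : ℝ := L ^ (1 - 2 * k) with ht
    have ht0 : 0 < t := by positivity
    have ht1 : 1 ≤ t := Real.one_le_rpow hL (by linarith)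
    have h64 : 64 * t ≤ L := by
      have h1 : L ^ (2 * k) * t = L := by
        rw [ht, ← Real.rpow_add hL0]
        ring_nf
        rw [Real.rpow_one]
      calc 64 * t ≤ L ^ (2 * k) * t := by
            gcongr
            exact hL₀a L hge
        _ = L := h1
    have hct : 1 ≤ c * t := by
      have := hL₀b L hge
      rw [div_le_iff₀ hc] at this
      linarith
    set N : ℝ := L ^ k with hN
    have hN1 : 1 ≤ N := Real.one_le_rpow hL hk0.le
    have hN0 : 0 < N := by positivity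
    set d : ℝ := L ^ (1 - 2 * k - k') with hd
    have hd0 : 0 < d := by positivity
    set Y : ℝ := L ^ (4 : ℝ) with hY
    have hY0 : 0 < Y := by positivity
    have hmain := hcore a p ha0 ha1 hp0 hp1 t L N d Y ht1 h64 hN1 hd0 hY0
    rw [← hq, ← hβ] at hmain
    -- the value of T (c t)
    have hTct : T (c * t) ≤ S * L ^ (-(a₀ * (1 - 2 * k))) := by
      refine (hT0 (c * t) hct).trans (le_of_eq ?_)
      rw [Real.mul_rpow hc.le ht0.le, ht, ← Real.rpow_mul hL0.le, hS]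
      have : (1 - 2 * k) * -a₀ = -(a₀ * (1 - 2 * k)) := by ring
      rw [this]; ring
    have hTct0 : 0 ≤ T (c * t) := hTn _
    -- first terms
    have e1 : (d / L) ^ b = L ^ (-(2 * k + k') * b) := by
      have : d / L = L ^ (-(2 * k + k')) := by
        rw [hd, ← Real.rpow_sub_one hL0.ne']
        congr 1
        ring
      rw [this, ← Real.rpow_mul hL0.le]
    have e2 : (t / L) ^ a = L ^ (-(2 * k) * a) := by
      have : t / L = L ^ (-(2 * k)) := by
        rw [ht, ← Real.rpow_sub_one hL0.ne']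
        congr 1
        ring
      rw [this, ← Real.rpow_mul hL0.le]
    have t1 : (d / L) ^ b * T (c * t) ≤ S * L ^ (-e) := by
      rw [e1]
      calc L ^ (-(2 * k + k') * b) * T (c * t)
          ≤ L ^ (-(2 * k + k') * b) * (S * L ^ (-(a₀ * (1 - 2 * k)))) := by gcongr
        _ = S * L ^ (-(2 * k + k') * b + -(a₀ * (1 - 2 * k))) := by
            rw [Real.rpow_add hL0]; ring
        _ ≤ S * L ^ (-e) := by
            apply mul_le_mul_of_nonneg_left (hmono _ ?_) hS0.le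
            have h1 : 0 ≤ k * (1 - a₀) := mul_nonneg hk0.le (by linarith)
            have h2 : -(2 * k + k') * b + -(a₀ * (1 - 2 * k)) =
                -a₀ - 2 * k * b - 2 * (k * (1 - a₀)) := by
              linear_combination (-1 : ℝ) * hk'b
            rw [h2, he]
            linarith
    have t2 : (t / L) ^ a * T (c * t) ≤ S * L ^ (-e) := by
      rw [e2]
      calc L ^ (-(2 * k) * a) * T (c * t)
          ≤ L ^ (-(2 * k) * a) * (S * L ^ (-(a₀ * (1 - 2 * k)))) := by gcongr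
        _ = S * L ^ (-(2 * k) * a + -(a₀ * (1 - 2 * k))) := by
            rw [Real.rpow_add hL0]; ring
        _ ≤ S * L ^ (-e) := by
            apply mul_le_mul_of_nonneg_left (hmono _ ?_) hS0.le
            have h1 : k * δ ≤ k * (1 - a₀) :=
              mul_le_mul_of_nonneg_left (by linarith) hk0.le
            have h2 : -(2 * k) * a + -(a₀ * (1 - 2 * k)) = -a₀ - k * (1 - a₀) := by
              rw [ha]; ring
            rw [h2, he]
            linarith
    -- third term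
    have e3 : (((2 * K1 / t) ^ β) * N * L) ^ p = W * L ^ ((-(1 - 2 * k) * β + k + 1) * p) := by
      have h1 : (2 * K1 / t) ^ β = (2 * K1) ^ β * L ^ (-(1 - 2 * k) * β) := by
        rw [Real.div_rpow (by positivity) ht0.le, ht, ← Real.rpow_mul hL0.le, div_eq_mul_inv,
          ← Real.rpow_neg hL0.le]
        congr 2
        ring
      have h2 : (2 * K1) ^ β * L ^ (-(1 - 2 * k) * β) * N * L =
          (2 * K1) ^ β * L ^ (-(1 - 2 * k) * β + k + 1) := by
        rw [Real.rpow_add hL0, Real.rpow_add hL0, Real.rpow_one, hN]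
        ring
      rw [h1, h2, Real.mul_rpow (by positivity) (by positivity), ← Real.rpow_mul (by positivity),
        ← Real.rpow_mul hL0.le]
    have e4 : t / d ^ 2 = L ^ (-(1 - 2 * k) + 2 * k') := by
      have h1 : d ^ 2 = L ^ (2 * (1 - 2 * k - k')) := by
        rw [hd, ← Real.rpow_natCast, ← Real.rpow_mul hL0.le]
        congr 1
        push_cast
        ring
      rw [h1, ht, ← Real.rpow_sub hL0]
      congr 1
      ring
    have e5 : Y ^ (1 - p) = L ^ (δ / 4) := by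
      rw [hY, ← Real.rpow_mul hL0.le]
      congr 1
      rw [hp]
      ring
    have t3 : (((2 * K1 / t) ^ β) * N * L) ^ p * t * Y ^ (1 - p) / d ^ 2 ≤ W * L ^ (-e) := by
      have h1 : (((2 * K1 / t) ^ β) * N * L) ^ p * t * Y ^ (1 - p) / d ^ 2 =
          (((2 * K1 / t) ^ β) * N * L) ^ p * (t / d ^ 2) * Y ^ (1 - p) := by ring
      rw [h1, e3, e4, e5]
      calc W * L ^ ((-(1 - 2 * k) * β + k + 1) * p) * L ^ (-(1 - 2 * k) + 2 * k') * L ^ (δ / 4)
          = W * L ^ ((-(1 - 2 * k) * β + k + 1) * p + (-(1 - 2 * k) + 2 * k') + δ / 4) := by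
            rw [rpow_add3 hL0]; ring
        _ ≤ W * L ^ (-e) := by
            apply mul_le_mul_of_nonneg_left (hmono _ ?_) hW0.le
            have hkβ : k * β ≤ k := mul_le_of_le_one_right hk0.le hβ1
            have hkβ0 : 0 ≤ k * β := by positivity
            have hXe : -(1 - 2 * k) * β + k + 1 = -β + 2 * (k * β) + k + 1 := by ring
            have hX : 0 ≤ -(1 - 2 * k) * β + k + 1 := by rw [hXe]; linarith
            have hX2 : (-(1 - 2 * k) * β + k + 1) * p ≤ -(1 - 2 * k) * β + k + 1 :=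
              mul_le_of_le_one_right hX hp1.le
            rw [he, hk']
            linarith
    have t4 : Real.exp (-(N / 2)) * t * Y / d ^ 2 ≤ E₁ * L ^ (-e) := by
      have h1 : Real.exp (-(N / 2)) * t * Y / d ^ 2 =
          Real.exp (-(N / 2)) * (t / d ^ 2) * Y := by ring
      rw [h1, e4]
      calc Real.exp (-(N / 2)) * L ^ (-(1 - 2 * k) + 2 * k') * Y
          ≤ (E₁ * L ^ (-(8 : ℝ))) * L ^ (-(1 - 2 * k) + 2 * k') * Y := by
            gcongr
            exact hE₁ L hL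
        _ = E₁ * L ^ (-(8 : ℝ) + (-(1 - 2 * k) + 2 * k') + 4) := by
            rw [rpow_add3 hL0, hY]; ring
        _ ≤ E₁ * L ^ (-e) := by
            apply mul_le_mul_of_nonneg_left (hmono _ ?_) hE₁0.le
            rw [hk']
            linarith
    have t5 : (N * L / Y) ^ p ≤ 1 * L ^ (-e) := by
      have h1 : N * L / Y = L ^ (k + 1 - 4) := by
        rw [Real.rpow_sub hL0, Real.rpow_add hL0, Real.rpow_one]
      rw [h1, ← Real.rpow_mul hL0.le, one_mul]
      apply hmono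
      have h2 : 15 / 16 ≤ p := by rw [hp]; linarith
      have h3 : (k + 1 - 4) * p ≤ (k + 1 - 4) * (15 / 16) :=
        mul_le_mul_of_nonpos_left h2 (by linarith)
      linarith
    have t6 : Real.exp (-(N / 2)) ≤ E₁ * L ^ (-e) := by
      refine (hE₁ L hL).trans ?_
      exact mul_le_mul_of_nonneg_left (hmono _ (by linarith)) hE₁0.le
    have hL₀e : 0 ≤ L₀ ^ e * L ^ (-e) := by positivity
    calc T L ≤ q * ((d / L) ^ b + (t / L) ^ a) * T (c * t)
        + q * ((((2 * K1 / t) ^ β) * N * L) ^ p * t * Y ^ (1 - p)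
          + Real.exp (-(N / 2)) * t * Y) / d ^ 2
        + q * ((N * L / Y) ^ p + Real.exp (-(N / 2))) := hmain
      _ = q * ((d / L) ^ b * T (c * t) + (t / L) ^ a * T (c * t)
        + ((((2 * K1 / t) ^ β) * N * L) ^ p * t * Y ^ (1 - p) / d ^ 2
          + Real.exp (-(N / 2)) * t * Y / d ^ 2)
        + ((N * L / Y) ^ p + Real.exp (-(N / 2)))) := by ring
      _ ≤ q * (S * L ^ (-e) + S * L ^ (-e) + (W * L ^ (-e) + E₁ * L ^ (-e))
        + (1 * L ^ (-e) + E₁ * L ^ (-e))) := by gcongr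
      _ = q * (2 * S + W + E₁ + (1 + E₁)) * L ^ (-e) := by ring
      _ ≤ L₀ ^ e * L ^ (-e) + q * (2 * S + W + E₁ + (1 + E₁)) * L ^ (-e) := by linarith
      _ = _ := by ring

end Pool.Agent.HQ
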