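import Pool.Agent.HQ.SideF

/-!
# HQ: gluing of the side functions
-/

set_option autoImplicit false

open Complex Metric Set Filter Topology MeasureTheory
open scoped ComplexConjugate Real

namespace Pool.Agent.HQ

/-- Gluing of the two side functions.  `V z = s^a sideFun a (σ z A z / s)` with `σ z = -1` if `z`
lies in `O' = O ∩ {|A| > s/8}` and its path component in `O'` meets `{Re A ≥ s}`, and `σ z = 1`
otherwise.  `σ` is locally constant on `O'`; where `|A| ≤ 7 s / 50` the value is `10 s^a` for both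
signs.  By hypothesis `Re (σ z A z / s) < 1` on `O`. -/
theorem side_glue {a s : ℝ} (ha : 0 < a) (ha1 : a < 1) (hs : 0 < s) {O : Set ℂ} (hO : IsOpen O)
    {A : ℂ → ℂ} (hA : AnalyticOnNhd ℂ A O)
    (hno : ∀ z w : ℂ, JoinedIn (O ∩ {v | s / 8 < ‖A v‖}) z w → (A z).re ≤ -s → s ≤ (A w).re →
      False) :
    ∃ V : ℂ → ℝ, ContinuousOn V O ∧ (∀ z ∈ O, SMean V z) ∧
      (∀ z ∈ O, Real.cos (a * π / 2) * ‖A z‖ ^ a ≤ V z) ∧
      (∀ z ∈ O, ‖A z‖ ≤ s → V z ≤ 10 * s ^ a) := by
  classical
  obtain ⟨O', hO'⟩ : ∃ O' : Set ℂ, O' = O ∩ {v | s / 8 < ‖A v‖} := ⟨_, rfl⟩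
  rw [← hO'] at hno
  have hc : ContinuousOn A O := hA.continuousOn
  have hOo : IsOpen O' := by
    rw [hO']
    exact hc.norm.isOpen_inter_preimage hO isOpen_Ioi
  obtain ⟨σ, hσ⟩ : ∃ σ : ℂ → ℂ, ∀ z, σ z =
      if ∃ w, JoinedIn O' z w ∧ s ≤ (A w).re then -1 else 1 := ⟨_, fun z => rfl⟩
  have hσn : ∀ z, ‖σ z‖ = 1 := by
    intro z
    rw [hσ]
    split_ifs <;> simp
  have hs0 : (s : ℂ) ≠ 0 := Complex.ofReal_ne_zero.2 hs.ne'
  have hn : ∀ z, ‖σ z * A z / s‖ = ‖A z‖ / s := by
    intro z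
    rw [norm_div, norm_mul, hσn, one_mul, Complex.norm_real, Real.norm_of_nonneg hs.le]
  have hre : ∀ z ∈ O, (σ z * A z / s).re < 1 := by
    intro z hz
    rw [Complex.div_ofReal_re, div_lt_one hs, hσ]
    split_ifs with h
    · obtain ⟨w, hw, hw1⟩ := h
      by_contra hcon
      refine hno z w hw ?_ hw1
      rw [neg_one_mul, Complex.neg_re] at hcon
      linarith
    · by_contra hcon
      rw [one_mul] at hcon
      have h1 : s ≤ (A z).re := not_lt.1 hcon
      refine h ⟨z, JoinedIn.refl ?_, h1⟩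
      rw [hO']
      refine ⟨hz, ?_⟩
      have h2 := Complex.re_le_norm (A z)
      change s / 8 < ‖A z‖
      linarith
  have hloc : ∀ z ∈ O, SMean (fun w => s ^ a * sideFun a (σ w * A w / s)) z ∧
      ContinuousAt (fun w => s ^ a * sideFun a (σ w * A w / s)) z := by
    intro z hz
    have hAz : AnalyticAt ℂ A z := hA z hz
    by_cases h8 : s / 8 < ‖A z‖
    · have hzO' : z ∈ O' := by
        rw [hO']
        exact ⟨hz, h8⟩
      obtain ⟨ε, hε, hball⟩ := Metric.isOpen_iff.1 hOo z hzO'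
      have hσe : ∀ w ∈ ball z ε, σ w = σ z := by
        intro w hw
        have hj : JoinedIn O' w z :=
          (((convex_ball z ε).isPathConnected ⟨z, mem_ball_self hε⟩).joinedIn w hw z
            (mem_ball_self hε)).mono hball
        have he : (∃ v, JoinedIn O' w v ∧ s ≤ (A v).re) ↔ ∃ v, JoinedIn O' z v ∧ s ≤ (A v).re := by
          constructor
          · rintro ⟨v, hv, hv1⟩
            exact ⟨v, hj.symm.trans hv, hv1⟩
          · rintro ⟨v, hv, hv1⟩
            exact ⟨v, hj.trans hv, hv1⟩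
        rw [hσ, hσ]
        simp only [he]
      have hg : AnalyticAt ℂ (fun w => σ z * A w / s) z := by
        have h1 : AnalyticAt ℂ (fun _ : ℂ => σ z) z := analyticAt_const
        have h2 : AnalyticAt ℂ (fun _ : ℂ => (s : ℂ)) z := analyticAt_const
        exact (h1.mul hAz).div h2 hs0
      obtain ⟨k1, k2⟩ := sideFun_smean ha ha1 hg (hre z hz)
      have hev : (fun w => s ^ a * sideFun a (σ z * A w / s)) =ᶠ[𝓝 z]
          fun w => s ^ a * sideFun a (σ w * A w / s) := by
        filter_upwards [ball_mem_nhds z hε] with w hw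
        rw [hσe w hw]
      refine ⟨(k1.const_mul (Real.rpow_nonneg hs.le a)).congr hev, ?_⟩
      exact (continuousAt_const.mul k2).congr hev
    · have h9 : ‖A z‖ < 7 / 50 * s := by
        have := not_lt.1 h8
        linarith
      have hev : (fun _ : ℂ => s ^ a * 10) =ᶠ[𝓝 z]
          fun w => s ^ a * sideFun a (σ w * A w / s) := by
        have h10 : ∀ᶠ w in 𝓝 z, ‖A w‖ < 7 / 50 * s :=
          hAz.continuousAt.norm.eventually_lt_const h9
        filter_upwards [h10] with w hw
        rw [sideFun_small ha ha1]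
        rw [hn, div_le_iff₀ hs]
        exact hw.le
      exact ⟨(smean_const _ z).congr hev, continuousAt_const.congr hev⟩
  refine ⟨fun w => s ^ a * sideFun a (σ w * A w / s),
    fun z hz => (hloc z hz).2.continuousWithinAt, fun z hz => (hloc z hz).1, ?_, ?_⟩
  · intro z hz
    have h1 := sideFun_ge ha ha1 (hre z hz)
    rw [hn, Real.div_rpow (norm_nonneg _) hs.le] at h1
    have h2 : 0 < s ^ a := Real.rpow_pos_of_pos hs a
    calc Real.cos (a * π / 2) * ‖A z‖ ^ a
        = s ^ a * (Real.cos (a * π / 2) * (‖A z‖ ^ a / s ^ a)) := by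
          field_simp
      _ ≤ s ^ a * sideFun a (σ z * A z / s) := mul_le_mul_of_nonneg_left h1 h2.le
  · intro z hz hzs
    have h1 : sideFun a (σ z * A z / s) ≤ 10 := by
      refine sideFun_le ha ha1 ?_
      rw [hn]
      exact (div_le_one hs).2 hzs
    have h2 : 0 ≤ s ^ a := Real.rpow_nonneg hs.le a
    calc s ^ a * sideFun a (σ z * A z / s) ≤ s ^ a * 10 := mul_le_mul_of_nonneg_left h1 h2
      _ = 10 * s ^ a := mul_comm _ _

end Pool.Agent.HQ
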