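import Pool.Agent.HQ.TravelC

/-!
# HQ: the travel function
-/

set_option autoImplicit false

open Complex Metric Set Filter Topology MeasureTheory
open scoped ComplexConjugate Real

namespace Pool.Agent.HQ

variable {A B : ℂ → ℂ} {ζ z : ℂ} {p R N D : ℝ}

private theorem travel_cos_pos (hp : 0 < p) (hp1 : p < 1) : 0 < Real.cos (p * π / 2) := by
  apply Real.cos_pos_of_mem_Ioo
  constructor <;> nlinarith [Real.pi_pos]

private theorem travel_cpow_re {u : ℂ} (hu : 0 < u.re) (hp : 0 < p) (hp1 : p < 1) :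
    ‖u‖ ^ p ≤ ((u ^ (p : ℂ)).re) / Real.cos (p * π / 2) := by
  have hc := travel_cos_pos hp hp1
  rw [le_div_iff₀ hc, Complex.cpow_ofReal_re]
  refine mul_le_mul_of_nonneg_left ?_ (Real.rpow_nonneg (norm_nonneg _) _)
  have h1 : |arg u| < π / 2 := Complex.abs_arg_lt_pi_div_two_iff.2 (Or.inl hu)
  rw [← Real.cos_abs (arg u * p), abs_mul, abs_of_pos hp]
  have hpi := Real.pi_pos
  apply Real.cos_le_cos_of_nonneg_of_le_pi
  · positivity
  · nlinarith
  · nlinarith [abs_nonneg (arg u)]

/-- The scaled value of `Q`. -/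
private noncomputable def travelU (A B : ℂ → ℂ) (ζ : ℂ) (R N D : ℝ) (z : ℂ) : ℂ :=
  (Qf A B z - (Qf A B ζ).im * I) / (D / (R * N) : ℝ)

/-- The function inside the minimum. -/
private noncomputable def travelS (A B : ℂ → ℂ) (ζ : ℂ) (p R N D : ℝ) (z : ℂ) : ℝ :=
  ((travelU A B ζ R N D z) ^ (p : ℂ)).re / Real.cos (p * π / 2)
    + coshW A B ζ (N / (2 * D)) R z / Real.cosh (N / 2)

private theorem travel_eq : travel A B ζ p R N D z = min 1 (travelS A B ζ p R N D z) := rfl

private theorem travelU_re (h : HPair A B) (hR : 0 < R) (hN : 0 < N) (hD : 0 < D)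
    (hz : z ∈ closedBall (0 : ℂ) 1) : 0 < (travelU A B ζ R N D z).re := by
  unfold travelU
  rw [div_ofReal_re]
  have h1 := Qf_re_pos h hz
  have h2 : (Qf A B z - (Qf A B ζ).im * I).re = (Qf A B z).re := by simp
  rw [h2]
  positivity

private theorem travelU_norm (hR : 0 < R) (hN : 0 < N) (hD : 0 < D) :
    ‖travelU A B ζ R N D z‖ = ‖Qf A B z - (Qf A B ζ).im * I‖ / (D / (R * N)) := by
  unfold travelU
  rw [norm_div, norm_real, Real.norm_of_nonneg (by positivity)]

private theorem travelU_cont (h : HPair A B) :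
    ContinuousOn (travelU A B ζ R N D) (closedBall 0 1) := by
  unfold travelU
  exact ((Qf_analytic h).continuousOn.sub continuousOn_const).div_const _

private theorem travel_yp_cont (h : HPair A B) : ContinuousOn (yp A B ζ) (closedBall 0 1) := by
  unfold yp
  have hA := h.anA.continuousOn
  have hB := h.anB.continuousOn
  exact (Complex.continuous_im.comp_continuousOn (hB.sub continuousOn_const)).sub
    (continuousOn_const.mul
      (Complex.continuous_re.comp_continuousOn (hA.sub continuousOn_const)))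

private theorem travelS_cont (h : HPair A B) (hR : 0 < R) (hN : 0 < N) (hD : 0 < D) :
    ContinuousOn (travelS A B ζ p R N D) (closedBall 0 1) := by
  have hA := h.anA.continuousOn
  have h1 : ContinuousOn (fun z => (travelU A B ζ R N D z) ^ (p : ℂ)) (closedBall 0 1) :=
    (travelU_cont h).cpow continuousOn_const fun z hz => Or.inl (travelU_re h hR hN hD hz)
  have h2 : ContinuousOn (fun z => ((travelU A B ζ R N D z) ^ (p : ℂ)).re) (closedBall 0 1) :=
    Complex.continuous_re.comp_continuousOn h1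
  have h3 : ContinuousOn (coshW A B ζ (N / (2 * D)) R) (closedBall 0 1) := by
    unfold coshW
    exact (Real.continuous_cosh.comp_continuousOn (continuousOn_const.mul (travel_yp_cont h))).mul
      (continuousOn_const.sub ((hA.norm.pow 2).div_const _))
  exact (h2.div_const _).add (h3.div_const _)

private theorem travel_T_ge (h : HPair A B) (hp : 0 < p) (hp1 : p < 1) (hR : 0 < R)
    (hN : 0 < N) (hD : 0 < D) (hz : z ∈ closedBall (0 : ℂ) 1) :
    (‖Qf A B z - (Qf A B ζ).im * I‖ / (D / (R * N))) ^ p ≤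
      ((travelU A B ζ R N D z) ^ (p : ℂ)).re / Real.cos (p * π / 2) := by
  rw [← travelU_norm hR hN hD]
  exact travel_cpow_re (travelU_re h hR hN hD hz) hp hp1

private theorem travel_T_nonneg (h : HPair A B) (hp : 0 < p) (hp1 : p < 1) (hR : 0 < R)
    (hN : 0 < N) (hD : 0 < D) (hz : z ∈ closedBall (0 : ℂ) 1) :
    0 ≤ ((travelU A B ζ R N D z) ^ (p : ℂ)).re / Real.cos (p * π / 2) := by
  refine le_trans ?_ (travel_T_ge h hp hp1 hR hN hD hz)
  positivity

private theorem travel_two (hR : 0 < R) (hA : ‖A z‖ ≤ R) : 1 ≤ 2 - ‖A z‖ ^ 2 / R ^ 2 := by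
  have h1 : ‖A z‖ ^ 2 / R ^ 2 ≤ 1 := by
    rw [div_le_one (by positivity)]
    gcongr
  linarith

private theorem travel_C_pos (hR : 0 < R) (hA : ‖A z‖ ≤ R) :
    0 < coshW A B ζ (N / (2 * D)) R z / Real.cosh (N / 2) := by
  unfold coshW
  have h1 := travel_two hR hA
  have h2 := Real.cosh_pos (N / (2 * D) * yp A B ζ z)
  have h3 := Real.cosh_pos (N / 2)
  have h4 : 0 < 2 - ‖A z‖ ^ 2 / R ^ 2 := by linarith
  positivity

theorem travel_continuousOn (h : HPair A B) (hp : 0 < p) (hp1 : p < 1) (hR : 0 < R)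
    (hN : 0 < N) (hD : 0 < D) : ContinuousOn (travel A B ζ p R N D) (closedBall 0 1) := by
  have h1 : ContinuousOn (fun z => min 1 (travelS A B ζ p R N D z)) (closedBall 0 1) :=
    continuousOn_const.inf (travelS_cont h hR hN hD)
  exact h1

theorem travel_le_one : travel A B ζ p R N D z ≤ 1 := min_le_left _ _

theorem travel_nonneg (h : HPair A B) (hp : 0 < p) (hp1 : p < 1) (hR : 0 < R)
    (hN : 0 < N) (hD : 0 < D) (hz : z ∈ closedBall (0 : ℂ) 1) (hA : ‖A z‖ ≤ R) :
    0 ≤ travel A B ζ p R N D z := by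
  rw [travel_eq]
  refine le_min zero_le_one ?_
  have h1 := travel_T_nonneg (ζ := ζ) h hp hp1 hR hN hD hz
  have h2 := travel_C_pos (B := B) (ζ := ζ) (N := N) (D := D) hR hA
  unfold travelS
  linarith

private theorem travel_eq_one_of (hS : 1 ≤ travelS A B ζ p R N D z) :
    travel A B ζ p R N D z = 1 := by
  rw [travel_eq]
  exact min_eq_left hS

private theorem travel_big (h : HPair A B) (hp : 0 < p) (hp1 : p < 1) (hR : 0 < R)
    (hN : 0 < N) (hD : 0 < D) (hz : z ∈ closedBall (0 : ℂ) 1) (hA : ‖A z‖ ≤ R)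
    (hQ : D / (R * N) ≤ ‖Qf A B z - (Qf A B ζ).im * I‖) : 1 < travelS A B ζ p R N D z := by
  have h1 := travel_T_ge (ζ := ζ) h hp hp1 hR hN hD hz
  have h2 := travel_C_pos (B := B) (ζ := ζ) (N := N) (D := D) hR hA
  have h3 : 1 ≤ (‖Qf A B z - (Qf A B ζ).im * I‖ / (D / (R * N))) ^ p := by
    apply Real.one_le_rpow _ hp.le
    rw [one_le_div (by positivity)]
    exact hQ
  unfold travelS
  linarith

/-- Where `|Q - i Im Q(ζ)| < m` by `smean_coshW` (`T` is the real part of an analytic function),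
where it is `≥ m` the first term is `≥ 1` and the second is positive, so `travel = 1` nearby. -/
theorem travel_smean (h : HPair A B) (hζ : ‖ζ‖ < 1) (hp : 0 < p) (hp1 : p < 1) (hR : 0 < R)
    (hN : 0 < N) (hD : 0 < D) (hz : ‖z‖ < 1) (hA : ‖A z‖ < R) :
    SMean (travel A B ζ p R N D) z := by
  have hzc : z ∈ closedBall (0 : ℂ) 1 := by
    rw [mem_closedBall_zero_iff]
    exact hz.le
  rcases le_total (D / (R * N)) ‖Qf A B z - (Qf A B ζ).im * I‖ with hQ | hQ
  · have h1 := travel_big h hp hp1 hR hN hD hzc hA.le hQ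
    have h2 : ContinuousAt (travelS A B ζ p R N D) z := by
      refine (travelS_cont h hR hN hD).continuousAt ?_
      refine mem_of_superset (isOpen_ball.mem_nhds ?_) ball_subset_closedBall
      rwa [mem_ball_zero_iff]
    refine (smean_const 1 z).congr ?_
    filter_upwards [h2.eventually (lt_mem_nhds h1)] with w hw
    exact (travel_eq_one_of hw.le).symm
  · have hm : 0 < D / (R * N) := by positivity
    have hc := travel_cos_pos hp hp1
    have h1 := smean_coshW h hζ hz hm hR hQ hA.le
    have hk : 1 / (2 * (D / (R * N)) * R) = N / (2 * D) := by field_simp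
    rw [hk] at h1
    have h2 : AnalyticAt ℂ (fun w => (travelU A B ζ R N D w) ^ (p : ℂ)) z := by
      have h3 : AnalyticAt ℂ (travelU A B ζ R N D) z := by
        unfold travelU
        exact (((Qf_analytic h) z hzc).sub analyticAt_const).div_const
      exact h3.cpow analyticAt_const (Or.inl (travelU_re h hR hN hD hzc))
    have h3 := smean_re h2
    have h4 := (smean_const 1 z).min
      ((h3.const_mul (c := (Real.cos (p * π / 2))⁻¹) (by positivity)).add
        (h1.const_mul (c := (Real.cosh (N / 2))⁻¹) (by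
          have := Real.cosh_pos (N / 2)
          positivity)))
    refine h4.congr (Eventually.of_forall fun w => ?_)
    show min 1 _ = travel A B ζ p R N D w
    rw [travel_eq]
    congr 1
    unfold travelS
    rw [div_eq_inv_mul (((travelU A B ζ R N D w) ^ (p : ℂ)).re),
      div_eq_inv_mul (coshW A B ζ (N / (2 * D)) R w)]

theorem travel_eq_one_of_far (h : HPair A B) (hp : 0 < p) (hp1 : p < 1) (hR : 0 < R)
    (hN : 0 < N) (hD : 0 < D) (hz : z ∈ closedBall (0 : ℂ) 1) (hA : ‖A z‖ ≤ R)
    (hfar : D ≤ |yp A B ζ z|) : travel A B ζ p R N D z = 1 := by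
  apply travel_eq_one_of
  have h1 := travel_T_nonneg (ζ := ζ) h hp hp1 hR hN hD hz
  have h2 := travel_two hR hA
  have h3 := Real.cosh_pos (N / 2)
  have h4 : 1 ≤ coshW A B ζ (N / (2 * D)) R z / Real.cosh (N / 2) := by
    rw [one_le_div h3]
    unfold coshW
    have h5 : Real.cosh (N / 2) ≤ Real.cosh (N / (2 * D) * yp A B ζ z) := by
      rw [Real.cosh_le_cosh, abs_mul, abs_of_pos (by positivity : 0 < N / 2),
        abs_of_pos (by positivity : 0 < N / (2 * D))]
      calc N / 2 = N / (2 * D) * D := by field_simp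
        _ ≤ N / (2 * D) * |yp A B ζ z| := by gcongr
    have h6 := Real.cosh_pos (N / (2 * D) * yp A B ζ z)
    nlinarith
  unfold travelS
  linarith

theorem travel_eq_one_of_big (h : HPair A B) (hp : 0 < p) (hp1 : p < 1) (hR : 0 < R)
    (hN : 0 < N) (hD : 0 < D) (hz : z ∈ closedBall (0 : ℂ) 1) (hA : ‖A z‖ ≤ R)
    (hQ : D / (R * N) ≤ ‖Qf A B z - (Qf A B ζ).im * I‖) : travel A B ζ p R N D z = 1 :=
  travel_eq_one_of (travel_big h hp hp1 hR hN hD hz hA hQ).le

/-- Value at the base point. -/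
theorem travel_self (h : HPair A B) (hp : 0 < p) (hp1 : p < 1) (hR : 0 < R)
    (hN : 0 < N) (hD : 0 < D) (hζ : ζ ∈ closedBall (0 : ℂ) 1) :
    travel A B ζ p R N D ζ ≤ ((Qf A B ζ).re * N * R / D) ^ p / Real.cos (p * π / 2)
      + 4 * Real.exp (-(N / 2)) := by
  have hc := travel_cos_pos hp hp1
  have hq := Qf_re_pos h hζ
  have h1 : ((travelU A B ζ R N D ζ) ^ (p : ℂ)).re = ((Qf A B ζ).re * N * R / D) ^ p := by
    have h2 : travelU A B ζ R N D ζ = (((Qf A B ζ).re * N * R / D : ℝ) : ℂ) := by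
      unfold travelU
      have h3 : Qf A B ζ - (Qf A B ζ).im * I = ((Qf A B ζ).re : ℂ) := by
        apply Complex.ext <;> simp
      rw [h3]
      have hD' : (D : ℂ) ≠ 0 := by exact_mod_cast hD.ne'
      have hR' : (R : ℂ) ≠ 0 := by exact_mod_cast hR.ne'
      have hN' : (N : ℂ) ≠ 0 := by exact_mod_cast hN.ne'
      push_cast
      field_simp
    rw [h2, ← ofReal_cpow (by positivity), ofReal_re]
  have h4 : coshW A B ζ (N / (2 * D)) R ζ / Real.cosh (N / 2) ≤ 4 * Real.exp (-(N / 2)) := by
    have h5 : coshW A B ζ (N / (2 * D)) R ζ ≤ 2 := by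
      unfold coshW yp
      have h6 : 0 ≤ ‖A ζ‖ ^ 2 / R ^ 2 := by positivity
      simp only [sub_self, zero_im, zero_re, mul_zero, Real.cosh_zero, one_mul]
      linarith
    have h7 : Real.exp (N / 2) / 2 ≤ Real.cosh (N / 2) := by
      rw [Real.cosh_eq]
      have := Real.exp_pos (-(N / 2))
      linarith
    have h8 := Real.exp_pos (N / 2)
    have h9 := Real.cosh_pos (N / 2)
    rw [div_le_iff₀ h9, Real.exp_neg]
    have h10 : 2 ≤ 4 * (Real.exp (N / 2))⁻¹ * Real.cosh (N / 2) := by
      calc (2 : ℝ) = 4 * (Real.exp (N / 2))⁻¹ * (Real.exp (N / 2) / 2) := by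
            field_simp
            norm_num
        _ ≤ _ := by gcongr
    linarith
  rw [travel_eq]
  refine (min_le_right _ _).trans ?_
  unfold travelS
  rw [h1]
  linarith

end Pool.Agent.HQ
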