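import Pool.Agent.HQ.Hull
import Pool.Agent.HQ.Side
import Pool.Agent.HQ.Travel
import Pool.Agent.HQ.MinP
import Pool.Agent.HQ.Lev

/-!
# HQ: the pair estimate
-/

set_option autoImplicit false

open Complex Metric Set Filter Topology MeasureTheory
open scoped ComplexConjugate Real

namespace Pool.Agent.HQ

/-- Pair estimate.  From a point of `lvl A τ` the level `L` is reached with probability at most
`C (τ / L)^a` (half plane estimate) plus the travel cost.
Proof.  `D = gap`, `R = L / 4`, `s = 8 τ ≤ R`.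
`O = {z ∈ ball 0 1 | |A z| < R ∧ |yp ζ z| < D}` (open, bounded, contains `ζ`; `ζ ∈ lvl A τ` is
used only for `|A ζ| < τ`).
`side_glue` on `O` with this `s`: a path in `O ∩ {|A| > s/8 = τ}` from `Re A ≤ -s` to `Re A ≥ s`
contradicts `hull_lemma`.
Apply `min_principle` on `O` to
`U = (cos (a π / 2) R^a)⁻¹ V + travel A B ζ p R N D + 3 ε - Re P`.
Frontier points of `O`: on the unit circle `|A| ≤ R ≤ L / 2`, so `Re P ≤ ε` there
(`Lev.le_of_small`) and `≤ 2 ε` nearby; inside, `|A| = R`: the first term has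
lower limit `≥ 1` (lower bound of `V` and continuity of `A`), `Re P ≤ 1 + ε`; or `|yp| = D`:
`travel = 1` there and `travel` is continuous.  At `ζ`: `V ζ ≤ 10 s^a`, `travel_self`. -/
theorem pair_bound {a p : ℝ} (ha : 0 < a) (ha1 : a < 1) (hp : 0 < p) (hp1 : p < 1)
    {A B : ℂ → ℂ} (h : HPair A B) {τ L N ε : ℝ} (hτ : 0 < τ) (hL : 32 * τ ≤ L) (hN : 0 < N)
    (hε : 0 < ε) {P : ℂ → ℂ} (hP : Lev A L ε P) {ζ : ℂ} (hζ : ζ ∈ lvl A τ) :
    (P ζ).re ≤ 10 / Real.cos (a * π / 2) * (32 * τ / L) ^ a + cost A B τ L N p ζ + 3 * ε := by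
  have hAc : ContinuousOn A (closedBall 0 1) := h.anA.continuousOn
  have hBc : ContinuousOn B (closedBall 0 1) := h.anB.continuousOn
  have hL0 : 0 < L := by linarith
  have hζb : ζ ∈ ball (0 : ℂ) 1 := lvl_subset_ball hζ
  have hζc : ζ ∈ closedBall (0 : ℂ) 1 := ball_subset_closedBall hζb
  have hζn : ‖ζ‖ < 1 := mem_ball_zero_iff.1 hζb
  obtain ⟨D, hDdef⟩ : ∃ D, D = gap (img A B τ) (shearMap A B ζ) := ⟨_, rfl⟩
  have hD : 0 < D := by
    rw [hDdef]
    exact gap_pos (isOpen_image_shearMap h (isOpen_lvl hAc) lvl_subset_ball)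
      (isBounded_image_shearMap h lvl_subset_ball) ⟨ζ, hζ, rfl⟩
  obtain ⟨R, hRdef⟩ : ∃ R, R = L / 4 := ⟨_, rfl⟩
  have hR : 0 < R := by rw [hRdef]; linarith
  obtain ⟨s, hsdef⟩ : ∃ s, s = 8 * τ := ⟨_, rfl⟩
  have hs : 0 < s := by rw [hsdef]; linarith
  -- the cosine is positive
  have hcos : 0 < Real.cos (a * π / 2) := by
    apply Real.cos_pos_of_mem_Ioo
    have := Real.pi_pos
    constructor <;> nlinarith
  have hcosp : 0 < Real.cos (p * π / 2) := by
    apply Real.cos_pos_of_mem_Ioo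
    have := Real.pi_pos
    constructor <;> nlinarith
  have hypc : ContinuousOn (yp A B ζ) (closedBall 0 1) := by
    unfold yp
    exact (Complex.continuous_im.comp_continuousOn (hBc.sub continuousOn_const)).sub
      (continuousOn_const.mul
        (Complex.continuous_re.comp_continuousOn (hAc.sub continuousOn_const)))
  -- the domain
  obtain ⟨O, hOdef⟩ : ∃ O : Set ℂ, O = {z ∈ ball (0 : ℂ) 1 | ‖A z‖ < R ∧ |yp A B ζ z| < D} :=
    ⟨_, rfl⟩
  have hOb : O ⊆ ball 0 1 := by
    rw [hOdef]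
    exact fun z hz => hz.1
  have hOA : ∀ z ∈ O, ‖A z‖ < R := by
    rw [hOdef]
    exact fun z hz => hz.2.1
  have hOo : IsOpen O := by
    have h1 : IsOpen (ball (0 : ℂ) 1 ∩ (fun z => ‖A z‖) ⁻¹' Iio R) :=
      (hAc.mono ball_subset_closedBall).norm.isOpen_inter_preimage isOpen_ball isOpen_Iio
    have h2 : IsOpen (ball (0 : ℂ) 1 ∩ (fun z => |yp A B ζ z|) ⁻¹' Iio D) :=
      (hypc.mono ball_subset_closedBall).abs.isOpen_inter_preimage isOpen_ball isOpen_Iio
    have h3 : O = (ball (0 : ℂ) 1 ∩ (fun z => ‖A z‖) ⁻¹' Iio R) ∩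
        (ball (0 : ℂ) 1 ∩ (fun z => |yp A B ζ z|) ⁻¹' Iio D) := by
      rw [hOdef]
      ext z
      constructor
      · rintro ⟨k1, k2, k3⟩
        exact ⟨⟨k1, k2⟩, ⟨k1, k3⟩⟩
      · rintro ⟨⟨k1, k2⟩, ⟨-, k3⟩⟩
        exact ⟨k1, k2, k3⟩
    rw [h3]
    exact h1.inter h2
  have hOc : ∀ z ∈ O, z ∈ closedBall (0 : ℂ) 1 := fun z hz => ball_subset_closedBall (hOb hz)
  have hζO : ζ ∈ O := by
    rw [hOdef]
    refine ⟨hζb, ?_, ?_⟩
    · have := norm_lt_of_mem_lvl hζ
      rw [hRdef]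
      linarith
    · have : yp A B ζ ζ = 0 := by simp [yp]
      rw [this, abs_zero]
      exact hD
  obtain ⟨V, hVc, hVs, hVge, hVle⟩ := side_glue ha ha1 hs hOo
    (h.anA.mono fun z hz => hOc z hz) (by
      intro z w hj hz hw
      refine hull_lemma h hτ hζ (hj.mono ?_) (z := z) (w := w) (by linarith) (by linarith)
      rintro v ⟨hv, hv1⟩
      rw [hOdef] at hv
      refine ⟨hv.1, ?_, ?_⟩
      · have h1 : s / 8 < ‖A v‖ := hv1
        rw [hsdef] at h1
        linarith
      · rw [← hDdef]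
        exact hv.2.2)
  obtain ⟨c₁, hc₁⟩ : ∃ c₁, c₁ = (Real.cos (a * π / 2) * R ^ a)⁻¹ := ⟨_, rfl⟩
  have hRa : 0 < R ^ a := Real.rpow_pos_of_pos hR a
  have hc₁0 : 0 < c₁ := by
    rw [hc₁]
    positivity
  have htc := travel_continuousOn (ζ := ζ) h hp hp1 hR hN hD
  have hVnn : ∀ z ∈ O, 0 ≤ V z := by
    intro z hz
    refine le_trans ?_ (hVge z hz)
    exact mul_nonneg hcos.le (Real.rpow_nonneg (norm_nonneg _) _)
  have htn : ∀ z ∈ O, 0 ≤ travel A B ζ p R N D z := fun z hz =>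
    travel_nonneg h hp hp1 hR hN hD (hOc z hz) (hOA z hz).le
  have hPc : Continuous P := hP.ent.continuous
  have hmain := min_principle hOo (Metric.isBounded_ball.subset hOb)
    (W := fun z => ((c₁ * V z + travel A B ζ p R N D z) + 3 * ε) + (-P z).re) ?_ ?_ ?_ ζ hζO
  · have h1 : V ζ ≤ 10 * s ^ a := hVle ζ hζO (by
      have := norm_lt_of_mem_lvl hζ
      rw [hsdef]
      linarith)
    have h2 : travel A B ζ p R N D ζ ≤ cost A B τ L N p ζ := by
      refine (travel_self h hp hp1 hR hN hD hζc).trans ?_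
      unfold cost
      rw [← hDdef]
      have hq : 0 < (Qf A B ζ).re := Qf_re_pos h hζc
      have h3 : ((Qf A B ζ).re * N * R / D) ^ p ≤ ((Qf A B ζ).re * N * L / D) ^ p := by
        apply Real.rpow_le_rpow (by positivity) _ hp.le
        have : R ≤ L := by rw [hRdef]; linarith
        gcongr
      gcongr
    have h3 : c₁ * V ζ ≤ 10 / Real.cos (a * π / 2) * (32 * τ / L) ^ a := by
      have h4 : c₁ * V ζ ≤ c₁ * (10 * s ^ a) := mul_le_mul_of_nonneg_left h1 hc₁0.le
      refine h4.trans (le_of_eq ?_)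
      have h5 : 32 * τ / L = s / R := by
        rw [hsdef, hRdef]
        field_simp
        norm_num
      rw [h5, Real.div_rpow hs.le hR.le, hc₁]
      field_simp
    have h4 : (-P ζ).re = -(P ζ).re := Complex.neg_re _
    simp only [h4] at hmain
    linarith
  · exact (((continuousOn_const.mul hVc).add (htc.mono fun z hz => hOc z hz)).add
      continuousOn_const).add (Complex.continuous_re.comp hPc.neg).continuousOn
  · intro z hz
    have hzn : ‖z‖ < 1 := mem_ball_zero_iff.1 (hOb hz)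
    refine (((hVs z hz).const_mul hc₁0.le).add
      (travel_smean h hζn hp hp1 hR hN hD hzn (hOA z hz))).add (smean_const (3 * ε) z) |>.add ?_
    refine smean_re (f := fun w => -P w) ?_
    exact (hP.ent.analyticAt z).neg
  · intro z₀ hz₀ ε' hε'
    have hz₀cl : z₀ ∈ closure O := frontier_subset_closure hz₀
    have hz₀c : z₀ ∈ closedBall (0 : ℂ) 1 :=
      closure_minimal (fun z hz => hOc z hz) isClosed_closedBall hz₀cl
    have hev : ∀ᶠ z in 𝓝[O] z₀, z ∈ O := self_mem_nhdsWithin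
    have hmono : 𝓝[O] z₀ ≤ 𝓝[closedBall (0 : ℂ) 1] z₀ := nhdsWithin_mono _ fun z hz => hOc z hz
    have hne : (𝓝[O] z₀).NeBot := mem_closure_iff_nhdsWithin_neBot.1 hz₀cl
    have hAt : Tendsto (fun z => ‖A z‖) (𝓝[O] z₀) (𝓝 ‖A z₀‖) :=
      ((hAc z₀ hz₀c).norm).mono_left hmono
    have hyt : Tendsto (fun z => |yp A B ζ z|) (𝓝[O] z₀) (𝓝 |yp A B ζ z₀|) :=
      ((hypc z₀ hz₀c).abs).mono_left hmono
    have hA₀ : ‖A z₀‖ ≤ R := by
      refine le_of_tendsto hAt ?_
      filter_upwards [hev] with z hz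
      exact (hOA z hz).le
    have hPle : ∀ z ∈ O, (P z).re ≤ 1 + ε := fun z hz => hP.le (hOc z hz)
    by_cases hn : ‖z₀‖ = 1
    · -- the unit circle
      have h1 : (P z₀).re ≤ ε := by
        refine hP.le_of_small hL0 (mem_sphere_zero_iff_norm.2 hn) (hA₀.trans ?_)
        rw [hRdef]
        linarith
      have h2 : ∀ᶠ z in 𝓝[O] z₀, (P z).re < 2 * ε := by
        have h3 : Tendsto (fun z => (P z).re) (𝓝[O] z₀) (𝓝 (P z₀).re) :=
          ((Complex.continuous_re.comp hPc).tendsto z₀).mono_left nhdsWithin_le_nhds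
        exact h3.eventually_lt_const (by linarith)
      filter_upwards [h2, hev] with z k1 k2
      have k3 := mul_nonneg hc₁0.le (hVnn z k2)
      have k4 := htn z k2
      rw [Complex.neg_re]
      linarith
    · have hlt : ‖z₀‖ < 1 := lt_of_le_of_ne (mem_closedBall_zero_iff.1 hz₀c) hn
      have hnO : z₀ ∉ O := by
        have h1 : z₀ ∈ closure O \ O := by rwa [← hOo.frontier_eq]
        exact h1.2
      have hor : R ≤ ‖A z₀‖ ∨ D ≤ |yp A B ζ z₀| := by
        by_contra hcon
        push Not at hcon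
        apply hnO
        rw [hOdef]
        exact ⟨mem_ball_zero_iff.2 hlt, hcon.1, hcon.2⟩
      rcases hor with hor | hor
      · have hAR : ‖A z₀‖ = R := le_antisymm hA₀ hor
        rw [hAR] at hAt
        have h1 : Tendsto (fun z => c₁ * (Real.cos (a * π / 2) * ‖A z‖ ^ a)) (𝓝[O] z₀)
            (𝓝 (c₁ * (Real.cos (a * π / 2) * R ^ a))) :=
          ((hAt.rpow_const (Or.inl hR.ne')).const_mul _).const_mul _
        have h2 : c₁ * (Real.cos (a * π / 2) * R ^ a) = 1 := by
          rw [hc₁]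
          exact inv_mul_cancel₀ (mul_pos hcos hRa).ne'
        rw [h2] at h1
        have h3 := h1.eventually_const_lt (show (1 : ℝ) - ε < 1 by linarith)
        filter_upwards [h3, hev] with z k1 k2
        have k3 := mul_le_mul_of_nonneg_left (hVge z k2) hc₁0.le
        have k4 := htn z k2
        have k5 := hPle z k2
        rw [Complex.neg_re]
        linarith
      · have h1 : travel A B ζ p R N D z₀ = 1 :=
          travel_eq_one_of_far h hp hp1 hR hN hD hz₀c hA₀ hor
        have h2 : Tendsto (travel A B ζ p R N D) (𝓝[O] z₀) (𝓝 (travel A B ζ p R N D z₀)) :=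
          (htc z₀ hz₀c).mono_left hmono
        rw [h1] at h2
        have h3 := h2.eventually_const_lt (show (1 : ℝ) - ε < 1 by linarith)
        filter_upwards [h3, hev] with z k1 k2
        have k3 := mul_nonneg hc₁0.le (hVnn z k2)
        have k5 := hPle z k2
        rw [Complex.neg_re]
        linarith

end Pool.Agent.HQ
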