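import Pool.Agent.HQ.PotK

/-!
# HQ: the potential
-/

set_option autoImplicit false

open Complex Metric Set Filter Topology MeasureTheory
open scoped ComplexConjugate Real

namespace Pool.Agent.HQ

variable {N : Set ℂ} {ψ : ℂ → ℝ} {R M : ℝ}

private theorem pot_den {ζ z : ℂ} (hζ : ‖ζ‖ ≤ R) (hz : ‖z‖ ≤ 1) :
    1 - R ≤ ‖1 - conj ζ * z‖ := by
  have h1 : ‖conj ζ * z‖ ≤ R := by
    rw [norm_mul, RCLike.norm_conj]
    calc ‖ζ‖ * ‖z‖ ≤ ‖ζ‖ * 1 := mul_le_mul_of_nonneg_left hz (norm_nonneg _)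
      _ ≤ R := by rw [mul_one]; exact hζ
  have h2 := norm_sub_norm_le (1 : ℂ) (conj ζ * z)
  rw [norm_one] at h2
  linarith

private theorem pot_bound {ζ z : ℂ} (hζ : ‖ζ‖ ≤ R) (hR1 : R < 1) (hz : ‖z‖ ≤ 1)
    (hψ : |ψ ζ| ≤ M) :
    ‖ψ ζ * (ker ζ z / (1 - ‖ζ‖ ^ 2) ^ 2)‖ ≤ M * (1 / (1 - R) ^ 2 / (1 - R) ^ 2) := by
  have h0 : 0 < 1 - R := by linarith
  have hd := pot_den hζ hz
  have hζ0 := norm_nonneg ζ
  have hz0 := norm_nonneg z
  have h1 : 1 - R ≤ 1 - ‖ζ‖ ^ 2 := by nlinarith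
  have h2 : 1 - ‖ζ‖ ^ 2 ≤ 1 := by nlinarith
  have h3 : 0 ≤ 1 - ‖z‖ ^ 2 := by nlinarith
  have h4 : 1 - ‖z‖ ^ 2 ≤ 1 := by nlinarith
  rw [norm_mul, Real.norm_eq_abs, Real.norm_eq_abs]
  apply mul_le_mul hψ _ (abs_nonneg _) ((abs_nonneg _).trans hψ)
  rw [ker, abs_of_nonneg (div_nonneg (div_nonneg (mul_nonneg (by linarith) h3)
    (sq_nonneg _)) (sq_nonneg _))]
  apply div_le_div₀
  · positivity
  · apply div_le_div₀ zero_le_one
    · nlinarith
    · positivity
    · exact pow_le_pow_left₀ h0.le hd 2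
  · positivity
  · exact pow_le_pow_left₀ h0.le h1 2

private theorem pot_ker_cont {ζ : ℂ} (hζ : ‖ζ‖ ≤ R) (hR1 : R < 1) :
    ContinuousOn (fun z => ψ ζ * (ker ζ z / (1 - ‖ζ‖ ^ 2) ^ 2)) (closedBall 0 1) := by
  apply ContinuousOn.mul continuousOn_const
  apply ContinuousOn.div_const
  unfold ker
  apply ContinuousOn.div
  · fun_prop
  · fun_prop
  · intro z hz
    rw [mem_closedBall_zero_iff] at hz
    have := pot_den hζ hz
    have h0 : 0 < 1 - R := by linarith
    have : 0 < ‖1 - conj ζ * z‖ := by linarith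
    positivity

private theorem pot_finite (hN : N ⊆ closedBall 0 R) : IsFiniteMeasure (volume.restrict N) := by
  refine ⟨?_⟩
  rw [Measure.restrict_apply_univ]
  exact (measure_mono hN).trans_lt (isCompact_closedBall 0 R).measure_lt_top

private theorem pot_ker_meas (z : ℂ) : Measurable fun ζ : ℂ => ker ζ z / (1 - ‖ζ‖ ^ 2) ^ 2 := by
  unfold ker
  have h : Continuous fun ζ : ℂ => conj ζ := Complex.continuous_conj
  have h1 := h.measurable
  fun_prop

/-- Dominated convergence: the integrand is jointly continuous in `z` and bounded on `N`. -/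
theorem pot_continuousOn (hR1 : R < 1) (hN : N ⊆ closedBall 0 R) (hNm : MeasurableSet N)
    (hψm : AEStronglyMeasurable ψ (volume.restrict N))
    (hψM : ∀ ζ ∈ N, |ψ ζ| ≤ M) : ContinuousOn (pot N ψ) (closedBall 0 1) := by
  have := pot_finite hN
  apply MeasureTheory.continuousOn_of_dominated
    (bound := fun _ => M * (1 / (1 - R) ^ 2 / (1 - R) ^ 2))
  · intro z _
    exact hψm.mul (pot_ker_meas z).aestronglyMeasurable
  · intro z hz
    rw [mem_closedBall_zero_iff] at hz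
    exact ae_restrict_of_forall_mem hNm fun ζ hζ =>
      pot_bound (mem_closedBall_zero_iff.mp (hN hζ)) hR1 hz (hψM ζ hζ)
  · exact integrable_const _
  · exact ae_restrict_of_forall_mem hNm fun ζ hζ =>
      pot_ker_cont (mem_closedBall_zero_iff.mp (hN hζ)) hR1

/-- Fubini and `ker_avg_le`. -/
theorem pot_smean (hR1 : R < 1) (hN : N ⊆ closedBall 0 R) (hNm : MeasurableSet N)
    (hψm : AEStronglyMeasurable ψ (volume.restrict N)) (hψ0 : ∀ ζ ∈ N, 0 ≤ ψ ζ)
    (hψM : ∀ ζ ∈ N, |ψ ζ| ≤ M) {z : ℂ} (hz : ‖z‖ < 1) : SMean (pot N ψ) z := by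
  have := pot_finite hN
  intro ε hε
  have e1 : ∀ᶠ r in 𝓝[>] (0 : ℝ), r < 1 - ‖z‖ :=
    mem_nhdsWithin_of_mem_nhds (Iio_mem_nhds (by linarith))
  have e2 : ∀ᶠ r in 𝓝[>] (0 : ℝ), 0 < r := self_mem_nhdsWithin
  filter_upwards [e1, e2] with r hr1 hr0
  have hzr : ‖z‖ + r < 1 := by linarith
  have hcirc : ∀ θ : ℝ, ‖circleMap z r θ‖ ≤ 1 := by
    intro θ
    have h1 : ‖circleMap z r θ - z‖ = r := by
      rw [circleMap_sub_center, norm_circleMap_zero, abs_of_pos hr0]
    calc ‖circleMap z r θ‖ = ‖(circleMap z r θ - z) + z‖ := by rw [sub_add_cancel]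
      _ ≤ ‖circleMap z r θ - z‖ + ‖z‖ := norm_add_le _ _
      _ ≤ 1 := by rw [h1]; linarith
  have hsph : sphere z r ⊆ closedBall (0 : ℂ) 1 := by
    intro w hw
    rw [mem_sphere, dist_eq_norm] at hw
    rw [mem_closedBall_zero_iff]
    calc ‖w‖ = ‖(w - z) + z‖ := by rw [sub_add_cancel]
      _ ≤ ‖w - z‖ + ‖z‖ := norm_add_le _ _
      _ ≤ 1 := by rw [hw]; linarith
  refine ⟨((pot_continuousOn hR1 hN hNm hψm hψM).mono hsph).circleIntegrable hr0.le, ?_⟩
  -- Fubini
  have hint : Integrable (Function.uncurry fun (θ : ℝ) (ζ : ℂ) =>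
      ψ ζ * (ker ζ (circleMap z r θ) / (1 - ‖ζ‖ ^ 2) ^ 2))
      ((volume.restrict (uIoc 0 (2 * π))).prod (volume.restrict N)) := by
    have : IsFiniteMeasure (volume.restrict (uIoc (0 : ℝ) (2 * π))) := by
      refine ⟨?_⟩
      rw [Measure.restrict_apply_univ, uIoc_of_le Real.two_pi_pos.le]
      exact measure_Ioc_lt_top
    refine MeasureTheory.Integrable.of_bound ?_ (M * (1 / (1 - R) ^ 2 / (1 - R) ^ 2)) ?_
    · apply AEStronglyMeasurable.mul
      · exact hψm.comp_snd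
      · apply Measurable.aestronglyMeasurable
        unfold ker
        have h : Continuous fun ζ : ℂ => conj ζ := Complex.continuous_conj
        have h1 := h.measurable
        have h2 : Measurable fun θ : ℝ => circleMap z r θ := (continuous_circleMap z r).measurable
        fun_prop
    · rw [Measure.prod_restrict]
      refine ae_restrict_of_forall_mem (measurableSet_uIoc.prod hNm) fun x hx => ?_
      exact pot_bound (mem_closedBall_zero_iff.mp (hN hx.2)) hR1 (hcirc x.1) (hψM x.2 hx.2)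
  have hswap := intervalIntegral_integral_swap hint
  have havg : Real.circleAverage (pot N ψ) z r =
      ∫ ζ in N, ψ ζ * (Real.circleAverage (ker ζ) z r / (1 - ‖ζ‖ ^ 2) ^ 2) := by
    rw [Real.circleAverage_def]
    have h1 : (∫ θ in (0 : ℝ)..2 * π, pot N ψ (circleMap z r θ)) =
        ∫ θ in (0 : ℝ)..2 * π, ∫ ζ in N,
          ψ ζ * (ker ζ (circleMap z r θ) / (1 - ‖ζ‖ ^ 2) ^ 2) := rfl
    rw [h1, hswap, smul_eq_mul, ← integral_const_mul]
    congr 1
    ext ζ
    rw [Real.circleAverage_def, intervalIntegral.integral_const_mul,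
      intervalIntegral.integral_div, smul_eq_mul]
    ring
  rw [havg]
  have hle : ∫ ζ in N, ψ ζ * (Real.circleAverage (ker ζ) z r / (1 - ‖ζ‖ ^ 2) ^ 2) ≤
      pot N ψ z := by
    apply integral_mono_of_nonneg
    · exact ae_restrict_of_forall_mem hNm fun ζ hζ => by
        have hζR := mem_closedBall_zero_iff.mp (hN hζ)
        have hζ1 : ‖ζ‖ < 1 := by linarith
        apply mul_nonneg (hψ0 ζ hζ)
        apply div_nonneg _ (sq_nonneg _)
        apply Real.circleAverage_nonneg_of_nonneg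
        intro w hw
        rw [abs_of_pos hr0] at hw
        exact ker_nonneg hζ1 (mem_closedBall_zero_iff.mp (hsph hw))
    · refine MeasureTheory.Integrable.of_bound ?_ (M * (1 / (1 - R) ^ 2 / (1 - R) ^ 2)) ?_
      · exact hψm.mul (pot_ker_meas z).aestronglyMeasurable
      · exact ae_restrict_of_forall_mem hNm fun ζ hζ =>
          pot_bound (mem_closedBall_zero_iff.mp (hN hζ)) hR1 hz.le (hψM ζ hζ)
    · exact ae_restrict_of_forall_mem hNm fun ζ hζ => by
        have hζR := mem_closedBall_zero_iff.mp (hN hζ)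
        have hζ1 : ‖ζ‖ < 1 := by linarith
        apply mul_le_mul_of_nonneg_left _ (hψ0 ζ hζ)
        exact div_le_div_of_nonneg_right (ker_avg_le hζ1 hr0 hzr) (sq_nonneg _)
  have : 0 < ε * r ^ 2 := by positivity
  linarith

end Pool.Agent.HQ
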