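import Pool.Agent.HQ.PotK

/-!
# HQ: lower bound of the potential
-/

set_option autoImplicit false

open Complex Metric Set Filter Topology MeasureTheory
open scoped ComplexConjugate Real

namespace Pool.Agent.HQ

variable {N : Set ℂ} {ψ : ℂ → ℝ} {R M : ℝ}

private theorem potGe_absdet (c : ℂ) :
    |(((1 : ℂ →L[ℂ] ℂ).smulRight c).restrictScalars ℝ).det| = ‖c‖ ^ 2 := by
  have h1 : (((1 : ℂ →L[ℂ] ℂ).smulRight c).restrictScalars ℝ).det =
      LinearMap.det ((((1 : ℂ →L[ℂ] ℂ).smulRight c : ℂ →L[ℂ] ℂ) : ℂ →ₗ[ℂ] ℂ).restrictScalars ℝ) :=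
    rfl
  have h2 : LinearMap.det (((1 : ℂ →L[ℂ] ℂ).smulRight c : ℂ →L[ℂ] ℂ) : ℂ →ₗ[ℂ] ℂ) = c := by
    rw [LinearMap.det_ring]
    simp
  rw [h1, LinearMap.det_restrictScalars, h2, Algebra.norm_complex_apply,
    Complex.normSq_eq_norm_sq, abs_of_nonneg (by positivity)]

/-- The kernel is bounded and continuous on `closedBall 0 R`. -/
private theorem potGe_integrable (hR1 : R < 1) (hN : N ⊆ closedBall 0 R)
    (hψm : AEStronglyMeasurable ψ (volume.restrict N)) (hNm : MeasurableSet N)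
    (hψM : ∀ ζ ∈ N, |ψ ζ| ≤ M) {z : ℂ} (hz : ‖z‖ < 1) :
    IntegrableOn (fun ζ => ψ ζ * (ker ζ z / (1 - ‖ζ‖ ^ 2) ^ 2)) N := by
  have hk : ContinuousOn (fun ζ : ℂ => ker ζ z / (1 - ‖ζ‖ ^ 2) ^ 2) (closedBall 0 R) := by
    have h1 : ∀ ζ ∈ closedBall (0 : ℂ) R, ‖ζ‖ < 1 := by
      intro ζ hζ
      rw [mem_closedBall_zero_iff] at hζ
      linarith
    unfold ker
    apply ContinuousOn.div
    · apply ContinuousOn.div
      · fun_prop
      · exact ((continuous_const.sub (Complex.continuous_conj.mul continuous_const)).norm.pow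
          2).continuousOn
      · intro ζ hζ
        have h2 : (1 : ℂ) - conj ζ * z ≠ 0 := by
          intro h0
          have h3 : conj ζ * z = 1 := by linear_combination -h0
          have h4 : ‖ζ‖ * ‖z‖ = 1 := by
            have := congrArg norm h3
            simpa using this
          nlinarith [h1 ζ hζ, norm_nonneg ζ, norm_nonneg z]
        positivity
    · fun_prop
    · intro ζ hζ
      have h2 := h1 ζ hζ
      have h3 : 0 < 1 - ‖ζ‖ ^ 2 := by nlinarith [norm_nonneg ζ]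
      positivity
  have hcomp : IsCompact (closedBall (0 : ℂ) R) := isCompact_closedBall 0 R
  have hki : IntegrableOn (fun ζ : ℂ => ker ζ z / (1 - ‖ζ‖ ^ 2) ^ 2) N :=
    (hk.integrableOn_compact hcomp).mono_set hN
  refine Integrable.bdd_mul (c := M) hki hψm ?_
  rw [ae_restrict_iff' hNm]
  exact Eventually.of_forall fun ζ hζ => by
    rw [Real.norm_eq_abs]
    exact hψM ζ hζ

/-- If the hyperbolic disc about `z` is in `N`, then the potential controls the area average of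
`ψ`.  Change of variables `ζ = mob z w` (`integral_image_eq_integral_abs_det_fderiv_smul`):
`dA(ζ) / (1-|ζ|²)² = dA(w) / (1-|w|²)²`, `ker (mob z w) z = 1 - |w|² ≥ (1-|w|²)²`. -/
theorem pot_ge (hR1 : R < 1) (hN : N ⊆ closedBall 0 R) (hNm : MeasurableSet N)
    (hψm : AEStronglyMeasurable ψ (volume.restrict N)) (hψ0 : ∀ ζ ∈ N, 0 ≤ ψ ζ)
    (hψM : ∀ ζ ∈ N, |ψ ζ| ≤ M) {z : ℂ} (hz : ‖z‖ < 1) {r : ℝ} (hr : 0 < r) (hr1 : r < 1)
    (hsub : ∀ w : ℂ, ‖w‖ < r → mob z w ∈ N) :
    ∫ w in ball (0 : ℂ) r, ψ (mob z w) ≤ pot N ψ z := by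
  set g : ℂ → ℝ := fun ζ => ψ ζ * (ker ζ z / (1 - ‖ζ‖ ^ 2) ^ 2) with hg
  have hgi : IntegrableOn g N := potGe_integrable hR1 hN hψm hNm hψM hz
  have hg0 : ∀ ζ ∈ N, 0 ≤ g ζ := by
    intro ζ hζ
    have h1 : ‖ζ‖ < 1 := by
      have := hN hζ
      rw [mem_closedBall_zero_iff] at this
      linarith
    exact mul_nonneg (hψ0 ζ hζ) (div_nonneg (ker_nonneg h1 hz.le) (by positivity))
  have hS : mob z '' ball 0 r ⊆ N := by
    rintro _ ⟨w, hw, rfl⟩
    exact hsub w (mem_ball_zero_iff.mp hw)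
  have hw1 : ∀ w ∈ ball (0 : ℂ) r, ‖w‖ < 1 := fun w hw =>
    (mem_ball_zero_iff.mp hw).trans hr1
  set d : ℂ → ℂ := fun w => ((1 - ‖z‖ ^ 2 : ℝ) : ℂ) / (1 + conj z * w) ^ 2 with hd
  have hf' : ∀ w ∈ ball (0 : ℂ) r, HasFDerivWithinAt (mob z)
      (((1 : ℂ →L[ℂ] ℂ).smulRight (d w)).restrictScalars ℝ) (ball 0 r) w := fun w hw =>
    ((hasDerivAt_mob hz (hw1 w hw).le).hasFDerivAt.restrictScalars ℝ).hasFDerivWithinAt
  have hinj : InjOn (mob z) (ball 0 r) := (mob_injOn hz).mono fun w hw => by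
    rw [mem_closedBall_zero_iff]
    exact (hw1 w hw).le
  have hcv := integral_image_eq_integral_abs_det_fderiv_smul volume measurableSet_ball hf' hinj g
  have hii := (integrableOn_image_iff_integrableOn_abs_det_fderiv_smul volume measurableSet_ball
    hf' hinj g).mp (hgi.mono_set hS)
  set h : ℂ → ℝ := fun w =>
    |(((1 : ℂ →L[ℂ] ℂ).smulRight (d w)).restrictScalars ℝ).det| • g (mob z w) with hh
  have hval : ∀ w ∈ ball (0 : ℂ) r, h w = ψ (mob z w) / (1 - ‖w‖ ^ 2) := by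
    intro w hw
    have e1 := hw1 w hw
    have e2 := one_sub_normSq_mob hz e1.le
    have e3 := ker_mob hz e1
    have hne := one_add_conj_mul_ne hz e1.le
    have hpz : 0 < 1 - ‖z‖ ^ 2 := by nlinarith [norm_nonneg z]
    have hpw : 0 < 1 - ‖w‖ ^ 2 := by nlinarith [norm_nonneg w]
    have hpn : 0 < ‖1 + conj z * w‖ := norm_pos_iff.mpr hne
    have e4 : ‖d w‖ = (1 - ‖z‖ ^ 2) / ‖1 + conj z * w‖ ^ 2 := by
      simp only [hd]
      rw [norm_div, norm_pow, norm_real, Real.norm_of_nonneg hpz.le]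
    simp only [hh, hg, smul_eq_mul]
    rw [potGe_absdet, e4, e3, e2]
    field_simp
  have hival : IntegrableOn (fun w => ψ (mob z w)) (ball 0 r) := by
    have h1 : IntegrableOn (fun w : ℂ => (1 - ‖w‖ ^ 2) * h w) (ball 0 r) := by
      refine Integrable.bdd_mul (c := 1) hii ?_ ?_
      · exact (by fun_prop : Continuous fun w : ℂ => 1 - ‖w‖ ^ 2).aestronglyMeasurable
      · rw [ae_restrict_iff' measurableSet_ball]
        refine Eventually.of_forall fun w hw => ?_
        have e1 := hw1 w hw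
        rw [Real.norm_eq_abs, abs_le]
        constructor <;> nlinarith [norm_nonneg w]
    refine h1.congr_fun (fun w hw => ?_) measurableSet_ball
    have hpw : 0 < 1 - ‖w‖ ^ 2 := by nlinarith [norm_nonneg w, hw1 w hw]
    simp only
    rw [hval w hw]
    field_simp
  calc ∫ w in ball (0 : ℂ) r, ψ (mob z w) ≤ ∫ w in ball (0 : ℂ) r, h w := by
        refine setIntegral_mono_on hival hii measurableSet_ball fun w hw => ?_
        rw [hval w hw]
        have hpw : 0 < 1 - ‖w‖ ^ 2 := by nlinarith [norm_nonneg w, hw1 w hw]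
        have h0 := hψ0 _ (hsub w (mem_ball_zero_iff.mp hw))
        rw [le_div_iff₀ hpw]
        nlinarith [sq_nonneg ‖w‖]
    _ = ∫ ζ in mob z '' ball 0 r, g ζ := hcv.symm
    _ ≤ ∫ ζ in N, g ζ := by
        refine setIntegral_mono_set hgi ?_ hS.eventuallyLE
        rw [EventuallyLE, ae_restrict_iff' hNm]
        exact Eventually.of_forall fun ζ hζ => hg0 ζ hζ
    _ = pot N ψ z := rfl

end Pool.Agent.HQ
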