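import Pool.Agent.HQ.Apriori

/-!
# HQ: thin points, return
-/

set_option autoImplicit false

open Complex Metric Set Filter Topology MeasureTheory
open scoped ComplexConjugate Real

namespace Pool.Agent.HQ

/-- the circle integrability of indicators of superlevel sets -/
private theorem circleIntegrable_ind_Ret {A : ℂ → ℂ} (hA : ContinuousOn A (sphere 0 1)) (L : ℝ) :
    CircleIntegrable ({w : ℂ | L ≤ ‖A w‖}.indicator fun _ => (1 : ℝ)) 0 1 := by
  have h1 : Continuous fun θ : ℝ => A (circleMap 0 1 θ) :=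
    hA.comp_continuous (continuous_circleMap 0 1) fun θ => by
      simp
  have h2 : MeasurableSet {θ : ℝ | L ≤ ‖A (circleMap 0 1 θ)‖} :=
    (isClosed_le continuous_const h1.norm).measurableSet
  have h3 : (fun θ : ℝ => ({w : ℂ | L ≤ ‖A w‖}.indicator fun _ => (1 : ℝ)) (circleMap 0 1 θ)) =
      {θ : ℝ | L ≤ ‖A (circleMap 0 1 θ)‖}.indicator fun _ => (1 : ℝ) := by
    funext θ
    simp only [Set.indicator, Set.mem_ofPred_eq]
  rw [circleIntegrable_def, h3]
  have h4 : IntervalIntegrable (fun _ : ℝ => (1 : ℝ)) volume 0 (2 * π) := intervalIntegrable_const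
  exact ⟨h4.1.indicator h2, h4.2.indicator h2⟩

/-- data of the pair seen from `z` -/
private theorem seen_Ret {A B : ℂ → ℂ} (h : HPair A B) {z : ℂ} (hz : ‖z‖ < 1) :
    HPair (fun w => A (mob z w)) (fun w => B (mob z w)) ∧
      ‖deriv (fun w => A (mob z w)) 0‖ = rho A z := by
  refine ⟨h.comp_mob hz, ?_⟩
  have h1 := rho_comp_mob h.anA hz (z := 0) (by simp)
  rw [mob_zero_right] at h1
  rw [← h1, rho]
  simp

private theorem rho_nonneg_Ret (A : ℂ → ℂ) {z : ℂ} (hz : ‖z‖ < 1) : 0 ≤ rho A z := by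
  have : 0 ≤ 1 - ‖z‖ ^ 2 := by nlinarith [norm_nonneg z]
  exact mul_nonneg this (norm_nonneg _)

private theorem int_pow_Ret {A : ℂ → ℂ} (hA : ContinuousOn A (sphere 0 1)) {b : ℝ} (hb : 0 < b)
    (c : ℂ) : CircleIntegrable (fun w => ‖A w - c‖ ^ b) 0 1 := by
  refine ContinuousOn.circleIntegrable zero_le_one ?_
  exact ((hA.sub continuousOn_const).norm).rpow_const fun _ _ => Or.inr hb.le

/-- Thin points (package W6): `apriori` for the pair seen from `z`, and Chebyshev.
(`|A (mob z w)| ≥ L / 2` and `|A z| ≤ L / 4` imply `|A (mob z w) - A z| ≥ L / 4`; constant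
`(2 + 64 K²) 4^b`.) -/
theorem tail_thin {K : ℝ} (hK : Loc K) : ∃ b C : ℝ, 0 < b ∧ b ≤ 1 ∧ 0 < C ∧
    ∀ A B : ℂ → ℂ, HPair A B → ∀ z : ℂ, ‖z‖ < 1 → ∀ L : ℝ, 0 < L → ‖A z‖ ≤ L / 4 →
      tail (fun w => A (mob z w)) (L / 2) ≤ C * (rho A z / L) ^ b := by
  have hK1 : 1 ≤ K := hK.1
  have hb0 : (0 : ℝ) < 1 / (64 * K ^ 2) := by positivity
  have hb1 : 1 / (64 * K ^ 2) ≤ 1 := by
    rw [div_le_one (by positivity)]
    nlinarith
  refine ⟨1 / (64 * K ^ 2), (2 + 64 * K ^ 2) * 4 ^ (1 / (64 * K ^ 2)), hb0, hb1, by positivity,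
    ?_⟩
  intro A B h z hz L hL hAz
  set b : ℝ := 1 / (64 * K ^ 2) with hb
  obtain ⟨h', hd⟩ := seen_Ret h hz
  set A' : ℂ → ℂ := fun w => A (mob z w) with hA'
  have hA0 : A' 0 = A z := by simp [hA']
  have hap := apriori hK h' hb0 le_rfl
  rw [hd, hA0] at hap
  have hcont : ContinuousOn A' (sphere 0 1) :=
    (h'.anA.continuousOn).mono sphere_subset_closedBall
  have hint := int_pow_Ret hcont hb0 (A z)
  have hr0 := rho_nonneg_Ret A hz
  have hL4 : 0 < (L / 4) ^ b := by positivity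
  have hmono : Real.circleAverage ({w : ℂ | L / 2 ≤ ‖A' w‖}.indicator fun _ => (1 : ℝ)) 0 1 ≤
      Real.circleAverage (fun w => ((L / 4) ^ b)⁻¹ * ‖A' w - A z‖ ^ b) 0 1 := by
    refine Real.circleAverage_mono (circleIntegrable_ind_Ret hcont _)
      (hint.const_smul (a := ((L / 4) ^ b)⁻¹)) fun w _ => ?_
    by_cases hw : L / 2 ≤ ‖A' w‖
    · rw [Set.indicator_of_mem (show w ∈ {w : ℂ | L / 2 ≤ ‖A' w‖} from hw)]
      have h1 : L / 4 ≤ ‖A' w - A z‖ := by
        have := norm_sub_norm_le (A' w) (A z)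
        linarith
      have h2 : (L / 4) ^ b ≤ ‖A' w - A z‖ ^ b :=
        Real.rpow_le_rpow (by positivity) h1 hb0.le
      rw [inv_mul_eq_div, one_le_div hL4]
      exact h2
    · rw [Set.indicator_of_notMem (show w ∉ {w : ℂ | L / 2 ≤ ‖A' w‖} from hw)]
      positivity
  have hsm : Real.circleAverage (fun w => ((L / 4) ^ b)⁻¹ * ‖A' w - A z‖ ^ b) 0 1 =
      ((L / 4) ^ b)⁻¹ * Real.circleAverage (fun w => ‖A' w - A z‖ ^ b) 0 1 :=
    Real.circleAverage_fun_smul (a := ((L / 4) ^ b)⁻¹) (f := fun w => ‖A' w - A z‖ ^ b)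
  rw [hsm] at hmono
  have hmul := mul_le_mul_of_nonneg_left hap (inv_nonneg.2 hL4.le)
  show Real.circleAverage ({w : ℂ | L / 2 ≤ ‖A' w‖}.indicator fun _ => (1 : ℝ)) 0 1 ≤ _
  refine hmono.trans (hmul.trans (le_of_eq ?_))
  rw [Real.div_rpow hr0 hL.le, Real.div_rpow hL.le (by norm_num : (0 : ℝ) ≤ 4)]
  have h4 : (0 : ℝ) < 4 ^ b := by positivity
  have hLb : 0 < L ^ b := by positivity
  field_simp

/-- Jensen's inequality (from `AnalyticOnNhd.circleAverage_log_norm`, or any other proof). -/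
theorem log_le_circleAverage {A : ℂ → ℂ} (hA : AnalyticOnNhd ℂ A (closedBall 0 1))
    (h0 : A 0 ≠ 0) : CircleIntegrable (fun z => Real.log ‖A z‖) 0 1 ∧
      Real.log ‖A 0‖ ≤ Real.circleAverage (fun z => Real.log ‖A z‖) 0 1 := by
  refine ⟨?_, ?_⟩
  · refine MeromorphicOn.circleIntegrable_log_norm ?_
    rw [abs_one]
    exact (hA.mono sphere_subset_closedBall).meromorphicOn
  · have hA1 : AnalyticOnNhd ℂ A (closedBall 0 |1|) := by rwa [abs_one]
    have h1 := AnalyticOnNhd.circleAverage_log_norm (c := 0) (R := 1) one_ne_zero hA1 h0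
    rw [h1]
    have h2 : 0 ≤ ∑ᶠ u, (MeromorphicOn.divisor A (closedBall 0 |1|) u : ℝ) *
        Real.log (1 * ‖(0 : ℂ) - u‖⁻¹) := by
      refine finsum_nonneg fun u => ?_
      have h3 : (0 : ℤ) ≤ MeromorphicOn.divisor A (closedBall 0 |1|) u :=
        MeromorphicOn.AnalyticOnNhd.divisor_nonneg hA1 u
      have h3' : (0 : ℝ) ≤ (MeromorphicOn.divisor A (closedBall 0 |1|) u : ℝ) := by
        exact_mod_cast h3
      by_cases hu : u ∈ closedBall (0 : ℂ) |1|
      · refine mul_nonneg h3' ?_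
        rw [abs_one, mem_closedBall_zero_iff] at hu
        rw [one_mul, zero_sub, norm_neg]
        rcases eq_or_ne u 0 with rfl | hu0
        · simp
        · exact Real.log_nonneg ((one_le_inv₀ (norm_pos_iff.2 hu0)).2 hu)
      · rw [Function.locallyFinsuppWithin.apply_eq_zero_of_notMem _ hu]
        simp
    linarith

/-- Return (package W6).  Seen from `z`, the function `X = log (|A| / |A z|)` has mean `≥ 0`
(Jensen), and the mean of `exp (b X) = (|A| / |A z|)^b` is at most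
`1 + (2 + 64 K²) (rho z / |A z|)^b ≤ C` (`apriori`, `(x + y)^b ≤ x^b + y^b`).  So the mean of
`X⁺` is at most `C / b`, and `M · P(X < -M) ≤ C / b`; take `M = 2 C / b`, `c = exp (-M)`. -/
theorem ret {K K2 : ℝ} (hK : Loc K) (hK2 : 1 ≤ K2) : ∃ c : ℝ, 0 < c ∧ c ≤ 1 ∧
    ∀ A B : ℂ → ℂ, HPair A B → ∀ z : ℂ, ‖z‖ < 1 → A z ≠ 0 → rho A z ≤ K2 * ‖A z‖ →
      1 / 2 ≤ tail (fun w => A (mob z w)) (c * ‖A z‖) := by
  have hK1 : 1 ≤ K := hK.1
  set b : ℝ := 1 / (64 * K ^ 2) with hb
  have hb0 : (0 : ℝ) < b := by positivity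
  have hb1 : b ≤ 1 := by
    rw [hb, div_le_one (by positivity)]
    nlinarith
  set C : ℝ := 1 + (2 + 64 * K ^ 2) * K2 ^ b with hC
  have hC0 : 0 < C := by positivity
  set M : ℝ := 2 * C / b with hM
  have hM0 : 0 < M := by positivity
  refine ⟨Real.exp (-M), Real.exp_pos _, Real.exp_le_one_iff.2 (by linarith), ?_⟩
  intro A B h z hz hAz hrho
  obtain ⟨h', hd⟩ := seen_Ret h hz
  set A' : ℂ → ℂ := fun w => A (mob z w) with hA'
  have hA0 : A' 0 = A z := by simp [hA']
  have hap := apriori hK h' hb0 le_rfl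
  rw [hd, hA0] at hap
  have hcont : ContinuousOn A' (sphere 0 1) :=
    (h'.anA.continuousOn).mono sphere_subset_closedBall
  have hr0 := rho_nonneg_Ret A hz
  have ha : 0 < ‖A z‖ := norm_pos_iff.2 hAz
  set a : ℝ := ‖A z‖ with hadef
  have hab : 0 < a ^ b := by positivity
  -- the mean of `‖A'‖ ^ b`
  have hint0 : CircleIntegrable (fun w => ‖A' w‖ ^ b) 0 1 := by
    have := int_pow_Ret hcont hb0 0
    simpa using this
  have hint1 := int_pow_Ret hcont hb0 (A z)
  have hrb : rho A z ^ b ≤ K2 ^ b * a ^ b := by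
    rw [← Real.mul_rpow (by linarith) ha.le]
    exact Real.rpow_le_rpow hr0 hrho hb0.le
  have hmean : Real.circleAverage (fun w => ‖A' w‖ ^ b) 0 1 ≤ C * a ^ b := by
    have h1 : Real.circleAverage (fun w => ‖A' w‖ ^ b) 0 1 ≤
        Real.circleAverage (fun w => ‖A' w - A z‖ ^ b + a ^ b) 0 1 := by
      refine Real.circleAverage_mono hint0 (hint1.add (circleIntegrable_const _ _ _)) fun w _ => ?_
      have h2 : ‖A' w‖ ≤ ‖A' w - A z‖ + a := by
        have := norm_add_le (A' w - A z) (A z)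
        rwa [sub_add_cancel] at this
      exact (Real.rpow_le_rpow (norm_nonneg _) h2 hb0.le).trans
        (Real.rpow_add_le_add_rpow (norm_nonneg _) ha.le hb0.le hb1)
    rw [Real.circleAverage_fun_add hint1 (circleIntegrable_const _ _ _),
      Real.circleAverage_const] at h1
    have h3 : (2 + 64 * K ^ 2) * rho A z ^ b ≤ (2 + 64 * K ^ 2) * (K2 ^ b * a ^ b) :=
      mul_le_mul_of_nonneg_left hrb (by positivity)
    rw [hC]
    linarith
  -- the modified logarithm
  have hj := log_le_circleAverage h'.anA (by rw [hA0]; exact hAz)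
  rw [hA0] at hj
  set X : ℂ → ℝ := fun w => if A' w = 0 then -M else Real.log ‖A' w‖ - Real.log a with hX
  have hcod : (fun w => Real.log ‖A' w‖ - Real.log a) =ᶠ[codiscreteWithin (sphere (0 : ℂ) |1|)]
      X := by
    have h1 : A' ⁻¹' {0}ᶜ ∈ codiscreteWithin (closedBall (0 : ℂ) 1) :=
      h'.anA.preimage_zero_mem_codiscreteWithin (x := 0) (by rw [hA0]; exact hAz) (by simp)
        ⟨⟨0, by simp⟩, (convex_closedBall (0 : ℂ) 1).isPreconnected⟩
    have h2 : A' ⁻¹' {0}ᶜ ∈ codiscreteWithin (sphere (0 : ℂ) |1|) := by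
      rw [abs_one]
      exact codiscreteWithin_mono sphere_subset_closedBall h1
    filter_upwards [h2] with w hw
    have hw' : ¬ A' w = 0 := hw
    simp only [hX]
    rw [if_neg hw']
  have hi1 : CircleIntegrable (fun w => Real.log ‖A' w‖ - Real.log a) 0 1 :=
    hj.1.sub (circleIntegrable_const _ _ _)
  have hiX : CircleIntegrable X 0 1 := CircleIntegrable.congr_codiscreteWithin hcod hi1
  have hX0 : 0 ≤ Real.circleAverage X 0 1 := by
    rw [← Real.circleAverage_congr_codiscreteWithin hcod one_ne_zero,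
      Real.circleAverage_fun_sub hj.1 (circleIntegrable_const _ _ _), Real.circleAverage_const]
    linarith [hj.2]
  -- the pointwise inequality
  set T : ℂ → ℝ := {w : ℂ | Real.exp (-M) * a ≤ ‖A' w‖}.indicator fun _ => (1 : ℝ) with hT
  have hiT : CircleIntegrable T 0 1 := circleIntegrable_ind_Ret hcont _
  have hiY : CircleIntegrable (fun w => (b * a ^ b)⁻¹ * ‖A' w‖ ^ b) 0 1 :=
    hint0.const_smul (a := (b * a ^ b)⁻¹)
  have hiMT : CircleIntegrable (fun w => M * T w) 0 1 := hiT.const_smul (a := M)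
  have hle : Real.circleAverage X 0 1 ≤
      Real.circleAverage (fun w => ((b * a ^ b)⁻¹ * ‖A' w‖ ^ b + -M) + M * T w) 0 1 := by
    refine Real.circleAverage_mono hiX ((hiY.add (circleIntegrable_const _ _ _)).add hiMT)
      fun w _ => ?_
    have hY0 : 0 ≤ (b * a ^ b)⁻¹ * ‖A' w‖ ^ b := by positivity
    by_cases hw0 : A' w = 0
    · simp only [hX]
      rw [if_pos hw0]
      have hT0 : 0 ≤ T w := Set.indicator_nonneg (fun _ _ => zero_le_one) _
      nlinarith [mul_nonneg hM0.le hT0]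
    · have hpos : 0 < ‖A' w‖ := norm_pos_iff.2 hw0
      simp only [hX]
      rw [if_neg hw0]
      by_cases hw : Real.exp (-M) * a ≤ ‖A' w‖
      · have hT1 : T w = 1 :=
          Set.indicator_of_mem (show w ∈ {w : ℂ | Real.exp (-M) * a ≤ ‖A' w‖} from hw) _
        rw [hT1]
        have h1 : Real.log ‖A' w‖ - Real.log a = Real.log ((‖A' w‖ / a) ^ b) / b := by
          rw [Real.log_rpow (by positivity), Real.log_div hpos.ne' ha.ne']
          field_simp
        have h2 : Real.log ((‖A' w‖ / a) ^ b) ≤ (‖A' w‖ / a) ^ b :=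
          (Real.log_le_sub_one_of_pos (by positivity)).trans (by linarith)
        have h3 : (b * a ^ b)⁻¹ * ‖A' w‖ ^ b = (‖A' w‖ / a) ^ b / b := by
          rw [Real.div_rpow hpos.le ha.le]
          field_simp
        rw [h1, h3]
        have h4 := div_le_div_of_nonneg_right h2 hb0.le
        linarith
      · have hT1 : T w = 0 :=
          Set.indicator_of_notMem (show w ∉ {w : ℂ | Real.exp (-M) * a ≤ ‖A' w‖} from hw) _
        rw [hT1]
        have h1 : ‖A' w‖ < Real.exp (-M) * a := not_le.1 hw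
        have h2 := Real.log_lt_log hpos h1
        rw [Real.log_mul (Real.exp_pos _).ne' ha.ne', Real.log_exp] at h2
        linarith
  have hi3 : CircleIntegrable (fun w => (b * a ^ b)⁻¹ * ‖A' w‖ ^ b + -M) 0 1 :=
    hiY.add (circleIntegrable_const _ _ _)
  rw [Real.circleAverage_fun_add hi3 hiMT,
    Real.circleAverage_fun_add hiY (circleIntegrable_const _ _ _), Real.circleAverage_const] at hle
  have e1 : Real.circleAverage (fun w => (b * a ^ b)⁻¹ * ‖A' w‖ ^ b) 0 1 =
      (b * a ^ b)⁻¹ * Real.circleAverage (fun w => ‖A' w‖ ^ b) 0 1 :=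
    Real.circleAverage_fun_smul (a := (b * a ^ b)⁻¹) (f := fun w => ‖A' w‖ ^ b)
  have e2 : Real.circleAverage (fun w => M * T w) 0 1 = M * Real.circleAverage T 0 1 :=
    Real.circleAverage_fun_smul (a := M) (f := T)
  rw [e1, e2] at hle
  have e3 : (b * a ^ b)⁻¹ * Real.circleAverage (fun w => ‖A' w‖ ^ b) 0 1 ≤ M / 2 := by
    have h1 := mul_le_mul_of_nonneg_left hmean (by positivity : 0 ≤ (b * a ^ b)⁻¹)
    refine h1.trans (le_of_eq ?_)
    rw [hM]
    field_simp
  show 1 / 2 ≤ Real.circleAverage T 0 1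
  have e4 : M * (1 / 2) ≤ M * Real.circleAverage T 0 1 := by linarith
  exact le_of_mul_le_mul_left e4 hM0

end Pool.Agent.HQ
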