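import Pool.Agent.HQ.CoreD
import Pool.Agent.HQ.AreaInt
import Pool.Agent.HQ.Pot
import Pool.Agent.HQ.PotGe
import Pool.Agent.HQ.Pair
import Pool.Agent.HQ.Ret

/-!
# HQ: the core inequality
-/

set_option autoImplicit false

open Complex Metric Set Filter Topology MeasureTheory
open scoped ComplexConjugate Real

namespace Pool.Agent.HQ

/-- The set over which the potential is taken. -/
def coreS (A B : ℂ → ℂ) (t d Y : ℝ) : Set ℂ :=
  {ζ ∈ lvl A (2 * t) | t / 2 < ‖A ζ‖ ∧ d / 8 < rho A ζ ∧ |(B ζ).im| < 2 * Y}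

theorem continuousOn_rho {A B : ℂ → ℂ} (h : HPair A B) : ContinuousOn (rho A) (closedBall 0 1) := by
  have h1 : ContinuousOn (deriv A) (closedBall 0 1) := fun z hz =>
    (h.anA z hz).deriv.continuousAt.continuousWithinAt
  unfold rho
  fun_prop

theorem isOpen_coreS {A B : ℂ → ℂ} (h : HPair A B) (t d Y : ℝ) : IsOpen (coreS A B t d Y) := by
  have hA := h.anA.continuousOn
  have hB := h.anB.continuousOn
  have hr := continuousOn_rho h
  have hl : IsOpen (lvl A (2 * t)) := isOpen_lvl hA
  have hsub : lvl A (2 * t) ⊆ closedBall 0 1 := lvl_subset_ball.trans ball_subset_closedBall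
  have h1 := (hA.mono hsub).norm.isOpen_inter_preimage hl (isOpen_Ioi (a := t / 2))
  have h2 := (hr.mono hsub).isOpen_inter_preimage hl (isOpen_Ioi (a := d / 8))
  have hBi : ContinuousOn (fun z => |(B z).im|) (lvl A (2 * t)) :=
    (continuous_im.comp_continuousOn (hB.mono hsub)).abs
  have h3 := hBi.isOpen_inter_preimage hl (isOpen_Iio (a := 2 * Y))
  have : coreS A B t d Y = (lvl A (2 * t) ∩ (fun z => ‖A z‖) ⁻¹' Ioi (t / 2)) ∩
      ((lvl A (2 * t) ∩ rho A ⁻¹' Ioi (d / 8)) ∩
        (lvl A (2 * t) ∩ (fun z => |(B z).im|) ⁻¹' Iio (2 * Y))) := by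
    ext z
    simp only [coreS, mem_ofPred_eq, mem_inter_iff, mem_preimage, mem_Ioi, mem_Iio]
    tauto
  rw [this]
  exact h1.inter (h2.inter h3)

theorem coreS_subset {A B : ℂ → ℂ} (h : HPair A B) {t d Y : ℝ} (hd : 0 < d) :
    ∃ R : ℝ, R < 1 ∧ coreS A B t d Y ⊆ closedBall 0 R := by
  have h1 : ContinuousOn (deriv A) (closedBall 0 1) := fun z hz =>
    (h.anA z hz).deriv.continuousAt.continuousWithinAt
  obtain ⟨M, hM⟩ := (isCompact_closedBall (0 : ℂ) 1).exists_bound_of_continuousOn h1
  have hM0 : 0 ≤ M := (norm_nonneg _).trans (hM 0 (by simp))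
  refine ⟨1 - d / (16 * (M + 1)), by
    have : 0 < d / (16 * (M + 1)) := by positivity
    linarith, fun z hz => ?_⟩
  obtain ⟨hz1, -, hz2, -⟩ := hz
  have hzb := mem_ball_zero_iff.1 (lvl_subset_ball hz1)
  have h3 := hM z (mem_closedBall_zero_iff.2 hzb.le)
  rw [mem_closedBall_zero_iff]
  have h4 : rho A z ≤ 2 * (1 - ‖z‖) * (M + 1) := by
    unfold rho
    have e1 : 0 ≤ 1 - ‖z‖ := by linarith
    have e2 : 1 - ‖z‖ ^ 2 ≤ 2 * (1 - ‖z‖) := by nlinarith [norm_nonneg z]
    have e3 : 0 ≤ 1 - ‖z‖ ^ 2 := by nlinarith [norm_nonneg z]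
    calc (1 - ‖z‖ ^ 2) * ‖deriv A z‖ ≤ (1 - ‖z‖ ^ 2) * (M + 1) := by
          apply mul_le_mul_of_nonneg_left _ e3; linarith
      _ ≤ 2 * (1 - ‖z‖) * (M + 1) := by
          apply mul_le_mul_of_nonneg_right e2; linarith
  have h5 : d / 8 < 2 * (1 - ‖z‖) * (M + 1) := lt_of_lt_of_le hz2 h4
  have h6 : d / (16 * (M + 1)) < 1 - ‖z‖ := by
    rw [div_lt_iff₀ (by positivity)]
    nlinarith
  linarith

theorem cost_nonneg {A B : ℂ → ℂ} (h : HPair A B) {τ L N p : ℝ} (hL : 0 < L) (hN : 0 < N)
    (hp : 0 < p) (hp1 : p < 1) {ζ : ℂ} (hζ : ζ ∈ lvl A τ) : 0 ≤ cost A B τ L N p ζ := by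
  have h1 : 0 < gap (img A B τ) (shearMap A B ζ) :=
    gap_pos (isOpen_image_shearMap h (isOpen_lvl h.anA.continuousOn) lvl_subset_ball)
      (isBounded_image_shearMap h lvl_subset_ball) (mem_image_of_mem _ hζ)
  have h2 := Qf_re_pos h (ball_subset_closedBall (lvl_subset_ball hζ))
  have h3 : 0 < Real.cos (p * π / 2) := by
    apply Real.cos_pos_of_mem_Ioo
    constructor <;> nlinarith [Real.pi_pos]
  unfold cost
  positivity

theorem core_main {K : ℝ} (hK : Loc K) {b Cb c1 : ℝ} (hb : 0 < b) (hCb : 0 < Cb) (hc1 : 0 < c1)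
    (hthin : ∀ A B : ℂ → ℂ, HPair A B → ∀ z : ℂ, ‖z‖ < 1 → ∀ L : ℝ, 0 < L → ‖A z‖ ≤ L / 4 →
      tail (fun w => A (mob z w)) (L / 2) ≤ Cb * (rho A z / L) ^ b)
    (hret : ∀ A B : ℂ → ℂ, HPair A B → ∀ z : ℂ, ‖z‖ < 1 → A z ≠ 0 → rho A z ≤ 64 * K * ‖A z‖ →
      1 / 2 ≤ tail (fun w => A (mob z w)) (c1 * ‖A z‖))
    {a p : ℝ} (ha : 0 < a) (ha1 : a < 1) (hp : 0 < p) (hp1 : p < 1) {A B : ℂ → ℂ} (h : Nrm A B)
    {t L N d Y ε : ℝ} (ht : 1 ≤ t) (hL : 64 * t ≤ L) (hN : 1 ≤ N) (hd : 0 < d) (hY : 0 < Y)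
    (hε : 0 < ε) :
    tail A L ≤ (Cb * (d / L) ^ b + 10 / Real.cos (a * π / 2) * (64 * t / L) ^ a + 10 * ε) *
        (2 * tail A (c1 * t / 2) + 6 * ε)
      + (π * (1 / (1536 * K ^ 2)) ^ 2)⁻¹ *
        pot (coreS A B t d Y) (fun ζ => min 1 (cost A B (2 * t) L N p ζ)) 0
      + travel A B 0 p L N Y 0 + 3 * ε := by
  have hK1 := hK.1
  have hL0 : 0 < L := by linarith
  have hA := h.pair.anA.continuousOn
  have hN0 : 0 < N := by linarith
  obtain ⟨P, hP⟩ := exists_lev hA hL0 hε
  obtain ⟨P₁, hP₁⟩ := exists_lev hA (L := c1 * t) (by positivity) hε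
  set S := coreS A B t d Y with hS
  set ψ : ℂ → ℝ := fun ζ => min 1 (cost A B (2 * t) L N p ζ) with hψ
  set r0 : ℝ := 1 / (1536 * K ^ 2) with hr0
  set m : ℝ := Cb * (d / L) ^ b + 10 / Real.cos (a * π / 2) * (64 * t / L) ^ a with hm
  set κ : ℝ := (π * r0 ^ 2)⁻¹ with hκ
  set χ := travel A B 0 p L N Y with hχ
  have hca : 0 < Real.cos (a * π / 2) := by
    apply Real.cos_pos_of_mem_Ioo
    constructor <;> nlinarith [Real.pi_pos]
  have hr00 : 0 < r0 := by positivity
  have hr01 : r0 < 1 := by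
    rw [hr0, div_lt_one (by positivity)]; nlinarith
  have hκ0 : 0 < κ := by positivity
  have hm0 : 0 ≤ m := by positivity
  have hSo : IsOpen S := isOpen_coreS h.pair t d Y
  have hSm : MeasurableSet S := hSo.measurableSet
  obtain ⟨R, hR1, hSR⟩ := coreS_subset h.pair (t := t) (Y := Y) hd
  have hSl : S ⊆ lvl A (2 * t) := fun ζ hζ => hζ.1
  have hSb : S ⊆ ball 0 1 := hSl.trans lvl_subset_ball
  have hψm : AEStronglyMeasurable ψ (volume.restrict S) :=
    aestronglyMeasurable_cost h.pair hSm hSb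
  have hψ0 : ∀ ζ ∈ S, 0 ≤ ψ ζ := fun ζ hζ =>
    le_min zero_le_one (cost_nonneg h.pair hL0 hN0 hp hp1 (hSl hζ))
  have hψM : ∀ ζ ∈ S, |ψ ζ| ≤ 1 := fun ζ hζ => by
    rw [abs_of_nonneg (hψ0 ζ hζ)]; exact min_le_left _ _
  -- the comparison function
  set U : ℂ → ℝ := fun z => (((m + 10 * ε : ℝ) : ℂ) * (2 * P₁ z + (4 * ε : ℝ)) + (2 * ε : ℝ)
    - P z).re + (κ * pot S ψ z + χ z) with hU
  have hUe : ∀ z, U z = (m + 10 * ε) * (2 * (P₁ z).re + 4 * ε) + 2 * ε - (P z).re
      + (κ * pot S ψ z + χ z) := by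
    intro z
    simp only [hU, sub_re, add_re, mul_re, add_im, ofReal_re, ofReal_im, mul_im, re_ofNat,
      im_ofNat]
    ring
  have hχ0 : ∀ z ∈ closedBall (0 : ℂ) 1, ‖A z‖ ≤ t → 0 ≤ χ z := fun z hz hz2 =>
    travel_nonneg h.pair hp hp1 hL0 hN0 hY hz (by linarith)
  have hpot0 : ∀ z ∈ closedBall (0 : ℂ) 1, 0 ≤ pot S ψ z := fun z hz =>
    pot_nonneg hR1 hSR hSm hψ0 (mem_closedBall_zero_iff.1 hz)
  have hcl : closure (lvl A t) ⊆ closedBall 0 1 := fun z hz =>
    mem_closedBall_zero_iff.2 (norm_le_of_mem_closure hA hz).1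
  have hmain : ∀ z ∈ lvl A t, 0 ≤ U z := by
    apply min_principle_cl (isOpen_lvl hA)
      (isBounded_ball.subset (lvl_subset_ball : lvl A t ⊆ ball 0 1))
    · have c1 : ContinuousOn χ (closedBall 0 1) :=
        travel_continuousOn h.pair hp hp1 hL0 hN0 hY
      have c2 : ContinuousOn (pot S ψ) (closedBall 0 1) :=
        pot_continuousOn hR1 hSR hSm hψm hψM
      have c3 : Continuous P := hP.ent.continuous
      have c4 : Continuous P₁ := hP₁.ent.continuous
      have c5 : Continuous fun z => (((m + 10 * ε : ℝ) : ℂ) * (2 * P₁ z + (4 * ε : ℝ))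
        + (2 * ε : ℝ) - P z).re := by fun_prop
      exact (c5.continuousOn.add ((c2.const_smul κ).add c1)).mono hcl
    · intro z hz
      have hzb := mem_ball_zero_iff.1 (lvl_subset_ball hz)
      have s1 : SMean (fun z => (((m + 10 * ε : ℝ) : ℂ) * (2 * P₁ z + (4 * ε : ℝ))
        + (2 * ε : ℝ) - P z).re) z := by
        apply smean_re
        have q1 : AnalyticAt ℂ P z := hP.ent.analyticAt z
        have q2 : AnalyticAt ℂ P₁ z := hP₁.ent.analyticAt z
        fun_prop
      have s2 : SMean (pot S ψ) z := pot_smean hR1 hSR hSm hψm hψ0 hψM hzb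
      have s3 : SMean χ z := travel_smean h.pair (by simp) hp hp1 hL0 hN0 hY hzb (by
        have := norm_lt_of_mem_lvl hz; linarith)
      exact s1.add ((s2.const_mul hκ0.le).add s3)
    · intro z hz
      have hzc := frontier_subset_closure hz
      obtain ⟨hz1, hz2⟩ := norm_le_of_mem_closure hA hzc
      have hzcb := mem_closedBall_zero_iff.2 hz1
      rw [hUe]
      have g1 := hP₁.ge hzcb
      have g2 := hpot0 z hzcb
      have g3 := hχ0 z hzcb hz2
      have g4 : 0 ≤ κ * pot S ψ z := by positivity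
      rcases lt_or_eq_of_le hz1 with hz3 | hz3
      · -- interior frontier points
        have hAz : ‖A z‖ = t := norm_eq_of_mem_frontier hA hz hz3
        have hAne : A z ≠ 0 := by
          intro h0; rw [h0, norm_zero] at hAz; linarith
        have hrho : rho A z ≤ 64 * K * t := rho_le hK h.pair h.A0 h.dA.le ht hz3 hzc
        have k1 := hret A B h.pair z hz3 hAne (by rw [hAz]; exact hrho)
        rw [hAz] at k1
        have k2 := hP₁.tail_le hA (by positivity) hz3
        have hH : 1 ≤ 2 * (P₁ z).re + 4 * ε := by linarith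
        have hHm : m + 10 * ε ≤ (m + 10 * ε) * (2 * (P₁ z).re + 4 * ε) :=
          le_mul_of_one_le_right (by positivity) hH
        have hm1 : Cb * (d / L) ^ b ≤ m := by
          rw [hm]
          have : 0 ≤ 10 / Real.cos (a * π / 2) * (64 * t / L) ^ a := by positivity
          linarith
        have hm2 : 10 / Real.cos (a * π / 2) * (64 * t / L) ^ a ≤ m := by
          rw [hm]
          have : 0 ≤ Cb * (d / L) ^ b := by positivity
          linarith
        by_cases hthick : rho A z < d
        · -- thin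
          have k3 := hP.le_tail hA hL0 hz3
          have k4 := hthin A B h.pair z hz3 L hL0 (by linarith)
          have k5 : (rho A z / L) ^ b ≤ (d / L) ^ b := by
            apply Real.rpow_le_rpow _ _ hb.le
            · have : 0 ≤ rho A z := by
                unfold rho
                have : 0 ≤ 1 - ‖z‖ ^ 2 := by nlinarith [norm_nonneg z]
                positivity
              positivity
            · gcongr
          have k6 : Cb * (rho A z / L) ^ b ≤ Cb * (d / L) ^ b := by gcongr
          linarith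
        · rw [not_lt] at hthick
          by_cases hone : χ z = 1
          · have := hP.le hzcb
            linarith
          · -- fat
            have hfar : |(B z).im| < Y := by
              by_contra hcon
              rw [not_lt] at hcon
              apply hone
              apply travel_eq_one_of_far h.pair hp hp1 hL0 hN0 hY hzcb (by linarith)
              simpa [yp, h.Q0, h.B0, h.A0] using hcon
            have hbig : ‖Qf A B z‖ ≤ Y / (L * N) := by
              by_contra hcon
              rw [not_le] at hcon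
              apply hone
              apply travel_eq_one_of_big h.pair hp hp1 hL0 hN0 hY hzcb (by linarith)
              simpa [h.Q0] using hcon.le
            have hsub : ∀ w : ℂ, ‖w‖ < r0 → mob z w ∈ S := fun w hw =>
              disc_subset hK h ht hL hN hd hY hz3 hz hthick hfar hbig hw
            have k7 := pot_ge hR1 hSR hSm hψm hψ0 hψM hz3 hr00 hr01 hsub
            have k8 := area_mean hP.ent hz3 hr00 hr01
            have hX : ∀ w ∈ ball (0 : ℂ) r0, (P (mob z w)).re ≤
                (10 / Real.cos (a * π / 2) * (64 * t / L) ^ a + 3 * ε) + ψ (mob z w) := by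
              intro w hw
              have hwS := hsub w (mem_ball_zero_iff.1 hw)
              have l1 := pair_bound ha ha1 hp hp1 h.pair (τ := 2 * t) (by linarith)
                (by linarith : 32 * (2 * t) ≤ L) hN0 hε hP (hSl hwS)
              have l2 := hP.le (ball_subset_closedBall (hSb hwS))
              have l3 : 32 * (2 * t) / L = 64 * t / L := by ring
              rw [l3] at l1
              have l4 : 0 ≤ 10 / Real.cos (a * π / 2) * (64 * t / L) ^ a := by positivity
              simp only [hψ]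
              rcases min_cases 1 (cost A B (2 * t) L N p (mob z w)) with ⟨e, -⟩ | ⟨e, -⟩ <;>
                rw [e] <;> linarith
            have hmobc : ContinuousOn (mob z) (closedBall 0 1) := fun w hw =>
              (analyticAt_mob hz3 (mem_closedBall_zero_iff.1 hw)).continuousAt.continuousWithinAt
            have hi1 : IntegrableOn (fun w => (P (mob z w)).re) (ball (0 : ℂ) r0) := by
              have q1 : ContinuousOn (fun w => (P (mob z w)).re) (closedBall 0 1) :=
                (continuous_re.comp hP.ent.continuous).comp_continuousOn hmobc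
              exact (q1.integrableOn_compact (isCompact_closedBall 0 1)).mono_set
                ((ball_subset_ball hr01.le).trans ball_subset_closedBall)
            have hi2 : IntegrableOn (fun w => ψ (mob z w)) (ball (0 : ℂ) r0) := by
              have q0 : Measurable (mob z) := by
                unfold mob
                exact (measurable_id.add_const z).div
                  ((measurable_id.const_mul (conj z)).const_add 1)
              have q1 : Measurable fun ζ =>
                  min 1 ((ball (0 : ℂ) 1).indicator (cost A B (2 * t) L N p) ζ) :=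
                measurable_const.min (measurable_cost h.pair)
              have q2 := q1.comp q0
              have q3 : AEStronglyMeasurable (fun w => ψ (mob z w))
                  (volume.restrict (ball (0 : ℂ) r0)) := by
                refine q2.aestronglyMeasurable.congr ?_
                filter_upwards [ae_restrict_mem measurableSet_ball] with w hw
                have := hSb (hsub w (mem_ball_zero_iff.1 hw))
                simp only [hψ, Function.comp_apply]
                rw [indicator_of_mem this]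
              refine IntegrableOn.of_bound (measure_ball_lt_top) q3 1 ?_
              filter_upwards [ae_restrict_mem measurableSet_ball] with w hw
              exact hψM _ (hsub w (mem_ball_zero_iff.1 hw))
            have hi3 : IntegrableOn (fun _ : ℂ => 10 / Real.cos (a * π / 2) * (64 * t / L) ^ a
                + 3 * ε) (ball (0 : ℂ) r0) := by
              exact integrableOn_const measure_ball_lt_top.ne enorm_ne_top
            have k9 : ∫ w in ball (0 : ℂ) r0, (P (mob z w)).re ≤
                ∫ w in ball (0 : ℂ) r0,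
                  ((10 / Real.cos (a * π / 2) * (64 * t / L) ^ a + 3 * ε) + ψ (mob z w)) := by
              exact setIntegral_mono_on hi1 (hi3.add hi2) measurableSet_ball hX
            have k10 : ∫ w in ball (0 : ℂ) r0,
                  ((10 / Real.cos (a * π / 2) * (64 * t / L) ^ a + 3 * ε) + ψ (mob z w)) =
                (10 / Real.cos (a * π / 2) * (64 * t / L) ^ a + 3 * ε) * (π * r0 ^ 2)
                  + ∫ w in ball (0 : ℂ) r0, ψ (mob z w) := by
              rw [integral_add hi3 hi2, setIntegral_const, smul_eq_mul, measureReal_def,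
                Complex.volume_ball]
              simp only [ENNReal.toReal_mul, ENNReal.toReal_pow, ENNReal.toReal_ofReal hr00.le,
                ENNReal.coe_toReal, NNReal.coe_real_pi]
              ring
            rw [k8, k10] at k9
            have k11 : (P z).re ≤ (10 / Real.cos (a * π / 2) * (64 * t / L) ^ a + 3 * ε)
                + κ * pot S ψ z := by
              have : (P z).re = κ * (π * r0 ^ 2 * (P z).re) := by
                rw [hκ]; field_simp
              rw [this]
              calc κ * (π * r0 ^ 2 * (P z).re) ≤ κ * ((10 / Real.cos (a * π / 2) *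
                    (64 * t / L) ^ a + 3 * ε) * (π * r0 ^ 2)
                    + ∫ w in ball (0 : ℂ) r0, ψ (mob z w)) := by gcongr
                _ ≤ κ * ((10 / Real.cos (a * π / 2) *
                    (64 * t / L) ^ a + 3 * ε) * (π * r0 ^ 2) + pot S ψ z) := by gcongr
                _ = _ := by rw [hκ]; field_simp
            linarith
      · -- unit circle
        have k1 := hP.le_of_small hL0 (mem_sphere_zero_iff_norm.2 hz3) (by linarith)
        have k2 : 0 ≤ (m + 10 * ε) * (2 * (P₁ z).re + 4 * ε) := by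
          apply mul_nonneg (by positivity); linarith
        linarith
  have h0 := hmain 0 (zero_mem_lvl h.A0 (by linarith))
  rw [hUe] at h0
  have e1 := hP.tail_le hA hL0 (z := 0) (by simp)
  have e2 := hP₁.le_tail hA (by positivity) (z := 0) (by simp)
  simp only [mob_zero_left] at e1 e2
  have e3 : (m + 10 * ε) * (2 * (P₁ 0).re + 4 * ε) ≤
      (m + 10 * ε) * (2 * tail A (c1 * t / 2) + 6 * ε) := by
    apply mul_le_mul_of_nonneg_left _ (by positivity)
    have : tail A (c1 * t / 2) = tail (fun w => A w) (c1 * t / 2) := rfl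
    linarith
  have e4 : tail A L = tail (fun w => A w) L := rfl
  linarith

/-- Core inequality. -/
theorem core {K : ℝ} (hK : Loc K) : ∃ b c : ℝ, 0 < b ∧ b ≤ 1 ∧ 0 < c ∧ c ≤ 1 ∧
    ∀ a p : ℝ, 0 < a → a < 1 → 0 < p → p < 1 → ∃ C : ℝ, 0 < C ∧ ∀ A B : ℂ → ℂ, Nrm A B →
      ∀ t L N d w Y : ℝ, 1 ≤ t → 64 * t ≤ L → 1 ≤ N → 0 < d → 0 < w → 0 < Y →
        (∀ z : ℂ, ‖z‖ < 1 → t / 2 ≤ ‖A z‖ → 1 - ‖z‖ ≤ w) →
        tail A L ≤ C * ((d / L) ^ b + (t / L) ^ a) * tail A (c * t)
          + C * ((w * N * L) ^ p * t * Y ^ (1 - p) + Real.exp (-(N / 2)) * t * Y) / d ^ 2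
          + C * ((N * L / Y) ^ p + Real.exp (-(N / 2))) := by
  obtain ⟨b, Cb, hb, hb1, hCb, hthin⟩ := tail_thin hK
  have hK1 : 1 ≤ K := hK.1
  obtain ⟨c1, hc1, hc11, hret⟩ := ret hK (K2 := 64 * K) (by linarith)
  refine ⟨b, c1 / 2, hb, hb1, by positivity, by linarith, fun a p ha ha1 hp hp1 => ?_⟩
  have hca : 0 < Real.cos (a * π / 2) := by
    apply Real.cos_pos_of_mem_Ioo
    constructor <;> nlinarith [Real.pi_pos]
  have hcp : 0 < Real.cos (p * π / 2) := by
    apply Real.cos_pos_of_mem_Ioo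
    constructor <;> nlinarith [Real.pi_pos]
  have hp1' : 0 < 1 - p := by linarith
  set κ : ℝ := (π * (1 / (1536 * K ^ 2)) ^ 2)⁻¹ with hκ
  have hκ0 : 0 < κ := by positivity
  set C1 : ℝ := 2 * (Cb + 640 / Real.cos (a * π / 2)) with hC1
  set C2 : ℝ := κ * (64 * (256 / (Real.cos (p * π / 2) * (1 - p)) + 256)) with hC2
  set C3 : ℝ := 1 / Real.cos (p * π / 2) + 4 with hC3
  have hC10 : 0 < C1 := by positivity
  have hC20 : 0 < C2 := by positivity
  have hC30 : 0 < C3 := by positivity
  refine ⟨C1 + C2 + C3, by positivity, fun A B h t L N d w Y ht hL hN hd hw hY hwz => ?_⟩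
  have hL0 : 0 < L := by linarith
  have hN0 : 0 < N := by linarith
  have ht0 : 0 < t := by linarith
  set T := tail A (c1 * t / 2) with hT
  have hT0 : 0 ≤ T := tail_nonneg _ _
  set m : ℝ := Cb * (d / L) ^ b + 10 / Real.cos (a * π / 2) * (64 * t / L) ^ a with hm
  set P0 := pot (coreS A B t d Y) (fun ζ => min 1 (cost A B (2 * t) L N p ζ)) 0 with hP0
  set X0 := travel A B 0 p L N Y 0 with hX0
  -- let ε tend to 0
  have hlim : tail A L ≤ m * (2 * T) + κ * P0 + X0 := by
    have h1 : ∀ᶠ ε in 𝓝[>] (0 : ℝ), tail A L ≤ (m + 10 * ε) * (2 * T + 6 * ε) + κ * P0 + X0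
        + 3 * ε := by
      filter_upwards [self_mem_nhdsWithin] with ε hε
      exact core_main hK hb hCb hc1 hthin hret ha ha1 hp hp1 h ht hL hN hd hY hε
    have h2 : Tendsto (fun ε : ℝ => (m + 10 * ε) * (2 * T + 6 * ε) + κ * P0 + X0 + 3 * ε)
        (𝓝[>] (0 : ℝ)) (𝓝 (m * (2 * T) + κ * P0 + X0)) := by
      have : Continuous fun ε : ℝ => (m + 10 * ε) * (2 * T + 6 * ε) + κ * P0 + X0 + 3 * ε := by
        fun_prop
      have h3 := this.tendsto 0
      simp only [mul_zero, add_zero] at h3
      exact h3.mono_left nhdsWithin_le_nhds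
    exact ge_of_tendsto h2 h1
  -- the three terms
  have hSo : IsOpen (coreS A B t d Y) := isOpen_coreS h.pair t d Y
  obtain ⟨R, hR1, hSR⟩ := coreS_subset h.pair (t := t) (Y := Y) hd
  have hSl : coreS A B t d Y ⊆ lvl A (2 * t) := fun ζ hζ => hζ.1
  have hP1 : P0 = ∫ ζ in coreS A B t d Y, min 1 (cost A B (2 * t) L N p ζ) / (1 - ‖ζ‖ ^ 2) :=
    pot_zero hR1 hSR hSo.measurableSet
  have hP2 := area_bound h.pair (by rw [h.Q0]; simp) (τ := 2 * t) (L := L) (N := N) (p := p)
    (w := w) (d := d / 8) (Y := 2 * Y) (by positivity) hL0 hN0 hp hp1 (by positivity) hw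
    (by positivity) hSo.measurableSet hSl (fun ζ hζ => hζ.2.2.1.le)
    (fun ζ hζ => hwz ζ (mem_ball_zero_iff.1 (lvl_subset_ball hζ.1)) hζ.2.1.le)
    (fun ζ hζ => hζ.2.2.2.le)
  rw [← hP1] at hP2
  have hX1 : X0 ≤ (N * L / Y) ^ p / Real.cos (p * π / 2) + 4 * Real.exp (-(N / 2)) := by
    have := travel_self h.pair hp hp1 hL0 hN0 hY (ζ := 0) (by simp)
    rwa [h.Q0, one_re, one_mul] at this
  -- term 1
  have t1 : m * (2 * T) ≤ C1 * ((d / L) ^ b + (t / L) ^ a) * T := by
    have e1 : (64 * t / L) ^ a ≤ 64 * (t / L) ^ a := by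
      rw [mul_div_assoc, Real.mul_rpow (by norm_num) (by positivity)]
      gcongr
      calc (64 : ℝ) ^ a ≤ 64 ^ (1 : ℝ) := by
            apply Real.rpow_le_rpow_of_exponent_le (by norm_num) ha1.le
        _ = 64 := Real.rpow_one _
    have e2 : 0 ≤ (d / L) ^ b := by positivity
    have e3 : 0 ≤ (t / L) ^ a := by positivity
    have e4 : m ≤ (Cb + 640 / Real.cos (a * π / 2)) * ((d / L) ^ b + (t / L) ^ a) := by
      have e5 : 10 / Real.cos (a * π / 2) * (64 * t / L) ^ a ≤
          640 / Real.cos (a * π / 2) * (t / L) ^ a := by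
        calc 10 / Real.cos (a * π / 2) * (64 * t / L) ^ a ≤
            10 / Real.cos (a * π / 2) * (64 * (t / L) ^ a) := by gcongr
          _ = _ := by ring
      have e6 : 0 ≤ 640 / Real.cos (a * π / 2) * (d / L) ^ b := by positivity
      have e7 : 0 ≤ Cb * (t / L) ^ a := by positivity
      rw [hm]
      linarith
    calc m * (2 * T) ≤ (Cb + 640 / Real.cos (a * π / 2)) * ((d / L) ^ b + (t / L) ^ a) *
          (2 * T) := by gcongr
      _ = _ := by rw [hC1]; ring
  -- term 2
  have t2 : κ * P0 ≤ C2 * ((w * N * L) ^ p * t * Y ^ (1 - p)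
      + Real.exp (-(N / 2)) * t * Y) / d ^ 2 := by
    have e1 : (2 * Y) ^ (1 - p) ≤ 2 * Y ^ (1 - p) := by
      rw [Real.mul_rpow (by norm_num) hY.le]
      gcongr
      calc (2 : ℝ) ^ (1 - p) ≤ 2 ^ (1 : ℝ) := by
            apply Real.rpow_le_rpow_of_exponent_le (by norm_num) (by linarith)
        _ = 2 := Real.rpow_one _
    have e2 : 0 ≤ (w * N * L) ^ p * t * Y ^ (1 - p) := by positivity
    have e3 : 0 ≤ Real.exp (-(N / 2)) * t * Y := by positivity
    have e4 : P0 ≤ (64 * (256 / (Real.cos (p * π / 2) * (1 - p)) + 256)) *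
        ((w * N * L) ^ p * t * Y ^ (1 - p) + Real.exp (-(N / 2)) * t * Y) / d ^ 2 := by
      refine hP2.trans ?_
      have e5 : 64 / (Real.cos (p * π / 2) * (1 - p)) * (w * N * L) ^ p * (2 * t) *
          (2 * Y) ^ (1 - p) ≤ 256 / (Real.cos (p * π / 2) * (1 - p)) *
            ((w * N * L) ^ p * t * Y ^ (1 - p)) := by
        calc 64 / (Real.cos (p * π / 2) * (1 - p)) * (w * N * L) ^ p * (2 * t) *
          (2 * Y) ^ (1 - p) ≤ 64 / (Real.cos (p * π / 2) * (1 - p)) * (w * N * L) ^ p * (2 * t) *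
            (2 * Y ^ (1 - p)) := by gcongr
          _ = _ := by ring
      have e6 : 0 ≤ 256 / (Real.cos (p * π / 2) * (1 - p)) *
        (Real.exp (-(N / 2)) * t * Y) := by positivity
      have e7 : (64 / (Real.cos (p * π / 2) * (1 - p)) * (w * N * L) ^ p * (2 * t) *
          (2 * Y) ^ (1 - p) + 64 * Real.exp (-(N / 2)) * (2 * t) * (2 * Y)) ≤
          (256 / (Real.cos (p * π / 2) * (1 - p)) + 256) *
          ((w * N * L) ^ p * t * Y ^ (1 - p) + Real.exp (-(N / 2)) * t * Y) := by
        nlinarith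
      calc _ ≤ ((256 / (Real.cos (p * π / 2) * (1 - p)) + 256) *
          ((w * N * L) ^ p * t * Y ^ (1 - p) + Real.exp (-(N / 2)) * t * Y)) / (d / 8) ^ 2 := by
            gcongr
        _ = _ := by field_simp; ring
    calc κ * P0 ≤ κ * ((64 * (256 / (Real.cos (p * π / 2) * (1 - p)) + 256)) *
        ((w * N * L) ^ p * t * Y ^ (1 - p) + Real.exp (-(N / 2)) * t * Y) / d ^ 2) := by gcongr
      _ = _ := by rw [hC2]; ring
  -- term 3
  have t3 : X0 ≤ C3 * ((N * L / Y) ^ p + Real.exp (-(N / 2))) := by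
    have e1 : 0 ≤ (N * L / Y) ^ p := by positivity
    have e2 := (Real.exp_pos (-(N / 2))).le
    have e3 : 0 ≤ 1 / Real.cos (p * π / 2) * Real.exp (-(N / 2)) := by positivity
    rw [hC3]
    have e4 : (N * L / Y) ^ p / Real.cos (p * π / 2) = 1 / Real.cos (p * π / 2) *
      (N * L / Y) ^ p := by ring
    rw [e4] at hX1
    nlinarith
  have u1 : 0 ≤ ((d / L) ^ b + (t / L) ^ a) * T := by positivity
  have u2 : 0 ≤ ((w * N * L) ^ p * t * Y ^ (1 - p)
      + Real.exp (-(N / 2)) * t * Y) / d ^ 2 := by positivity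
  have u3 : 0 ≤ (N * L / Y) ^ p + Real.exp (-(N / 2)) := by positivity
  have hcT : tail A (c1 / 2 * t) = T := by rw [hT]; congr 1; ring
  rw [hcT]
  have v1 : 0 ≤ C2 * (((d / L) ^ b + (t / L) ^ a) * T) := by positivity
  have v2 : 0 ≤ C3 * (((d / L) ^ b + (t / L) ^ a) * T) := by positivity
  have v3 : 0 ≤ C1 * (((w * N * L) ^ p * t * Y ^ (1 - p)
      + Real.exp (-(N / 2)) * t * Y) / d ^ 2) := by positivity
  have v4 : 0 ≤ C3 * (((w * N * L) ^ p * t * Y ^ (1 - p)
      + Real.exp (-(N / 2)) * t * Y) / d ^ 2) := by positivity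
  have v5 : 0 ≤ C1 * ((N * L / Y) ^ p + Real.exp (-(N / 2))) := by positivity
  have v6 : 0 ≤ C2 * ((N * L / Y) ^ p + Real.exp (-(N / 2))) := by positivity
  calc tail A L ≤ m * (2 * T) + κ * P0 + X0 := hlim
    _ ≤ C1 * ((d / L) ^ b + (t / L) ^ a) * T + C2 * ((w * N * L) ^ p * t * Y ^ (1 - p)
      + Real.exp (-(N / 2)) * t * Y) / d ^ 2 + C3 * ((N * L / Y) ^ p
      + Real.exp (-(N / 2))) := by linarith
    _ ≤ _ := by
      have w1 : C2 * ((w * N * L) ^ p * t * Y ^ (1 - p)
        + Real.exp (-(N / 2)) * t * Y) / d ^ 2 = C2 * (((w * N * L) ^ p * t * Y ^ (1 - p)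
        + Real.exp (-(N / 2)) * t * Y) / d ^ 2) := by ring
      have w2 : (C1 + C2 + C3) * ((w * N * L) ^ p * t * Y ^ (1 - p)
        + Real.exp (-(N / 2)) * t * Y) / d ^ 2 = (C1 + C2 + C3) *
        (((w * N * L) ^ p * t * Y ^ (1 - p) + Real.exp (-(N / 2)) * t * Y) / d ^ 2) := by ring
      rw [w1, w2]
      nlinarith

end Pool.Agent.HQ
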