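import Pool.Agent.HQ.LvlRho
import Pool.Agent.HQ.LvlQ

/-!
# HQ: hyperbolic discs at fat points
-/

set_option autoImplicit false

open Complex Metric Set Filter Topology MeasureTheory
open scoped ComplexConjugate Real

namespace Pool.Agent.HQ

/-- The geometric part: at a fat point `z` of the frontier of `lvl A t` which is not far in the
direction of `y`, the hyperbolic disc of radius `r₀ = 1 / (1536 K²)` is contained in the set `S`
over which the potential is taken.  (`local_le`, `rho_le`, `rho_ge`, `B_local_le`,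
`mem_lvl_of_closure`, `subset_lvl`.) -/
theorem disc_subset {K : ℝ} (hK : Loc K) {A B : ℂ → ℂ} (h : Nrm A B) {t L N d Y : ℝ}
    (ht : 1 ≤ t) (hL : 64 * t ≤ L) (hN : 1 ≤ N) (hd : 0 < d) (hY : 0 < Y) {z : ℂ}
    (hz : ‖z‖ < 1) (hzf : z ∈ frontier (lvl A t)) (hzd : d ≤ rho A z) (hzY : |(B z).im| < Y)
    (hzQ : ‖Qf A B z‖ ≤ Y / (L * N)) {w : ℂ} (hw : ‖w‖ < 1 / (1536 * K ^ 2)) :
    mob z w ∈ {ζ ∈ lvl A (2 * t) | t / 2 < ‖A ζ‖ ∧ d / 8 < rho A ζ ∧ |(B ζ).im| < 2 * Y} := by
  have hK1 : 1 ≤ K := hK.1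
  have hK0 : 0 < K := by linarith
  have hA : ContinuousOn A (closedBall 0 1) := h.pair.anA.continuousOn
  have ht0 : 0 < t := by linarith
  have hL0 : 0 < L := by linarith
  have hN0 : 0 < N := by linarith
  have hK2 : 0 < 1536 * K ^ 2 := by positivity
  have hr1 : 1 / (1536 * K ^ 2) ≤ 1 / (32 * K) := by
    apply one_div_le_one_div_of_le (by positivity)
    nlinarith
  have hr2 : 1 / (1536 * K ^ 2) ≤ 1 / 4 := by
    apply one_div_le_one_div_of_le (by norm_num)
    nlinarith
  have hAz : ‖A z‖ = t := norm_eq_of_mem_frontier hA hzf hz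
  have hρ : rho A z ≤ 64 * K * t := rho_le hK h.pair h.A0 h.dA.le ht hz hzf.1
  have hρ0 : 0 < rho A z := hd.trans_le hzd
  have hloc : ∀ v : ℂ, ‖v‖ < 1 / (1536 * K ^ 2) → ‖A (mob z v) - A z‖ ≤ t / 12 := by
    intro v hv
    refine (local_le hK h.pair hz (by linarith)).trans ?_
    have h1 : 2 * K * ‖v‖ * rho A z ≤ 2 * K * (1 / (1536 * K ^ 2)) * (64 * K * t) := by
      apply mul_le_mul _ hρ hρ0.le (by positivity)
      exact mul_le_mul_of_nonneg_left hv.le (by positivity)
    refine h1.trans (le_of_eq ?_)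
    field_simp
    norm_num
  have hzl : z ∈ lvl A (2 * t) :=
    mem_lvl_of_closure hA (by linarith) hzf.1 hz (by rw [hAz]; linarith)
  have hup : ∀ v : ℂ, ‖v‖ < 1 / (1536 * K ^ 2) → ‖A (mob z v)‖ < 2 * t := by
    intro v hv
    have h1 := norm_le_norm_add_norm_sub' (A (mob z v)) (A z)
    have h2 := hloc v hv
    rw [hAz] at h1
    linarith
  have hlow : t / 2 < ‖A (mob z w)‖ := by
    have h1 := norm_sub_norm_le (A z) (A (mob z w))
    have h2 := hloc w hw
    rw [norm_sub_rev, hAz] at h1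
    linarith
  have hmem : mob z w ∈ lvl A (2 * t) := by
    have hS : IsPreconnected (mob z '' ball (0 : ℂ) (1 / (1536 * K ^ 2))) := by
      refine (convex_ball _ _).isPreconnected.image _ fun v hv => ?_
      have hv1 : ‖v‖ ≤ 1 := by
        rw [mem_ball_zero_iff] at hv
        linarith
      exact (analyticAt_mob hz hv1).continuousAt.continuousWithinAt
    refine subset_lvl hS ?_ ?_ (z := z) ⟨0, mem_ball_self (by positivity), mob_zero_right z⟩ hzl
      ⟨w, mem_ball_zero_iff.2 hw, rfl⟩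
    · rintro _ ⟨v, hv, rfl⟩
      refine mob_mem_ball hz ?_
      rw [mem_ball_zero_iff] at hv ⊢
      linarith
    · rintro _ ⟨v, hv, rfl⟩
      exact hup v (mem_ball_zero_iff.1 hv)
  refine ⟨hmem, hlow, ?_, ?_⟩
  · have h1 := rho_ge hK h.pair hz (hw.le.trans hr1)
    linarith
  · have h1 := B_local_le hK h.pair hz (hw.le.trans hr2)
    have h2 : 24 * K * ‖Qf A B z‖ * ‖w‖ * rho A z ≤
        24 * K * (Y / (L * N)) * (1 / (1536 * K ^ 2)) * (64 * K * t) := by
      apply mul_le_mul _ hρ hρ0.le (by positivity)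
      apply mul_le_mul _ hw.le (norm_nonneg _) (by positivity)
      exact mul_le_mul_of_nonneg_left hzQ (by positivity)
    have h3 : 24 * K * (Y / (L * N)) * (1 / (1536 * K ^ 2)) * (64 * K * t) = Y * t / (L * N) := by
      field_simp
      norm_num
    have h4 : Y * t / (L * N) ≤ Y / 2 := by
      rw [div_le_div_iff₀ (by positivity) two_pos]
      have h5 : t * 2 ≤ L * N := by nlinarith
      nlinarith
    have h6 : |(B (mob z w)).im| ≤ |(B z).im| + ‖B (mob z w) - B z‖ := by
      have h7 : (B (mob z w)).im = (B z).im + (B (mob z w) - B z).im := by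
        rw [sub_im]
        ring
      rw [h7]
      exact (abs_add_le _ _).trans (add_le_add le_rfl (abs_im_le_norm _))
    linarith

end Pool.Agent.HQ
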