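import Pool.Agent.HQ.Base

/-!
# HQ: definitions of the second half
-/

set_option autoImplicit false

open Complex Metric Set Filter Topology MeasureTheory
open scoped ComplexConjugate Real

namespace Pool.Agent.HQ

/-- Super mean value property up to `o(r ^ 2)`. -/
def SMean (W : ℂ → ℝ) (z : ℂ) : Prop :=
  ∀ ε : ℝ, 0 < ε → ∀ᶠ r in 𝓝[>] (0 : ℝ),
    CircleIntegrable W z r ∧ Real.circleAverage W z r ≤ W z + ε * r ^ 2

/-- `0` on `(-∞, 1/2]`, `1` on `[1, ∞)`, linear in between. -/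
noncomputable def cut (x : ℝ) : ℝ := max 0 (min 1 (2 * x - 1))

/-- The normalised measure of `{θ : L ≤ |A (e^{iθ})|}`. -/
noncomputable def tail (A : ℂ → ℂ) (L : ℝ) : ℝ :=
  Real.circleAverage ({w : ℂ | L ≤ ‖A w‖}.indicator fun _ => (1 : ℝ)) 0 1

/-- `P` is entire and its real part is within `ε` of `cut (|A| / L)` on the unit circle. -/
structure Lev (A : ℂ → ℂ) (L ε : ℝ) (P : ℂ → ℂ) : Prop where
  ent : Differentiable ℂ P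
  near : ∀ z ∈ sphere (0 : ℂ) 1, |(P z).re - cut (‖A z‖ / L)| ≤ ε

/-- The local bound for `A`, proved in the growth half with an absolute constant. -/
def Loc (K : ℝ) : Prop :=
  1 ≤ K ∧ ∀ A B : ℂ → ℂ, HPair A B → ∀ z : ℂ, ‖z‖ ≤ 1 / 2 → ‖A z - A 0‖ ≤ K * ‖deriv A 0‖

/-- The component of `{|A| < s}` in the unit disc which contains `0`. -/
def lvl (A : ℂ → ℂ) (s : ℝ) : Set ℂ :=
  connectedComponentIn {z ∈ ball (0 : ℂ) 1 | ‖A z‖ < s} 0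

/-- `Q = B' / A'`; it has positive real part. -/
noncomputable def Qf (A B : ℂ → ℂ) (z : ℂ) : ℂ := deriv B z / deriv A z

/-- The sheared `y`-coordinate seen from `ζ`: `y - y(ζ) - Im Q(ζ) (x - x(ζ))`. -/
noncomputable def yp (A B : ℂ → ℂ) (ζ z : ℂ) : ℝ :=
  (B z - B ζ).im - (Qf A B ζ).im * (A z - A ζ).re

/-- `cosh (k y') (2 - |A|² / R²)`. -/
noncomputable def coshW (A B : ℂ → ℂ) (ζ : ℂ) (k R : ℝ) (z : ℂ) : ℝ :=
  Real.cosh (k * yp A B ζ z) * (2 - ‖A z‖ ^ 2 / R ^ 2)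

/-- The travel function `χ = min (1, T + coshW / cosh (k D))`,
`T z = Re (((Q z - i Im Q(ζ)) / m)^p) / cos (p π / 2)`, `m = D / (R N)`, `k = 1 / (2 m R)`,
`k D = N / 2`. -/
noncomputable def travel (A B : ℂ → ℂ) (ζ : ℂ) (p R N D : ℝ) (z : ℂ) : ℝ :=
  min 1 ((((Qf A B z - (Qf A B ζ).im * I) / (D / (R * N) : ℝ)) ^ (p : ℂ)).re
      / Real.cos (p * π / 2)
    + coshW A B ζ (N / (2 * D)) R z / Real.cosh (N / 2))

/-- Distance of `w` from the complement of the convex hull of the slice of `U` on the vertical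
line through `w`. -/
noncomputable def gap (U : Set ℂ) (w : ℂ) : ℝ :=
  min (sSup {y : ℝ | (⟨w.re, y⟩ : ℂ) ∈ U} - w.im) (w.im - sInf {y : ℝ | (⟨w.re, y⟩ : ℂ) ∈ U})

/-- The image of `lvl A τ` under `shearMap`. -/
def img (A B : ℂ → ℂ) (τ : ℝ) : Set ℂ := shearMap A B '' lvl A τ

/-- The relative travel cost at `ζ`. -/
noncomputable def cost (A B : ℂ → ℂ) (τ L N p : ℝ) (ζ : ℂ) : ℝ :=
  ((Qf A B ζ).re * N * L / gap (img A B τ) (shearMap A B ζ)) ^ p / Real.cos (p * π / 2)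
    + 4 * Real.exp (-(N / 2))

/-- `Re ((2 - w)^a) + 4 log |(2 - w) / w|`. -/
noncomputable def sideH (a : ℝ) (w : ℂ) : ℝ :=
  ((2 - w) ^ (a : ℂ)).re + 4 * Real.log (‖2 - w‖ / ‖w‖)

/-- `sideH` for `|w| ≥ 1/2`, `10` for `|w| ≤ 1/8`, the minimum of both in between. -/
noncomputable def sideFun (a : ℝ) (w : ℂ) : ℝ :=
  if 1 / 2 ≤ ‖w‖ then sideH a w else if ‖w‖ ≤ 1 / 8 then 10 else min (sideH a w) 10

/-- `1 - |φ_ζ(z)|²`. -/
noncomputable def ker (ζ z : ℂ) : ℝ :=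
  (1 - ‖ζ‖ ^ 2) * (1 - ‖z‖ ^ 2) / ‖1 - conj ζ * z‖ ^ 2

/-- `∫_N ψ(ζ) (1 - |φ_ζ(z)|²) dA_hyp(ζ)`. -/
noncomputable def pot (N : Set ℂ) (ψ : ℂ → ℝ) (z : ℂ) : ℝ :=
  ∫ ζ in N, ψ ζ * (ker ζ z / (1 - ‖ζ‖ ^ 2) ^ 2)

/-- Normalised pairs. -/
structure Nrm (A B : ℂ → ℂ) : Prop where
  pair : HPair A B
  A0 : A 0 = 0
  B0 : B 0 = 0
  dA : ‖deriv A 0‖ = 1
  Q0 : Qf A B 0 = 1

/-- The inequality of `core` for a function `T` (`= tail A`), with `w = (2 K₁ / t)^(1/α)`. -/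
def CoreIneq (b c α K1 : ℝ) (Cf : ℝ → ℝ → ℝ) (T : ℝ → ℝ) : Prop :=
  (∀ L, 0 ≤ T L) ∧ (∀ L, T L ≤ 1) ∧
  ∀ a p : ℝ, 0 < a → a < 1 → 0 < p → p < 1 →
    ∀ t L N d Y : ℝ, 1 ≤ t → 64 * t ≤ L → 1 ≤ N → 0 < d → 0 < Y →
      T L ≤ Cf a p * ((d / L) ^ b + (t / L) ^ a) * T (c * t)
        + Cf a p * ((((2 * K1 / t) ^ (1 / α)) * N * L) ^ p * t * Y ^ (1 - p)
          + Real.exp (-(N / 2)) * t * Y) / d ^ 2
        + Cf a p * ((N * L / Y) ^ p + Real.exp (-(N / 2)))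

/-- The growth theorem of the other half (`growthBound`). -/
def GrowthBound (K α : ℝ) : Prop :=
  ∀ A B : ℂ → ℂ, HPair A B → ∀ z : ℂ, ‖z‖ < 1 →
    ‖A z - A 0‖ ≤ K * ‖deriv A 0‖ * ((1 + ‖z‖) / (1 - ‖z‖)) ^ α

end Pool.Agent.HQ
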