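import Mathlib

/-! HQ growth half, file Dini: a monotone function with right lower Dini derivative `≥ c`. -/

set_option autoImplicit false

open Set Filter Topology

namespace Pool.Agent.HQ

/-- DINI INDUCTION.
Proof. Fix `ε > 0` and let `S = {x ∈ Icc a b : m a + (c - ε) (x - a) ≤ m x}`.  `a ∈ S`.  If
`x_n ∈ S`, `x_n ↑ x`, then `m x ≥ m x_n ≥ m a + (c - ε) (x_n - a)`, so `x ∈ S` (for the supremum of `S`
in particular).  If `x ∈ S`, `x < b`, the hypothesis gives points `y > x` in `S`.  So `b ∈ S`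
(`sSup`).  Let `ε → 0`. -/
theorem dini_ind {m : ℝ → ℝ} {a b c : ℝ} (hab : a ≤ b) (hm : MonotoneOn m (Icc a b))
    (h : ∀ x ∈ Ico a b, ∀ ε > 0, ∃ δ > 0, ∀ y ∈ Ioo x (x + δ), y ≤ b →
      m x + (c - ε) * (y - x) ≤ m y) : m a + c * (b - a) ≤ m b := by
  have key : ∀ ε > 0, m a + (c - ε) * (b - a) ≤ m b := by
    intro ε hε
    let S : Set ℝ := {x | x ∈ Icc a b ∧ m a + (c - ε) * (x - a) ≤ m x}
    have haS : a ∈ S := ⟨⟨le_rfl, hab⟩, by simp⟩
    have hbdd : BddAbove S := ⟨b, fun x hx => hx.1.2⟩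
    have hlub : IsLUB S (sSup S) := isLUB_csSup ⟨a, haS⟩ hbdd
    have has : a ≤ sSup S := hlub.1 haS
    have hsb : sSup S ≤ b := hlub.2 fun x hx => hx.1.2
    have hsS : m a + (c - ε) * (sSup S - a) ≤ m (sSup S) := by
      have hcl : sSup S ∈ closure S := hlub.mem_closure ⟨a, haS⟩
      have hclosed : IsClosed {x : ℝ | m a + (c - ε) * (x - a) ≤ m (sSup S)} :=
        isClosed_le (by fun_prop) continuous_const
      have hsub : S ⊆ {x : ℝ | m a + (c - ε) * (x - a) ≤ m (sSup S)} := by
        intro x hx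
        exact hx.2.trans (hm hx.1 ⟨has, hsb⟩ (hlub.1 hx))
      exact hclosed.closure_subset_iff.mpr hsub hcl
    rcases hsb.eq_or_lt with hb | hb
    · rw [hb] at hsS
      exact hsS
    · exfalso
      obtain ⟨δ, hδ, hy⟩ := h (sSup S) ⟨has, hb⟩ ε hε
      have h1 : sSup S < min (sSup S + δ / 2) b := lt_min (by linarith) hb
      have h2 : min (sSup S + δ / 2) b ≤ b := min_le_right _ _
      have h3 : min (sSup S + δ / 2) b < sSup S + δ :=
        (min_le_left _ _).trans_lt (by linarith)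
      have h4 := hy _ ⟨h1, h3⟩ h2
      have h5 : min (sSup S + δ / 2) b ∈ S := by
        refine ⟨⟨has.trans h1.le, h2⟩, ?_⟩
        nlinarith [h4, hsS]
      exact absurd (hlub.1 h5) (not_le_of_gt h1)
  rcases hab.eq_or_lt with hab' | hab'
  · subst hab'
    simp
  · by_contra hcon
    push Not at hcon
    have hpos : 0 < b - a := by linarith
    have h1 := key ((m a + c * (b - a) - m b) / (2 * (b - a))) (by
      apply div_pos <;> linarith)
    have h2 : (m a + c * (b - a) - m b) / (2 * (b - a)) * (b - a) =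
        (m a + c * (b - a) - m b) / 2 := by
      field_simp
    have h3 : (c - (m a + c * (b - a) - m b) / (2 * (b - a))) * (b - a) =
        c * (b - a) - (m a + c * (b - a) - m b) / 2 := by
      rw [sub_mul, h2]
    rw [h3] at h1
    linarith

end Pool.Agent.HQ
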