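import Pool.Agent.HQ.Defs

/-!
# HQ: integral of the gap function
-/

set_option autoImplicit false

open Complex Metric Set Filter Topology MeasureTheory
open scoped ComplexConjugate Real

namespace Pool.Agent.HQ

private lemma continuous_mk (y : ℝ) : Continuous fun x : ℝ => (⟨x, y⟩ : ℂ) := by
  have : (fun x : ℝ => (⟨x, y⟩ : ℂ)) = fun x : ℝ => (x : ℂ) + y * I := by
    funext x
    apply Complex.ext <;> simp
  rw [this]
  fun_prop

private lemma isOpen_proj {U : Set ℂ} (hU : IsOpen U) (P : ℝ → Prop) :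
    IsOpen {x : ℝ | ∃ y, P y ∧ (⟨x, y⟩ : ℂ) ∈ U} := by
  have : {x : ℝ | ∃ y, P y ∧ (⟨x, y⟩ : ℂ) ∈ U} =
      ⋃ y : {y : ℝ // P y}, (fun x : ℝ => (⟨x, y.1⟩ : ℂ)) ⁻¹' U := by
    ext x
    simp
  rw [this]
  exact isOpen_iUnion fun y => hU.preimage (continuous_mk y.1)

private lemma bdd_slice {U : Set ℂ} (hb : Bornology.IsBounded U) :
    ∃ M : ℝ, ∀ x y : ℝ, (⟨x, y⟩ : ℂ) ∈ U → |y| ≤ M := by
  obtain ⟨M, hM⟩ := hb.exists_norm_le
  exact ⟨M, fun x y h => (Complex.abs_im_le_norm ⟨x, y⟩).trans (hM _ h)⟩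

private lemma measurable_sup {U : Set ℂ} (hU : IsOpen U) (hb : Bornology.IsBounded U) :
    Measurable fun x : ℝ => sSup {y : ℝ | (⟨x, y⟩ : ℂ) ∈ U} := by
  obtain ⟨M, hM⟩ := bdd_slice hb
  have hba : ∀ x, BddAbove {y : ℝ | (⟨x, y⟩ : ℂ) ∈ U} := fun x =>
    ⟨M, fun y hy => (le_abs_self y).trans (hM x y hy)⟩
  refine measurable_of_Ioi fun a => ?_
  have e : (fun x : ℝ => sSup {y : ℝ | (⟨x, y⟩ : ℂ) ∈ U}) ⁻¹' Ioi a =
      {x : ℝ | ∃ y, a < y ∧ (⟨x, y⟩ : ℂ) ∈ U} ∪
        ({x : ℝ | ∃ y, True ∧ (⟨x, y⟩ : ℂ) ∈ U}ᶜ ∩ {_x : ℝ | a < 0}) := by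
    ext x
    simp only [mem_preimage, mem_Ioi, mem_union, mem_ofPred_eq, mem_inter_iff, mem_compl_iff,
      true_and, not_exists]
    by_cases hx : ∃ y, (⟨x, y⟩ : ℂ) ∈ U
    · have hne : {y : ℝ | (⟨x, y⟩ : ℂ) ∈ U}.Nonempty := hx
      rw [lt_csSup_iff (hba x) hne]
      constructor
      · rintro ⟨y, h1, h2⟩
        exact Or.inl ⟨y, h2, h1⟩
      · rintro (⟨y, h1, h2⟩ | ⟨h1, _⟩)
        · exact ⟨y, h2, h1⟩
        · obtain ⟨y, hy⟩ := hx
          exact absurd hy (h1 y)
    · have hem : {y : ℝ | (⟨x, y⟩ : ℂ) ∈ U} = ∅ := by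
        ext y
        simp only [mem_ofPred_eq, mem_empty_iff_false, iff_false]
        exact fun h => hx ⟨y, h⟩
      rw [hem, Real.sSup_empty]
      push Not at hx
      constructor
      · intro h
        exact Or.inr ⟨hx, h⟩
      · rintro (⟨y, _, h2⟩ | ⟨_, h2⟩)
        · exact absurd h2 (hx y)
        · exact h2
  rw [e]
  exact (isOpen_proj hU _).measurableSet.union
    ((isOpen_proj hU _).measurableSet.compl.inter (MeasurableSet.const _))

private lemma measurable_inf {U : Set ℂ} (hU : IsOpen U) (hb : Bornology.IsBounded U) :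
    Measurable fun x : ℝ => sInf {y : ℝ | (⟨x, y⟩ : ℂ) ∈ U} := by
  obtain ⟨M, hM⟩ := bdd_slice hb
  have hbb : ∀ x, BddBelow {y : ℝ | (⟨x, y⟩ : ℂ) ∈ U} := fun x =>
    ⟨-M, fun y hy => neg_le.1 ((neg_le_abs y).trans (hM x y hy))⟩
  refine measurable_of_Iio fun a => ?_
  have e : (fun x : ℝ => sInf {y : ℝ | (⟨x, y⟩ : ℂ) ∈ U}) ⁻¹' Iio a =
      {x : ℝ | ∃ y, y < a ∧ (⟨x, y⟩ : ℂ) ∈ U} ∪
        ({x : ℝ | ∃ y, True ∧ (⟨x, y⟩ : ℂ) ∈ U}ᶜ ∩ {_x : ℝ | 0 < a}) := by
    ext x
    simp only [mem_preimage, mem_Iio, mem_union, mem_ofPred_eq, mem_inter_iff, mem_compl_iff,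
      true_and, not_exists]
    by_cases hx : ∃ y, (⟨x, y⟩ : ℂ) ∈ U
    · have hne : {y : ℝ | (⟨x, y⟩ : ℂ) ∈ U}.Nonempty := hx
      rw [csInf_lt_iff (hbb x) hne]
      constructor
      · rintro ⟨y, h1, h2⟩
        exact Or.inl ⟨y, h2, h1⟩
      · rintro (⟨y, h1, h2⟩ | ⟨h1, _⟩)
        · exact ⟨y, h2, h1⟩
        · obtain ⟨y, hy⟩ := hx
          exact absurd hy (h1 y)
    · have hem : {y : ℝ | (⟨x, y⟩ : ℂ) ∈ U} = ∅ := by
        ext y
        simp only [mem_ofPred_eq, mem_empty_iff_false, iff_false]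
        exact fun h => hx ⟨y, h⟩
      rw [hem, Real.sInf_empty]
      push Not at hx
      constructor
      · intro h
        exact Or.inr ⟨hx, h⟩
      · rintro (⟨y, _, h2⟩ | ⟨_, h2⟩)
        · exact absurd h2 (hx y)
        · exact h2
  rw [e]
  exact (isOpen_proj hU _).measurableSet.union
    ((isOpen_proj hU _).measurableSet.compl.inter (MeasurableSet.const _))

/-- `x ↦ sSup {y | x + i y ∈ U}` is lower semicontinuous on the (open) projection of `U`, and `0`
outside; similarly for `sInf`. -/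
theorem measurable_gap {U : Set ℂ} (hU : IsOpen U) (hb : Bornology.IsBounded U) :
    Measurable (gap U) := by
  unfold gap
  exact (((measurable_sup hU hb).comp Complex.measurable_re).sub Complex.measurable_im).min
    (Complex.measurable_im.sub ((measurable_inf hU hb).comp Complex.measurable_re))

/-- the integral of `v ^ (-p)` over `0 < v < b` -/
private lemma lint_pow {b p : ℝ} (hb : 0 ≤ b) (hp1 : p < 1) :
    ∫⁻ v in Ioo 0 b, ENNReal.ofReal (v ^ (-p)) = ENNReal.ofReal (b ^ (1 - p) / (1 - p)) := by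
  have hi : IntervalIntegrable (fun v : ℝ => v ^ (-p)) volume 0 b :=
    intervalIntegral.intervalIntegrable_rpow' (by linarith)
  have hi2 : IntegrableOn (fun v : ℝ => v ^ (-p)) (Ioo 0 b) volume := by
    have := (intervalIntegrable_iff_integrableOn_Ioc_of_le hb).1 hi
    exact this.mono_set Ioo_subset_Ioc_self
  have hnn : ∀ᵐ v ∂(volume.restrict (Ioo 0 b)), 0 ≤ v ^ (-p) := by
    refine (ae_restrict_iff' measurableSet_Ioo).2 (Eventually.of_forall fun v hv => ?_)
    have := hv.1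
    positivity
  rw [← ofReal_integral_eq_lintegral_ofReal hi2 hnn]
  congr 1
  rw [← integral_Ioc_eq_integral_Ioo, ← intervalIntegral.integral_of_le hb,
    integral_rpow (Or.inl (by linarith))]
  have h1p : 1 - p ≠ 0 := by linarith
  rw [Real.zero_rpow (by linarith)]
  have : -p + 1 = 1 - p := by ring
  rw [this, sub_zero]

/-- one side of the one dimensional estimate -/
private lemma side_lint {S Y p : ℝ} (hY : 0 < Y) (hp : 0 < p) (hp1 : p < 1) :
    ∫⁻ y in {y : ℝ | |y| ≤ Y ∧ y < S}, ENNReal.ofReal ((S - y) ^ (-p)) ≤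
      ENNReal.ofReal (2 * Y ^ (1 - p) / (1 - p)) := by
  have h1p : 0 < 1 - p := by linarith
  rcases le_or_gt S (-Y) with hS | hS
  · have : {y : ℝ | |y| ≤ Y ∧ y < S} = ∅ := by
      ext y
      simp only [mem_ofPred_eq, mem_empty_iff_false, iff_false, not_and, not_lt]
      intro h
      have := (abs_le.1 h).1
      linarith
    rw [this]
    simp
  · set T := min Y S with hT
    have hTY : -Y < T := lt_min (by linarith) hS
    have h2 : ∫⁻ y in {y : ℝ | |y| ≤ Y ∧ y < S}, ENNReal.ofReal ((S - y) ^ (-p)) ≤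
        ∫⁻ y in Icc (-Y) T, ENNReal.ofReal ((S - y) ^ (-p)) := by
      apply lintegral_mono_set
      rintro y ⟨h3, h4⟩
      exact ⟨(abs_le.1 h3).1, le_min (abs_le.1 h3).2 h4.le⟩
    have h3 : ∫⁻ y in Icc (-Y) T, ENNReal.ofReal ((S - y) ^ (-p)) =
        ∫⁻ y in Ioo (-Y) T, ENNReal.ofReal ((S - y) ^ (-p)) :=
      (setLIntegral_congr Ioo_ae_eq_Icc).symm
    have h4 : ∫⁻ y in Ioo (-Y) T, ENNReal.ofReal ((S - y) ^ (-p)) ≤
        ∫⁻ y in Ioo (-Y) T, ENNReal.ofReal ((T - y) ^ (-p)) := by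
      apply setLIntegral_mono' measurableSet_Ioo
      intro y hy
      apply ENNReal.ofReal_le_ofReal
      have h5 : 0 < T - y := by linarith [hy.2]
      have h6 : T - y ≤ S - y := by linarith [min_le_right Y S]
      exact Real.rpow_le_rpow_of_nonpos h5 h6 (by linarith)
    have h5 : ∫⁻ y in Ioo (-Y) T, ENNReal.ofReal ((T - y) ^ (-p)) =
        ∫⁻ v in Ioo 0 (T + Y), ENNReal.ofReal (v ^ (-p)) := by
      rw [← lintegral_indicator measurableSet_Ioo, ← lintegral_indicator measurableSet_Ioo,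
        ← lintegral_sub_left_eq_self _ T]
      congr 1
      funext y
      by_cases hy : y ∈ Ioo 0 (T + Y)
      · have : T - y ∈ Ioo (-Y) T := ⟨by linarith [hy.2], by linarith [hy.1]⟩
        rw [indicator_of_mem hy, indicator_of_mem this]
        congr 2
        ring
      · have : T - y ∉ Ioo (-Y) T := fun h => hy ⟨by linarith [h.2], by linarith [h.1]⟩
        rw [indicator_of_notMem hy, indicator_of_notMem this]
    rw [h5, lint_pow (by linarith) hp1] at h4
    refine h2.trans (h3.le.trans (h4.trans (ENNReal.ofReal_le_ofReal ?_)))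
    have h7 : (T + Y) ^ (1 - p) ≤ 2 * Y ^ (1 - p) := by
      calc (T + Y) ^ (1 - p) ≤ (2 * Y) ^ (1 - p) :=
            Real.rpow_le_rpow (by linarith) (by linarith [min_le_left Y S]) h1p.le
        _ = 2 ^ (1 - p) * Y ^ (1 - p) := Real.mul_rpow (by norm_num) hY.le
        _ ≤ 2 * Y ^ (1 - p) := by
            have : (2 : ℝ) ^ (1 - p) ≤ 2 ^ (1 : ℝ) :=
              Real.rpow_le_rpow_of_exponent_le (by norm_num) (by linarith)
            rw [Real.rpow_one] at this
            gcongr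
    gcongr

/-- the estimate on one vertical line -/
private lemma line_lint {U : Set ℂ} (hU : IsOpen U) (hb : Bornology.IsBounded U) {Y p : ℝ}
    (hY : 0 < Y) (hp : 0 < p) (hp1 : p < 1) (x : ℝ) :
    ∫⁻ y, (U ∩ {w : ℂ | |w.im| ≤ Y}).indicator (fun w => ENNReal.ofReal (gap U w ^ (-p)))
      (⟨x, y⟩ : ℂ) ≤ ENNReal.ofReal (4 * Y ^ (1 - p) / (1 - p)) := by
  obtain ⟨M, hM⟩ := bdd_slice hb
  have hba : BddAbove {y : ℝ | (⟨x, y⟩ : ℂ) ∈ U} :=
    ⟨M, fun y hy => (le_abs_self y).trans (hM x y hy)⟩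
  have hbb : BddBelow {y : ℝ | (⟨x, y⟩ : ℂ) ∈ U} :=
    ⟨-M, fun y hy => neg_le.1 ((neg_le_abs y).trans (hM x y hy))⟩
  have hop : IsOpen {y : ℝ | (⟨x, y⟩ : ℂ) ∈ U} := by
    have : Continuous fun y : ℝ => (⟨x, y⟩ : ℂ) := by
      have : (fun y : ℝ => (⟨x, y⟩ : ℂ)) = fun y : ℝ => (x : ℂ) + y * I := by
        funext y
        apply Complex.ext <;> simp
      rw [this]
      fun_prop
    exact hU.preimage this
  set s := sSup {y : ℝ | (⟨x, y⟩ : ℂ) ∈ U} with hs
  set i := sInf {y : ℝ | (⟨x, y⟩ : ℂ) ∈ U} with hi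
  have hlt : ∀ y, (⟨x, y⟩ : ℂ) ∈ U → i < y ∧ y < s := by
    intro y hy
    obtain ⟨ε, hε, hball⟩ := Metric.isOpen_iff.1 hop y hy
    constructor
    · have h1 : y - ε / 2 ∈ {y : ℝ | (⟨x, y⟩ : ℂ) ∈ U} := hball (by
        rw [Metric.mem_ball, Real.dist_eq]
        have : y - ε / 2 - y = -(ε / 2) := by ring
        rw [this, abs_neg, abs_of_pos (by linarith)]
        linarith)
      have := csInf_le hbb h1
      linarith
    · have h1 : y + ε / 2 ∈ {y : ℝ | (⟨x, y⟩ : ℂ) ∈ U} := hball (by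
        rw [Metric.mem_ball, Real.dist_eq]
        have : y + ε / 2 - y = ε / 2 := by ring
        rw [this, abs_of_pos (by linarith)]
        linarith)
      have := le_csSup hba h1
      linarith
  have hmS : MeasurableSet {y : ℝ | |y| ≤ Y ∧ y < s} :=
    (measurableSet_le measurable_abs measurable_const).inter
      (measurableSet_lt measurable_id measurable_const)
  have hmI : MeasurableSet {y : ℝ | |y| ≤ Y ∧ i < y} :=
    (measurableSet_le measurable_abs measurable_const).inter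
      (measurableSet_lt measurable_const measurable_id)
  have hpt : ∀ y, (U ∩ {w : ℂ | |w.im| ≤ Y}).indicator
      (fun w => ENNReal.ofReal (gap U w ^ (-p))) (⟨x, y⟩ : ℂ) ≤
      {y : ℝ | |y| ≤ Y ∧ y < s}.indicator (fun y => ENNReal.ofReal ((s - y) ^ (-p))) y +
      {y : ℝ | |y| ≤ Y ∧ i < y}.indicator (fun y => ENNReal.ofReal ((y - i) ^ (-p))) y := by
    intro y
    by_cases hy : (⟨x, y⟩ : ℂ) ∈ U ∩ {w : ℂ | |w.im| ≤ Y}
    · have hyU := hlt y hy.1
      have hyY : |y| ≤ Y := hy.2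
      rw [indicator_of_mem hy, indicator_of_mem (show y ∈ {y : ℝ | |y| ≤ Y ∧ y < s} from
        ⟨hyY, hyU.2⟩), indicator_of_mem (show y ∈ {y : ℝ | |y| ≤ Y ∧ i < y} from ⟨hyY, hyU.1⟩)]
      have h0 : gap U (⟨x, y⟩ : ℂ) = min (s - y) (y - i) := rfl
      rw [h0]
      rcases min_choice (s - y) (y - i) with h1 | h1
      · rw [h1]
        exact le_add_right le_rfl
      · rw [h1]
        exact le_add_left le_rfl
    · rw [indicator_of_notMem hy]
      simp
  calc ∫⁻ y, (U ∩ {w : ℂ | |w.im| ≤ Y}).indicator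
        (fun w => ENNReal.ofReal (gap U w ^ (-p))) (⟨x, y⟩ : ℂ)
      ≤ ∫⁻ y, ({y : ℝ | |y| ≤ Y ∧ y < s}.indicator
          (fun y => ENNReal.ofReal ((s - y) ^ (-p))) y +
        {y : ℝ | |y| ≤ Y ∧ i < y}.indicator (fun y => ENNReal.ofReal ((y - i) ^ (-p))) y) :=
        lintegral_mono hpt
    _ = (∫⁻ y in {y : ℝ | |y| ≤ Y ∧ y < s}, ENNReal.ofReal ((s - y) ^ (-p))) +
        ∫⁻ y in {y : ℝ | |y| ≤ Y ∧ i < y}, ENNReal.ofReal ((y - i) ^ (-p)) := by
        rw [lintegral_add_left' ?_, lintegral_indicator hmS, lintegral_indicator hmI]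
        apply AEMeasurable.indicator _ hmS
        exact (by fun_prop : Measurable fun y : ℝ => ENNReal.ofReal ((s - y) ^ (-p))).aemeasurable
    _ ≤ ENNReal.ofReal (2 * Y ^ (1 - p) / (1 - p)) +
        ENNReal.ofReal (2 * Y ^ (1 - p) / (1 - p)) := by
        gcongr
        · exact side_lint hY hp hp1
        · have h1 := side_lint (S := -i) hY hp hp1
          refine le_of_eq_of_le ?_ h1
          have hmI2 : MeasurableSet {y : ℝ | |y| ≤ Y ∧ y < -i} :=
            (measurableSet_le measurable_abs measurable_const).inter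
              (measurableSet_lt measurable_id measurable_const)
          rw [← lintegral_indicator hmI, ← lintegral_indicator hmI2, ← lintegral_neg_eq_self]
          congr 1
          funext y
          by_cases hy : y ∈ {y : ℝ | |y| ≤ Y ∧ y < -i}
          · have : -y ∈ {y : ℝ | |y| ≤ Y ∧ i < y} := ⟨by rw [abs_neg]; exact hy.1, by
              have := hy.2; linarith⟩
            rw [indicator_of_mem this]
            refine Eq.trans ?_ (indicator_of_mem hy _).symm
            congr 2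
            ring
          · have : -y ∉ {y : ℝ | |y| ≤ Y ∧ i < y} := fun h => hy ⟨by
              have := h.1; rwa [abs_neg] at this, by have := h.2; linarith⟩
            rw [indicator_of_notMem this]
            exact (indicator_of_notMem hy _).symm
    _ = ENNReal.ofReal (4 * Y ^ (1 - p) / (1 - p)) := by
        have h1p : 0 < 1 - p := by linarith
        rw [← ENNReal.ofReal_add (by positivity) (by positivity)]
        congr 1
        ring

/-- One dimensional estimate: for `y` in the slice, `gap = min (S - y) (y - i)`, hence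
`gap^(-p) ≤ (S - y)^(-p) + (y - i)^(-p)`; the integral of `(S - y)^(-p)` over
`{|y| ≤ Y, y < S}` is at most `∫_0^{2Y} v^(-p) dv = (2Y)^(1-p)/(1-p)`.  Then integrate over
`|x| < τ` (Tonelli, `Complex.volume_preserving_equiv_real_prod`). -/
theorem slice_integral {U : Set ℂ} (hU : IsOpen U) (hb : Bornology.IsBounded U) {τ Y p : ℝ}
    (hτ : 0 < τ) (hY : 0 < Y) (hp : 0 < p) (hp1 : p < 1) (hUτ : ∀ w ∈ U, |w.re| < τ) :
    ∫⁻ w in U ∩ {w : ℂ | |w.im| ≤ Y}, ENNReal.ofReal (gap U w ^ (-p)) ≤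
      ENNReal.ofReal (8 * τ * Y ^ (1 - p) / (1 - p)) := by
  have h1p : 0 < 1 - p := by linarith
  have hmU : MeasurableSet (U ∩ {w : ℂ | |w.im| ≤ Y}) :=
    hU.measurableSet.inter (measurableSet_le (Complex.measurable_im.abs) measurable_const)
  set f : ℂ → ENNReal := (U ∩ {w : ℂ | |w.im| ≤ Y}).indicator
    (fun w => ENNReal.ofReal (gap U w ^ (-p))) with hf
  have hfm : Measurable f :=
    (((measurable_gap hU hb).pow_const _).ennreal_ofReal).indicator hmU
  rw [← lintegral_indicator hmU]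
  have h1 : ∫⁻ w, f w = ∫⁻ z : ℝ × ℝ, f (Complex.measurableEquivRealProd.symm z) :=
    ((Complex.volume_preserving_equiv_real_prod.symm _).lintegral_comp hfm).symm
  have hfm2 : Measurable fun z : ℝ × ℝ => f (Complex.measurableEquivRealProd.symm z) :=
    hfm.comp (MeasurableEquiv.measurable _)
  rw [h1, Measure.volume_eq_prod, lintegral_prod _ hfm2.aemeasurable]
  have h2 : ∀ x : ℝ, ∫⁻ y : ℝ, f (Complex.measurableEquivRealProd.symm (x, y)) ≤
      (Ioo (-τ) τ).indicator (fun _ => ENNReal.ofReal (4 * Y ^ (1 - p) / (1 - p))) x := by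
    intro x
    by_cases hx : x ∈ Ioo (-τ) τ
    · rw [indicator_of_mem hx]
      exact line_lint hU hb hY hp hp1 x
    · rw [indicator_of_notMem hx]
      have : ∀ y : ℝ, f (Complex.measurableEquivRealProd.symm (x, y)) = 0 := by
        intro y
        apply indicator_of_notMem
        intro h
        exact hx (abs_lt.1 (hUτ _ h.1))
      simp only [this, lintegral_zero, le_refl]
  calc ∫⁻ x : ℝ, ∫⁻ y : ℝ, f (Complex.measurableEquivRealProd.symm (x, y))
      ≤ ∫⁻ x : ℝ, (Ioo (-τ) τ).indicator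
        (fun _ => ENNReal.ofReal (4 * Y ^ (1 - p) / (1 - p))) x := lintegral_mono h2
    _ = ENNReal.ofReal (4 * Y ^ (1 - p) / (1 - p)) * ENNReal.ofReal (2 * τ) := by
        rw [lintegral_indicator measurableSet_Ioo, lintegral_const, Measure.restrict_apply_univ,
          Real.volume_Ioo]
        congr 2
        ring
    _ = ENNReal.ofReal (8 * τ * Y ^ (1 - p) / (1 - p)) := by
        rw [← ENNReal.ofReal_mul (by positivity)]
        congr 1
        ring

/-- Area of `{|x| < τ, |y| ≤ Y}`. -/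
theorem strip_volume {τ Y : ℝ} (hτ : 0 < τ) (hY : 0 < Y) :
    volume {w : ℂ | |w.re| < τ ∧ |w.im| ≤ Y} ≤ ENNReal.ofReal (4 * τ * Y) := by
  have h1 : {w : ℂ | |w.re| < τ ∧ |w.im| ≤ Y} =
      Complex.measurableEquivRealProd ⁻¹' (Ioo (-τ) τ ×ˢ Icc (-Y) Y) := by
    ext w
    simp only [mem_ofPred_eq, mem_preimage, mem_prod, Complex.measurableEquivRealProd_apply,
      mem_Ioo, mem_Icc, abs_lt, abs_le]
  rw [h1, Complex.volume_preserving_equiv_real_prod.measure_preimage
    (measurableSet_Ioo.prod measurableSet_Icc).nullMeasurableSet, Measure.volume_eq_prod,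
    Measure.prod_prod, Real.volume_Ioo, Real.volume_Icc, ← ENNReal.ofReal_mul (by linarith)]
  apply ENNReal.ofReal_le_ofReal
  nlinarith

end Pool.Agent.HQ
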