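import Pool.Agent.HQ.GrowthRad
import Pool.Agent.HQ.Defs

/-! HQ growth half, file Growth: the growth theorem with exponent 4. -/

set_option autoImplicit false

open Complex Metric Set Filter Topology MeasureTheory
open scoped ComplexConjugate Real

namespace Pool.Agent.HQ

private lemma rot_mem_Growth {e z : ℂ} (he : ‖e‖ = 1) (hz : z ∈ closedBall (0 : ℂ) 1) :
    e * z ∈ closedBall (0 : ℂ) 1 := by
  rw [mem_closedBall_zero_iff] at hz ⊢
  rw [norm_mul, he, one_mul]
  exact hz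

private lemma rot_deriv_Growth {G : ℂ → ℂ} (hG : AnalyticOnNhd ℂ G (closedBall 0 1)) {e : ℂ}
    (he : ‖e‖ = 1) (c : ℂ) {z : ℂ} (hz : z ∈ closedBall (0 : ℂ) 1) :
    HasDerivAt (fun w => G (e * w) - c) (deriv G (e * z) * e) z := by
  have h1 : HasDerivAt G (deriv G (e * z)) (e * z) :=
    (hG _ (rot_mem_Growth he hz)).differentiableAt.hasDerivAt
  have h2 : HasDerivAt (fun w : ℂ => e * w) e z := by
    simpa using (hasDerivAt_id z).const_mul e
  exact (h1.comp z h2).sub_const c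

private lemma rot_an_Growth {G : ℂ → ℂ} (hG : AnalyticOnNhd ℂ G (closedBall 0 1)) {e : ℂ}
    (he : ‖e‖ = 1) (c : ℂ) : AnalyticOnNhd ℂ (fun w => G (e * w) - c) (closedBall 0 1) := by
  intro z hz
  have h1 : AnalyticAt ℂ (fun w : ℂ => e * w) z := analyticAt_const.mul analyticAt_id
  have h2 : AnalyticAt ℂ (fun w => G (e * w)) z :=
    AnalyticAt.comp (g := G) (hG _ (rot_mem_Growth he hz)) h1
  exact h2.sub analyticAt_const

private lemma rot_pair_Growth {A B : ℂ → ℂ} (h : HPair A B) {e : ℂ} (he : ‖e‖ = 1) (c d : ℂ) :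
    HPair (fun w => A (e * w) - c) (fun w => B (e * w) - d) := by
  have he0 : e ≠ 0 := by
    rintro rfl
    rw [norm_zero] at he
    exact zero_ne_one he
  refine ⟨rot_an_Growth h.anA he c, rot_an_Growth h.anB he d, ?_, ?_⟩
  · intro z hz w hw hzw
    have h1 : shearMap A B (e * z) = shearMap A B (e * w) := by
      simp only [shearMap, Complex.mk.injEq, sub_re, sub_im, sub_left_inj] at hzw ⊢
      exact hzw
    exact mul_left_cancel₀ he0 (h.inj (rot_mem_Growth he hz) (rot_mem_Growth he hw) h1)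
  · intro z hz
    rw [(rot_deriv_Growth h.anA he c hz).deriv, (rot_deriv_Growth h.anB he d hz).deriv]
    have h1 := h.pos _ (rot_mem_Growth he hz)
    have h2 : deriv B (e * z) * e * conj (deriv A (e * z) * e)
        = (deriv B (e * z) * conj (deriv A (e * z))) * ((normSq e : ℝ) : ℂ) := by
      rw [map_mul, ← mul_conj]
      ring
    rw [h2, re_mul_ofReal]
    exact mul_pos h1 (normSq_pos.2 he0)

/-- GROWTH THEOREM.
Proof. Replace `A` by `z ↦ A (e^{iφ} z) - A 0`, `B` by `z ↦ B (e^{iφ} z)` (again an `HPair`; a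
rotation of the disc, and `HPair.affine` or directly) with `z = ‖z‖ e^{iφ}`, and apply
`growth_radius`. -/
theorem growth {A B : ℂ → ℂ} (h : HPair A B) {z : ℂ} (hz : z ∈ ball (0 : ℂ) 1) :
    ‖A z - A 0‖ ≤ Real.exp (4 * π) * ‖deriv A 0‖ * ((1 + ‖z‖) / (1 - ‖z‖)) ^ 4 := by
  rw [mem_ball_zero_iff] at hz
  rcases eq_or_ne z 0 with rfl | hz0
  · rw [sub_self, norm_zero]
    positivity
  have hr : 0 < ‖z‖ := norm_pos_iff.2 hz0
  obtain ⟨e, he⟩ : ∃ e : ℂ, e = z / (‖z‖ : ℂ) := ⟨_, rfl⟩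
  have hrc : (‖z‖ : ℂ) ≠ 0 := ofReal_ne_zero.2 hr.ne'
  have he1 : ‖e‖ = 1 := by
    rw [he, norm_div, norm_real, norm_norm, div_self hr.ne']
  have hez : e * (‖z‖ : ℂ) = z := by
    rw [he, div_mul_cancel₀ _ hrc]
  have h0mem : (0 : ℂ) ∈ closedBall (0 : ℂ) 1 := mem_closedBall_self zero_le_one
  have h1 := growth_radius (rot_pair_Growth h he1 (A 0) 0)
    (by rw [mul_zero, sub_self]) (r₁ := ‖z‖) ⟨hr, hz⟩
  rw [(rot_deriv_Growth h.anA he1 (A 0) h0mem).deriv, mul_zero, norm_mul, he1, mul_one, hez] at h1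
  exact h1

/-- `growth` in the form used by the second half (`rpow`). -/
theorem growthBound_four : GrowthBound (Real.exp (4 * π)) 4 := by
  intro A B h z hz
  have h1 := growth h (mem_ball_zero_iff.2 hz)
  have h2 : ((1 + ‖z‖) / (1 - ‖z‖)) ^ (4 : ℝ) = ((1 + ‖z‖) / (1 - ‖z‖)) ^ (4 : ℕ) := by
    rw [← Real.rpow_natCast]
    norm_num
  rw [h2]
  exact h1

end Pool.Agent.HQ
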