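import Pool.Agent.HQ.GrowthStep
import Pool.Agent.HQ.Dini

/-! HQ growth half, file GrowthRad. -/

set_option autoImplicit false

open Complex Metric Set Filter Topology MeasureTheory
open scoped ComplexConjugate Real

namespace Pool.Agent.HQ

private lemma GrowthRad_mono {A : ℂ → ℂ} {t t' : ℝ} (h : t ≤ t') : Gt A t ⊆ Gt A t' := by
  unfold Gt
  exact connectedComponentIn_mono 0 fun z hz => ⟨hz.1, hz.2.trans_le h⟩

/-- The estimate before the passage to the limit. -/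
private lemma GrowthRad_aux {A B : ℂ → ℂ} (h : HPair A B) (h0 : A 0 = 0) {r₁ t₀ d : ℝ}
    (hr₁ : r₁ ∈ Ioo (0 : ℝ) 1) (ht₀ : ‖deriv A 0‖ < t₀) (htR : t₀ < ‖A r₁‖) (hd0 : 0 < d)
    (hd : d < π / 2) (hx : 0 ≤ Real.log ((1 + r₁) / (1 - r₁))) :
    d ^ 2 / π * (Real.log ‖A r₁‖ - Real.log t₀) ≤
      π * (Real.log ((1 + r₁) / (1 - r₁)) + π) := by
  obtain ⟨x₁, hx₁⟩ : ∃ x₁, x₁ = Real.log ((1 + r₁) / (1 - r₁)) := ⟨_, rfl⟩
  rw [← hx₁] at hx ⊢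
  have ht0 : 0 < t₀ := (norm_nonneg _).trans_lt ht₀
  have hR0 : 0 < ‖A r₁‖ := ht0.trans htR
  have hπ : 0 < π := Real.pi_pos
  have hfin : ∀ τ : ℝ, volume (Lmap '' (Gt A (Real.exp τ)) ∩ Abox x₁) ≤
      ENNReal.ofReal ((x₁ + π) * π) := fun τ =>
    (measure_mono inter_subset_right).trans (volume_Abox hx).le
  have hne : ∀ τ : ℝ, volume (Lmap '' (Gt A (Real.exp τ)) ∩ Abox x₁) ≠ ⊤ := fun τ =>
    ne_top_of_le_ne_top ENNReal.ofReal_ne_top (hfin τ)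
  let m : ℝ → ℝ := fun τ => (volume (Lmap '' (Gt A (Real.exp τ)) ∩ Abox x₁)).toReal
  have hm : MonotoneOn m (Icc (Real.log t₀) (Real.log ‖A r₁‖)) := by
    intro x _ y _ hxy
    refine ENNReal.toReal_mono (hne y) (measure_mono ?_)
    exact inter_subset_inter_left _ (image_mono (GrowthRad_mono (Real.exp_le_exp.2 hxy)))
  have hstep : ∀ x ∈ Ico (Real.log t₀) (Real.log ‖A r₁‖), ∀ ε > 0, ∃ δ > 0,
      ∀ y ∈ Ioo x (x + δ), y ≤ Real.log ‖A r₁‖ → m x + (d ^ 2 / π - ε) * (y - x) ≤ m y := by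
    intro x hxm ε hε
    have h1 : t₀ ≤ Real.exp x := by
      rw [← Real.exp_log ht0]
      exact Real.exp_le_exp.2 hxm.1
    have h2 : Real.exp x < ‖A r₁‖ := by
      rw [← Real.exp_log hR0]
      exact Real.exp_lt_exp.2 hxm.2
    obtain ⟨δ, hδ, hs⟩ := growth_step h h0 hr₁ (ht₀.trans_le h1) h2 hd0 hd hε
    refine ⟨δ, hδ, fun y hy _ => ?_⟩
    have h3 := hs (y - x) ⟨by linarith [hy.1], by linarith [hy.2]⟩
    rw [← hx₁, ← Real.exp_add, add_sub_cancel] at h3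
    have h4 := ENNReal.toReal_mono (hne y) h3
    rw [ENNReal.toReal_add (hne x) ENNReal.ofReal_ne_top] at h4
    have h5 : (d ^ 2 / π - ε) * (y - x) ≤
        (ENNReal.ofReal ((y - x) * (d ^ 2 / π - ε))).toReal := by
      rw [ENNReal.toReal_ofReal', mul_comm]
      exact le_max_left _ _
    exact (add_le_add_right h5 _).trans h4
  have hlog : Real.log t₀ ≤ Real.log ‖A r₁‖ := Real.log_le_log ht0 htR.le
  have h6 := dini_ind hlog hm hstep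
  have h7 : m (Real.log ‖A r₁‖) ≤ (x₁ + π) * π := by
    refine ENNReal.toReal_le_of_le_ofReal (by positivity) (hfin _)
  have h8 : 0 ≤ m (Real.log t₀) := ENNReal.toReal_nonneg
  linarith

/-- GROWTH ON THE POSITIVE RADIUS.
Proof. Let `t₀ > ‖A'(0)‖` (`> 0`) and suppose `t₀ < R = ‖A r₁‖`.  The function
`m τ = (volume (Lmap '' Gt A (exp τ) ∩ Abox x₁)).toReal` is monotone and bounded by `π (x₁ + π)`
(`volume_Abox`).  `growth_step` and `dini_ind` on `[log t₀, log R]` with `c = d²/π` give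
`(d²/π) (log R - log t₀) ≤ π (x₁ + π)`.  Let `d → π/2`, `t₀ → ‖A'(0)‖`:
`(π/4) log (R/‖A'(0)‖) ≤ π (x₁ + π)`, i.e. `R ≤ ‖A'(0)‖ exp (4π) exp (4 x₁)`.
If `R ≤ ‖A'(0)‖` there is nothing to prove. -/
theorem growth_radius {A B : ℂ → ℂ} (h : HPair A B) (h0 : A 0 = 0) {r₁ : ℝ}
    (hr₁ : r₁ ∈ Ioo (0 : ℝ) 1) :
    ‖A r₁‖ ≤ Real.exp (4 * π) * ‖deriv A 0‖ * ((1 + r₁) / (1 - r₁)) ^ 4 := by
  have hπ : 0 < π := Real.pi_pos
  have h1r : 0 < 1 - r₁ := by linarith [hr₁.2]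
  have hq : 1 ≤ (1 + r₁) / (1 - r₁) := by
    rw [le_div_iff₀ h1r]
    linarith [hr₁.1]
  have hq0 : 0 < (1 + r₁) / (1 - r₁) := lt_of_lt_of_le one_pos hq
  have hD0 : 0 < ‖deriv A 0‖ := norm_pos_iff.2 (h.deriv_ne (mem_closedBall_self zero_le_one))
  rcases le_or_gt ‖A r₁‖ ‖deriv A 0‖ with hle | hgt
  · refine hle.trans ?_
    have h2 : 1 ≤ Real.exp (4 * π) := Real.one_le_exp (by positivity)
    have h3 : 1 ≤ ((1 + r₁) / (1 - r₁)) ^ 4 := one_le_pow₀ hq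
    calc ‖deriv A 0‖ = 1 * ‖deriv A 0‖ * 1 := by ring
      _ ≤ _ := by gcongr
  obtain ⟨x₁, hx₁⟩ : ∃ x₁, x₁ = Real.log ((1 + r₁) / (1 - r₁)) := ⟨_, rfl⟩
  have hx : 0 ≤ Real.log ((1 + r₁) / (1 - r₁)) := Real.log_nonneg hq
  have hR0 : 0 < ‖A r₁‖ := hD0.trans hgt
  -- let `d → π / 2`
  have h2 : ∀ t₀ : ℝ, ‖deriv A 0‖ < t₀ → t₀ < ‖A r₁‖ →
      (π / 2) ^ 2 / π * (Real.log ‖A r₁‖ - Real.log t₀) ≤ π * (x₁ + π) := by
    intro t₀ ht₀ htR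
    have ht : Tendsto (fun d : ℝ => d ^ 2 / π * (Real.log ‖A r₁‖ - Real.log t₀))
        (𝓝[<] (π / 2)) (𝓝 ((π / 2) ^ 2 / π * (Real.log ‖A r₁‖ - Real.log t₀))) := by
      have hc : Continuous fun d : ℝ => d ^ 2 / π * (Real.log ‖A r₁‖ - Real.log t₀) := by
        fun_prop
      exact (hc.tendsto _).mono_left nhdsWithin_le_nhds
    refine le_of_tendsto ht ?_
    have hev : ∀ᶠ d in 𝓝[<] (π / 2), d ∈ Ioo 0 (π / 2) := Ioo_mem_nhdsLT (by positivity)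
    filter_upwards [hev] with d hd
    rw [hx₁]
    exact GrowthRad_aux h h0 hr₁ ht₀ htR hd.1 hd.2 hx
  -- let `t₀ → ‖A' 0‖`
  have h3 : (π / 2) ^ 2 / π * (Real.log ‖A r₁‖ - Real.log ‖deriv A 0‖) ≤ π * (x₁ + π) := by
    have ht : Tendsto (fun t : ℝ => (π / 2) ^ 2 / π * (Real.log ‖A r₁‖ - Real.log t))
        (𝓝[>] ‖deriv A 0‖)
        (𝓝 ((π / 2) ^ 2 / π * (Real.log ‖A r₁‖ - Real.log ‖deriv A 0‖))) := by
      have hc : ContinuousAt (fun t : ℝ => (π / 2) ^ 2 / π * (Real.log ‖A r₁‖ - Real.log t))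
          ‖deriv A 0‖ :=
        continuousAt_const.mul (continuousAt_const.sub (Real.continuousAt_log hD0.ne'))
      exact hc.tendsto.mono_left nhdsWithin_le_nhds
    refine le_of_tendsto ht ?_
    have hev : ∀ᶠ t in 𝓝[>] ‖deriv A 0‖, t ∈ Ioo ‖deriv A 0‖ ‖A r₁‖ := Ioo_mem_nhdsGT hgt
    filter_upwards [hev] with t ht'
    exact h2 t ht'.1 ht'.2
  have h4 : Real.log ‖A r₁‖ - Real.log ‖deriv A 0‖ ≤ 4 * (x₁ + π) := by
    have h5 : (π / 2) ^ 2 / π = π / 4 := by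
      field_simp
      ring
    rw [h5] at h3
    have h6 : π * ((Real.log ‖A r₁‖ - Real.log ‖deriv A 0‖) / 4) ≤ π * (x₁ + π) := by linarith
    have h7 := le_of_mul_le_mul_left h6 hπ
    linarith
  have h5 : ‖A r₁‖ = Real.exp (Real.log ‖A r₁‖) := (Real.exp_log hR0).symm
  have h6 : Real.exp (4 * x₁) = ((1 + r₁) / (1 - r₁)) ^ 4 := by
    rw [hx₁]
    have h7 := Real.exp_nat_mul (Real.log ((1 + r₁) / (1 - r₁))) 4
    rw [Real.exp_log hq0] at h7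
    rw [← h7]
    norm_num
  calc ‖A r₁‖ = Real.exp (Real.log ‖A r₁‖) := h5
    _ ≤ Real.exp (4 * π + Real.log ‖deriv A 0‖ + 4 * x₁) := Real.exp_le_exp.2 (by linarith)
    _ = Real.exp (4 * π) * ‖deriv A 0‖ * ((1 + r₁) / (1 - r₁)) ^ 4 := by
      rw [Real.exp_add, Real.exp_add, Real.exp_log hD0, h6]

end Pool.Agent.HQ
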