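import Pool.Agent.HQ.Lmap

/-! HQ growth half, file LmapBox: boxes in the strip coordinate. -/

set_option autoImplicit false

open Complex Metric Set Filter Topology MeasureTheory
open scoped ComplexConjugate Real

namespace Pool.Agent.HQ

/-- The part of the disc over the open box `(-d, x₁ + d) × (-d, d)`. -/
def Ubox (x₁ d : ℝ) : Set ℂ :=
  {z | z ∈ ball (0 : ℂ) 1 ∧ -d < (Lmap z).re ∧ (Lmap z).re < x₁ + d ∧ |(Lmap z).im| < d}

theorem isOpen_Ubox (x₁ d : ℝ) : IsOpen (Ubox x₁ d) := by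
  have h1 : Ubox x₁ d = ball (0 : ℂ) 1 ∩
      Lmap ⁻¹' {w : ℂ | -d < w.re ∧ w.re < x₁ + d ∧ |w.im| < d} := by
    ext z
    rfl
  rw [h1]
  refine differentiableOn_Lmap.continuousOn.isOpen_inter_preimage isOpen_ball ?_
  refine (isOpen_lt continuous_const continuous_re).inter
    ((isOpen_lt continuous_re continuous_const).inter
      (isOpen_lt (continuous_abs.comp continuous_im) continuous_const))

/-- `exp (Lmap z) = (1 + z) / (1 - z)`. -/
private theorem lmapBox_exp {z : ℂ} (hz : z ∈ ball (0 : ℂ) 1) :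
    1 - z ≠ 0 ∧ exp (Lmap z) = (1 + z) / (1 - z) := by
  have hz1 : ‖z‖ < 1 := by rwa [mem_ball_zero_iff] at hz
  have h1 : 1 - z ≠ 0 := by
    intro h
    have h2 : z = 1 := (sub_eq_zero.1 h).symm
    rw [h2, norm_one] at hz1
    exact lt_irrefl _ hz1
  have h2 : 1 + z ≠ 0 := by
    intro h
    have h2 : z = -1 := by linear_combination h
    rw [h2, norm_neg, norm_one] at hz1
    exact lt_irrefl _ hz1
  refine ⟨h1, ?_⟩
  unfold Lmap
  exact exp_log (div_ne_zero h2 h1)

/-- The inverse of `Lmap`. -/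
private theorem lmapBox_inv {z : ℂ} (hz : z ∈ ball (0 : ℂ) 1) :
    (exp (Lmap z) - 1) / (exp (Lmap z) + 1) = z := by
  obtain ⟨h1, h2⟩ := lmapBox_exp hz
  have h3 : exp (Lmap z) + 1 = 2 / (1 - z) := by
    rw [h2]
    field_simp
    ring
  have h4 : exp (Lmap z) - 1 = 2 * z / (1 - z) := by
    rw [h2]
    field_simp
    ring
  rw [h3, h4]
  have h5 : (2 : ℂ) ≠ 0 := two_ne_zero
  field_simp

/-- For `d < π/2` the closure is contained in the image of the compact box
`[-d, x₁ + d] × [-d, d]` under the continuous inverse map `ω ↦ (exp ω - 1)/(exp ω + 1)`. -/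
theorem closure_Ubox {x₁ d : ℝ} (hd : d < π / 2) :
    IsCompact (closure (Ubox x₁ d)) ∧ ∀ z ∈ closure (Ubox x₁ d),
      z ∈ ball (0 : ℂ) 1 ∧ -d ≤ (Lmap z).re ∧ (Lmap z).re ≤ x₁ + d ∧ |(Lmap z).im| ≤ d := by
  set Bx : Set ℂ := Icc (-d) (x₁ + d) ×ℂ Icc (-d) d with hBx
  set G : ℂ → ℂ := fun w => (exp w - 1) / (exp w + 1) with hG
  have hmem : ∀ w : ℂ, w ∈ Bx ↔ -d ≤ w.re ∧ w.re ≤ x₁ + d ∧ |w.im| ≤ d := by
    intro w
    rw [hBx, mem_reProdIm, mem_Icc, mem_Icc, abs_le]
    tauto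
  have hBc : IsCompact Bx := isCompact_Icc.reProdIm isCompact_Icc
  have hne : ∀ w ∈ Bx, exp w + 1 ≠ 0 := by
    intro w hw h
    have h1 := ((hmem w).1 hw).2.2
    have h2 : 0 < Real.cos w.im := by
      rw [← Real.cos_abs]
      exact Real.cos_pos_of_mem_Ioo ⟨by have := abs_nonneg w.im; linarith [Real.pi_pos],
        lt_of_le_of_lt h1 hd⟩
    have h3 : 0 < (exp w).re := by
      rw [exp_re]
      exact mul_pos (Real.exp_pos _) h2
    have h4 := congrArg Complex.re h
    rw [add_re, one_re, zero_re] at h4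
    linarith
  have hGc : ContinuousOn G Bx := by
    refine ContinuousOn.div ?_ ?_ hne
    · exact (continuous_exp.sub continuous_const).continuousOn
    · exact (continuous_exp.add continuous_const).continuousOn
  have hK : IsCompact (G '' Bx) := hBc.image_of_continuousOn hGc
  have hsub : Ubox x₁ d ⊆ G '' Bx := by
    intro z hz
    refine ⟨Lmap z, (hmem _).2 ⟨hz.2.1.le, hz.2.2.1.le, hz.2.2.2.le⟩, ?_⟩
    exact lmapBox_inv hz.1
  have hcl : closure (Ubox x₁ d) ⊆ G '' Bx := closure_minimal hsub hK.isClosed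
  refine ⟨hK.of_isClosed_subset isClosed_closure hcl, ?_⟩
  intro z hz
  obtain ⟨w, hw, hwz⟩ := hcl hz
  have h1 := (hmem w).1 hw
  obtain ⟨z', hz', hLz'⟩ := exists_Lmap_eq (lt_of_le_of_lt h1.2.2 hd)
  have h2 : z' = z := by
    rw [← lmapBox_inv hz', hLz']
    exact hwz
  subst h2
  rw [hLz']
  exact ⟨hz', h1⟩

/-- Leaving the box costs distance `d`.  Proof: `z ∈ closure \ Ubox`, so one of the inequalities
of `closure_Ubox` is an equality: `Re = -d`, or `Re = x₁ + d`, or `|Im| = d`; in each case the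
distance to the real point `x ∈ [0, x₁]` is `≥ d`. -/
theorem dist_exit {x₁ d : ℝ} (hd0 : 0 < d) (hd : d < π / 2) {z : ℂ}
    (hz : z ∈ closure (Ubox x₁ d)) (hz' : z ∉ Ubox x₁ d) {x : ℝ} (hx : x ∈ Icc 0 x₁) :
    d ≤ ‖Lmap z - x‖ := by
  obtain ⟨hb, h1, h2, h3⟩ := (closure_Ubox hd).2 z hz
  have hre : |(Lmap z).re - x| ≤ ‖Lmap z - x‖ := by
    have := abs_re_le_norm (Lmap z - x)
    rwa [sub_re, ofReal_re] at this
  have him : |(Lmap z).im| ≤ ‖Lmap z - x‖ := by
    have := abs_im_le_norm (Lmap z - x)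
    rwa [sub_im, ofReal_im, sub_zero] at this
  by_contra hc
  push Not at hc
  apply hz'
  obtain ⟨hl, hr⟩ := abs_le.1 hre
  exact ⟨hb, by linarith [hx.1], by linarith [hx.2], by linarith⟩

/-- The box used for the area count. -/
def Abox (x₁ : ℝ) : Set ℂ := {ω | -(π / 2) < ω.re ∧ ω.re < x₁ + π / 2 ∧ |ω.im| < π / 2}

/-- `Abox` is the product of two intervals. -/
theorem volume_Abox {x₁ : ℝ} (hx : 0 ≤ x₁) :
    volume (Abox x₁) = ENNReal.ofReal ((x₁ + π) * π) := by
  have h1 : Abox x₁ = Complex.measurableEquivRealProd ⁻¹'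
      (Ioo (-(π / 2)) (x₁ + π / 2) ×ˢ Ioo (-(π / 2)) (π / 2)) := by
    ext w
    simp only [Abox, mem_setOf_eq, mem_preimage, mem_prod, mem_Ioo,
      Complex.measurableEquivRealProd_apply, abs_lt]
    tauto
  rw [h1, Complex.volume_preserving_equiv_real_prod.measure_preimage
    (measurableSet_Ioo.prod measurableSet_Ioo).nullMeasurableSet, Measure.volume_eq_prod,
    Measure.prod_prod, Real.volume_Ioo, Real.volume_Ioo, ← ENNReal.ofReal_mul]
  · congr 1
    ring
  · have := Real.pi_pos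
    linarith

end Pool.Agent.HQ
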