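import Pool.Agent.HQ.ArcEx
import Pool.Agent.HQ.AreaStrip
import Pool.Agent.HQ.LmapBox

/-! HQ growth half, file GrowthStep: the area increment. -/

set_option autoImplicit false

open Complex Metric Set Filter Topology MeasureTheory
open scoped ComplexConjugate Real

namespace Pool.Agent.HQ

/-- The component of `{|A| < t}` containing `0`. -/
def Gt (A : ℂ → ℂ) (t : ℝ) : Set ℂ := connectedComponentIn {z | z ∈ ball (0 : ℂ) 1 ∧ ‖A z‖ < t} 0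

/-- FIRST HITTING POINT on the radius.
Proof. `{r ∈ Icc 0 r₁ : t ≤ ‖A r‖}` is compact and nonempty; take its minimum `r₀`; `r₀ > 0` since
`‖A 0‖ < t`; `‖A r₀‖ = t` by continuity. -/
theorem exists_first_hit {A : ℂ → ℂ} (hA : DifferentiableOn ℂ A (ball 0 1)) {t r₁ : ℝ}
    (hr₁ : r₁ ∈ Ioo (0 : ℝ) 1) (h0 : ‖A 0‖ < t) (h1 : t ≤ ‖A r₁‖) :
    ∃ r₀ : ℝ, 0 < r₀ ∧ r₀ ≤ r₁ ∧ ‖A r₀‖ = t ∧ ∀ r ∈ Ico (0 : ℝ) r₀, ‖A r‖ < t := by
  have hball : ∀ r ∈ Icc (0 : ℝ) r₁, (r : ℂ) ∈ ball (0 : ℂ) 1 := by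
    intro r hr
    rw [mem_ball_zero_iff, Complex.norm_real, Real.norm_eq_abs, abs_of_nonneg hr.1]
    exact hr.2.trans_lt hr₁.2
  have hf : ContinuousOn (fun r : ℝ => ‖A r‖) (Icc 0 r₁) :=
    (hA.continuousOn.comp Complex.continuous_ofReal.continuousOn hball).norm
  have hc : IsCompact (Icc 0 r₁ ∩ (fun r : ℝ => ‖A r‖) ⁻¹' Ici t) :=
    isCompact_Icc.of_isClosed_subset (hf.preimage_isClosed_of_isClosed isClosed_Icc isClosed_Ici)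
      inter_subset_left
  have hne : (Icc 0 r₁ ∩ (fun r : ℝ => ‖A r‖) ⁻¹' Ici t).Nonempty :=
    ⟨r₁, ⟨hr₁.1.le, le_rfl⟩, h1⟩
  obtain ⟨r₀, hr₀, hmin⟩ := hc.exists_isLeast hne
  have hlt : ∀ r ∈ Ico (0 : ℝ) r₀, ‖A r‖ < t := by
    intro r hr
    by_contra hge
    exact absurd (hmin ⟨⟨hr.1, hr.2.le.trans hr₀.1.2⟩, not_lt.1 hge⟩) (not_le.2 hr.2)
  have hpos : 0 < r₀ := by
    rcases hr₀.1.1.lt_or_eq with h2 | h2
    · exact h2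
    · exfalso
      have h3 : t ≤ ‖A r₀‖ := hr₀.2
      rw [← h2, Complex.ofReal_zero] at h3
      exact absurd h0 (not_lt.2 h3)
  refine ⟨r₀, hpos, hr₀.1.2, le_antisymm ?_ hr₀.2, hlt⟩
  by_contra hgt
  have h4 : t ∈ Ioo ‖A ((0 : ℝ) : ℂ)‖ ‖A (r₀ : ℂ)‖ := by
    rw [Complex.ofReal_zero]
    exact ⟨h0, not_le.1 hgt⟩
  obtain ⟨r, hr, hrt⟩ := intermediate_value_Ioo hpos.le
    (hf.mono (Icc_subset_Icc_right hr₀.1.2)) h4
  exact absurd hrt (hlt r ⟨hr.1.le, hr.2⟩).ne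

private theorem GrowthStep_Gt_mono (A : ℂ → ℂ) {t t' : ℝ} (h : t ≤ t') : Gt A t ⊆ Gt A t' :=
  connectedComponentIn_mono _ (fun _ hz => ⟨hz.1, hz.2.trans_le h⟩)

private theorem GrowthStep_mem_Gt {A : ℂ → ℂ} {t : ℝ} {z : ℂ} (hz : z ∈ Gt A t) :
    z ∈ ball (0 : ℂ) 1 ∧ ‖A z‖ < t := by
  have h : z ∈ {z | z ∈ ball (0 : ℂ) 1 ∧ ‖A z‖ < t} := connectedComponentIn_subset _ _ hz
  exact h

private theorem GrowthStep_isOpen_Abox (x₁ : ℝ) : IsOpen (Abox x₁) := by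
  unfold Abox
  refine IsOpen.inter (isOpen_lt continuous_const continuous_re) (IsOpen.inter
    (isOpen_lt continuous_re continuous_const) (isOpen_lt continuous_im.abs continuous_const))

/-- the closed half open strip is mapped into the component of the origin -/
private theorem GrowthStep_sub {A : ℂ → ℂ} {t r₀ σ s α β θ₀ : ℝ} {Z : ℂ → ℂ}
    (hr₀ : r₀ ∈ Ioo (0 : ℝ) 1) (ht : 0 < t) (hs : 0 < s) (hsσ : s < σ)
    (hle : ∀ r ∈ Icc (0 : ℝ) r₀, ‖A r‖ ≤ t) (hZ : ContinuousOn Z (rectNhd σ α β))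
    (hZA : ∀ ω ∈ rectNhd σ α β, Z ω ∈ ball (0 : ℂ) 1 ∧ A (Z ω) = t * exp ω)
    (hα : α ≤ θ₀) (hβ : θ₀ ≤ β) (hZ0 : Z (θ₀ * I) = r₀) :
    Z '' {ω | 0 ≤ ω.re ∧ ω.re < s ∧ α ≤ ω.im ∧ ω.im ≤ β} ⊆ Gt A (t * Real.exp s) := by
  have hσ : 0 < σ := hs.trans hsσ
  have hsub : {ω : ℂ | 0 ≤ ω.re ∧ ω.re < s ∧ α ≤ ω.im ∧ ω.im ≤ β} ⊆ rectNhd σ α β := by
    rintro ω ⟨h1, h2, h3, h4⟩
    refine ⟨?_, by linarith, by linarith⟩
    rw [abs_of_nonneg h1]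
    linarith
  have hconv : Convex ℝ {ω : ℂ | 0 ≤ ω.re ∧ ω.re < s ∧ α ≤ ω.im ∧ ω.im ≤ β} := by
    have e : {ω : ℂ | 0 ≤ ω.re ∧ ω.re < s ∧ α ≤ ω.im ∧ ω.im ≤ β} =
        (Complex.reLm ⁻¹' Ico 0 s) ∩ (Complex.imLm ⁻¹' Icc α β) := by
      ext ω
      simp only [mem_ofPred_eq, mem_inter_iff, mem_preimage, mem_Ico, mem_Icc,
        Complex.reLm_coe, Complex.imLm_coe]
      tauto
    rw [e]
    exact ((convex_Ico 0 s).linear_preimage _).inter ((convex_Icc α β).linear_preimage _)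
  have hp1 : IsPreconnected (Z '' {ω : ℂ | 0 ≤ ω.re ∧ ω.re < s ∧ α ≤ ω.im ∧ ω.im ≤ β}) :=
    hconv.isPreconnected.image _ (hZ.mono hsub)
  have hp2 : IsPreconnected ((fun r : ℝ => (r : ℂ)) '' Icc 0 r₀) :=
    isPreconnected_Icc.image _ Complex.continuous_ofReal.continuousOn
  have hm1 : (r₀ : ℂ) ∈ Z '' {ω : ℂ | 0 ≤ ω.re ∧ ω.re < s ∧ α ≤ ω.im ∧ ω.im ≤ β} := by
    refine ⟨θ₀ * I, ?_, hZ0⟩
    simp only [mem_ofPred_eq, mul_re, ofReal_re, I_re, mul_zero, ofReal_im, I_im, mul_one,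
      sub_self, le_refl, mul_im, add_zero, true_and]
    exact ⟨hs, hα, hβ⟩
  have hm2 : (r₀ : ℂ) ∈ (fun r : ℝ => (r : ℂ)) '' Icc 0 r₀ := ⟨r₀, ⟨hr₀.1.le, le_rfl⟩, rfl⟩
  have hp := IsPreconnected.union (r₀ : ℂ) hm1 hm2 hp1 hp2
  have h1s : 1 < Real.exp s := Real.one_lt_exp_iff.2 hs
  have hF : Z '' {ω : ℂ | 0 ≤ ω.re ∧ ω.re < s ∧ α ≤ ω.im ∧ ω.im ≤ β} ∪
      (fun r : ℝ => (r : ℂ)) '' Icc 0 r₀ ⊆ {z | z ∈ ball (0 : ℂ) 1 ∧ ‖A z‖ < t * Real.exp s} := by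
    rintro z (⟨ω, hω, rfl⟩ | ⟨r, hr, rfl⟩)
    · obtain ⟨h2, h3⟩ := hZA ω (hsub hω)
      refine ⟨h2, ?_⟩
      rw [h3, norm_mul, Complex.norm_real, Complex.norm_exp, Real.norm_eq_abs, abs_of_pos ht]
      exact mul_lt_mul_of_pos_left (Real.exp_lt_exp.2 hω.2.1) ht
    · refine ⟨?_, ?_⟩
      · rw [mem_ball_zero_iff, Complex.norm_real, Real.norm_eq_abs, abs_of_nonneg hr.1]
        exact hr.2.trans_lt hr₀.2
      · have := hle r hr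
        nlinarith
  have h0 : (0 : ℂ) ∈ Z '' {ω : ℂ | 0 ≤ ω.re ∧ ω.re < s ∧ α ≤ ω.im ∧ ω.im ≤ β} ∪
      (fun r : ℝ => (r : ℂ)) '' Icc 0 r₀ :=
    Or.inr ⟨0, ⟨le_rfl, hr₀.1.le⟩, Complex.ofReal_zero⟩
  exact subset_union_left.trans (hp.subset_connectedComponentIn h0 hF)

/-- AREA INCREMENT.  `x₁ = log ((1+r₁)/(1-r₁))`, `d < π/2`.
Proof. `exists_first_hit` gives `r₀`; `Lmap r₀` is a real point of `[0, x₁]` (`Lmap_ofReal`,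
monotonicity).  `exists_arc` for `U = Ubox x₁ d` gives `α, θ₀, β, z`.  `exists_thick` with
`V = {z ∈ ball 0 1 : Lmap z ∈ Abox x₁}` (open; contains `closure U` by `closure_Ubox`) gives `σ, Z`.
Put `g = Lmap ∘ Z`; by `dist_exit`, `‖g (α I) - g (θ₀ I)‖ ≥ d`, `‖g (β I) - g (θ₀ I)‖ ≥ d`.
`area_strip` gives `σ₁`.  For `t < t' < t exp σ₁` put `s = log (t'/t)`.  The image of
`{0 < Re < s, α < Im < β}` under `Z` is contained in `Gt A t'`: the point `Z ω` is joined with `0`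
inside `{|A| ≤ t exp (Re ω) < t'}` by `Z (horizontal segment to i Im ω)`, the arc `z` to
`z θ₀ = r₀`, and the radius `[0, r₀]`.  It is disjoint from `Gt A t` (there `|A| < t`, here
`|A| = t exp (Re ω) > t`).  `Lmap` is injective, so the two images under `Lmap` inside `Abox` are
disjoint and `volume` adds up (the sets are open, hence measurable). -/
theorem growth_step {A B : ℂ → ℂ} (h : HPair A B) (h0 : A 0 = 0) {r₁ t d ε : ℝ}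
    (hr₁ : r₁ ∈ Ioo (0 : ℝ) 1) (ht : ‖deriv A 0‖ < t) (ht1 : t < ‖A r₁‖) (hd0 : 0 < d)
    (hd : d < π / 2) (hε : 0 < ε) :
    ∃ δ > 0, ∀ s ∈ Ioo (0 : ℝ) δ,
      volume (Lmap '' (Gt A t) ∩ Abox (Real.log ((1 + r₁) / (1 - r₁)))) +
        ENNReal.ofReal (s * (d ^ 2 / π - ε)) ≤
      volume (Lmap '' (Gt A (t * Real.exp s)) ∩ Abox (Real.log ((1 + r₁) / (1 - r₁)))) := by
  have htp : 0 < t := (norm_nonneg _).trans_lt ht
  have hA := h.diffA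
  have hA' : ∀ z ∈ ball (0 : ℂ) 1, deriv A z ≠ 0 := fun z hz =>
    h.deriv_ne (ball_subset_closedBall hz)
  set x₁ : ℝ := Real.log ((1 + r₁) / (1 - r₁)) with hx₁
  obtain ⟨r₀, hr0, hr01, hAr0, hfirst⟩ :=
    exists_first_hit hA hr₁ (by rw [h0, norm_zero]; exact htp) ht1.le
  have hr₀ : r₀ ∈ Ioo (0 : ℝ) 1 := ⟨hr0, hr01.trans_lt hr₁.2⟩
  have hr₀b : (r₀ : ℂ) ∈ ball (0 : ℂ) 1 := by
    rw [mem_ball_zero_iff, Complex.norm_real, Real.norm_eq_abs, abs_of_pos hr0]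
    exact hr₀.2
  have hL0 := Lmap_ofReal (r := r₀) (by linarith) hr₀.2
  set x : ℝ := Real.log ((1 + r₀) / (1 - r₀)) with hx
  have hx0 : 0 ≤ x := by
    refine Real.log_nonneg ?_
    rw [le_div_iff₀ (by linarith [hr₀.2])]
    linarith
  have hxx : x ≤ x₁ := by
    refine Real.log_le_log (div_pos (by linarith) (by linarith [hr₀.2])) ?_
    rw [div_le_div_iff₀ (by linarith [hr₀.2]) (by linarith [hr₁.2])]
    nlinarith
  have hrU : (r₀ : ℂ) ∈ Ubox x₁ d := by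
    refine ⟨hr₀b, ?_, ?_, ?_⟩
    · rw [hL0, ofReal_re]; linarith
    · rw [hL0, ofReal_re]; linarith
    · rw [hL0, ofReal_im, abs_zero]; exact hd0
  obtain ⟨hUc, hUb⟩ := closure_Ubox (x₁ := x₁) hd
  obtain ⟨α, θ₀, β, z, hα, hβ, hlen, hz, hzr, hzα, hzβ, hzU, hzi⟩ :=
    exists_arc h h0 ht hr₀ hfirst hAr0 (isOpen_Ubox x₁ d) hUc (fun z hz => (hUb z hz).1) hrU
  have hVo : IsOpen (ball (0 : ℂ) 1 ∩ Lmap ⁻¹' Abox x₁) :=
    differentiableOn_Lmap.continuousOn.isOpen_inter_preimage isOpen_ball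
      (GrowthStep_isOpen_Abox x₁)
  have hzV : ∀ θ ∈ Icc α β, z θ ∈ ball (0 : ℂ) 1 ∩ Lmap ⁻¹' Abox x₁ := by
    intro θ hθ
    obtain ⟨a1, a2, a3, a4⟩ := hUb _ (hzU θ hθ)
    exact ⟨a1, by linarith, by linarith, by linarith⟩
  obtain ⟨σ, hσ, Z, hZd, hZz, hZV, hZi⟩ := exists_thick hA hA' htp (hα.trans hβ) hz hzi hVo
    inter_subset_left hzV
  have hmaps : MapsTo Z (rectNhd σ α β) (ball (0 : ℂ) 1) := fun ω hω => (hZV ω hω).1.1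
  have hgd : DifferentiableOn ℂ (fun ω => Lmap (Z ω)) (rectNhd σ α β) :=
    differentiableOn_Lmap.comp hZd hmaps
  have hsubR : {ω : ℂ | |ω.re| < σ ∧ α ≤ ω.im ∧ ω.im ≤ β} ⊆ rectNhd σ α β := by
    rintro ω ⟨a1, a2, a3⟩
    exact ⟨a1, by linarith, by linarith⟩
  have hgi : InjOn (fun ω => Lmap (Z ω)) {ω : ℂ | |ω.re| < σ ∧ α ≤ ω.im ∧ ω.im ≤ β} :=
    injOn_Lmap.comp hZi (hmaps.mono_left hsubR)
  have hZα : Z (α * I) = z α := hZz α ⟨le_rfl, (hα.trans hβ).le⟩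
  have hZβ : Z (β * I) = z β := hZz β ⟨(hα.trans hβ).le, le_rfl⟩
  have hZθ : Z (θ₀ * I) = z θ₀ := hZz θ₀ ⟨hα.le, hβ.le⟩
  have hd1 : d ≤ ‖Lmap (Z (α * I)) - Lmap (Z (θ₀ * I))‖ := by
    rw [hZα, hZθ, hzr, hL0]
    exact dist_exit hd0 hd (hzU α ⟨le_rfl, (hα.trans hβ).le⟩) hzα ⟨hx0, hxx⟩
  have hd2 : d ≤ ‖Lmap (Z (β * I)) - Lmap (Z (θ₀ * I))‖ := by
    rw [hZβ, hZθ, hzr, hL0]
    exact dist_exit hd0 hd (hzU β ⟨(hα.trans hβ).le, le_rfl⟩) hzβ ⟨hx0, hxx⟩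
  obtain ⟨σ₁, hσ₁, hσσ, harea⟩ := area_strip (g := fun ω => Lmap (Z ω)) hσ hα hβ hlen.le hgd hgi
    hd0.le hd1 hd2 hε
  refine ⟨σ₁, hσ₁, fun s hs => ?_⟩
  have hsσ : s < σ := hs.2.trans_le hσσ
  have hle : ∀ r ∈ Icc (0 : ℝ) r₀, ‖A r‖ ≤ t := by
    intro r hr
    rcases hr.2.lt_or_eq with h2 | h2
    · exact (hfirst r ⟨hr.1, h2⟩).le
    · rw [h2, hAr0]
  have hsub := GrowthStep_sub hr₀ htp hs.1 hsσ hle hZd.continuousOn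
    (fun ω hω => ⟨(hZV ω hω).1.1, (hZV ω hω).2⟩) hα.le hβ.le (hZθ.trans hzr)
  set R : Set ℂ := {ω | 0 < ω.re ∧ ω.re < s ∧ α < ω.im ∧ ω.im < β} with hR
  have hRo : IsOpen R := by
    refine IsOpen.inter (isOpen_lt continuous_const continuous_re) (IsOpen.inter
      (isOpen_lt continuous_re continuous_const) (IsOpen.inter
        (isOpen_lt continuous_const continuous_im) (isOpen_lt continuous_im continuous_const)))
  have hRr : R ⊆ {ω : ℂ | |ω.re| < σ ∧ α ≤ ω.im ∧ ω.im ≤ β} := by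
    rintro ω ⟨a1, a2, a3, a4⟩
    refine ⟨?_, a3.le, a4.le⟩
    rw [abs_of_pos a1]
    exact a2.trans hsσ
  have hRs : R ⊆ {ω : ℂ | 0 ≤ ω.re ∧ ω.re < s ∧ α ≤ ω.im ∧ ω.im ≤ β} := by
    rintro ω ⟨a1, a2, a3, a4⟩
    exact ⟨a1.le, a2, a3.le, a4.le⟩
  have hmeas : MeasurableSet ((fun ω => Lmap (Z ω)) '' R) :=
    hRo.measurableSet.image_of_continuousOn_injOn
      (hgd.continuousOn.mono (hRr.trans hsubR)) (hgi.mono hRr)
  have hdisj : Disjoint (Lmap '' (Gt A t) ∩ Abox x₁) ((fun ω => Lmap (Z ω)) '' R) := by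
    rw [Set.disjoint_left]
    rintro w ⟨⟨v, hv, rfl⟩, -⟩ ⟨ω, hω, hωv⟩
    obtain ⟨b1, b2⟩ := GrowthStep_mem_Gt hv
    have hωr := hsubR (hRr hω)
    have e : Z ω = v := injOn_Lmap (hmaps hωr) b1 hωv
    have e2 := (hZV ω hωr).2
    rw [e] at e2
    rw [e2, norm_mul, Complex.norm_real, Complex.norm_exp, Real.norm_eq_abs,
      abs_of_pos htp] at b2
    have h3 : 1 < Real.exp ω.re := Real.one_lt_exp_iff.2 hω.1
    nlinarith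
  have hunion : (Lmap '' (Gt A t) ∩ Abox x₁) ∪ ((fun ω => Lmap (Z ω)) '' R) ⊆
      Lmap '' (Gt A (t * Real.exp s)) ∩ Abox x₁ := by
    have h1s : 1 ≤ Real.exp s := Real.one_le_exp hs.1.le
    rintro w (⟨⟨v, hv, rfl⟩, hw⟩ | ⟨ω, hω, rfl⟩)
    · exact ⟨⟨v, GrowthStep_Gt_mono A (by nlinarith) hv, rfl⟩, hw⟩
    · exact ⟨⟨Z ω, hsub ⟨ω, hRs hω, rfl⟩, rfl⟩, (hZV ω (hsubR (hRr hω))).1.2⟩
  calc volume (Lmap '' (Gt A t) ∩ Abox x₁) + ENNReal.ofReal (s * (d ^ 2 / π - ε))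
      ≤ volume (Lmap '' (Gt A t) ∩ Abox x₁) + volume ((fun ω => Lmap (Z ω)) '' R) :=
        add_le_add le_rfl (harea s hs)
    _ = volume ((Lmap '' (Gt A t) ∩ Abox x₁) ∪ ((fun ω => Lmap (Z ω)) '' R)) :=
        (measure_union hdisj hmeas).symm
    _ ≤ volume (Lmap '' (Gt A (t * Real.exp s)) ∩ Abox x₁) := measure_mono hunion

end Pool.Agent.HQ
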