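import Pool.Agent.HQ.TransA

/-!
# HQ: growth of maps
-/

set_option autoImplicit false

open Complex Metric Set Filter Topology MeasureTheory
open scoped ComplexConjugate Real

namespace Pool.Agent.HQ

private theorem transC_cderiv_conj {g : ℂ → ℂ} {z : ℂ} {r : ℝ} (hr : 0 < r)
    (hg : DifferentiableOn ℂ g (ball 0 1)) (hz : closedBall z r ⊆ ball 0 1) :
    cderiv r (fun w => conj (g w)) z = 0 := by
  have h0 : (∮ w in C(z, r), g w) = 0 :=
    Complex.circleIntegral_eq_zero_of_differentiable_on_off_countable hr.le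
      (s := ∅) countable_empty (hg.continuousOn.mono hz) (fun w hw =>
        (hg w (hz (ball_subset_closedBall hw.1))).differentiableAt
          (isOpen_ball.mem_nhds (hz (ball_subset_closedBall hw.1))))
  have h1 : (∮ w in C(z, r), ((w - z) ^ 2)⁻¹ • conj (g w)) = 0 := by
    rw [circleIntegral] at h0 ⊢
    have h2 : ∀ θ : ℝ, deriv (circleMap z r) θ • (((circleMap z r θ - z) ^ 2)⁻¹ •
        conj (g (circleMap z r θ))) =
        (-((r : ℂ) ^ 2)⁻¹) * conj (deriv (circleMap z r) θ • g (circleMap z r θ)) := by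
      intro θ
      rw [deriv_circleMap]
      have hE : circleMap z r θ - z = circleMap 0 r θ := by
        simp [circleMap]
      have hEE : circleMap 0 r θ * conj (circleMap 0 r θ) = (r : ℂ) ^ 2 := by
        rw [mul_conj, normSq_eq_norm_sq, norm_circleMap_zero]
        push_cast
        rw [← ofReal_pow, ← ofReal_pow, sq_abs]
      have hE0 : circleMap 0 r θ ≠ 0 := by
        intro h
        rw [h, zero_mul] at hEE
        have : (r : ℂ) = 0 := by
          rcases pow_eq_zero_iff (two_ne_zero) |>.mp hEE.symm with h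
          exact h
        exact hr.ne' (by exact_mod_cast this)
      have hr0 : (r : ℂ) ≠ 0 := by exact_mod_cast hr.ne'
      rw [hE, smul_eq_mul, smul_eq_mul, smul_eq_mul, map_mul, map_mul, conj_I, ← hEE]
      have hc0 : conj (circleMap 0 r θ) ≠ 0 := (map_ne_zero _).mpr hE0
      field_simp
    simp_rw [h2]
    rw [intervalIntegral.integral_const_mul]
    have h3 : ∫ θ in (0 : ℝ)..2 * π, conj (deriv (circleMap z r) θ • g (circleMap z r θ)) =
        conj (∫ θ in (0 : ℝ)..2 * π, deriv (circleMap z r) θ • g (circleMap z r θ)) := by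
      rw [intervalIntegral.integral_of_le Real.two_pi_pos.le,
        intervalIntegral.integral_of_le Real.two_pi_pos.le, integral_conj]
    rw [h3, h0, map_zero, mul_zero]
  rw [cderiv, h1, smul_zero]

private theorem transC_deriv_le {α : ℝ} (hα : 1 ≤ α) {h g : ℂ → ℂ}
    (hh : DifferentiableOn ℂ h (ball 0 1)) (hg : DifferentiableOn ℂ g (ball 0 1)) {K1 : ℝ}
    (hgr : ∀ z ∈ ball (0 : ℂ) 1, ‖h z + conj (g z)‖ ≤ K1 * (1 - ‖z‖) ^ (-α))
    {z : ℂ} (hz : z ∈ ball (0 : ℂ) 1) :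
    ‖deriv h z‖ ≤ K1 * 2 ^ (α + 1) * (1 - ‖z‖) ^ (-(α + 1)) := by
  rw [mem_ball_zero_iff] at hz
  have hK : 0 ≤ K1 := by
    have h1 := (norm_nonneg _).trans (hgr 0 (by simp))
    simpa using h1
  set r : ℝ := (1 - ‖z‖) / 2 with hr
  have hr0 : 0 < r := by rw [hr]; linarith
  have hsub : closedBall z r ⊆ ball (0 : ℂ) 1 := by
    intro w hw
    rw [mem_closedBall, dist_eq_norm] at hw
    rw [mem_ball_zero_iff]
    have : ‖w‖ ≤ ‖w - z‖ + ‖z‖ := by
      calc ‖w‖ = ‖(w - z) + z‖ := by rw [sub_add_cancel]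
        _ ≤ _ := norm_add_le _ _
    linarith
  have hhc : ContinuousOn h (sphere z r) :=
    hh.continuousOn.mono (sphere_subset_closedBall.trans hsub)
  have hgc : ContinuousOn (fun w => conj (g w)) (sphere z r) :=
    Complex.continuous_conj.comp_continuousOn
      (hg.continuousOn.mono (sphere_subset_closedBall.trans hsub))
  have e1 : deriv h z = cderiv r (fun w => h w + conj (g w)) z := by
    have e2 := cderiv_eq_deriv isOpen_ball hh hr0 hsub
    have e3 := cderiv_sub hr0 (hhc.add hgc) hgc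
    rw [transC_cderiv_conj hr0 hg hsub, sub_zero] at e3
    have e4 : ((fun w => h w + conj (g w)) - fun w => conj (g w)) = h := by
      ext w
      simp
    have e5 : (h + fun w => conj (g w)) = fun w => h w + conj (g w) := rfl
    rw [e5, e4] at e3
    rw [← e2, e3]
  rw [e1]
  have e6 : ‖cderiv r (fun w => h w + conj (g w)) z‖ ≤ K1 * r ^ (-α) / r := by
    apply norm_cderiv_le hr0
    intro w hw
    have hw1 := hsub (sphere_subset_closedBall hw)
    refine (hgr w hw1).trans ?_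
    apply mul_le_mul_of_nonneg_left _ hK
    apply Real.rpow_le_rpow_of_nonpos hr0 _ (by linarith)
    rw [mem_sphere, dist_eq_norm] at hw
    have : ‖w‖ ≤ ‖w - z‖ + ‖z‖ := by
      calc ‖w‖ = ‖(w - z) + z‖ := by rw [sub_add_cancel]
        _ ≤ _ := norm_add_le _ _
    rw [hw] at this
    rw [hr] at this ⊢
    linarith
  refine e6.trans (le_of_eq ?_)
  have e7 : r ^ (-α) / r = r ^ (-(α + 1)) := by
    rw [neg_add, Real.rpow_add hr0, Real.rpow_neg_one, div_eq_mul_inv]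
  rw [mul_div_assoc, e7, hr, Real.div_rpow (by linarith) (by norm_num), Real.rpow_neg two_pos.le,
    div_inv_eq_mul]
  ring

private theorem transC_integrate {α : ℝ} (hα : 1 ≤ α) {h : ℂ → ℂ}
    (hh : DifferentiableOn ℂ h (ball 0 1)) {K : ℝ} (hK : 0 ≤ K)
    (hd : ∀ z ∈ ball (0 : ℂ) 1, ‖deriv h z‖ ≤ K * (1 - ‖z‖) ^ (-(α + 1)))
    {z : ℂ} (hz : z ∈ ball (0 : ℂ) 1) :
    ‖h z‖ ≤ (‖h 0‖ + K) * (1 - ‖z‖) ^ (-α) := by
  have hz' : ‖z‖ < 1 := by rwa [mem_ball_zero_iff] at hz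
  have hpos : ∀ t : ℝ, t ≤ 1 → 0 < 1 - t * ‖z‖ := by
    intro t ht
    have : t * ‖z‖ ≤ 1 * ‖z‖ := mul_le_mul_of_nonneg_right ht (norm_nonneg _)
    linarith
  have hmem : ∀ t : ℝ, 0 ≤ t → t ≤ 1 → (t : ℂ) * z ∈ ball (0 : ℂ) 1 := by
    intro t h0 h1
    rw [mem_ball_zero_iff, norm_mul, norm_real, Real.norm_of_nonneg h0]
    have := hpos t h1
    linarith
  have key := image_norm_le_of_norm_deriv_right_le_deriv_boundary' (E := ℂ)
    (f := fun t : ℝ => h ((t : ℂ) * z)) (f' := fun t : ℝ => deriv h ((t : ℂ) * z) * z)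
    (a := 0) (b := 1) (B := fun t : ℝ => ‖h 0‖ + K / α * (1 - t * ‖z‖) ^ (-α))
    (B' := fun t : ℝ => K * ‖z‖ * (1 - t * ‖z‖) ^ (-(α + 1)))
    (by
      intro t ht
      have h1 := (hh _ (hmem t ht.1 ht.2)).differentiableAt
        (isOpen_ball.mem_nhds (hmem t ht.1 ht.2))
      have h2 : ContinuousAt (fun t : ℝ => (t : ℂ) * z) t := by fun_prop
      exact (ContinuousAt.comp (f := fun t : ℝ => (t : ℂ) * z) (g := h) h1.continuousAt
        h2).continuousWithinAt)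
    (by
      intro t ht
      have h1 := (hh _ (hmem t ht.1 ht.2.le)).differentiableAt
        (isOpen_ball.mem_nhds (hmem t ht.1 ht.2.le))
      have h2 : HasDerivAt (fun t : ℝ => (t : ℂ) * z) z t := by
        have := (hasDerivAt_id t).ofReal_comp.mul_const z
        simpa using this
      exact (HasDerivAt.comp t h1.hasDerivAt h2).hasDerivWithinAt)
    (by
      simp only [ofReal_zero, zero_mul, sub_zero, Real.one_rpow, mul_one]
      have : 0 ≤ K / α := div_nonneg hK (by linarith)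
      linarith)
    (by
      apply ContinuousOn.add continuousOn_const
      apply ContinuousOn.mul continuousOn_const
      apply ContinuousOn.rpow_const
      · fun_prop
      · intro t ht
        left
        exact (hpos t ht.2).ne')
    (by
      intro t ht
      have h1 : HasDerivAt (fun t : ℝ => 1 - t * ‖z‖) (-‖z‖) t := by
        have := ((hasDerivAt_id t).mul_const ‖z‖).const_sub 1
        simpa using this
      have h2 := (h1.rpow_const (p := -α) (Or.inl (hpos t ht.2.le).ne')).const_mul (K / α)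
      have h3 := h2.const_add ‖h 0‖
      refine (h3.congr_deriv ?_).hasDerivWithinAt
      have hα0 : α ≠ 0 := by linarith
      have e1 : -α - 1 = -(α + 1) := by ring
      rw [e1]
      field_simp)
    (by
      intro t ht
      rw [norm_mul]
      have h1 := hd _ (hmem t ht.1 ht.2.le)
      have h2 : ‖(t : ℂ) * z‖ = t * ‖z‖ := by
        rw [norm_mul, norm_real, Real.norm_of_nonneg ht.1]
      rw [h2] at h1
      calc ‖deriv h ((t : ℂ) * z)‖ * ‖z‖ ≤ K * (1 - t * ‖z‖) ^ (-(α + 1)) * ‖z‖ :=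
            mul_le_mul_of_nonneg_right h1 (norm_nonneg _)
        _ = K * ‖z‖ * (1 - t * ‖z‖) ^ (-(α + 1)) := by ring)
    (x := 1) ⟨zero_le_one, le_refl _⟩
  simp only [ofReal_one, one_mul] at key
  have h1 : 1 ≤ (1 - ‖z‖) ^ (-α) := by
    apply Real.one_le_rpow_of_pos_of_le_one_of_nonpos (by linarith)
    · linarith [norm_nonneg z]
    · linarith
  have h2 : K / α ≤ K := div_le_self hK hα
  calc ‖h z‖ ≤ ‖h 0‖ + K / α * (1 - ‖z‖) ^ (-α) := key
    _ ≤ ‖h 0‖ * (1 - ‖z‖) ^ (-α) + K * (1 - ‖z‖) ^ (-α) := by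
        apply add_le_add
        · exact le_mul_of_one_le_right (norm_nonneg _) h1
        · exact mul_le_mul_of_nonneg_right h2 (by linarith)
    _ = _ := by ring

/-- Growth of `f = h + conj g` implies growth of `h` and `g` with the same exponent: with
`r = (1 - |z|) / 2`, `h' z = (2 π r)⁻¹ ∫ f (z + r e^{iθ}) e^{-iθ} dθ` (the term of `conj g` is
`conj ∫ g e^{iθ} = 0`), so `|h' z| ≤ C (1 - |z|)^(-α-1)`, `|g' z| < |h' z|`; integrate along the
radius. -/
theorem growth_of_f {α : ℝ} (hα : 1 ≤ α) {h g : ℂ → ℂ}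
    (hh : DifferentiableOn ℂ h (ball 0 1)) (hg : DifferentiableOn ℂ g (ball 0 1))
    (hor : ∀ z ∈ ball (0 : ℂ) 1, ‖deriv g z‖ < ‖deriv h z‖) {K1 : ℝ}
    (hgr : ∀ z ∈ ball (0 : ℂ) 1, ‖h z + conj (g z)‖ ≤ K1 * (1 - ‖z‖) ^ (-α)) :
    ∃ K2 : ℝ, ∀ z ∈ ball (0 : ℂ) 1, ‖h z‖ ≤ K2 * (1 - ‖z‖) ^ (-α) ∧
      ‖g z‖ ≤ K2 * (1 - ‖z‖) ^ (-α) := by
  have hK : 0 ≤ K1 := by
    have h1 := (norm_nonneg _).trans (hgr 0 (by simp))
    simpa using h1
  have hK2 : 0 ≤ K1 * 2 ^ (α + 1) := mul_nonneg hK (Real.rpow_nonneg two_pos.le _)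
  refine ⟨‖h 0‖ + ‖g 0‖ + K1 * 2 ^ (α + 1), fun z hz => ?_⟩
  have hz' : ‖z‖ < 1 := by rwa [mem_ball_zero_iff] at hz
  have hp : 0 ≤ (1 - ‖z‖) ^ (-α) := Real.rpow_nonneg (by linarith) _
  have h1 := transC_integrate hα hh hK2 (fun w hw => transC_deriv_le hα hh hg hgr hw) hz
  have h2 := transC_integrate hα hg hK2
    (fun w hw => (hor w hw).le.trans (transC_deriv_le hα hh hg hgr hw)) hz
  constructor
  · refine h1.trans (mul_le_mul_of_nonneg_right ?_ hp)
    linarith [norm_nonneg (g 0)]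
  · refine h2.trans (mul_le_mul_of_nonneg_right ?_ hp)
    linarith [norm_nonneg (h 0)]

theorem loc_of_growthBound {K α : ℝ} (hK : 0 < K) (hα : 0 < α) (h : GrowthBound K α) :
    ∃ K' : ℝ, Loc K' := by
  refine ⟨max 1 (K * 3 ^ α), le_max_left _ _, fun A B hAB z hz => ?_⟩
  have h1 := h A B hAB z (by linarith)
  have h2 : ((1 + ‖z‖) / (1 - ‖z‖)) ^ α ≤ 3 ^ α := by
    apply Real.rpow_le_rpow
    · apply div_nonneg <;> linarith [norm_nonneg z]
    · rw [div_le_iff₀ (by linarith)]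
      linarith
    · exact hα.le
  calc ‖A z - A 0‖ ≤ K * ‖deriv A 0‖ * ((1 + ‖z‖) / (1 - ‖z‖)) ^ α := h1
    _ ≤ K * ‖deriv A 0‖ * 3 ^ α :=
        mul_le_mul_of_nonneg_left h2 (mul_nonneg hK.le (norm_nonneg _))
    _ = K * 3 ^ α * ‖deriv A 0‖ := by ring
    _ ≤ max 1 (K * 3 ^ α) * ‖deriv A 0‖ :=
        mul_le_mul_of_nonneg_right (le_max_right _ _) (norm_nonneg _)

private theorem transC_dil {K α : ℝ} (hK : 0 < K) (hα : 0 < α) {F : ℂ → ℂ}
    (hF : DifferentiableOn ℂ F (ball 0 1))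
    (hb : ∀ r : ℝ, 0 < r → r < 1 → ∀ z : ℂ, ‖z‖ < 1 →
      ‖F (r * z) - F (r * 0)‖ ≤ K * ‖deriv (fun w : ℂ => F (r * w)) 0‖
        * ((1 + ‖z‖) / (1 - ‖z‖)) ^ α) {z : ℂ} (hz : ‖z‖ < 1) :
    ‖F z‖ ≤ (‖F 0‖ + K * ‖deriv F 0‖ * 4 ^ α) * (1 - ‖z‖) ^ (-α) := by
  set r : ℝ := (1 + ‖z‖) / 2 with hr
  have hr0 : 0 < r := by rw [hr]; linarith [norm_nonneg z]
  have hr1 : r < 1 := by rw [hr]; linarith
  have hrz : ‖z‖ < r := by rw [hr]; linarith
  have hn : ‖z / r‖ = ‖z‖ / r := by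
    rw [norm_div, norm_real, Real.norm_of_nonneg hr0.le]
  have h1 := hb r hr0 hr1 (z / r) (by rw [hn, div_lt_one hr0]; exact hrz)
  have hr0' : (r : ℂ) ≠ 0 := by exact_mod_cast hr0.ne'
  rw [mul_div_cancel₀ _ hr0', mul_zero, hn] at h1
  have h2 : ‖deriv (fun w : ℂ => F (r * w)) 0‖ ≤ ‖deriv F 0‖ := by
    have e1 : HasDerivAt F (deriv F ((r : ℂ) * 0)) ((r : ℂ) * 0) := by
      rw [mul_zero]
      exact ((hF 0 (mem_ball_self one_pos)).differentiableAt
        (isOpen_ball.mem_nhds (mem_ball_self one_pos))).hasDerivAt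
    have e2 : HasDerivAt (fun w : ℂ => (r : ℂ) * w) (r : ℂ) 0 := by
      have := (hasDerivAt_id (0 : ℂ)).const_mul (r : ℂ)
      simpa using this
    have e3 := HasDerivAt.comp (0 : ℂ) e1 e2
    have e4 : deriv (fun w : ℂ => F (r * w)) 0 = deriv F ((r : ℂ) * 0) * r := e3.deriv
    rw [e4, mul_zero, norm_mul, norm_real, Real.norm_of_nonneg hr0.le]
    exact mul_le_of_le_one_right (norm_nonneg _) hr1.le
  have h3 : ((1 + ‖z‖ / r) / (1 - ‖z‖ / r)) ^ α ≤ 4 ^ α * (1 - ‖z‖) ^ (-α) := by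
    have e0 : (0 : ℝ) < 1 - ‖z‖ := by linarith
    have e1 : (1 + ‖z‖ / r) / (1 - ‖z‖ / r) ≤ 4 / (1 - ‖z‖) := by
      have e2 : (1 + ‖z‖ / r) / (1 - ‖z‖ / r) = (r + ‖z‖) / (r - ‖z‖) := by
        have : r - ‖z‖ ≠ 0 := by linarith
        field_simp
      rw [e2, div_le_div_iff₀ (by linarith) e0, hr]
      nlinarith [norm_nonneg z]
    have e3 : 0 ≤ (1 + ‖z‖ / r) / (1 - ‖z‖ / r) := by
      have : ‖z‖ / r ≤ 1 := by rw [div_le_one hr0]; exact hrz.le
      have : 0 ≤ ‖z‖ / r := by positivity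
      apply div_nonneg <;> linarith
    calc ((1 + ‖z‖ / r) / (1 - ‖z‖ / r)) ^ α ≤ (4 / (1 - ‖z‖)) ^ α :=
          Real.rpow_le_rpow e3 e1 hα.le
      _ = 4 ^ α * (1 - ‖z‖) ^ (-α) := by
          rw [Real.div_rpow (by norm_num) e0.le, Real.rpow_neg e0.le, div_eq_mul_inv]
  have h4 : 1 ≤ (1 - ‖z‖) ^ (-α) := by
    apply Real.one_le_rpow_of_pos_of_le_one_of_nonpos (by linarith)
    · linarith [norm_nonneg z]
    · linarith
  have h5 : 0 ≤ ((1 + ‖z‖ / r) / (1 - ‖z‖ / r)) ^ α := by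
    apply Real.rpow_nonneg
    have : ‖z‖ / r ≤ 1 := by rw [div_le_one hr0]; exact hrz.le
    have : 0 ≤ ‖z‖ / r := by positivity
    apply div_nonneg <;> linarith
  calc ‖F z‖ ≤ ‖F 0‖ + ‖F z - F 0‖ := by
        calc ‖F z‖ = ‖F 0 + (F z - F 0)‖ := by congr 1; ring
          _ ≤ _ := norm_add_le _ _
    _ ≤ ‖F 0‖ + K * ‖deriv F 0‖ * (4 ^ α * (1 - ‖z‖) ^ (-α)) := by
        apply add_le_add le_rfl
        refine h1.trans ?_
        apply mul_le_mul _ h3 h5 (mul_nonneg hK.le (norm_nonneg _))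
        exact mul_le_mul_of_nonneg_left h2 hK.le
    _ ≤ ‖F 0‖ * (1 - ‖z‖) ^ (-α) + K * ‖deriv F 0‖ * (4 ^ α * (1 - ‖z‖) ^ (-α)) := by
        apply add_le_add _ le_rfl
        exact le_mul_of_one_le_right (norm_nonneg _) h4
    _ = _ := by ring

/-- The growth bound for pairs implies the growth of every map (apply it to dilations). -/
theorem growth_of_growthBound {K α : ℝ} (hK : 0 < K) (hα : 0 < α) (hG : GrowthBound K α)
    {h g : ℂ → ℂ} (hh : DifferentiableOn ℂ h (ball 0 1)) (hg : DifferentiableOn ℂ g (ball 0 1))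
    (hinj : InjOn (fun z => h z + conj (g z)) (ball 0 1))
    (hor : ∀ z ∈ ball (0 : ℂ) 1, ‖deriv g z‖ < ‖deriv h z‖) :
    ∃ K1 : ℝ, ∀ z ∈ ball (0 : ℂ) 1, ‖h z‖ ≤ K1 * (1 - ‖z‖) ^ (-α) ∧
      ‖g z‖ ≤ K1 * (1 - ‖z‖) ^ (-α) := by
  have hA : DifferentiableOn ℂ (fun z => h z + g z) (ball 0 1) := hh.add hg
  have hB : DifferentiableOn ℂ (fun z => h z - g z) (ball 0 1) := hh.sub hg
  have bA : ∀ z : ℂ, ‖z‖ < 1 → ‖h z + g z‖ ≤ (‖h 0 + g 0‖ +
      K * ‖deriv (fun z => h z + g z) 0‖ * 4 ^ α) * (1 - ‖z‖) ^ (-α) := fun z hz =>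
    transC_dil (F := fun z => h z + g z) hK hα hA (fun r hr hr1 z hz =>
      hG _ _ (hpair_of_harmonic hh hg hinj hor hr hr1) z hz) hz
  have bB : ∀ z : ℂ, ‖z‖ < 1 → ‖h z - g z‖ ≤ (‖h 0 - g 0‖ +
      K * ‖deriv (fun z => h z - g z) 0‖ * 4 ^ α) * (1 - ‖z‖) ^ (-α) := fun z hz =>
    transC_dil (F := fun z => h z - g z) hK hα hB (fun r hr hr1 z hz => by
      have h1 := hG _ _ (hpair_swap (hpair_of_harmonic hh hg hinj hor hr hr1)) z hz
      have h2 : deriv (fun z : ℂ => I * (h (r * z) - g (r * z))) 0 =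
          I * deriv (fun z : ℂ => h (r * z) - g (r * z)) 0 := by
        rw [deriv_const_mul_field]
      rw [h2, ← mul_sub, norm_mul, norm_mul, norm_I, one_mul, one_mul] at h1
      exact h1) hz
  set a := ‖h 0 + g 0‖ + K * ‖deriv (fun z => h z + g z) 0‖ * 4 ^ α with ha
  set b := ‖h 0 - g 0‖ + K * ‖deriv (fun z => h z - g z) 0‖ * 4 ^ α with hb
  refine ⟨(a + b) / 2, fun z hz => ?_⟩
  have hz' : ‖z‖ < 1 := by rwa [mem_ball_zero_iff] at hz
  have h1 := bA z hz'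
  have h2 := bB z hz'
  have h3 : ‖h z‖ ≤ (‖h z + g z‖ + ‖h z - g z‖) / 2 := by
    have : h z = ((h z + g z) + (h z - g z)) / 2 := by ring
    calc ‖h z‖ = ‖((h z + g z) + (h z - g z)) / 2‖ := by rw [← this]
      _ = ‖(h z + g z) + (h z - g z)‖ / 2 := by rw [norm_div]; simp
      _ ≤ _ := by
        have := norm_add_le (h z + g z) (h z - g z)
        linarith
  have h4 : ‖g z‖ ≤ (‖h z + g z‖ + ‖h z - g z‖) / 2 := by
    have : g z = ((h z + g z) - (h z - g z)) / 2 := by ring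
    calc ‖g z‖ = ‖((h z + g z) - (h z - g z)) / 2‖ := by rw [← this]
      _ = ‖(h z + g z) - (h z - g z)‖ / 2 := by rw [norm_div]; simp
      _ ≤ _ := by
        have := norm_sub_le (h z + g z) (h z - g z)
        linarith
  constructor
  · refine h3.trans ?_
    have : (a + b) / 2 * (1 - ‖z‖) ^ (-α) =
        (a * (1 - ‖z‖) ^ (-α) + b * (1 - ‖z‖) ^ (-α)) / 2 := by ring
    rw [this]
    linarith
  · refine h4.trans ?_
    have : (a + b) / 2 * (1 - ‖z‖) ^ (-α) =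
        (a * (1 - ‖z‖) ^ (-α) + b * (1 - ‖z‖) ^ (-α)) / 2 := by ring
    rw [this]
    linarith

end Pool.Agent.HQ
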