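import Pool.Agent.HQ.TransB
import Pool.Agent.HQ.TransC

/-! HQ, file HardyAll: a growth bound of exponent `α` for all pairs gives `h, g ∈ H^p` for all
`p < 1/α` and all univalent sense preserving harmonic maps `h + conj g`. -/

set_option autoImplicit false

open Complex Metric Set Filter Topology MeasureTheory
open scoped ComplexConjugate Real

namespace Pool.Agent.HQ

theorem hardy_all {K α : ℝ} (hK : 0 < K) (hα : 1 ≤ α) (hG : GrowthBound K α) {h g : ℂ → ℂ}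
    (hh : DifferentiableOn ℂ h (ball 0 1)) (hg : DifferentiableOn ℂ g (ball 0 1))
    (hinj : InjOn (fun z => h z + conj (g z)) (ball 0 1))
    (hor : ∀ z ∈ ball (0 : ℂ) 1, ‖deriv g z‖ < ‖deriv h z‖) {p : ℝ} (hp : 0 < p)
    (hp1 : p < 1 / α) :
    (∃ M : ℝ, ∀ r : ℝ, 0 ≤ r → r < 1 →
      ∫ θ in (0 : ℝ)..(2 * Real.pi),
        ‖h ((r : ℂ) * Complex.exp ((θ : ℂ) * Complex.I))‖ ^ p ≤ M) ∧
    (∃ M : ℝ, ∀ r : ℝ, 0 ≤ r → r < 1 →
      ∫ θ in (0 : ℝ)..(2 * Real.pi),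
        ‖g ((r : ℂ) * Complex.exp ((θ : ℂ) * Complex.I))‖ ^ p ≤ M) := by
  obtain ⟨K', hK'⟩ := loc_of_growthBound hK (by linarith) hG
  obtain ⟨K1, hK1⟩ := growth_of_growthBound hK (by linarith) hG hh hg hinj hor
  obtain ⟨M, hM⟩ := hardy_of_growth hK' hα hh hg hinj hor hK1 hp hp1
  exact ⟨⟨M, fun r hr hr1 => (hM r hr hr1).1⟩, ⟨M, fun r hr hr1 => (hM r hr hr1).2⟩⟩

end Pool.Agent.HQ
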