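import Pool.Agent.HQ.HullF
import Pool.Agent.Expand.PM

/-!
# HQ: the hull lemma
-/

set_option autoImplicit false

open Complex Metric Set Filter Topology MeasureTheory
open scoped ComplexConjugate Real

namespace Pool.Agent.HQ

variable {A B : ℂ → ℂ}

/-- Crossing of two curves, one from left to right, the other one prolonged vertically. -/
private theorem hull_cross {X Y U V : ℝ → ℝ} (hX : Continuous X) (hY : Continuous Y)
    (hU : Continuous U) (hV : Continuous V) (h0 : ∀ t, X 0 < U t) (h1 : ∀ t, U t < X 1) :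
    ∃ s t : ℝ, ∃ K : ℝ, 0 ≤ K ∧ 0 ≤ s ∧ s ≤ 1 ∧ X s = U t ∧
      Y s = V t + K * (min t 0 + max (t - 1) 0) := by
  obtain ⟨K, hK0, hK1, hK2⟩ : ∃ K : ℝ, 0 ≤ K ∧ (∀ s ∈ Icc (0 : ℝ) 1, V (-1) - K < Y s) ∧
      ∀ s ∈ Icc (0 : ℝ) 1, Y s < V 2 + K := by
    obtain ⟨a, -, ha⟩ := isCompact_Icc.exists_isMinOn (nonempty_Icc.mpr zero_le_one)
      hY.continuousOn (s := Icc (0 : ℝ) 1)
    obtain ⟨b, -, hb⟩ := isCompact_Icc.exists_isMaxOn (nonempty_Icc.mpr zero_le_one)
      hY.continuousOn (s := Icc (0 : ℝ) 1)
    refine ⟨|V (-1) - Y a| + |Y b - V 2| + 1, by positivity, fun s hs => ?_, fun s hs => ?_⟩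
    · have e1 : Y a ≤ Y s := ha hs
      have e2 := le_abs_self (V (-1) - Y a)
      have e3 := abs_nonneg (Y b - V 2)
      linarith
    · have e1 : Y s ≤ Y b := hb hs
      have e2 := le_abs_self (Y b - V 2)
      have e3 := abs_nonneg (V (-1) - Y a)
      linarith
  have hcont : Continuous (fun x : EuclideanSpace ℝ (Fin 2) => (![X ((x 0 + 1) / 2)
      - U ((3 * x 1 + 1) / 2), V ((3 * x 1 + 1) / 2) + K * (min ((3 * x 1 + 1) / 2) 0
      + max ((3 * x 1 + 1) / 2 - 1) 0) - Y ((x 0 + 1) / 2)] : Fin 2 → ℝ)) := by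
    refine continuous_pi fun i => ?_
    fin_cases i
    · simp only [Fin.zero_eta, Matrix.cons_val_zero]
      fun_prop
    · simp only [Fin.mk_one, Matrix.cons_val_one]
      fun_prop
  obtain ⟨x, hx, hFx⟩ := Pool.Agent.Expand.poincare_miranda (n := 2) 0 1 one_pos _
    hcont.continuousOn (by
      intro x hx i hi
      have hx0 := hx 0
      have hx1 := hx 1
      simp only [PiLp.zero_apply, sub_zero, zero_sub] at hx0 hx1 hi
      fin_cases i
      · simp only [Fin.zero_eta] at hi ⊢
        rw [Matrix.cons_val_zero, hi]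
        norm_num
        exact h0 _
      · simp only [Fin.mk_one] at hi ⊢
        rw [Matrix.cons_val_one, hi]
        have := hK1 ((x 0 + 1) / 2) (by
          rw [abs_le] at hx0
          constructor <;> linarith [hx0.1, hx0.2])
        norm_num
        linarith) (by
      intro x hx i hi
      have hx0 := hx 0
      have hx1 := hx 1
      simp only [PiLp.zero_apply, sub_zero, zero_add] at hx0 hx1 hi
      fin_cases i
      · simp only [Fin.zero_eta] at hi ⊢
        rw [Matrix.cons_val_zero, hi]
        norm_num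
        exact h1 _
      · simp only [Fin.mk_one] at hi ⊢
        rw [Matrix.cons_val_one, hi]
        have := hK2 ((x 0 + 1) / 2) (by
          rw [abs_le] at hx0
          constructor <;> linarith [hx0.1, hx0.2])
        norm_num
        linarith)
  have hx0 := hx 0
  simp only [PiLp.zero_apply, sub_zero] at hx0
  rw [abs_le] at hx0
  refine ⟨(x 0 + 1) / 2, (3 * x 1 + 1) / 2, K, hK0, by linarith [hx0.1], by linarith [hx0.2],
    ?_, ?_⟩
  · have := congrFun hFx 0
    simp only [Matrix.cons_val_zero, Pi.zero_apply] at this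
    linarith
  · have := congrFun hFx 1
    simp only [Matrix.cons_val_one, Matrix.cons_val_zero, Pi.zero_apply] at this
    linarith

/-- Hull lemma.  A path in `{|A| ≥ τ}` which crosses the strip `|x| < τ` meets the vertical line
through `F(ζ)`, `ζ ∈ lvl A τ`, outside the hull of the slice of `F(lvl A τ)`; so it has sheared
distance at least `gap` from `ζ`.
Proof.  Let `γ` be a path as in the statement, `x₀ = x(ζ)`.  On the vertical line
`x = x₀` one has `yp = y - y(ζ)`, so `y` is strictly between `sInf` and `sSup` of the slice, at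
every parameter with `x(γ) = x₀`; by compactness there are `w₋, w₊ ∈ lvl A τ` with
`x(w₋) = x(w₊) = x₀` and `y(w₋) < y(γ t) < y(w₊)` for all such `t`.  Let `β` be the curve: vertical
segment from `x₀ - i Y` to `F(w₋)`, `F` of a path in `lvl A τ` from `w₋` to `w₊`
(`joinedIn_lvl`), vertical segment from `F(w₊)` to `x₀ + i Y`, with `Y > max |y(γ)|` and
`> |y(w₊)|, |y(w₋)|`.  `|Re β| < τ`.  The map `(s, t) ↦ F(γ s) - β t` has a zero by the two
dimensional Poincare-Miranda theorem (`Pool.Agent.Expand.poincare_miranda`, or `cross` in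
`Pool/Agent/DA/WCross.lean`).  On the vertical segments this contradicts the choice of `w±`, on
the middle part injectivity of `F` and `|A ∘ γ| ≥ τ > |A|` on `lvl A τ`. -/
theorem hull_lemma (h : HPair A B) {τ : ℝ} (hτ : 0 < τ) {ζ z w : ℂ} (hζ : ζ ∈ lvl A τ)
    (hj : JoinedIn {v ∈ ball (0 : ℂ) 1 |
      τ ≤ ‖A v‖ ∧ |yp A B ζ v| < gap (img A B τ) (shearMap A B ζ)} z w)
    (hz : (A z).re ≤ -τ) (hw : τ ≤ (A w).re) : False := by
  obtain ⟨γ, hγ⟩ := hj
  have hAc : ContinuousOn A (closedBall 0 1) := h.anA.continuousOn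
  have hBc : ContinuousOn B (closedBall 0 1) := h.anB.continuousOn
  -- the extended path
  have hgmem : ∀ s, γ.extend s ∈ {v ∈ ball (0 : ℂ) 1 |
      τ ≤ ‖A v‖ ∧ |yp A B ζ v| < gap (img A B τ) (shearMap A B ζ)} := by
    intro s
    have : γ.extend s ∈ range γ := by
      rw [← γ.extend_range]
      exact mem_range_self s
    obtain ⟨t, ht⟩ := this
    rw [← ht]
    exact hγ t
  have hgb : ∀ s, γ.extend s ∈ closedBall (0 : ℂ) 1 := fun s =>
    ball_subset_closedBall (hgmem s).1
  have hX : Continuous (fun s : ℝ => (A (γ.extend s)).re) := by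
    have h1 : Continuous (fun s : ℝ => A (γ.extend s)) :=
      hAc.comp_continuous γ.continuous_extend hgb
    exact Complex.continuous_re.comp h1
  have hY : Continuous (fun s : ℝ => (B (γ.extend s)).im) := by
    have h1 : Continuous (fun s : ℝ => B (γ.extend s)) :=
      hBc.comp_continuous γ.continuous_extend hgb
    exact Complex.continuous_im.comp h1
  have hx0 : |(A ζ).re| < τ := (Complex.abs_re_le_norm _).trans_lt (norm_lt_of_mem_lvl hζ)
  rw [abs_lt] at hx0
  -- the set of the parameters with `x (γ s) = x₀`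
  set T : Set ℝ := Icc (0 : ℝ) 1 ∩ (fun s : ℝ => (A (γ.extend s)).re) ⁻¹' {(A ζ).re} with hT
  have hTc : IsCompact T :=
    isCompact_Icc.inter_right (isClosed_singleton.preimage hX)
  have hTn : T.Nonempty := by
    have h1 := intermediate_value_Icc (zero_le_one (α := ℝ)) hX.continuousOn
    have h2 : (A ζ).re ∈ Icc ((A (γ.extend 0)).re) ((A (γ.extend 1)).re) := by
      rw [γ.extend_zero, γ.extend_one]
      constructor <;> linarith [hx0.1, hx0.2]
    obtain ⟨s, hs, hs2⟩ := h1 h2
    exact ⟨s, hs, hs2⟩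
  -- slice
  set S : Set ℝ := {y : ℝ | (⟨(A ζ).re, y⟩ : ℂ) ∈ img A B τ} with hS
  have hSn : S.Nonempty := ⟨(B ζ).im, ζ, hζ, rfl⟩
  have hgap : gap (img A B τ) (shearMap A B ζ) = min (sSup S - (B ζ).im) ((B ζ).im - sInf S) :=
    rfl
  have hT2 : ∀ s ∈ T, sInf S < (B (γ.extend s)).im ∧ (B (γ.extend s)).im < sSup S := by
    intro s hs
    have h1 := (hgmem s).2.2
    have h2 : yp A B ζ (γ.extend s) = (B (γ.extend s)).im - (B ζ).im := by
      have h3 : (A (γ.extend s)).re = (A ζ).re := hs.2
      simp only [yp, Complex.sub_im, Complex.sub_re]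
      rw [h3, sub_self, mul_zero, sub_zero]
    rw [h2, hgap, lt_min_iff, abs_lt, abs_lt] at h1
    constructor <;> linarith [h1.1.2, h1.2.1]
  obtain ⟨s1, hs1, hmin⟩ := hTc.exists_isMinOn hTn hY.continuousOn
  obtain ⟨s2, hs2, hmax⟩ := hTc.exists_isMaxOn hTn hY.continuousOn
  obtain ⟨ym, hym, hym1⟩ := exists_lt_of_csInf_lt hSn (hT2 s1 hs1).1
  obtain ⟨yM, hyM, hyM1⟩ := exists_lt_of_lt_csSup hSn (hT2 s2 hs2).2
  obtain ⟨wm, hwm, hwm2⟩ := hym
  obtain ⟨wM, hwM, hwM2⟩ := hyM
  have em1 : (A wm).re = (A ζ).re := by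
    have := congrArg Complex.re hwm2
    exact this
  have em2 : (B wm).im = ym := by
    have := congrArg Complex.im hwm2
    exact this
  have eM1 : (A wM).re = (A ζ).re := by
    have := congrArg Complex.re hwM2
    exact this
  have eM2 : (B wM).im = yM := by
    have := congrArg Complex.im hwM2
    exact this
  obtain ⟨δ, hδ⟩ := joinedIn_lvl hAc hwm hwM
  have hdmem : ∀ s, δ.extend s ∈ lvl A τ := by
    intro s
    have : δ.extend s ∈ range δ := by
      rw [← δ.extend_range]
      exact mem_range_self s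
    obtain ⟨t, ht⟩ := this
    rw [← ht]
    exact hδ t
  have hdb : ∀ s, δ.extend s ∈ closedBall (0 : ℂ) 1 := fun s =>
    ball_subset_closedBall (lvl_subset_ball (hdmem s))
  have hU : Continuous (fun s : ℝ => (A (δ.extend s)).re) := by
    have h1 : Continuous (fun s : ℝ => A (δ.extend s)) :=
      hAc.comp_continuous δ.continuous_extend hdb
    exact Complex.continuous_re.comp h1
  have hV : Continuous (fun s : ℝ => (B (δ.extend s)).im) := by
    have h1 : Continuous (fun s : ℝ => B (δ.extend s)) :=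
      hBc.comp_continuous δ.continuous_extend hdb
    exact Complex.continuous_im.comp h1
  have hUτ : ∀ t, |(A (δ.extend t)).re| < τ := fun t =>
    (Complex.abs_re_le_norm _).trans_lt (norm_lt_of_mem_lvl (hdmem t))
  obtain ⟨s, t, K, hK, hs0, hs1', hst, hst2⟩ := hull_cross hX hY hU hV (by
      intro t
      simp only [γ.extend_zero]
      have := (abs_lt.mp (hUτ t)).1
      linarith) (by
      intro t
      simp only [γ.extend_one]
      have := (abs_lt.mp (hUτ t)).2
      linarith)
  rcases lt_or_ge t 0 with ht | ht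
  · -- lower vertical segment
    have h1 : δ.extend t = wm := δ.extend_of_le_zero ht.le
    rw [h1] at hst hst2
    have hsT : s ∈ T := ⟨⟨hs0, hs1'⟩, by
      rw [mem_preimage, mem_singleton_iff]
      exact hst.trans em1⟩
    have h2 : (B (γ.extend s1)).im ≤ (B (γ.extend s)).im := hmin hsT
    have h3 : min t 0 + max (t - 1) 0 = t := by
      rw [min_eq_left ht.le, max_eq_right (by linarith), add_zero]
    rw [h3, em2] at hst2
    have h4 : K * t ≤ 0 := mul_nonpos_of_nonneg_of_nonpos hK ht.le
    linarith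
  · rcases lt_or_ge 1 t with ht1 | ht1
    · have h1 : δ.extend t = wM := δ.extend_of_one_le ht1.le
      rw [h1] at hst hst2
      have hsT : s ∈ T := ⟨⟨hs0, hs1'⟩, by
        rw [mem_preimage, mem_singleton_iff]
        exact hst.trans eM1⟩
      have h2 : (B (γ.extend s)).im ≤ (B (γ.extend s2)).im := hmax hsT
      have h3 : min t 0 + max (t - 1) 0 = t - 1 := by
        rw [min_eq_right ht, max_eq_left (by linarith), zero_add]
      rw [h3, eM2] at hst2
      have h4 : 0 ≤ K * (t - 1) := mul_nonneg hK (by linarith)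
      linarith
    · have h3 : min t 0 + max (t - 1) 0 = 0 := by
        rw [min_eq_right ht, max_eq_right (by linarith), zero_add]
      rw [h3, mul_zero, add_zero] at hst2
      have h4 : shearMap A B (γ.extend s) = shearMap A B (δ.extend t) := by
        apply Complex.ext
        · exact hst
        · exact hst2
      have h5 := h.inj (hgb s) (hdb t) h4
      have h6 := norm_lt_of_mem_lvl (hdmem t)
      have h7 := (hgmem s).2.1
      rw [h5] at h7
      exact absurd h6 (not_lt.mpr h7)

end Pool.Agent.HQ
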