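import Pool.Agent.HQ.Defs

/-!
# HQ: approximation by real parts of entire functions
-/

set_option autoImplicit false

open Complex Metric Set Filter Topology MeasureTheory
open scoped ComplexConjugate Real

namespace Pool.Agent.HQ

/-- Density of trigonometric polynomials (`span_fourier_closure_eq_top`): for a real continuous
function on the circle there is an entire function (a polynomial) whose real part is uniformly
close to it.  If `|Φ - ∑_{|n| ≤ N} c_n z^n| ≤ ε` on the circle, then, `Φ` being real,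
`P z = c_0 + ∑_{n ≥ 1} (c_n + conj c_{-n}) z^n` works. -/
theorem exists_entire {Φ : ℂ → ℝ} (hΦ : ContinuousOn Φ (sphere 0 1)) {ε : ℝ} (hε : 0 < ε) :
    ∃ P : ℂ → ℂ, Differentiable ℂ P ∧ ∀ z ∈ sphere (0 : ℂ) 1, |(P z).re - Φ z| ≤ ε := by
  have hT : Fact (0 < 2 * π) := ⟨Real.two_pi_pos⟩
  have hc : Continuous fun x : AddCircle (2 * π) => ((AddCircle.toCircle x : Circle) : ℂ) :=
    continuous_subtype_val.comp AddCircle.continuous_toCircle
  have hmem : ∀ x : AddCircle (2 * π),
      ((AddCircle.toCircle x : Circle) : ℂ) ∈ sphere (0 : ℂ) 1 := by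
    intro x
    rw [mem_sphere_zero_iff_norm, Circle.norm_coe]
  set F : C(AddCircle (2 * π), ℂ) :=
    ⟨fun x => (Φ ((AddCircle.toCircle x : Circle) : ℂ) : ℂ),
      Complex.continuous_ofReal.comp (hΦ.comp_continuous hc hmem)⟩ with hF
  have hspan : ∀ g ∈ Submodule.span ℂ (range (@fourier (2 * π))), ∃ P Q : ℂ → ℂ,
      Differentiable ℂ P ∧ Differentiable ℂ Q ∧ ∀ x : AddCircle (2 * π),
        g x = P ((AddCircle.toCircle x : Circle) : ℂ) +
          conj (Q ((AddCircle.toCircle x : Circle) : ℂ)) := by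
    intro g hg
    induction hg using Submodule.span_induction with
    | mem g hg =>
      obtain ⟨n, rfl⟩ := hg
      rcases Int.eq_nat_or_neg n with ⟨m, rfl | rfl⟩
      · refine ⟨fun z => z ^ m, fun _ => 0, by fun_prop, by fun_prop, fun x => ?_⟩
        simp [fourier_apply, AddCircle.toCircle_nsmul]
      · refine ⟨fun _ => 0, fun z => z ^ m, by fun_prop, by fun_prop, fun x => ?_⟩
        rw [fourier_neg]
        simp [fourier_apply, AddCircle.toCircle_nsmul]
    | zero => exact ⟨fun _ => 0, fun _ => 0, by fun_prop, by fun_prop, fun x => by simp⟩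
    | add f g _ _ hf hg =>
      obtain ⟨P, Q, hP, hQ, h⟩ := hf
      obtain ⟨P', Q', hP', hQ', h'⟩ := hg
      refine ⟨fun z => P z + P' z, fun z => Q z + Q' z, hP.add hP', hQ.add hQ', fun x => ?_⟩
      rw [ContinuousMap.add_apply, h, h', map_add]
      ring
    | smul a f _ hf =>
      obtain ⟨P, Q, hP, hQ, h⟩ := hf
      refine ⟨fun z => a * P z, fun z => conj a * Q z, hP.const_mul a, hQ.const_mul _,
        fun x => ?_⟩
      rw [ContinuousMap.smul_apply, h, map_mul, Complex.conj_conj, smul_eq_mul]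
      ring
  have hFc : F ∈ closure ((Submodule.span ℂ (range (@fourier (2 * π))) :
      Submodule ℂ C(AddCircle (2 * π), ℂ)) : Set C(AddCircle (2 * π), ℂ)) := by
    rw [← Submodule.topologicalClosure_coe, span_fourier_closure_eq_top]
    trivial
  obtain ⟨g, hg, hd⟩ := Metric.mem_closure_iff.mp hFc ε hε
  obtain ⟨P, Q, hP, hQ, h⟩ := hspan g hg
  refine ⟨fun z => P z + Q z, hP.add hQ, fun z hz => ?_⟩
  obtain ⟨x, hx⟩ : ∃ x : AddCircle (2 * π), ((AddCircle.toCircle x : Circle) : ℂ) = z := by
    have h1 : ‖z‖ = 1 := mem_sphere_zero_iff_norm.mp hz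
    refine ⟨(AddCircle.homeomorphCircle hT.out.ne').symm ⟨z, mem_sphere_zero_iff_norm.mpr h1⟩, ?_⟩
    rw [← AddCircle.homeomorphCircle_apply hT.out.ne', Homeomorph.apply_symm_apply]
  have h2 : ‖F x - g x‖ ≤ ε := by
    rw [← dist_eq_norm]
    exact (ContinuousMap.dist_apply_le_dist x).trans hd.le
  have h3 : F x = (Φ z : ℂ) := by
    rw [← hx]
    rfl
  have h4 : (P z + Q z).re - Φ z = (g x - F x).re := by
    rw [h3, h, hx]
    simp
  rw [h4]
  refine (Complex.abs_re_le_norm _).trans ?_
  rw [norm_sub_rev]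
  exact h2

end Pool.Agent.HQ
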