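import Pool.Agent.HQ.LocInv

/-! HQ growth half, file LiftExit: lifts of circle arcs until they leave an open set. -/

set_option autoImplicit false

open Complex Metric Set Filter Topology
open scoped ComplexConjugate Real

namespace Pool.Agent.HQ

/-- The first exit of a lift from an open set. -/
private lemma first_exit_liftExit {U : Set ℂ} (hU : IsOpen U) {a b : ℝ} (hab : a < b)
    {z : ℝ → ℂ} (hz : ContinuousOn z (Icc a b)) (ha : z a ∈ U) :
    ∃ β ∈ Ioc a b, (∀ θ ∈ Ico a β, z θ ∈ U) ∧ (β = b ∨ z β ∉ U) := by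
  have hS : IsClosed {θ ∈ Icc a b | z θ ∈ Uᶜ} :=
    hz.preimage_isClosed_of_isClosed isClosed_Icc hU.isClosed_compl
  by_cases hne : ({θ ∈ Icc a b | z θ ∈ Uᶜ}).Nonempty
  · have hbdd : BddBelow {θ ∈ Icc a b | z θ ∈ Uᶜ} := ⟨a, fun θ hθ => hθ.1.1⟩
    have hmem := hS.csInf_mem hne hbdd
    set β := sInf {θ ∈ Icc a b | z θ ∈ Uᶜ} with hβ
    refine ⟨β, ⟨lt_of_le_of_ne hmem.1.1 ?_, hmem.1.2⟩, ?_, Or.inr hmem.2⟩
    · intro h
      exact hmem.2 (h ▸ ha)
    · intro θ hθ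
      by_contra hcon
      have h1 : β ≤ θ := csInf_le hbdd ⟨⟨hθ.1, hθ.2.le.trans hmem.1.2⟩, hcon⟩
      exact absurd hθ.2 (not_lt.mpr h1)
  · refine ⟨b, ⟨hab, le_rfl⟩, ?_, Or.inl rfl⟩
    intro θ hθ
    by_contra hcon
    exact hne ⟨θ, ⟨hθ.1, hθ.2.le⟩, hcon⟩

/-- A uniform step. -/
private lemma step_liftExit {A : ℂ → ℂ} (hA : DifferentiableOn ℂ A (ball 0 1))
    (hA' : ∀ z ∈ ball (0 : ℂ) 1, deriv A z ≠ 0) {K : Set ℂ} (hK : IsCompact K)
    (hKD : K ⊆ ball 0 1) {t : ℝ} (ht : 0 < t) :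
    ∃ s > 0, ∀ z₁ ∈ K, ∀ θ₁ : ℝ, A z₁ = t * exp (θ₁ * I) →
      ∃ z : ℝ → ℂ, IsLift A t θ₁ (θ₁ + s) z ∧ z θ₁ = z₁ := by
  obtain ⟨δ, hδ, r, hr, h1, h2⟩ := exists_locInv hA hA' hK hKD
  have hc : Continuous fun x : ℝ => t * ‖exp ((x : ℂ) * I) - 1‖ := by fun_prop
  have h0 : t * ‖exp (((0 : ℝ) : ℂ) * I) - 1‖ < r := by simpa using hr
  have hev : ∀ᶠ x : ℝ in 𝓝 0, t * ‖exp ((x : ℂ) * I) - 1‖ < r :=
    hc.continuousAt.eventually_lt continuousAt_const h0
  obtain ⟨ε, hε, hball⟩ := Metric.eventually_nhds_iff.mp hev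
  refine ⟨ε / 2, by positivity, ?_⟩
  intro z₁ hz₁ θ₁ hθ₁
  obtain ⟨ψ, hψ, hψ1, hψ2⟩ := h2 z₁ hz₁
  have hin : ∀ θ ∈ Icc θ₁ (θ₁ + ε / 2), (t : ℂ) * exp ((θ : ℂ) * I) ∈ ball (A z₁) r := by
    intro θ hθ
    rw [mem_ball, dist_eq_norm, hθ₁]
    have he : (t : ℂ) * exp ((θ : ℂ) * I) - t * exp ((θ₁ : ℂ) * I) =
        t * exp ((θ₁ : ℂ) * I) * (exp (((θ - θ₁ : ℝ) : ℂ) * I) - 1) := by
      rw [mul_sub, mul_assoc (t : ℂ), ← Complex.exp_add]
      push_cast
      ring_nf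
    rw [he, norm_mul, norm_mul, Complex.norm_exp_ofReal_mul_I, mul_one, Complex.norm_real,
      Real.norm_of_nonneg ht.le]
    apply hball
    rw [Real.dist_eq, sub_zero, abs_of_nonneg (by linarith [hθ.1])]
    linarith [hθ.2]
  refine ⟨fun θ => ψ ((t : ℂ) * exp ((θ : ℂ) * I)), ⟨?_, ?_, ?_⟩, ?_⟩
  · refine hψ.continuousOn.comp ?_ hin
    exact Continuous.continuousOn (by fun_prop)
  · intro θ hθ
    exact (h1 z₁ hz₁).1 (hψ2 _ (hin θ hθ)).1
  · intro θ hθ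
    exact (hψ2 _ (hin θ hθ)).2
  · show ψ ((t : ℂ) * exp ((θ₁ : ℂ) * I)) = z₁
    rw [← hθ₁, hψ1]

private lemma mono_liftExit {A : ℂ → ℂ} {t a b c : ℝ} {z : ℝ → ℂ} (h : IsLift A t a b z)
    (hcb : c ≤ b) : IsLift A t a c z :=
  ⟨h.cont.mono (Icc_subset_Icc_right hcb), fun θ hθ => h.mem θ ⟨hθ.1, hθ.2.trans hcb⟩,
    fun θ hθ => h.eq θ ⟨hθ.1, hθ.2.trans hcb⟩⟩

/-- LIFT UNTIL EXIT (forward).
Proof. `K := closure U` is compact in `ball 0 1`; take `δ, r` from `exists_locInv`.  Choose `s > 0`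
with `t * |exp (θ' I) - 1| < r` for `|θ'| ≤ s`.  STEP: if `z₁ ∈ K` and `A z₁ = t exp (θ₁ I)`, then
`θ ↦ ψ_{z₁} (t exp (θ I))` is a lift on `[θ₁, θ₁ + s]` starting at `z₁` and staying in
`ball z₁ δ ⊆ ball 0 1`.  Induct on `n`: claim `P n`: with `T' = min T (n s)`, either there is a lift
on `[θ₀, θ₀ + T']` starting at `z₀` with values in `U`, or the conclusion holds.  Step: concatenate;
let `β` be the first `θ` in the new piece with `z θ ∉ U` (the set of such `θ` is closed in the piece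
as `U` is open; take `sInf`); if there is none, the lift stays in `U` up to
`min T ((n+1) s)`.  Finally `n s ≥ T` gives a lift on `[θ₀, θ₀ + T]`, `β = θ₀ + T`. -/
theorem exists_lift_exit {A : ℂ → ℂ} (hA : DifferentiableOn ℂ A (ball 0 1))
    (hA' : ∀ z ∈ ball (0 : ℂ) 1, deriv A z ≠ 0) {U : Set ℂ} (hU : IsOpen U)
    (hUc : IsCompact (closure U)) (hUD : closure U ⊆ ball 0 1) {t θ₀ T : ℝ} (ht : 0 < t)
    (hT : 0 < T) {z₀ : ℂ} (hz₀ : z₀ ∈ U) (h : A z₀ = t * exp (θ₀ * I)) :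
    ∃ β ∈ Ioc θ₀ (θ₀ + T), ∃ z : ℝ → ℂ, IsLift A t θ₀ β z ∧ z θ₀ = z₀ ∧
      (∀ θ ∈ Ico θ₀ β, z θ ∈ U) ∧ (β = θ₀ + T ∨ z β ∉ U) := by
  obtain ⟨s, hs, hstep⟩ := step_liftExit hA hA' hUc hUD ht
  have key : ∀ n : ℕ, ∀ (θ₀ T : ℝ) (z₀ : ℂ), 0 < T → T ≤ n * s → z₀ ∈ U →
      A z₀ = t * exp (θ₀ * I) →
      ∃ β ∈ Ioc θ₀ (θ₀ + T), ∃ z : ℝ → ℂ, IsLift A t θ₀ β z ∧ z θ₀ = z₀ ∧
        (∀ θ ∈ Ico θ₀ β, z θ ∈ U) ∧ (β = θ₀ + T ∨ z β ∉ U) := by
    intro n
    induction n with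
    | zero =>
      intro θ₀ T z₀ hT hTn
      simp only [Nat.cast_zero, zero_mul] at hTn
      exact absurd hT (not_lt.mpr hTn)
    | succ n ih =>
      intro θ₀ T z₀ hT hTn hz₀ h
      obtain ⟨z, hz, hz0⟩ := hstep z₀ (subset_closure hz₀) θ₀ h
      rcases le_or_gt T s with hTs | hTs
      · have hz' : IsLift A t θ₀ (θ₀ + T) z := mono_liftExit hz (by linarith)
        obtain ⟨β, hβ, h1, h2⟩ := first_exit_liftExit hU (by linarith : θ₀ < θ₀ + T) hz'.cont
          (by rw [hz0]; exact hz₀)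
        exact ⟨β, hβ, z, mono_liftExit hz' hβ.2, hz0, h1, h2⟩
      · obtain ⟨β, hβ, h1, h2⟩ := first_exit_liftExit hU (by linarith : θ₀ < θ₀ + s) hz.cont
          (by rw [hz0]; exact hz₀)
        by_cases hβU : z β ∈ U
        · have hβ' : β = θ₀ + s := h2.resolve_right (not_not.mpr hβU)
          have hTn' : T - s ≤ n * s := by
            push_cast at hTn
            linarith
          obtain ⟨β', hβ2, z', hz2, hz20, h3, h4⟩ := ih β (T - s) (z β) (by linarith) hTn' hβU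
            (hz.eq β ⟨hβ.1.le, hβ.2⟩)
          have hT' : β + (T - s) = θ₀ + T := by rw [hβ']; ring
          rw [hT'] at hβ2 h4
          obtain ⟨w, hw1, hw2⟩ : ∃ w : ℝ → ℂ, EqOn w z (Icc θ₀ β) ∧ EqOn w z' (Icc β β') := by
            refine ⟨fun θ => if θ ≤ β then z θ else z' θ, fun θ hθ => if_pos hθ.2, ?_⟩
            intro θ hθ
            rcases eq_or_lt_of_le hθ.1 with he | hlt
            · subst he
              simp only [le_refl, if_true]
              exact hz20.symm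
            · exact if_neg (not_le.mpr hlt)
          have hzβ : IsLift A t θ₀ β z := mono_liftExit hz hβ.2
          have hun : Icc θ₀ β' ⊆ Icc θ₀ β ∪ Icc β β' := by
            intro θ hθ
            rcases le_total θ β with h5 | h5
            · exact Or.inl ⟨hθ.1, h5⟩
            · exact Or.inr ⟨h5, hθ.2⟩
          refine ⟨β', ⟨hβ.1.trans hβ2.1, hβ2.2⟩, w, ⟨?_, ?_, ?_⟩, ?_, ?_, ?_⟩
          · exact (ContinuousOn.union_of_isClosed (hzβ.cont.congr hw1) (hz2.cont.congr hw2)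
              isClosed_Icc isClosed_Icc).mono hun
          · intro θ hθ
            rcases hun hθ with h5 | h5
            · rw [hw1 h5]
              exact hzβ.mem θ h5
            · rw [hw2 h5]
              exact hz2.mem θ h5
          · intro θ hθ
            rcases hun hθ with h5 | h5
            · rw [hw1 h5]
              exact hzβ.eq θ h5
            · rw [hw2 h5]
              exact hz2.eq θ h5
          · rw [hw1 ⟨le_rfl, hβ.1.le⟩]
            exact hz0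
          · intro θ hθ
            rcases lt_or_ge θ β with h5 | h5
            · rw [hw1 ⟨hθ.1, h5.le⟩]
              exact h1 θ ⟨hθ.1, h5⟩
            · rw [hw2 ⟨h5, hθ.2.le⟩]
              exact h3 θ ⟨h5, hθ.2⟩
          · rcases h4 with h5 | h5
            · exact Or.inl h5
            · right
              rw [hw2 ⟨hβ2.1.le, le_rfl⟩]
              exact h5
        · refine ⟨β, ⟨hβ.1, hβ.2.trans (by linarith)⟩, z, mono_liftExit hz hβ.2, hz0, h1,
            Or.inr hβU⟩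
  obtain ⟨n, hn⟩ := exists_nat_ge (T / s)
  exact key n θ₀ T z₀ hT ((div_le_iff₀ hs).mp hn) hz₀ h

/-- LIFT UNTIL EXIT (backward).
Proof. Apply the forward version to `A*(z) = conj (A (conj z))`, `U* = conj ⁻¹' U`, `θ₀* = -θ₀`,
`z₀* = conj z₀`, and put `z θ = conj (z* (-θ))`; `(A*)' z = conj (A' (conj z)) ≠ 0`. -/
theorem exists_lift_exit' {A : ℂ → ℂ} (hA : DifferentiableOn ℂ A (ball 0 1))
    (hA' : ∀ z ∈ ball (0 : ℂ) 1, deriv A z ≠ 0) {U : Set ℂ} (hU : IsOpen U)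
    (hUc : IsCompact (closure U)) (hUD : closure U ⊆ ball 0 1) {t θ₀ T : ℝ} (ht : 0 < t)
    (hT : 0 < T) {z₀ : ℂ} (hz₀ : z₀ ∈ U) (h : A z₀ = t * exp (θ₀ * I)) :
    ∃ α ∈ Ico (θ₀ - T) θ₀, ∃ z : ℝ → ℂ, IsLift A t α θ₀ z ∧ z θ₀ = z₀ ∧
      (∀ θ ∈ Ioc α θ₀, z θ ∈ U) ∧ (α = θ₀ - T ∨ z α ∉ U) := by
  have hballc : ∀ z : ℂ, z ∈ ball (0 : ℂ) 1 → conj z ∈ ball (0 : ℂ) 1 := by
    intro z hz
    rw [mem_ball_zero_iff] at hz ⊢
    simpa using hz
  have hcl : closure (conj ⁻¹' U) = (conj : ℂ → ℂ) ⁻¹' closure U := by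
    have := Complex.conjCLE.toHomeomorph.preimage_closure U
    exact this.symm
  have hder : ∀ z ∈ ball (0 : ℂ) 1,
      HasDerivAt (fun w : ℂ => conj (A (conj w))) (conj (deriv A (conj z))) z := by
    intro z hz
    have h1 : HasDerivAt A (deriv A (conj z)) (conj z) :=
      ((hA _ (hballc z hz)).differentiableAt (isOpen_ball.mem_nhds (hballc z hz))).hasDerivAt
    have h2 := h1.conj_conj
    simpa [Function.comp_def] using h2
  obtain ⟨β, hβ, z, hz, hz0, h1, h2⟩ := exists_lift_exit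
    (A := fun w : ℂ => conj (A (conj w))) (U := conj ⁻¹' U) (θ₀ := -θ₀) (z₀ := conj z₀) (T := T)
    (t := t)
    (fun z hz => (hder z hz).differentiableAt.differentiableWithinAt)
    (fun z hz => by
      rw [(hder z hz).deriv]
      exact (map_ne_zero_iff _ (RingHom.injective _)).mpr (hA' _ (hballc z hz)))
    (hU.preimage continuous_conj)
    (by
      rw [hcl]
      exact (Complex.conjCLE.toHomeomorph.isCompact_preimage).mpr hUc)
    (by
      rw [hcl]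
      intro w hw
      have := hballc _ (hUD hw)
      simpa using this)
    ht hT (by simpa using hz₀)
    (by
      simp only [Complex.conj_conj]
      rw [h, map_mul, conj_ofReal, ← exp_conj, map_mul, conj_ofReal, conj_I]
      push_cast
      ring_nf)
  have hlift : ∀ θ : ℝ, θ ∈ Icc (-β) θ₀ → -θ ∈ Icc (-θ₀) β := by
    intro θ hθ
    exact ⟨by linarith [hθ.2], by linarith [hθ.1]⟩
  refine ⟨-β, ⟨by linarith [hβ.2], by linarith [hβ.1]⟩, fun θ => conj (z (-θ)), ⟨?_, ?_, ?_⟩,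
    ?_, ?_, ?_⟩
  · exact continuous_conj.comp_continuousOn
      (hz.cont.comp continuous_neg.continuousOn hlift)
  · intro θ hθ
    exact hballc _ (hz.mem _ (hlift θ hθ))
  · intro θ hθ
    have h3 := hz.eq _ (hlift θ hθ)
    have h4 := congrArg conj h3
    simp only [Complex.conj_conj] at h4
    rw [h4, map_mul, conj_ofReal, ← exp_conj, map_mul, conj_ofReal, conj_I]
    push_cast
    ring_nf
  · show conj (z (-θ₀)) = z₀
    rw [hz0, Complex.conj_conj]
  · intro θ hθ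
    exact h1 (-θ) ⟨by linarith [hθ.2], by linarith [hθ.1]⟩
  · rcases h2 with h3 | h3
    · left
      rw [h3]
      ring
    · right
      intro h4
      apply h3
      simpa using h4

end Pool.Agent.HQ
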