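import Pool.Agent.HQ.Base

/-! HQ growth half, file Lmap: the conformal map of the disc onto the strip `|Im| < π/2`. -/

set_option autoImplicit false

open Complex Metric Set Filter Topology MeasureTheory
open scoped ComplexConjugate Real

namespace Pool.Agent.HQ

/-- The conformal map of the disc onto the strip `|Im ω| < π/2`. -/
noncomputable def Lmap (z : ℂ) : ℂ := log ((1 + z) / (1 - z))

private theorem one_sub_ne_Lmap {z : ℂ} (hz : z ∈ ball (0 : ℂ) 1) : 1 - z ≠ 0 := by
  intro h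
  have h1 : z = 1 := (sub_eq_zero.1 h).symm
  rw [h1, mem_ball_zero_iff, norm_one] at hz
  exact lt_irrefl _ hz

private theorem re_pos_Lmap {z : ℂ} (hz : z ∈ ball (0 : ℂ) 1) : 0 < ((1 + z) / (1 - z)).re := by
  have h1 := one_sub_ne_Lmap hz
  have h2 : 0 < normSq (1 - z) := normSq_pos.2 h1
  have h3 : ‖z‖ ^ 2 < 1 := by
    rw [mem_ball_zero_iff] at hz
    nlinarith [norm_nonneg z]
  rw [← normSq_eq_norm_sq, normSq_apply] at h3
  rw [div_re]
  have h4 : (1 + z).re * (1 - z).re / normSq (1 - z) + (1 + z).im * (1 - z).im / normSq (1 - z) =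
      (1 - (z.re * z.re + z.im * z.im)) / normSq (1 - z) := by
    rw [← add_div]
    congr 1
    simp only [add_re, sub_re, one_re, add_im, sub_im, one_im]
    ring
  rw [h4]
  exact div_pos (by linarith) h2

private theorem ne_zero_Lmap {z : ℂ} (hz : z ∈ ball (0 : ℂ) 1) : (1 + z) / (1 - z) ≠ 0 := by
  intro h
  have := re_pos_Lmap hz
  rw [h, zero_re] at this
  exact lt_irrefl _ this

/-- `Re ((1+z)/(1-z)) = (1-|z|²)/|1-z|² > 0`, so the value is in the slit plane. -/
theorem differentiableOn_Lmap : DifferentiableOn ℂ Lmap (ball 0 1) := by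
  refine DifferentiableOn.clog ?_ fun z hz => Or.inl (re_pos_Lmap hz)
  refine DifferentiableOn.div ?_ ?_ fun z hz => one_sub_ne_Lmap hz
  · exact (differentiableOn_const 1).add differentiableOn_id
  · exact (differentiableOn_const 1).sub differentiableOn_id

/-- `exp (Lmap z) = (1+z)/(1-z)` determines `z`. -/
theorem injOn_Lmap : InjOn Lmap (ball 0 1) := by
  intro z hz w hw h
  have h1 : exp (Lmap z) = (1 + z) / (1 - z) := exp_log (ne_zero_Lmap hz)
  have h2 : exp (Lmap w) = (1 + w) / (1 - w) := exp_log (ne_zero_Lmap hw)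
  rw [h, h2] at h1
  rw [div_eq_div_iff (one_sub_ne_Lmap hw) (one_sub_ne_Lmap hz)] at h1
  linear_combination (-1 / 2 : ℂ) * h1

/-- `|arg w| < π/2` for `Re w > 0` (`Complex.abs_arg_lt_pi_div_two_iff`). -/
theorem abs_im_Lmap_lt {z : ℂ} (hz : z ∈ ball (0 : ℂ) 1) : |(Lmap z).im| < π / 2 := by
  rw [Lmap, log_im]
  exact abs_arg_lt_pi_div_two_iff.2 (Or.inl (re_pos_Lmap hz))

theorem Lmap_ofReal {r : ℝ} (h0 : -1 < r) (h1 : r < 1) :
    Lmap (r : ℂ) = ((Real.log ((1 + r) / (1 - r)) : ℝ) : ℂ) := by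
  have h2 : 0 ≤ (1 + r) / (1 - r) := div_nonneg (by linarith) (by linarith)
  rw [Lmap, ofReal_log h2]
  congr 1
  push_cast
  rfl

/-- Surjectivity: `z = (exp ω - 1)/(exp ω + 1)`. -/
theorem exists_Lmap_eq {ω : ℂ} (h : |ω.im| < π / 2) : ∃ z ∈ ball (0 : ℂ) 1, Lmap z = ω := by
  have hpi := Real.pi_pos
  obtain ⟨h1, h2⟩ := abs_lt.1 h
  have hcos : 0 < Real.cos ω.im := Real.cos_pos_of_mem_Ioo ⟨h1, h2⟩
  have hre : 0 < (exp ω).re := by
    rw [exp_re]
    exact mul_pos (Real.exp_pos _) hcos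
  have hne : exp ω + 1 ≠ 0 := by
    intro h0
    have := congrArg re h0
    rw [add_re, one_re, zero_re] at this
    linarith
  refine ⟨(exp ω - 1) / (exp ω + 1), ?_, ?_⟩
  · rw [mem_ball_zero_iff, norm_div, div_lt_one (norm_pos_iff.2 hne)]
    apply lt_of_pow_lt_pow_left₀ 2 (norm_nonneg _)
    rw [← normSq_eq_norm_sq, ← normSq_eq_norm_sq, normSq_apply, normSq_apply]
    simp only [sub_re, add_re, one_re, sub_im, add_im, one_im]
    nlinarith
  · have e : (1 + (exp ω - 1) / (exp ω + 1)) / (1 - (exp ω - 1) / (exp ω + 1)) = exp ω := by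
      have h3 : 1 - (exp ω - 1) / (exp ω + 1) = 2 / (exp ω + 1) := by
        field_simp
        ring
      have h4 : 1 + (exp ω - 1) / (exp ω + 1) = 2 * exp ω / (exp ω + 1) := by
        field_simp
        ring
      rw [h3, h4]
      field_simp
    rw [Lmap, e]
    exact log_exp (by linarith) (by linarith)

end Pool.Agent.HQ
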