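import Pool.Agent.HQ.Base

/-! HQ growth half, file LocInv: uniform local inverses and uniqueness of lifts. -/

set_option autoImplicit false

open Complex Metric Set Filter Topology
open scoped ComplexConjugate Real

namespace Pool.Agent.HQ

private theorem locinv_strict {A : ℂ → ℂ} (hA : DifferentiableOn ℂ A (ball 0 1)) {z : ℂ}
    (hz : z ∈ ball (0 : ℂ) 1) : HasStrictDerivAt A (deriv A z) z := by
  have h1 : AnalyticAt ℂ A z := hA.analyticAt (isOpen_ball.mem_nhds hz)
  exact h1.hasStrictDerivAt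

private theorem locinv_inj {A : ℂ → ℂ} (hA : DifferentiableOn ℂ A (ball 0 1))
    (hA' : ∀ z ∈ ball (0 : ℂ) 1, deriv A z ≠ 0) {z : ℂ} (hz : z ∈ ball (0 : ℂ) 1) :
    ∃ U : Set ℂ, IsOpen U ∧ z ∈ U ∧ U ⊆ ball 0 1 ∧ InjOn A U := by
  have h1 := locinv_strict hA hz
  have h2 := h1.hasStrictFDerivAt_equiv (hA' z hz)
  refine ⟨(h2.toOpenPartialHomeomorph A).source ∩ ball 0 1,
    (h2.toOpenPartialHomeomorph A).open_source.inter isOpen_ball,
    ⟨h2.mem_toOpenPartialHomeomorph_source, hz⟩, inter_subset_right, ?_⟩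
  have h3 := (h2.toOpenPartialHomeomorph A).injOn
  rw [h2.toOpenPartialHomeomorph_coe] at h3
  exact h3.mono inter_subset_left

/-- UNIFORM LOCAL INVERSE.
Proof. (1) For each `z₀ ∈ K`: `A` is analytic at `z₀` with `deriv A z₀ ≠ 0`, so (`HasStrictDerivAt`,
`HasStrictDerivAt.toOpenPartialHomeomorph` or the approximation property) there is `δ₀ > 0` with
`ball z₀ (2 δ₀) ⊆ ball 0 1` and `A` injective on `ball z₀ (2 δ₀)`.  Cover the compact `K` by
finitely many `ball z₀ δ₀` and take `δ` = the smallest `δ₀` (Lebesgue number): for `z ∈ K`,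
`ball z δ ⊆ ball z₀ (2 δ₀)`.
(2) `z ↦ min_{|ζ - z| = δ/2} |A ζ - A z|` is positive on `K` by injectivity; uniformly bounded below
by some `2 r > 0` (continuity of `(z, ζ) ↦ |A ζ - A z|` on the compact set
`{(z, ζ) : z ∈ K, |ζ - z| = δ/2}`).  By `DiffContOnCl.ball_subset_image_closedBall`,
`ball (A z) r ⊆ A '' closedBall z (δ/2)`.
(3) `ψ := ` the inverse of `A` on `ball z δ` (`Function.invFunOn A (ball z δ)`).  It is
differentiable at each `w ∈ ball (A z) r`: `A` is injective and open on `ball z δ`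
(`A' ≠ 0`), so `ψ` is continuous at `w`, then `HasDerivAt.of_local_left_inverse`; or: near `w`
it coincides with the local inverse of `A` at `ψ w` given by the inverse function theorem. -/
theorem exists_locInv {A : ℂ → ℂ} (hA : DifferentiableOn ℂ A (ball 0 1))
    (hA' : ∀ z ∈ ball (0 : ℂ) 1, deriv A z ≠ 0) {K : Set ℂ} (hK : IsCompact K)
    (hKD : K ⊆ ball 0 1) :
    ∃ δ > 0, ∃ r > 0, (∀ z ∈ K, ball z δ ⊆ ball 0 1 ∧ InjOn A (ball z δ)) ∧
      ∀ z ∈ K, ∃ ψ : ℂ → ℂ, DifferentiableOn ℂ ψ (ball (A z) r) ∧ ψ (A z) = z ∧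
        ∀ w ∈ ball (A z) r, ψ w ∈ ball z δ ∧ A (ψ w) = w := by
  classical
  -- the radius of injectivity
  have hU : ∀ z : ball (0 : ℂ) 1, ∃ U : Set ℂ, IsOpen U ∧ (z : ℂ) ∈ U ∧ U ⊆ ball 0 1 ∧
      InjOn A U := fun z => locinv_inj hA hA' z.2
  choose U hUo hUz hUb hUi using hU
  obtain ⟨δ, hδ, hδK⟩ := lebesgue_number_lemma_of_metric hK hUo
    (fun z hz => mem_iUnion.2 ⟨⟨z, hKD hz⟩, hUz ⟨z, hKD hz⟩⟩)
  have hinj : ∀ z ∈ K, ball z δ ⊆ ball 0 1 ∧ InjOn A (ball z δ) := by
    intro z hz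
    obtain ⟨i, hi⟩ := hδK z hz
    exact ⟨hi.trans (hUb i), (hUi i).mono hi⟩
  -- the lower bound
  have hm : ∃ m : ℝ, 0 < m ∧ ∀ z ∈ K, ∀ ζ ∈ sphere z (δ / 2), m ≤ ‖A ζ - A z‖ := by
    rcases K.eq_empty_or_nonempty with h0 | hne
    · exact ⟨1, one_pos, fun z hz => by simp [h0] at hz⟩
    · have hc : IsCompact (K ×ˢ sphere (0 : ℂ) (δ / 2)) := hK.prod (isCompact_sphere _ _)
      have hcn : (K ×ˢ sphere (0 : ℂ) (δ / 2)).Nonempty :=
        hne.prod (NormedSpace.sphere_nonempty.2 (by positivity))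
      have hmem : ∀ p ∈ K ×ˢ sphere (0 : ℂ) (δ / 2), p.1 + p.2 ∈ ball p.1 δ := by
        intro p hp
        have h2 : ‖p.2‖ = δ / 2 := by simpa using hp.2
        rw [mem_ball, dist_eq_norm, add_sub_cancel_left, h2]
        linarith
      have hcont : ContinuousOn (fun p : ℂ × ℂ => ‖A (p.1 + p.2) - A p.1‖)
          (K ×ˢ sphere (0 : ℂ) (δ / 2)) := by
        refine ContinuousOn.norm (ContinuousOn.sub ?_ ?_)
        · exact hA.continuousOn.comp (continuous_fst.add continuous_snd).continuousOn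
            (fun p hp => (hinj p.1 hp.1).1 (hmem p hp))
        · exact hA.continuousOn.comp continuous_fst.continuousOn (fun p hp => hKD hp.1)
      obtain ⟨p, hp, hpm⟩ := hc.exists_isMinOn hcn hcont
      refine ⟨‖A (p.1 + p.2) - A p.1‖, ?_, ?_⟩
      · rw [norm_pos_iff, sub_ne_zero]
        intro he
        have h3 := (hinj p.1 hp.1).2 (hmem p hp) (mem_ball_self hδ) he
        have h4 : p.2 = 0 := by simpa using h3
        have h5 : ‖p.2‖ = δ / 2 := by simpa using hp.2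
        rw [h4, norm_zero] at h5
        linarith
      · intro z hz ζ hζ
        have h6 : (z, ζ - z) ∈ K ×ˢ sphere (0 : ℂ) (δ / 2) := by
          refine ⟨hz, ?_⟩
          rw [mem_sphere, dist_eq_norm] at hζ
          simpa using hζ
        have h7 := hpm h6
        simpa using h7
  obtain ⟨m, hm0, hmK⟩ := hm
  refine ⟨δ, hδ, m / 2, by positivity, hinj, ?_⟩
  intro z hz
  obtain ⟨hzb, hzi⟩ := hinj z hz
  have hcb : closedBall z (δ / 2) ⊆ ball z δ := closedBall_subset_ball (by linarith)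
  have hdc : DiffContOnCl ℂ A (ball z (δ / 2)) := by
    refine DifferentiableOn.diffContOnCl_ball (U := ball 0 1) hA (hcb.trans hzb)
  have hfreq : ∃ᶠ ζ in 𝓝 z, A ζ ≠ A z := by
    have h8 : ∀ᶠ ζ in 𝓝[≠] z, A ζ ≠ A z := by
      have h9 : ∀ᶠ ζ in 𝓝[≠] z, ζ ∈ ball z δ :=
        mem_nhdsWithin_of_mem_nhds (ball_mem_nhds z hδ)
      filter_upwards [h9, self_mem_nhdsWithin] with ζ h10 h11 h12
      exact h11 (hzi h10 (mem_ball_self hδ) h12)
    exact (h8.frequently).filter_mono nhdsWithin_le_nhds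
  have hsub := hdc.ball_subset_image_closedBall (by positivity) (hmK z hz) hfreq
  have hex : ∀ w ∈ ball (A z) (m / 2), ∃ ζ ∈ ball z δ, A ζ = w := by
    intro w hw
    obtain ⟨ζ, hζ, hζw⟩ := hsub hw
    exact ⟨ζ, hcb hζ, hζw⟩
  have hψ : ∀ w ∈ ball (A z) (m / 2), Function.invFunOn A (ball z δ) w ∈ ball z δ ∧
      A (Function.invFunOn A (ball z δ) w) = w :=
    fun w hw => ⟨Function.invFunOn_mem (hex w hw), Function.invFunOn_eq (hex w hw)⟩
  refine ⟨Function.invFunOn A (ball z δ), ?_, ?_, hψ⟩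
  · intro w hw
    obtain ⟨h13, h14⟩ := hψ w hw
    set ζ := Function.invFunOn A (ball z δ) w with hζ
    have h15 := locinv_strict hA (hzb h13)
    have h16 := h15.to_localInverse (hA' ζ (hzb h13))
    have h17 := h15.hasStrictFDerivAt_equiv (hA' ζ (hzb h13))
    rw [h14] at h16
    have h18 : Function.invFunOn A (ball z δ) =ᶠ[𝓝 w]
        h15.localInverse A (deriv A ζ) ζ (hA' ζ (hzb h13)) := by
      have h19 : ∀ᶠ y in 𝓝 w, A (h15.localInverse A (deriv A ζ) ζ (hA' ζ (hzb h13)) y) = y := by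
        have := h17.eventually_right_inverse
        rw [h14] at this
        exact this
      have h20 : ∀ᶠ y in 𝓝 w,
          h15.localInverse A (deriv A ζ) ζ (hA' ζ (hzb h13)) y ∈ ball z δ := by
        have h21 : Tendsto (h15.localInverse A (deriv A ζ) ζ (hA' ζ (hzb h13))) (𝓝 w)
            (𝓝 ζ) := by
          have := h17.localInverse_tendsto
          rw [h14] at this
          exact this
        exact h21 (isOpen_ball.mem_nhds h13)
      have h22 : ∀ᶠ y in 𝓝 w, y ∈ ball (A z) (m / 2) := isOpen_ball.mem_nhds hw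
      filter_upwards [h19, h20, h22] with y h23 h24 h25
      exact hzi (hψ y h25).1 h24 ((hψ y h25).2.trans h23.symm)
    exact (h18.differentiableAt_iff.2 h16.hasDerivAt.differentiableAt).differentiableWithinAt
  · have h26 := hψ (A z) (mem_ball_self (by positivity))
    exact hzi h26.1 (mem_ball_self hδ) h26.2

/-- UNIQUENESS OF LIFTS.
Proof. The set `{x ∈ S : u x = v x}` is relatively closed (continuity) and relatively open: if
`u x₁ = v x₁ = z₁`, `A` is injective on a ball around `z₁` (`exists_locInv` for `K = {z₁}`),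
`u`, `v` stay in this ball near `x₁` and `A ∘ u = A ∘ v`. -/
theorem lift_eqOn {X : Type*} [TopologicalSpace X] {S : Set X} (hS : IsPreconnected S)
    {A : ℂ → ℂ} (hA : DifferentiableOn ℂ A (ball 0 1))
    (hA' : ∀ z ∈ ball (0 : ℂ) 1, deriv A z ≠ 0) {u v : X → ℂ} (hu : ContinuousOn u S)
    (hv : ContinuousOn v S) (hu1 : ∀ x ∈ S, u x ∈ ball (0 : ℂ) 1)
    (hv1 : ∀ x ∈ S, v x ∈ ball (0 : ℂ) 1) (h : ∀ x ∈ S, A (u x) = A (v x)) {x₀ : X}
    (hx₀ : x₀ ∈ S) (h0 : u x₀ = v x₀) : EqOn u v S := by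
  have : PreconnectedSpace S := isPreconnected_iff_preconnectedSpace.1 hS
  have hu' : Continuous (fun x : S => u x) := continuousOn_iff_continuous_domRestrict.1 hu
  have hv' : Continuous (fun x : S => v x) := continuousOn_iff_continuous_domRestrict.1 hv
  have hcl : IsClosed {x : S | u x = v x} := isClosed_eq hu' hv'
  have hop : IsOpen {x : S | u x = v x} := by
    rw [isOpen_iff_mem_nhds]
    intro x₁ hx₁
    obtain ⟨U, hUo, hUz, -, hUi⟩ := locinv_inj hA hA' (hu1 x₁ x₁.2)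
    have h1 : ∀ᶠ x : S in 𝓝 x₁, u x ∈ U := hu'.continuousAt (hUo.mem_nhds hUz)
    have h2 : ∀ᶠ x : S in 𝓝 x₁, v x ∈ U := by
      refine hv'.continuousAt (hUo.mem_nhds ?_)
      have h3 : u x₁ = v x₁ := hx₁
      show v x₁ ∈ U
      rw [← h3]
      exact hUz
    filter_upwards [h1, h2] with x h4 h5
    exact hUi h4 h5 (h x x.2)
  have huniv : {x : S | u x = v x} = univ :=
    IsClopen.eq_univ ⟨hcl, hop⟩ ⟨⟨x₀, hx₀⟩, h0⟩
  intro x hx
  have h6 : (⟨x, hx⟩ : S) ∈ {x : S | u x = v x} := by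
    rw [huniv]
    exact mem_univ _
  exact h6

end Pool.Agent.HQ
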