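import Pool.Agent.HQ.LocInv

/-! HQ growth half, file LoopA: a closed lift of a circle gives an inverse branch near the circle,
in the exponential coordinate `w = exp ω`. -/

set_option autoImplicit false

open Complex Metric Set Filter Topology
open scoped ComplexConjugate Real

namespace Pool.Agent.HQ

/-- An inverse branch of `A` in the exponential coordinate on the strip `c < Re ω < d`. -/
structure ExpBranch (A : ℂ → ℂ) (c d : ℝ) (Ψ : ℂ → ℂ) : Prop where
  diff : DifferentiableOn ℂ Ψ {ω | c < ω.re ∧ ω.re < d}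
  mem : ∀ ω : ℂ, c < ω.re → ω.re < d → Ψ ω ∈ ball (0 : ℂ) 1
  eq : ∀ ω : ℂ, c < ω.re → ω.re < d → A (Ψ ω) = exp ω
  per : ∀ ω : ℂ, c < ω.re → ω.re < d → Ψ (ω + 2 * π * I) = Ψ ω

/-- periodic extension of a closed lift -/
private theorem ext_LoopA {A : ℂ → ℂ} {t a : ℝ} {z : ℝ → ℂ}
    (hz : IsLift A t a (a + 2 * π) z) (hper : z (a + 2 * π) = z a) :
    ∃ zp : ℝ → ℂ, Continuous zp ∧ (∀ θ, zp (θ + 2 * π) = zp θ) ∧
      (∀ θ ∈ Icc a (a + 2 * π), zp θ = z θ) ∧ (∀ θ, zp θ ∈ z '' Icc a (a + 2 * π)) ∧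
      ∀ θ : ℝ, A (zp θ) = t * exp (θ * I) := by
  have hpos : (0 : ℝ) < 2 * π := Real.two_pi_pos
  have : Fact ((0 : ℝ) < 2 * π) := ⟨hpos⟩
  have hIco : ∀ θ ∈ Ico a (a + 2 * π),
      AddCircle.liftIco (2 * π) a z (θ : AddCircle (2 * π)) = z θ :=
    fun θ hθ => AddCircle.liftIco_coe_apply hθ
  have hmod : ∀ θ : ℝ, ∃ θ' ∈ Ico a (a + 2 * π), ∃ n : ℤ, θ' + n * (2 * π) = θ := by
    intro θ
    refine ⟨toIcoMod hpos a θ, toIcoMod_mem_Ico hpos a θ, toIcoDiv hpos a θ, ?_⟩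
    have h1 := toIcoMod_add_toIcoDiv_zsmul hpos a θ
    rwa [zsmul_eq_mul] at h1
  have hcoe : ∀ (θ' : ℝ) (n : ℤ), ((θ' + n * (2 * π) : ℝ) : AddCircle (2 * π)) = θ' := by
    intro θ' n
    rw [← zsmul_eq_mul, AddCircle.coe_add, AddCircle.coe_zsmul, AddCircle.coe_period, smul_zero,
      add_zero]
  have hexp : ∀ (θ' : ℝ) (n : ℤ), exp (((θ' + n * (2 * π) : ℝ) : ℂ) * I) = exp (θ' * I) := by
    intro θ' n
    have h1 : ((θ' + n * (2 * π) : ℝ) : ℂ) * I = θ' * I + n * (2 * π * I) := by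
      push_cast
      ring
    rw [h1]
    exact Complex.exp_periodic.int_mul n _
  refine ⟨fun θ => AddCircle.liftIco (2 * π) a z (θ : AddCircle (2 * π)), ?_, ?_, ?_, ?_, ?_⟩
  · exact (AddCircle.liftIco_continuous hper.symm hz.cont).comp (AddCircle.continuous_mk' _)
  · intro θ
    have h1 := hcoe θ 1
    rw [Int.cast_one, one_mul] at h1
    simp only [h1]
  · intro θ hθ
    rcases hθ.2.lt_or_eq with h1 | h1
    · exact hIco θ ⟨hθ.1, h1⟩
    · have h2 := hcoe a 1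
      rw [Int.cast_one, one_mul, ← h1] at h2
      simp only [h2]
      rw [hIco a ⟨le_rfl, by linarith⟩, h1, hper]
  · intro θ
    obtain ⟨θ', hθ', n, hn⟩ := hmod θ
    refine ⟨θ', ⟨hθ'.1, hθ'.2.le⟩, ?_⟩
    rw [← hIco θ' hθ', ← hn]
    simp only [hcoe]
  · intro θ
    obtain ⟨θ', hθ', n, hn⟩ := hmod θ
    rw [← hn]
    simp only [hcoe]
    rw [hIco θ' hθ', hz.eq θ' ⟨hθ'.1, hθ'.2.le⟩, hexp]

private theorem norm_exp_sub_LoopA {ω : ℂ} {t : ℝ} :
    ‖exp ω - t * exp (ω.im * I)‖ = |Real.exp ω.re - t| := by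
  have h1 : exp ω = (Real.exp ω.re : ℂ) * exp (ω.im * I) := by
    rw [Complex.ofReal_exp, ← Complex.exp_add, Complex.re_add_im]
  rw [h1, ← sub_mul, norm_mul, Complex.norm_exp_ofReal_mul_I, mul_one, ← Complex.ofReal_sub,
    Complex.norm_real, Real.norm_eq_abs]

private theorem norm_exp_im_LoopA {t x y : ℝ} (ht : 0 < t) :
    ‖(t : ℂ) * exp (x * I) - t * exp (y * I)‖ ≤ t * |x - y| := by
  have h1 : exp (x * I) - exp (y * I) = exp (y * I) * (exp (I * ((x - y : ℝ) : ℂ)) - 1) := by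
    rw [mul_sub, ← Complex.exp_add, mul_one]
    congr 2
    push_cast
    ring
  rw [← mul_sub, norm_mul, Complex.norm_real, Real.norm_of_nonneg ht.le, h1, norm_mul,
    Complex.norm_exp_ofReal_mul_I, one_mul]
  exact mul_le_mul_of_nonneg_left Real.norm_exp_I_mul_ofReal_sub_one_le ht.le

/-- THICKENING A LOOP.
Proof. Extend `z` `2π`-periodically to `zp : ℝ → ℂ` (`zp θ = z (toIcoMod Real.two_pi_pos a θ)`);
it is continuous (`z (a + 2π) = z a`) with compact range `K = z '' Icc a (a+2π)` in `ball 0 1` and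
`A (zp θ) = t exp (θ I)`.  Take `δ, r` from `exists_locInv` for `K` and, for `κ ∈ K`, the inverse
`ψ κ` (`choose`).  Choose `ε > 0` with `t (exp ε - 1) < r / 2` (and small as needed below).  Put
`Ψ ω := ψ (zp ω.im) (exp ω)` for `|ω.re - log t| < ε`; it is defined since
`|exp ω - t exp (ω.im I)| = |exp ω.re - t| < r / 2`.  Periodicity is clear.  Differentiable:
for `ω` near `ω₁` compare with `Φ ω := ψ (zp ω₁.im) (exp ω)`: on a small ball around `ω₁` both are
defined, `A ∘ Ψ = A ∘ Φ = exp`; `Ψ ω ∈ ball (zp ω.im) δ`.  To see `Ψ = Φ` near `ω₁`: along the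
horizontal segment from `log t + i ω.im` to `ω`, both `ψ (zp ω.im) ∘ exp` and
`ψ (zp ω₁.im) ∘ exp` are continuous lifts of `exp`, with the same value `zp ω.im` at
`log t + i ω.im`: for the second one, `θ ↦ ψ (zp ω₁.im) (t exp (θ I))` and `zp` are two lifts on the
interval between `ω₁.im` and `ω.im` agreeing at `ω₁.im` (`lift_eqOn`); then `lift_eqOn` again on
the horizontal segment. -/
theorem loop_thicken {A : ℂ → ℂ} (hA : DifferentiableOn ℂ A (ball 0 1))
    (hA' : ∀ z ∈ ball (0 : ℂ) 1, deriv A z ≠ 0) {t a : ℝ} (ht : 0 < t) {z : ℝ → ℂ}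
    (hz : IsLift A t a (a + 2 * π) z) (hper : z (a + 2 * π) = z a) :
    ∃ ε > 0, ∃ Ψ : ℂ → ℂ, ExpBranch A (Real.log t - ε) (Real.log t + ε) Ψ ∧
      ∀ θ ∈ Icc a (a + 2 * π), Ψ (Real.log t + θ * I) = z θ := by
  obtain ⟨zp, hzc, hzper, hzeq, hzK, hzA⟩ := ext_LoopA hz hper
  have hK : IsCompact (z '' Icc a (a + 2 * π)) := isCompact_Icc.image_of_continuousOn hz.cont
  have hKD : z '' Icc a (a + 2 * π) ⊆ ball 0 1 := by
    rintro _ ⟨θ, hθ, rfl⟩
    exact hz.mem θ hθ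
  obtain ⟨δ, hδ, r, hr, hball, hψ⟩ := exists_locInv hA hA' hK hKD
  choose! ψ hψ1 hψ2 hψ3 using hψ
  obtain ⟨ε, hε, hexp⟩ : ∃ ε > 0, ∀ x : ℝ, |x - Real.log t| < ε → |Real.exp x - t| < r / 2 := by
    have h1 := Metric.continuousAt_iff.mp (Real.continuous_exp.continuousAt (x := Real.log t))
      (r / 2) (by linarith)
    obtain ⟨ε, hε, h2⟩ := h1
    refine ⟨ε, hε, fun x hx => ?_⟩
    have h3 := h2 (x := x) (by rwa [Real.dist_eq])
    rwa [Real.dist_eq, Real.exp_log ht] at h3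
  set η : ℝ := r / (2 * t) with hη
  have hη0 : 0 < η := by positivity
  have htη : t * η = r / 2 := by
    rw [hη]
    field_simp
  -- the inverse at `κ = zp θ₁` is defined on a rectangle
  have hrect : ∀ (θ₁ : ℝ) (ω : ℂ), |ω.re - Real.log t| < ε → |ω.im - θ₁| < η →
      exp ω ∈ ball (A (zp θ₁)) r := by
    intro θ₁ ω h1 h2
    rw [mem_ball, dist_eq_norm, hzA]
    have h3 : exp ω - t * exp (θ₁ * I) = (exp ω - t * exp (ω.im * I)) +
        (t * exp (ω.im * I) - t * exp (θ₁ * I)) := by ring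
    rw [h3]
    refine (norm_add_le _ _).trans_lt ?_
    have h4 := norm_exp_im_LoopA (x := ω.im) (y := θ₁) ht
    have h5 : t * |ω.im - θ₁| < t * η := mul_lt_mul_of_pos_left h2 ht
    have h6 := hexp _ h1
    rw [norm_exp_sub_LoopA]
    linarith
  have hlog : ∀ θ : ℝ, exp ((Real.log t : ℂ) + θ * I) = t * exp (θ * I) := by
    intro θ
    rw [Complex.exp_add, ← Complex.ofReal_exp, Real.exp_log ht]
  have hD : ∀ θ : ℝ, ∀ w ∈ ball (A (zp θ)) r, ψ (zp θ) w ∈ ball (0 : ℂ) 1 := by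
    intro θ w hw
    exact (hball _ (hzK θ)).1 ((hψ3 _ (hzK θ)) w hw).1
  -- comparison of two inverses
  have hcmp : ∀ (θ₁ : ℝ) (ω : ℂ), |ω.re - Real.log t| < ε → |ω.im - θ₁| < η →
      ψ (zp ω.im) (exp ω) = ψ (zp θ₁) (exp ω) := by
    intro θ₁ ω h1 h2
    -- vertical
    have hv : EqOn (fun θ : ℝ => ψ (zp θ₁) (t * exp (θ * I))) zp (Ioo (θ₁ - η) (θ₁ + η)) := by
      have hmem : ∀ θ ∈ Ioo (θ₁ - η) (θ₁ + η), t * exp (θ * I) ∈ ball (A (zp θ₁)) r := by
        intro θ hθ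
        rw [← hlog]
        refine hrect θ₁ _ ?_ ?_
        · have h3 : ((Real.log t : ℂ) + θ * I).re = Real.log t := by simp
          rw [h3, sub_self, abs_zero]
          exact hε
        · have h3 : ((Real.log t : ℂ) + θ * I).im = θ := by simp
          rw [h3, abs_lt]
          constructor <;> linarith [hθ.1, hθ.2]
      refine lift_eqOn isPreconnected_Ioo hA hA' (x₀ := θ₁) ?_ hzc.continuousOn ?_ ?_ ?_
        ⟨by linarith, by linarith⟩ ?_
      · refine (hψ1 _ (hzK θ₁)).continuousOn.comp ?_ hmem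
        exact Continuous.continuousOn (by fun_prop)
      · intro θ hθ
        exact hD θ₁ _ (hmem θ hθ)
      · intro θ hθ
        exact hKD (hzK θ)
      · intro θ hθ
        rw [((hψ3 _ (hzK θ₁)) _ (hmem θ hθ)).2, hzA]
      · show ψ (zp θ₁) (t * exp (θ₁ * I)) = zp θ₁
        rw [← hzA]
        exact hψ2 _ (hzK θ₁)
    have hv' : ψ (zp θ₁) (t * exp (ω.im * I)) = zp ω.im := by
      rw [abs_lt] at h2
      exact hv (x := ω.im) ⟨by linarith [h2.1], by linarith [h2.2]⟩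
    -- horizontal
    have hre : ∀ x : ℝ, ((x : ℂ) + ω.im * I).re = x := by
      intro x
      simp
    have him : ∀ x : ℝ, ((x : ℂ) + ω.im * I).im = ω.im := by
      intro x
      simp
    have hmem1 : ∀ x ∈ Ioo (Real.log t - ε) (Real.log t + ε),
        exp ((x : ℂ) + ω.im * I) ∈ ball (A (zp ω.im)) r := by
      intro x hx
      refine hrect ω.im _ ?_ ?_
      · rw [hre, abs_lt]
        constructor <;> linarith [hx.1, hx.2]
      · rw [him, sub_self, abs_zero]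
        exact hη0
    have hmem2 : ∀ x ∈ Ioo (Real.log t - ε) (Real.log t + ε),
        exp ((x : ℂ) + ω.im * I) ∈ ball (A (zp θ₁)) r := by
      intro x hx
      refine hrect θ₁ _ ?_ ?_
      · rw [hre, abs_lt]
        constructor <;> linarith [hx.1, hx.2]
      · rw [him]
        exact h2
    have hh : EqOn (fun x : ℝ => ψ (zp ω.im) (exp ((x : ℂ) + ω.im * I)))
        (fun x : ℝ => ψ (zp θ₁) (exp ((x : ℂ) + ω.im * I)))
        (Ioo (Real.log t - ε) (Real.log t + ε)) := by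
      refine lift_eqOn isPreconnected_Ioo hA hA' (x₀ := Real.log t) ?_ ?_ ?_ ?_ ?_
        ⟨by linarith, by linarith⟩ ?_
      · refine (hψ1 _ (hzK ω.im)).continuousOn.comp ?_ hmem1
        exact Continuous.continuousOn (by fun_prop)
      · refine (hψ1 _ (hzK θ₁)).continuousOn.comp ?_ hmem2
        exact Continuous.continuousOn (by fun_prop)
      · intro x hx
        exact hD ω.im _ (hmem1 x hx)
      · intro x hx
        exact hD θ₁ _ (hmem2 x hx)
      · intro x hx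
        rw [((hψ3 _ (hzK ω.im)) _ (hmem1 x hx)).2, ((hψ3 _ (hzK θ₁)) _ (hmem2 x hx)).2]
      · show ψ (zp ω.im) (exp ((Real.log t : ℂ) + ω.im * I)) =
          ψ (zp θ₁) (exp ((Real.log t : ℂ) + ω.im * I))
        rw [hlog, hv', ← hzA ω.im]
        exact hψ2 _ (hzK ω.im)
    rw [abs_lt] at h1
    have h3 := hh (x := ω.re) ⟨by linarith [h1.1], by linarith [h1.2]⟩
    have h4 : ((ω.re : ℝ) : ℂ) + ω.im * I = ω := Complex.re_add_im ω
    simp only [h4] at h3
    exact h3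
  have hstrip : ∀ ω : ℂ, Real.log t - ε < ω.re → ω.re < Real.log t + ε →
      exp ω ∈ ball (A (zp ω.im)) r := by
    intro ω h1 h2
    refine hrect ω.im ω ?_ ?_
    · rw [abs_lt]
      constructor <;> linarith
    · rw [sub_self, abs_zero]
      exact hη0
  refine ⟨ε, hε, fun ω => ψ (zp ω.im) (exp ω), ⟨?_, ?_, ?_, ?_⟩, ?_⟩
  · rintro ω₁ ⟨h1, h2⟩
    have hU : {ω : ℂ | |ω.re - Real.log t| < ε ∧ |ω.im - ω₁.im| < η} ∈ 𝓝 ω₁ := by
      refine IsOpen.mem_nhds ?_ ⟨?_, ?_⟩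
      · refine IsOpen.inter ?_ ?_
        · exact isOpen_lt (Complex.continuous_re.sub continuous_const).abs continuous_const
        · exact isOpen_lt (Complex.continuous_im.sub continuous_const).abs continuous_const
      · rw [abs_lt]
        constructor <;> linarith
      · rw [sub_self, abs_zero]
        exact hη0
    have heq : (fun ω : ℂ => ψ (zp ω.im) (exp ω)) =ᶠ[𝓝 ω₁] fun ω => ψ (zp ω₁.im) (exp ω) := by
      filter_upwards [hU] with ω hω
      exact hcmp ω₁.im ω hω.1 hω.2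
    have hd : DifferentiableAt ℂ (fun ω : ℂ => ψ (zp ω₁.im) (exp ω)) ω₁ := by
      have h3 : DifferentiableAt ℂ (ψ (zp ω₁.im)) (exp ω₁) :=
        (hψ1 _ (hzK ω₁.im)).differentiableAt (isOpen_ball.mem_nhds (hstrip ω₁ h1 h2))
      exact h3.comp ω₁ Complex.differentiable_exp.differentiableAt
    exact (heq.differentiableAt_iff.mpr hd).differentiableWithinAt
  · intro ω h1 h2
    exact hD ω.im _ (hstrip ω h1 h2)
  · intro ω h1 h2
    exact ((hψ3 _ (hzK ω.im)) _ (hstrip ω h1 h2)).2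
  · intro ω _ _
    have h1 : (ω + 2 * π * I).im = ω.im + 2 * π := by simp
    show ψ (zp (ω + 2 * π * I).im) (exp (ω + 2 * π * I)) = ψ (zp ω.im) (exp ω)
    rw [h1, hzper, Complex.exp_periodic ω]
  · intro θ hθ
    have h1 : ((Real.log t : ℂ) + θ * I).im = θ := by simp
    show ψ (zp ((Real.log t : ℂ) + θ * I).im) (exp ((Real.log t : ℂ) + θ * I)) = z θ
    rw [h1, hlog, ← hzA, hψ2 _ (hzK θ), hzeq θ hθ]

end Pool.Agent.HQ
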