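import Pool.Agent.HQ.LoopA

/-! HQ growth half, file LoopB: an inverse branch on an annulus stays inside the disc spanned by the
outer circle. -/

set_option autoImplicit false

open Complex Metric Set Filter Topology
open scoped ComplexConjugate Real

namespace Pool.Agent.HQ

/-! An easier proof than the one sketched below: in the variable `w = exp ω` the function
`ψ w = Ψ (log w)` satisfies `A (ψ w) = w`, so `w ^ (N + 1) ψ ^ m ψ' = (P ∘ ψ)'` with a primitive `P`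
of `A z ^ (N + 1) z ^ m` in the disc. By partial integration the moments
`∮ w ^ N ψ w ^ (m + 1)` vanish, so in the Cauchy formula for `ψ ^ (m + 1)` on the annulus the
integral over the inner circle vanishes, and `|ψ w₀| ^ (m + 1) ≤ ρ₁ ^ (m + 1) R / (R - |w₀|)` for
all `m`. -/

private theorem lb_nat {A : ℂ → ℂ} {c d : ℝ} {Ψ : ℂ → ℂ} (hΨ : ExpBranch A c d Ψ) (n : ℕ)
    {ω : ℂ} (h1 : c < ω.re) (h2 : ω.re < d) : Ψ (ω + n * (2 * π * I)) = Ψ ω := by
  induction n with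
  | zero => simp
  | succ n ih =>
    have hre : (ω + n * (2 * π * I)).re = ω.re := by simp
    have h3 := hΨ.per (ω + n * (2 * π * I)) (by rw [hre]; exact h1) (by rw [hre]; exact h2)
    have h4 : ω + ((n + 1 : ℕ) : ℂ) * (2 * π * I) = ω + n * (2 * π * I) + 2 * π * I := by
      push_cast
      ring
    rw [h4, h3, ih]

private theorem lb_congr {A : ℂ → ℂ} {c d : ℝ} {Ψ : ℂ → ℂ} (hΨ : ExpBranch A c d Ψ)
    {ω ω' : ℂ} (h : exp ω = exp ω') (h1 : c < ω.re) (h2 : ω.re < d) : Ψ ω = Ψ ω' := by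
  obtain ⟨n, hn⟩ := exp_eq_exp_iff_exists_int.mp h
  have hre : ω.re = ω'.re := by rw [hn]; simp
  rcases Int.eq_nat_or_neg n with ⟨m, rfl | rfl⟩
  · rw [hn, Int.cast_natCast]
    exact lb_nat hΨ m (by rw [← hre]; exact h1) (by rw [← hre]; exact h2)
  · have h3 : ω' = ω + m * (2 * π * I) := by
      rw [hn]
      push_cast
      ring
    rw [h3]
    exact (lb_nat hΨ m h1 h2).symm

/-- the open annulus -/
private def lbU (c d : ℝ) : Set ℂ := {w | Real.exp c < ‖w‖ ∧ ‖w‖ < Real.exp d}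

private theorem lbU_open (c d : ℝ) : IsOpen (lbU c d) :=
  (isOpen_lt continuous_const continuous_norm).inter
    (isOpen_lt continuous_norm continuous_const)

private theorem lbU_re {c d : ℝ} {w : ℂ} (hw : w ∈ lbU c d) :
    w ≠ 0 ∧ c < (log w).re ∧ (log w).re < d := by
  have h0 : 0 < ‖w‖ := (Real.exp_pos c).trans hw.1
  refine ⟨norm_pos_iff.mp h0, ?_, ?_⟩
  · rw [log_re, Real.lt_log_iff_exp_lt h0]
    exact hw.1
  · rw [log_re, Real.log_lt_iff_lt_exp h0]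
    exact hw.2

private theorem lb_diff {A : ℂ → ℂ} {c d : ℝ} {Ψ : ℂ → ℂ} (hΨ : ExpBranch A c d Ψ) {w : ℂ}
    (hw : w ∈ lbU c d) : DifferentiableAt ℂ (fun w => Ψ (log w)) w := by
  have hopen : IsOpen {ω : ℂ | c < ω.re ∧ ω.re < d} :=
    (isOpen_lt continuous_const continuous_re).inter (isOpen_lt continuous_re continuous_const)
  obtain ⟨h0, h1, h2⟩ := lbU_re hw
  by_cases hs : w ∈ slitPlane
  · have h3 : DifferentiableAt ℂ Ψ (log w) :=
      hΨ.diff.differentiableAt (hopen.mem_nhds ⟨h1, h2⟩)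
    exact h3.comp w (differentiableAt_log hs)
  · have hs' : -w ∈ slitPlane := by
      rw [mem_slitPlane_iff, not_or, not_lt, not_not] at hs
      rw [mem_slitPlane_iff]
      left
      rw [neg_re]
      have h4 : w.re ≠ 0 := fun h => h0 (Complex.ext h hs.2)
      have h5 := lt_of_le_of_ne hs.1 h4
      linarith
    have hre : ∀ z : ℂ, (log (-z) + π * I).re = (log z).re := by
      intro z
      simp [log_re]
    have h3 : DifferentiableAt ℂ Ψ (log (-w) + π * I) :=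
      hΨ.diff.differentiableAt (hopen.mem_nhds ⟨by rw [hre]; exact h1, by rw [hre]; exact h2⟩)
    have h4 : DifferentiableAt ℂ (fun z : ℂ => log (-z) + π * I) w :=
      ((differentiableAt_log hs').comp w differentiableAt_id.neg).add_const _
    have h5 : DifferentiableAt ℂ (fun z : ℂ => Ψ (log (-z) + π * I)) w :=
      DifferentiableAt.comp w h3 h4
    refine h5.congr_of_eventuallyEq ?_
    filter_upwards [(lbU_open c d).mem_nhds hw] with z hz
    obtain ⟨hz0, hz1, hz2⟩ := lbU_re hz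
    refine lb_congr hΨ ?_ hz1 hz2
    rw [exp_log hz0, exp_add, exp_log (neg_ne_zero.mpr hz0), exp_pi_mul_I]
    ring

private theorem lb_eq {A : ℂ → ℂ} {c d : ℝ} {Ψ : ℂ → ℂ} (hΨ : ExpBranch A c d Ψ) {w : ℂ}
    (hw : w ∈ lbU c d) : A (Ψ (log w)) = w ∧ Ψ (log w) ∈ ball (0 : ℂ) 1 := by
  obtain ⟨h0, h1, h2⟩ := lbU_re hw
  exact ⟨by rw [hΨ.eq _ h1 h2, exp_log h0], hΨ.mem _ h1 h2⟩

private theorem lb_sphere {c d r : ℝ} (h1 : Real.exp c < r) (h2 : r < Real.exp d) {w : ℂ}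
    (hw : w ∈ sphere (0 : ℂ) r) : w ∈ lbU c d := by
  rw [mem_sphere_zero_iff_norm] at hw
  exact ⟨by rw [hw]; exact h1, by rw [hw]; exact h2⟩

/-- the moments vanish -/
private theorem lb_moment {A : ℂ → ℂ} (hA : DifferentiableOn ℂ A (ball 0 1)) {c d : ℝ}
    {Ψ : ℂ → ℂ} (hΨ : ExpBranch A c d Ψ) {r : ℝ} (h1 : Real.exp c < r) (h2 : r < Real.exp d)
    (N m : ℕ) : ∮ w in C(0, r), w ^ N * Ψ (log w) ^ (m + 1) = 0 := by
  have hF : DifferentiableOn ℂ (fun z => A z ^ (N + 1) * z ^ m) (ball 0 1) :=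
    (hA.pow _).mul (differentiableOn_id.pow _)
  obtain ⟨P, hP⟩ := hF.isExactOn_ball
  have hN : ((N : ℂ) + 1) ≠ 0 := by
    have := Nat.cast_add_one_ne_zero (R := ℂ) N
    exact this
  refine circleIntegral.integral_eq_zero_of_hasDerivWithinAt ((Real.exp_pos c).trans h1).le
    (f := fun w => (w ^ (N + 1) * Ψ (log w) ^ (m + 1) - (m + 1) * P (Ψ (log w))) / (N + 1))
    fun w hw => HasDerivAt.hasDerivWithinAt ?_
  have hwU := lb_sphere h1 h2 hw
  obtain ⟨hA1, hA2⟩ := lb_eq hΨ hwU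
  have hψ := (lb_diff hΨ hwU).hasDerivAt
  have e1 := (hasDerivAt_pow (N + 1) w).mul (hψ.pow (m + 1))
  have e2 := ((hP _ hA2).comp w hψ).const_mul ((m : ℂ) + 1)
  have e3 := (e1.sub e2).div_const ((N : ℂ) + 1)
  refine e3.congr_deriv ?_
  rw [div_eq_iff hN]
  simp only [Nat.add_sub_cancel, Nat.cast_add, Nat.cast_one, Pi.pow_apply, hA1]
  ring

/-- the integral over the inner circle vanishes -/
private theorem lb_inner {A : ℂ → ℂ} (hA : DifferentiableOn ℂ A (ball 0 1)) {c d : ℝ}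
    {Ψ : ℂ → ℂ} (hΨ : ExpBranch A c d Ψ) {r : ℝ} (h1 : Real.exp c < r) (h2 : r < Real.exp d)
    (m : ℕ) {w₀ : ℂ} (hw₀ : r < ‖w₀‖) :
    ∮ w in C(0, r), Ψ (log w) ^ (m + 1) * (w - w₀)⁻¹ = 0 := by
  have hr : 0 < r := (Real.exp_pos c).trans h1
  have hw₀0 : w₀ ≠ 0 := norm_pos_iff.mp (hr.trans hw₀)
  have hne : ∀ w ∈ sphere (0 : ℂ) r, w - w₀ ≠ 0 := by
    intro w hw h
    rw [mem_sphere_zero_iff_norm] at hw
    rw [sub_eq_zero.mp h] at hw
    exact hw₀.ne' hw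
  have hgc : ContinuousOn (fun w => Ψ (log w) ^ (m + 1)) (sphere (0 : ℂ) r) := fun w hw =>
    ((lb_diff hΨ (lb_sphere h1 h2 hw)).continuousAt.pow _).continuousWithinAt
  have hfc : ∀ K : ℕ, ContinuousOn (fun w => (w / w₀) ^ K * Ψ (log w) ^ (m + 1) * (w - w₀)⁻¹)
      (sphere (0 : ℂ) r) := fun K =>
    (((continuousOn_id.div_const _).pow K).mul hgc).mul
      ((continuousOn_id.sub continuousOn_const).inv₀ hne)
  have hstep : ∀ K : ℕ, ∮ w in C(0, r), (w / w₀) ^ K * Ψ (log w) ^ (m + 1) * (w - w₀)⁻¹ =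
      ∮ w in C(0, r), (w / w₀) ^ (K + 1) * Ψ (log w) ^ (m + 1) * (w - w₀)⁻¹ := by
    intro K
    rw [← sub_eq_zero, ← circleIntegral.integral_sub ((hfc K).circleIntegrable hr.le)
      ((hfc (K + 1)).circleIntegrable hr.le)]
    have h3 : ∮ w in C(0, r), ((w / w₀) ^ K * Ψ (log w) ^ (m + 1) * (w - w₀)⁻¹ -
        (w / w₀) ^ (K + 1) * Ψ (log w) ^ (m + 1) * (w - w₀)⁻¹) =
        ∮ w in C(0, r), (-(w₀ ^ (K + 1))⁻¹) • (w ^ K * Ψ (log w) ^ (m + 1)) := by
      refine circleIntegral.integral_congr hr.le fun w hw => ?_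
      have h4 := hne w hw
      show (w / w₀) ^ K * Ψ (log w) ^ (m + 1) * (w - w₀)⁻¹ -
        (w / w₀) ^ (K + 1) * Ψ (log w) ^ (m + 1) * (w - w₀)⁻¹ =
        (-(w₀ ^ (K + 1))⁻¹) • (w ^ K * Ψ (log w) ^ (m + 1))
      rw [smul_eq_mul, div_pow, div_pow, pow_succ w₀, pow_succ w]
      field_simp
      ring
    rw [h3, circleIntegral.integral_smul, lb_moment hA hΨ h1 h2 K m, smul_zero]
  have hall : ∀ K : ℕ, ∮ w in C(0, r), Ψ (log w) ^ (m + 1) * (w - w₀)⁻¹ =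
      ∮ w in C(0, r), (w / w₀) ^ K * Ψ (log w) ^ (m + 1) * (w - w₀)⁻¹ := by
    intro K
    induction K with
    | zero => simp
    | succ K ih => rw [ih, hstep K]
  have hq0 : 0 ≤ r / ‖w₀‖ := by positivity
  have hq1 : r / ‖w₀‖ < 1 := (div_lt_one (hr.trans hw₀)).mpr hw₀
  have hbound : ∀ K : ℕ, ‖∮ w in C(0, r), Ψ (log w) ^ (m + 1) * (w - w₀)⁻¹‖ ≤
      2 * π * r * ((r / ‖w₀‖) ^ K * (‖w₀‖ - r)⁻¹) := by
    intro K
    rw [hall K]
    refine circleIntegral.norm_integral_le_of_norm_le_const hr.le fun w hw => ?_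
    have h3 : ‖w‖ = r := mem_sphere_zero_iff_norm.mp hw
    have h4 : ‖Ψ (log w)‖ ≤ 1 := (mem_ball_zero_iff.mp (lb_eq hΨ (lb_sphere h1 h2 hw)).2).le
    have h5 : ‖w₀‖ - r ≤ ‖w - w₀‖ := by
      have := norm_sub_norm_le w₀ w
      rw [h3, norm_sub_rev] at this
      exact this
    have h6 : 0 < ‖w₀‖ - r := sub_pos.mpr hw₀
    rw [norm_mul, norm_mul, norm_pow, norm_div, h3, norm_pow, norm_inv]
    refine mul_le_mul (mul_le_of_le_one_right (pow_nonneg hq0 _)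
      (pow_le_one₀ (norm_nonneg _) h4)) (inv_anti₀ h6 h5) (inv_nonneg.mpr (norm_nonneg _))
      (pow_nonneg hq0 _)
  have hlim : Tendsto (fun K : ℕ => 2 * π * r * ((r / ‖w₀‖) ^ K * (‖w₀‖ - r)⁻¹)) atTop (𝓝 0) := by
    have h3 := ((tendsto_pow_atTop_nhds_zero_of_lt_one hq0 hq1).mul_const
      ((‖w₀‖ - r)⁻¹)).const_mul (2 * π * r)
    rwa [zero_mul, mul_zero] at h3
  have h4 := ge_of_tendsto' hlim hbound
  exact norm_le_zero_iff.mp h4

/-- the Cauchy formula with the outer circle only -/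
private theorem lb_cauchy {A : ℂ → ℂ} (hA : DifferentiableOn ℂ A (ball 0 1)) {c d : ℝ}
    {Ψ : ℂ → ℂ} (hΨ : ExpBranch A c d Ψ) {R : ℝ} (h2 : R < Real.exp d) (m : ℕ) {w₀ : ℂ}
    (hw₀ : Real.exp c < ‖w₀‖) (hwR : ‖w₀‖ < R) :
    ∮ w in C(0, R), Ψ (log w) ^ (m + 1) * (w - w₀)⁻¹ =
      2 * π * I * Ψ (log w₀) ^ (m + 1) := by
  obtain ⟨r, hr1, hr2⟩ := exists_between hw₀
  have hr : 0 < r := (Real.exp_pos c).trans hr1
  have hR : 0 < R := (hr.trans hr2).trans hwR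
  have hcR : Real.exp c < R := hw₀.trans hwR
  have hrd : r < Real.exp d := (hr2.trans hwR).trans h2
  set g : ℂ → ℂ := fun w => Ψ (log w) ^ (m + 1) with hg
  have hgd : DifferentiableOn ℂ g (lbU c d) := fun w hw =>
    ((lb_diff hΨ hw).pow _).differentiableWithinAt
  have hw₀U : w₀ ∈ lbU c d := ⟨hw₀, hwR.trans h2⟩
  have hds : DifferentiableOn ℂ (dslope g w₀) (lbU c d) :=
    (differentiableOn_dslope ((lbU_open c d).mem_nhds hw₀U)).mpr hgd
  have hann : ∀ w ∈ closedBall (0 : ℂ) R \ ball 0 r, w ∈ lbU c d := by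
    rintro w ⟨hw1, hw2⟩
    rw [mem_closedBall_zero_iff] at hw1
    rw [mem_ball_zero_iff, not_lt] at hw2
    exact ⟨hr1.trans_le hw2, hw1.trans_lt h2⟩
  have hcir : (∮ w in C(0, R), dslope g w₀ w) = ∮ w in C(0, r), dslope g w₀ w := by
    refine circleIntegral_eq_of_differentiable_on_annulus_off_countable hr
      (hr2.trans hwR).le countable_empty (hds.continuousOn.mono hann) ?_
    rintro w ⟨⟨hw1, hw2⟩, -⟩
    refine hds.differentiableAt ((lbU_open c d).mem_nhds (hann w ⟨ball_subset_closedBall hw1,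
      fun h => hw2 (ball_subset_closedBall h)⟩))
  have hsplit : ∀ {s : ℝ}, 0 < s → Real.exp c < s → s < Real.exp d → s ≠ ‖w₀‖ →
      (∮ w in C(0, s), dslope g w₀ w) = (∮ w in C(0, s), g w * (w - w₀)⁻¹) -
        g w₀ * ∮ w in C(0, s), (w - w₀)⁻¹ := by
    intro s hs hcs hsd hsw
    have hne : ∀ w ∈ sphere (0 : ℂ) s, w - w₀ ≠ 0 := by
      intro w hw h
      rw [mem_sphere_zero_iff_norm] at hw
      rw [sub_eq_zero.mp h] at hw
      exact hsw hw.symm
    have hinv : ContinuousOn (fun w : ℂ => (w - w₀)⁻¹) (sphere (0 : ℂ) s) :=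
      (continuousOn_id.sub continuousOn_const).inv₀ hne
    have hgc : ContinuousOn g (sphere (0 : ℂ) s) := hgd.continuousOn.mono fun w hw =>
      lb_sphere hcs hsd hw
    have e1 : CircleIntegrable (fun w => g w * (w - w₀)⁻¹) 0 s :=
      (hgc.mul hinv).circleIntegrable hs.le
    have e2 : CircleIntegrable (fun w => g w₀ * (w - w₀)⁻¹) 0 s :=
      (continuousOn_const.mul hinv).circleIntegrable hs.le
    have e3 : (∮ w in C(0, s), g w₀ * (w - w₀)⁻¹) = g w₀ * ∮ w in C(0, s), (w - w₀)⁻¹ := by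
      have := circleIntegral.integral_smul (g w₀) (fun w : ℂ => (w - w₀)⁻¹) 0 s
      simpa only [smul_eq_mul] using this
    rw [← e3, ← circleIntegral.integral_sub e1 e2]
    refine circleIntegral.integral_congr hs.le fun w hw => ?_
    have hww : w ≠ w₀ := fun h => hne w hw (by rw [h, sub_self])
    show dslope g w₀ w = g w * (w - w₀)⁻¹ - g w₀ * (w - w₀)⁻¹
    rw [dslope_of_ne _ hww, slope_def_module, smul_eq_mul]
    ring
  rw [hsplit hR hcR h2 hwR.ne', hsplit hr hr1 hrd hr2.ne,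
    lb_inner hA hΨ hr1 hrd m hr2] at hcir
  have hin : (∮ w in C(0, R), (w - w₀)⁻¹) = 2 * π * I :=
    circleIntegral.integral_sub_inv_of_mem_ball (mem_ball_zero_iff.mpr hwR)
  have hout : (∮ w in C(0, r), (w - w₀)⁻¹) = 0 := by
    have hne : ∀ w ∈ closedBall (0 : ℂ) r, w - w₀ ≠ 0 := by
      intro w hw h
      rw [mem_closedBall_zero_iff, sub_eq_zero.mp h] at hw
      exact absurd hr2 (not_lt.mpr hw)
    refine circleIntegral_eq_zero_of_differentiable_on_off_countable hr.le countable_empty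
      ((continuousOn_id.sub continuousOn_const).inv₀ hne) ?_
    rintro w ⟨hw, -⟩
    exact (differentiableAt_id.sub_const _).inv (hne w (ball_subset_closedBall hw))
  rw [hin, hout, mul_zero, sub_zero, sub_eq_zero] at hcir
  show (∮ w in C(0, R), g w * (w - w₀)⁻¹) = 2 * π * I * g w₀
  rw [hcir]
  ring

/-- BOUND FOR AN INVERSE BRANCH (contour argument).
Proof. Let `c < Re ω₂ < τ` and suppose `ζ := Ψ ω₂` has `|ζ| > ρ₁`.  Choose `c' ∈ (c, Re ω₂)`.  For
`N : ℕ` consider `K_N ω = exp (N ω) Ψ' ω / (ζ - Ψ ω)` on `{c < Re < d}`; since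
`Ψ ω = ζ` implies `exp ω = A ζ = exp ω₂`, its only singularities are `ω₂ + 2πik`; there `Ψ' ≠ 0`
(`A' (Ψ) Ψ' = exp`), so they are simple poles with residue `- exp (N ω₂)`.  It is
`2πi`-periodic.  The function `R ω = exp (N ω₂) / (1 - exp (ω₂ - ω))` is `2πi`-periodic and has simple
poles at the same points with residue `exp (N ω₂)`.  So `K_N + R` extends to a holomorphic function
`H` on the strip (removable singularities), periodic, and `σ ↦ ∫ θ in 0..2π, H (σ + θ I)` does not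
depend on `σ` (Cauchy on the rectangle `Complex.integral_boundary_rect_eq_zero_of_differentiableOn`,
the horizontal sides cancel).  EQUIVALENTLY one may work in the variable `w = exp ω` with
`ψ w = Ψ (log w)`, `k w = w^N ψ' w / (ζ - ψ w) + w₂^N / (w - w₂)`, and the Mathlib theorem on circle
integrals in annuli; choose what is easier.
(a) at `σ = τ`: `∫ K_N = 0`.  Indeed `exp ω = A (Ψ ω)`; the function `z ↦ A z ^ N / (ζ - z)` is
holomorphic on `ball 0 |ζ|` (`|ζ| ≤ 1`), so it has a primitive `P` there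
(`DifferentiableOn.isExactOn_ball`), and `θ ↦ P (Ψ (τ + θ I))` is `2π`-periodic with derivative
`I K_N (τ + θ I)` (here `|Ψ| ≤ ρ₁ < |ζ|` on `Re = τ`).
(b) `∫ θ in 0..2π, 1 / (1 - exp (ω₂ - σ - θ I)) = 2π` for `σ > Re ω₂` and `= 0` for `σ < Re ω₂`
(circle integral of `1/(w - w₂)` over `|w| = exp σ`, `w₂ = exp ω₂`:
`1/(1 - w₂/w) dθ = w/(w-w₂) dθ = dw/(i (w - w₂))`).
(c) at `σ = c'`: `|∫ K_N| ≤ C exp (N c')` with `C` independent of `N`.
Hence `2π exp (N Re ω₂) ≤ C exp (N c')` for all `N`, so `Re ω₂ ≤ c'`, a contradiction. -/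
theorem loop_bound {A : ℂ → ℂ} (hA : DifferentiableOn ℂ A (ball 0 1)) {c d τ ρ₁ : ℝ}
    (hcτ : c < τ) (hτd : τ < d) {Ψ : ℂ → ℂ} (hΨ : ExpBranch A c d Ψ)
    (hρ : ∀ ω : ℂ, ω.re = τ → ‖Ψ ω‖ ≤ ρ₁) {ω : ℂ} (h1 : c < ω.re) (h2 : ω.re ≤ τ) :
    ‖Ψ ω‖ ≤ ρ₁ := by
  rcases h2.eq_or_lt with h2 | h2
  · exact hρ ω h2
  have hρ0 : 0 ≤ ρ₁ := (norm_nonneg _).trans (hρ (τ : ℂ) (ofReal_re τ))
  set w₀ : ℂ := exp ω with hw₀
  have hn : ‖w₀‖ = Real.exp ω.re := norm_exp ω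
  have hc : Real.exp c < ‖w₀‖ := by rw [hn]; exact Real.exp_lt_exp.mpr h1
  have hR : ‖w₀‖ < Real.exp τ := by rw [hn]; exact Real.exp_lt_exp.mpr h2
  have hd : Real.exp τ < Real.exp d := Real.exp_lt_exp.mpr hτd
  have hcR : Real.exp c < Real.exp τ := Real.exp_lt_exp.mpr hcτ
  have hψ : Ψ (log w₀) = Ψ ω := by
    have h3 : c < (log w₀).re ∧ (log w₀).re < d := by
      rw [log_re, hn, Real.log_exp]
      exact ⟨h1, h2.trans hτd⟩
    exact lb_congr hΨ (by rw [exp_log (exp_ne_zero ω)]) h3.1 h3.2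
  have hRpos := Real.exp_pos τ
  set C : ℝ := Real.exp τ * (Real.exp τ - ‖w₀‖)⁻¹ with hC
  have hC0 : 0 < Real.exp τ - ‖w₀‖ := sub_pos.mpr hR
  have key : ∀ m : ℕ, ‖Ψ ω‖ ^ (m + 1) ≤ ρ₁ ^ (m + 1) * C := by
    intro m
    have h3 := lb_cauchy hA hΨ hd m hc hR
    have h4 : ‖∮ w in C(0, Real.exp τ), Ψ (log w) ^ (m + 1) * (w - w₀)⁻¹‖ ≤
        2 * π * Real.exp τ * (ρ₁ ^ (m + 1) * (Real.exp τ - ‖w₀‖)⁻¹) := by
      refine circleIntegral.norm_integral_le_of_norm_le_const hRpos.le fun w hw => ?_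
      have h5 : ‖w‖ = Real.exp τ := mem_sphere_zero_iff_norm.mp hw
      have h6 : ‖Ψ (log w)‖ ≤ ρ₁ := hρ _ (by rw [log_re, h5, Real.log_exp])
      have h7 : Real.exp τ - ‖w₀‖ ≤ ‖w - w₀‖ := by
        have := norm_sub_norm_le w w₀
        rwa [h5] at this
      rw [norm_mul, norm_pow, norm_inv]
      exact mul_le_mul (pow_le_pow_left₀ (norm_nonneg _) h6 _) (inv_anti₀ hC0 h7)
        (inv_nonneg.mpr (norm_nonneg _)) (pow_nonneg hρ0 _)
    rw [h3, hψ, norm_mul, norm_mul, norm_mul, norm_I, norm_real, mul_one, norm_pow] at h4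
    have h5 : ‖(2 : ℂ)‖ * ‖π‖ = 2 * π := by
      rw [Real.norm_of_nonneg Real.pi_pos.le]
      norm_num
    rw [h5] at h4
    have h6 : 2 * π * Real.exp τ * (ρ₁ ^ (m + 1) * (Real.exp τ - ‖w₀‖)⁻¹) =
        2 * π * (ρ₁ ^ (m + 1) * C) := by
      rw [hC]
      ring
    rw [h6] at h4
    exact le_of_mul_le_mul_left h4 (by positivity)
  by_contra hcon
  rw [not_le] at hcon
  have hq : 0 < ‖Ψ ω‖ := hρ0.trans_lt hcon
  have hlim : Tendsto (fun m : ℕ => (ρ₁ / ‖Ψ ω‖) ^ (m + 1) * C) atTop (𝓝 0) := by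
    have h3 := ((tendsto_pow_atTop_nhds_zero_of_lt_one (div_nonneg hρ0 hq.le)
      ((div_lt_one hq).mpr hcon)).comp (tendsto_add_atTop_nat 1)).mul_const C
    rwa [zero_mul] at h3
  have h4 : (1 : ℝ) ≤ 0 := ge_of_tendsto' hlim fun m => by
    rw [div_pow, div_mul_eq_mul_div, le_div_iff₀ (pow_pos hq _), one_mul]
    exact key m
  exact absurd h4 (by norm_num)

end Pool.Agent.HQ
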