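import Pool.Agent.HQ.LoopB

/-! HQ growth half, file LoopExt. -/

set_option autoImplicit false

open Complex Metric Set Filter Topology MeasureTheory
open scoped ComplexConjugate Real

namespace Pool.Agent.HQ

private theorem le_strip_convex (c d : ℝ) : Convex ℝ {ω : ℂ | c < ω.re ∧ ω.re < d} := by
  have h : {ω : ℂ | c < ω.re ∧ ω.re < d} = {ω : ℂ | c < ω.re} ∩ {ω : ℂ | ω.re < d} := rfl
  rw [h]
  exact (convex_halfSpace_re_gt c).inter (convex_halfSpace_re_lt d)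

private theorem le_strip_open (c d : ℝ) : IsOpen {ω : ℂ | c < ω.re ∧ ω.re < d} :=
  (isOpen_lt continuous_const continuous_re).inter (isOpen_lt continuous_re continuous_const)

private theorem le_nat {A : ℂ → ℂ} {c d : ℝ} {Ψ : ℂ → ℂ} (hΨ : ExpBranch A c d Ψ) (n : ℕ)
    {ω : ℂ} (h1 : c < ω.re) (h2 : ω.re < d) : Ψ (ω + n * (2 * π * I)) = Ψ ω := by
  induction n with
  | zero => simp
  | succ n ih =>
    have hre : (ω + n * (2 * π * I)).re = ω.re := by simp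
    have h3 := hΨ.per (ω + n * (2 * π * I)) (by rw [hre]; exact h1) (by rw [hre]; exact h2)
    have h4 : ω + ((n + 1 : ℕ) : ℂ) * (2 * π * I) = ω + n * (2 * π * I) + 2 * π * I := by
      push_cast
      ring
    rw [h4, h3, ih]

private theorem le_int {A : ℂ → ℂ} {c d : ℝ} {Ψ : ℂ → ℂ} (hΨ : ExpBranch A c d Ψ) (n : ℤ)
    {ω : ℂ} (h1 : c < ω.re) (h2 : ω.re < d) : Ψ (ω + n * (2 * π * I)) = Ψ ω := by
  rcases Int.eq_nat_or_neg n with ⟨m, rfl | rfl⟩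
  · rw [Int.cast_natCast]
    exact le_nat hΨ m h1 h2
  · have hre : (ω + ((-(m : ℤ) : ℤ) : ℂ) * (2 * π * I)).re = ω.re := by simp
    have h3 := le_nat hΨ m (ω := ω + ((-(m : ℤ) : ℤ) : ℂ) * (2 * π * I))
      (by rw [hre]; exact h1) (by rw [hre]; exact h2)
    rw [← h3]
    congr 1
    push_cast
    ring

/-- the bound on the middle circle -/
private theorem le_rho {A : ℂ → ℂ} {c d τ : ℝ} {Ψ : ℂ → ℂ} (hΨ : ExpBranch A c d Ψ)
    (h1 : c < τ) (h2 : τ < d) : ∃ ρ < 1, ∀ ω : ℂ, ω.re = τ → ‖Ψ ω‖ ≤ ρ := by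
  have hre : ∀ θ : ℝ, ((τ : ℂ) + θ * I).re = τ := by
    intro θ
    simp
  have hmem : ∀ θ : ℝ, ((τ : ℂ) + θ * I) ∈ {ω : ℂ | c < ω.re ∧ ω.re < d} := by
    intro θ
    show c < ((τ : ℂ) + θ * I).re ∧ ((τ : ℂ) + θ * I).re < d
    rw [hre]
    exact ⟨h1, h2⟩
  have hc : ContinuousOn (fun θ : ℝ => ‖Ψ ((τ : ℂ) + θ * I)‖) (Icc 0 (2 * π)) := by
    refine ContinuousOn.norm ?_
    refine hΨ.diff.continuousOn.comp ?_ (fun θ _ => hmem θ)
    exact Continuous.continuousOn (by fun_prop)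
  have hne : (Icc (0 : ℝ) (2 * π)).Nonempty := ⟨0, le_rfl, Real.two_pi_pos.le⟩
  obtain ⟨θ₀, -, hmax⟩ := isCompact_Icc.exists_isMaxOn hne hc
  refine ⟨‖Ψ ((τ : ℂ) + θ₀ * I)‖, ?_, ?_⟩
  · have h3 := hΨ.mem _ (hmem θ₀).1 (hmem θ₀).2
    rwa [mem_ball_zero_iff] at h3
  · intro ω hω
    have h4 := toIcoMod_mem_Ico Real.two_pi_pos 0 ω.im
    have h5 := toIcoMod_add_toIcoDiv_zsmul Real.two_pi_pos 0 ω.im
    rw [zsmul_eq_mul] at h5
    rw [zero_add] at h4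
    have h6 := isMaxOn_iff.mp hmax (toIcoMod Real.two_pi_pos 0 ω.im) ⟨h4.1, h4.2.le⟩
    have h7 := le_int hΨ (toIcoDiv Real.two_pi_pos 0 ω.im)
      (hmem (toIcoMod Real.two_pi_pos 0 ω.im)).1 (hmem (toIcoMod Real.two_pi_pos 0 ω.im)).2
    have h8 : ((τ : ℂ) + ((toIcoMod Real.two_pi_pos 0 ω.im : ℝ) : ℂ) * I) +
        ((toIcoDiv Real.two_pi_pos 0 ω.im : ℤ) : ℂ) * (2 * π * I) = ω := by
      have h9 : (((toIcoMod Real.two_pi_pos 0 ω.im : ℝ) : ℂ) +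
          ((toIcoDiv Real.two_pi_pos 0 ω.im : ℤ) : ℂ) * (2 * π)) = (ω.im : ℂ) := by
        have h10 := congrArg (fun x : ℝ => (x : ℂ)) h5
        rw [← h10]
        push_cast
        ring
      have h11 : ((τ : ℂ) + ((toIcoMod Real.two_pi_pos 0 ω.im : ℝ) : ℂ) * I) +
          ((toIcoDiv Real.two_pi_pos 0 ω.im : ℤ) : ℂ) * (2 * π * I) =
          τ + (((toIcoMod Real.two_pi_pos 0 ω.im : ℝ) : ℂ) +
          ((toIcoDiv Real.two_pi_pos 0 ω.im : ℤ) : ℂ) * (2 * π)) * I := by ring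
      rw [h11, h9, ← hω, re_add_im]
    rw [h8] at h7
    rw [h7]
    exact h6

/-- two branches agreeing at a point agree on the common strip -/
private theorem le_unique {A : ℂ → ℂ} (hA : DifferentiableOn ℂ A (ball 0 1))
    (hA' : ∀ z ∈ ball (0 : ℂ) 1, deriv A z ≠ 0) {c c' d : ℝ} {Φ Φ' : ℂ → ℂ}
    (h : ExpBranch A c d Φ) (h' : ExpBranch A c' d Φ') (hcc : c' ≤ c) {p : ℂ} (hp1 : c < p.re)
    (hp2 : p.re < d) (hp : Φ p = Φ' p) {ω : ℂ} (h1 : c < ω.re) (h2 : ω.re < d) :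
    Φ ω = Φ' ω := by
  have hsub : {ω : ℂ | c < ω.re ∧ ω.re < d} ⊆ {ω : ℂ | c' < ω.re ∧ ω.re < d} :=
    fun ω hω => ⟨hcc.trans_lt hω.1, hω.2⟩
  refine lift_eqOn (le_strip_convex c d).isPreconnected hA hA' h.diff.continuousOn
    (h'.diff.continuousOn.mono hsub) (fun ω hω => h.mem ω hω.1 hω.2)
    (fun ω hω => h'.mem ω (hsub hω).1 hω.2) ?_ (x₀ := p) ⟨hp1, hp2⟩ hp ⟨h1, h2⟩
  intro ω hω
  rw [h.eq ω hω.1 hω.2, h'.eq ω (hsub hω).1 hω.2]

/-- one extension step -/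
private theorem le_step {A : ℂ → ℂ} (hA : DifferentiableOn ℂ A (ball 0 1))
    (hA' : ∀ z ∈ ball (0 : ℂ) 1, deriv A z ≠ 0) {c d τ η r s : ℝ} {K : Set ℂ} {Φ : ℂ → ℂ}
    (hΦ : ExpBranch A c d Φ) (hs : 0 < s) (hsη : s < η) (hcτ : c < τ - s) (hτd : τ < d)
    (ψ : ℂ → ℂ → ℂ) (hψ1 : ∀ z ∈ K, DifferentiableOn ℂ (ψ z) (ball (A z) r))
    (hψ2 : ∀ z ∈ K, ψ z (A z) = z)
    (hψ3 : ∀ z ∈ K, ∀ w ∈ ball (A z) r, ψ z w ∈ ball (0 : ℂ) 1 ∧ A (ψ z w) = w)
    (hR : ∀ p ω : ℂ, p.re ≤ τ → ω ∈ ball p η → exp ω ∈ ball (exp p) r)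
    (hK : ∀ ω : ℂ, c < ω.re → ω.re ≤ τ → Φ ω ∈ K) :
    ∃ Φ' : ℂ → ℂ, ExpBranch A (c - s) d Φ' ∧
      ∀ ω : ℂ, c < ω.re → ω.re < d → Φ' ω = Φ ω := by
  classical
  have hη : 0 < η := hs.trans hsη
  -- the local branches
  set F : ℂ → ℂ → ℂ := fun p ω => ψ (Φ p) (exp ω) with hF
  have hball : ∀ p : ℂ, c < p.re → p.re ≤ τ → ∀ ω ∈ ball p η, exp ω ∈ ball (A (Φ p)) r := by
    intro p h1 h2 ω hω
    rw [hΦ.eq p h1 (h2.trans_lt hτd)]
    exact hR p ω h2 hω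
  have hFd : ∀ p : ℂ, c < p.re → p.re ≤ τ → DifferentiableOn ℂ (F p) (ball p η) := by
    intro p h1 h2
    exact (hψ1 _ (hK p h1 h2)).comp differentiable_exp.differentiableOn (hball p h1 h2)
  have hF1 : ∀ p : ℂ, c < p.re → p.re ≤ τ → ∀ ω ∈ ball p η, F p ω ∈ ball (0 : ℂ) 1 :=
    fun p h1 h2 ω hω => (hψ3 _ (hK p h1 h2) _ (hball p h1 h2 ω hω)).1
  have hF2 : ∀ p : ℂ, c < p.re → p.re ≤ τ → ∀ ω ∈ ball p η, A (F p ω) = exp ω :=
    fun p h1 h2 ω hω => (hψ3 _ (hK p h1 h2) _ (hball p h1 h2 ω hω)).2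
  have hF0 : ∀ p : ℂ, c < p.re → p.re ≤ τ → F p p = Φ p := by
    intro p h1 h2
    show ψ (Φ p) (exp p) = Φ p
    rw [← hΦ.eq p h1 (h2.trans_lt hτd)]
    exact hψ2 _ (hK p h1 h2)
  -- comparison with `Φ`
  have hFΦ : ∀ p : ℂ, c < p.re → p.re ≤ τ → ∀ ω ∈ ball p η, c < ω.re → ω.re < d →
      F p ω = Φ ω := by
    intro p h1 h2 ω hω h3 h4
    have hconv : IsPreconnected (ball p η ∩ {ω : ℂ | c < ω.re ∧ ω.re < d}) :=
      ((convex_ball p η).inter (le_strip_convex c d)).isPreconnected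
    refine lift_eqOn hconv hA hA' ((hFd p h1 h2).continuousOn.mono inter_subset_left)
      (hΦ.diff.continuousOn.mono inter_subset_right) (fun ω hω => hF1 p h1 h2 ω hω.1)
      (fun ω hω => hΦ.mem ω hω.2.1 hω.2.2) ?_ (x₀ := p)
      ⟨mem_ball_self hη, h1, h2.trans_lt hτd⟩ (hF0 p h1 h2) ⟨hω, h3, h4⟩
    intro ω hω
    rw [hF2 p h1 h2 ω hω.1, hΦ.eq ω hω.2.1 hω.2.2]
  -- comparison of two local branches
  have hFF : ∀ p q : ℂ, c < p.re → p.re ≤ τ → c < q.re → q.re ≤ τ → q ∈ ball p η →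
      ∀ ω ∈ ball p η, ω ∈ ball q η → F q ω = F p ω := by
    intro p q h1 h2 h3 h4 hqp ω hωp hωq
    have hconv : IsPreconnected (ball q η ∩ ball p η) :=
      ((convex_ball q η).inter (convex_ball p η)).isPreconnected
    refine lift_eqOn hconv hA hA' ((hFd q h3 h4).continuousOn.mono inter_subset_left)
      ((hFd p h1 h2).continuousOn.mono inter_subset_right) (fun ω hω => hF1 q h3 h4 ω hω.1)
      (fun ω hω => hF1 p h1 h2 ω hω.2) ?_ (x₀ := q)
      ⟨mem_ball_self hη, hqp⟩ ?_ ⟨hωq, hωp⟩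
    · intro ω hω
      rw [hF2 q h3 h4 ω hω.1, hF2 p h1 h2 ω hω.2]
    · rw [hF0 q h3 h4, hFΦ p h1 h2 q hqp h3 (h4.trans_lt hτd)]
  have hshift : ∀ ω : ℂ, (ω + (s : ℂ)).re = ω.re + s := by
    intro ω
    simp
  have hnear : ∀ ω : ℂ, ω ∈ ball (ω + (s : ℂ)) η := by
    intro ω
    rw [mem_ball, dist_eq_norm]
    have h1 : ω - (ω + (s : ℂ)) = -(s : ℂ) := by ring
    rw [h1, norm_neg, Complex.norm_real, Real.norm_of_nonneg hs.le]
    exact hsη
  set G : ℂ → ℂ := fun ω => F (ω + (s : ℂ)) ω with hG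
  have hGΦ : ∀ ω : ℂ, c < ω.re → ω.re < τ - s → G ω = Φ ω := by
    intro ω h1 h2
    exact hFΦ (ω + (s : ℂ)) (by rw [hshift]; linarith) (by rw [hshift]; linarith) ω (hnear ω) h1
      (by linarith)
  have hGd : ∀ ω₁ : ℂ, c - s < ω₁.re → ω₁.re < τ - s → DifferentiableAt ℂ G ω₁ := by
    intro ω₁ h1 h2
    have h3 : c < (ω₁ + (s : ℂ)).re := by rw [hshift]; linarith
    have h4 : (ω₁ + (s : ℂ)).re ≤ τ := by rw [hshift]; linarith
    have heq : G =ᶠ[𝓝 ω₁] F (ω₁ + (s : ℂ)) := by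
      have h5 : ∀ᶠ ω in 𝓝 ω₁, ω ∈ {ω : ℂ | c - s < ω.re ∧ ω.re < τ - s} :=
        (le_strip_open _ _).mem_nhds ⟨h1, h2⟩
      have h6 : ∀ᶠ ω in 𝓝 ω₁, ω ∈ ball ω₁ η := ball_mem_nhds ω₁ hη
      have h7 : ∀ᶠ ω in 𝓝 ω₁, ω ∈ ball (ω₁ + (s : ℂ)) η :=
        isOpen_ball.mem_nhds (hnear ω₁)
      filter_upwards [h5, h6, h7] with ω h8 h9 h10
      refine hFF (ω₁ + (s : ℂ)) (ω + (s : ℂ)) h3 h4 ?_ ?_ ?_ ω h10 (hnear ω)
      · rw [hshift]
        linarith [h8.1]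
      · rw [hshift]
        linarith [h8.2]
      · rw [mem_ball, dist_eq_norm] at h9 ⊢
        have h11 : ω + (s : ℂ) - (ω₁ + (s : ℂ)) = ω - ω₁ := by ring
        rw [h11]
        exact h9
    rw [heq.differentiableAt_iff]
    exact (hFd _ h3 h4).differentiableAt (isOpen_ball.mem_nhds (hnear ω₁))
  refine ⟨fun ω => if c < ω.re then Φ ω else G ω, ⟨?_, ?_, ?_, ?_⟩, ?_⟩
  · rintro ω₁ ⟨h1, h2⟩
    refine DifferentiableAt.differentiableWithinAt ?_
    by_cases h3 : c < ω₁.re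
    · have heq : (fun ω => if c < ω.re then Φ ω else G ω) =ᶠ[𝓝 ω₁] Φ := by
        have h5 : ∀ᶠ ω in 𝓝 ω₁, ω ∈ {ω : ℂ | c < ω.re ∧ ω.re < d} :=
          (le_strip_open _ _).mem_nhds ⟨h3, h2⟩
        filter_upwards [h5] with ω h6
        exact if_pos h6.1
      rw [heq.differentiableAt_iff]
      exact hΦ.diff.differentiableAt ((le_strip_open _ _).mem_nhds ⟨h3, h2⟩)
    · have h4 : ω₁.re < τ - s := by
        rw [not_lt] at h3
        linarith
      have heq : (fun ω => if c < ω.re then Φ ω else G ω) =ᶠ[𝓝 ω₁] G := by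
        have h5 : ∀ᶠ ω in 𝓝 ω₁, ω ∈ {ω : ℂ | c - s < ω.re ∧ ω.re < τ - s} :=
          (le_strip_open _ _).mem_nhds ⟨h1, h4⟩
        filter_upwards [h5] with ω h6
        by_cases h7 : c < ω.re
        · rw [if_pos h7]
          exact (hGΦ ω h7 h6.2).symm
        · exact if_neg h7
      rw [heq.differentiableAt_iff]
      exact hGd ω₁ h1 h4
  · intro ω h1 h2
    by_cases h3 : c < ω.re
    · simp only [if_pos h3]
      exact hΦ.mem ω h3 h2
    · simp only [if_neg h3]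
      rw [not_lt] at h3
      exact hF1 (ω + (s : ℂ)) (by rw [hshift]; linarith) (by rw [hshift]; linarith) ω (hnear ω)
  · intro ω h1 h2
    by_cases h3 : c < ω.re
    · simp only [if_pos h3]
      exact hΦ.eq ω h3 h2
    · simp only [if_neg h3]
      rw [not_lt] at h3
      exact hF2 (ω + (s : ℂ)) (by rw [hshift]; linarith) (by rw [hshift]; linarith) ω (hnear ω)
  · intro ω h1 h2
    have hre : (ω + 2 * π * I).re = ω.re := by simp
    by_cases h3 : c < ω.re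
    · have h4 : c < (ω + 2 * π * I).re := by rw [hre]; exact h3
      simp only [if_pos h3, if_pos h4]
      exact hΦ.per ω h3 h2
    · have h4 : ¬ c < (ω + 2 * π * I).re := by rw [hre]; exact h3
      simp only [if_neg h3, if_neg h4]
      show ψ (Φ (ω + 2 * π * I + (s : ℂ))) (exp (ω + 2 * π * I)) =
        ψ (Φ (ω + (s : ℂ))) (exp ω)
      have h5 : ω + 2 * π * I + (s : ℂ) = ω + (s : ℂ) + 2 * π * I := by ring
      rw [not_lt] at h3
      rw [h5, hΦ.per (ω + (s : ℂ)) (by rw [hshift]; linarith) (by rw [hshift]; linarith),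
        Complex.exp_periodic]
  · intro ω h1 h2
    exact if_pos h1

/-- INWARD EXTENSION.
Proof. Let `τ = log t`, `ρ₁ < 1` a bound of `|Ψ|` on `Re ω = τ` (compactness and periodicity). Let
`δ, r` be from `exists_locInv` for `K = closedBall 0 ρ₁`, and `s > 0` with `t (1 - exp (-s)) < r`,
`s < ε`. CLAIM: if `Φ` is a branch on `(c, τ + ε)` (`c ≤ τ - ε`) extending `Ψ` then there is a
branch on `(c - s, τ + ε)` extending `Ψ`. By `loop_bound`, `|Φ| ≤ ρ₁` on `(c, τ]`. For `c - s < Re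
ω < τ - s` put `Φ' ω = ψ_{Φ (ω + s)} (exp ω)` (`|exp ω - exp (ω + s)| ≤ t (1 - exp (-s)) < r`),
and `Φ' = Φ` for `c < Re ω < τ + ε`; on the overlap `c < Re ω < τ - s` they agree by `lift_eqOn`
along the segment `[ω, ω + s]` (`Φ` on the segment is a lift of `exp`, and so is `ψ_{Φ(ω+s)} ∘
exp`, with the same value at `ω + s`). Differentiability of `ω ↦ ψ_{Φ (ω + s)} (exp ω)` near `ω₁`:
it equals `ψ_{Φ (ω₁ + s)} (exp ω)` near `ω₁` (both are lifts along the segment from `ω + s` to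
`ω`, starting at `Φ (ω + s)`, again by `lift_eqOn`). Periodicity is clear. Iterate `n` times:
branches on `(τ - ε - n s, τ + ε)`, any two agree on the common strip (identity theorem or
`lift_eqOn`: the strip is convex, they agree on `(τ - ε, τ + ε)`); glue. -/
theorem loop_extend {A : ℂ → ℂ} (hA : DifferentiableOn ℂ A (ball 0 1))
    (hA' : ∀ z ∈ ball (0 : ℂ) 1, deriv A z ≠ 0) {t ε : ℝ} (ht : 0 < t) (hε : 0 < ε) {Ψ : ℂ → ℂ}
    (hΨ : ExpBranch A (Real.log t - ε) (Real.log t + ε) Ψ) :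
    ∃ Φ : ℂ → ℂ, (∀ c < Real.log t, ExpBranch A c (Real.log t + ε) Φ) ∧
      ∀ ω : ℂ, Real.log t - ε < ω.re → ω.re < Real.log t + ε → Φ ω = Ψ ω := by
  set τ : ℝ := Real.log t with hτ
  obtain ⟨ρ₁, hρ1, hρ⟩ := le_rho hΨ (τ := τ) (by linarith) (by linarith)
  have hKD : closedBall (0 : ℂ) ρ₁ ⊆ ball 0 1 := closedBall_subset_ball hρ1
  obtain ⟨δ, hδ, r, hr, hball, hψ⟩ := exists_locInv hA hA' (isCompact_closedBall 0 ρ₁) hKD
  choose! ψ hψ1 hψ2 hψ3 using hψ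
  obtain ⟨η, hη, hexp⟩ : ∃ η > 0, ∀ u : ℂ, ‖u‖ < η → ‖exp u - 1‖ < r / t := by
    have h1 := Metric.continuousAt_iff.mp (Complex.continuous_exp.continuousAt (x := 0))
      (r / t) (by positivity)
    obtain ⟨η, hη, h2⟩ := h1
    refine ⟨η, hη, fun u hu => ?_⟩
    have h3 := h2 (x := u) (by rwa [dist_zero_right])
    rwa [dist_eq_norm, Complex.exp_zero] at h3
  have hR : ∀ p ω : ℂ, p.re ≤ τ → ω ∈ ball p η → exp ω ∈ ball (exp p) r := by
    intro p ω hp hω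
    rw [mem_ball, dist_eq_norm] at hω ⊢
    have h1 : exp ω - exp p = exp p * (exp (ω - p) - 1) := by
      rw [mul_sub, mul_one, ← Complex.exp_add]
      congr 2
      ring
    have h2 := hexp _ hω
    have h3 : ‖exp p‖ ≤ t := by
      rw [Complex.norm_exp]
      calc Real.exp p.re ≤ Real.exp τ := Real.exp_le_exp.mpr hp
        _ = t := Real.exp_log ht
    rw [h1, norm_mul]
    calc ‖exp p‖ * ‖exp (ω - p) - 1‖ ≤ t * ‖exp (ω - p) - 1‖ :=
          mul_le_mul_of_nonneg_right h3 (norm_nonneg _)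
      _ < t * (r / t) := mul_lt_mul_of_pos_left h2 ht
      _ = r := by field_simp
  set s : ℝ := min η ε / 2 with hs
  have hm : 0 < min η ε := lt_min hη hε
  have hs0 : 0 < s := by positivity
  have hsη : s < η := by
    have := min_le_left η ε
    linarith
  have hsε : s < ε := by
    have := min_le_right η ε
    linarith
  have hψ3' : ∀ z ∈ closedBall (0 : ℂ) ρ₁, ∀ w ∈ ball (A z) r,
      ψ z w ∈ ball (0 : ℂ) 1 ∧ A (ψ z w) = w :=
    fun z hz w hw => ⟨(hball z hz).1 (hψ3 z hz w hw).1, (hψ3 z hz w hw).2⟩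
  have key : ∀ n : ℕ, ∃ Φ : ℂ → ℂ, ExpBranch A (τ - ε - n * s) (τ + ε) Φ ∧
      ∀ ω : ℂ, τ - ε < ω.re → ω.re < τ + ε → Φ ω = Ψ ω := by
    intro n
    induction n with
    | zero =>
      refine ⟨Ψ, ?_, fun ω _ _ => rfl⟩
      simpa using hΨ
    | succ n ih =>
      obtain ⟨Φ, hΦ, hΦΨ⟩ := ih
      have hns : 0 ≤ (n : ℝ) * s := by positivity
      obtain ⟨Φ', hΦ', hext⟩ := le_step (K := closedBall 0 ρ₁) (τ := τ) hA hA' hΦ hs0 hsη
        (by linarith) (by linarith) ψ hψ1 hψ2 hψ3' hR (by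
          intro ω h1 h2
          rw [mem_closedBall_zero_iff]
          refine loop_bound hA (τ := τ) (by linarith) (by linarith) hΦ ?_ h1 h2
          intro ω' hω'
          rw [hΦΨ ω' (by linarith) (by linarith)]
          exact hρ ω' hω')
      refine ⟨Φ', ?_, fun ω h1 h2 => ?_⟩
      · have h1 : τ - ε - ((n + 1 : ℕ) : ℝ) * s = τ - ε - n * s - s := by
          push_cast
          ring
        rw [h1]
        exact hΦ'
      · rw [hext ω (by linarith) h2, hΦΨ ω h1 h2]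
  choose Φs hΦs hΦsΨ using key
  have hτre : ((τ : ℝ) : ℂ).re = τ := ofReal_re τ
  have huniq : ∀ m n : ℕ, m ≤ n → ∀ ω : ℂ, τ - ε - m * s < ω.re → ω.re < τ + ε →
      Φs m ω = Φs n ω := by
    intro m n hmn ω h1 h2
    have h3 : (m : ℝ) * s ≤ n * s :=
      mul_le_mul_of_nonneg_right (by exact_mod_cast hmn) hs0.le
    have h4 : 0 ≤ (m : ℝ) * s := by positivity
    refine le_unique hA hA' (hΦs m) (hΦs n) (by linarith) (p := (τ : ℂ)) ?_ ?_ ?_ h1 h2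
    · rw [hτre]
      linarith
    · rw [hτre]
      linarith
    · rw [hΦsΨ m _ (by rw [hτre]; linarith) (by rw [hτre]; linarith),
        hΦsΨ n _ (by rw [hτre]; linarith) (by rw [hτre]; linarith)]
  have huniq' : ∀ m n : ℕ, ∀ ω : ℂ, τ - ε - m * s < ω.re → τ - ε - n * s < ω.re →
      ω.re < τ + ε → Φs m ω = Φs n ω := by
    intro m n ω h1 h2 h3
    rcases le_total m n with h4 | h4
    · exact huniq m n h4 ω h1 h3
    · exact (huniq n m h4 ω h2 h3).symm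
  have hN : ∀ x : ℝ, ∃ n : ℕ, τ - ε - n * s < x := by
    intro x
    obtain ⟨n, hn⟩ := exists_nat_gt ((τ - ε - x) / s)
    refine ⟨n, ?_⟩
    rw [div_lt_iff₀ hs0] at hn
    linarith
  choose N hN using hN
  refine ⟨fun ω => Φs (N ω.re) ω, ?_, ?_⟩
  · intro c hc
    have heq : ∀ ω : ℂ, c < ω.re → ω.re < τ + ε → Φs (N ω.re) ω = Φs (N c) ω := by
      intro ω h1 h2
      exact huniq' _ _ ω (hN ω.re) ((hN c).trans h1) h2
    have hb := hΦs (N c)
    refine ⟨?_, ?_, ?_, ?_⟩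
    · refine (hb.diff.mono ?_).congr ?_
      · rintro ω ⟨h1, h2⟩
        exact ⟨(hN c).trans h1, h2⟩
      · rintro ω ⟨h1, h2⟩
        exact heq ω h1 h2
    · intro ω h1 h2
      simp only [heq ω h1 h2]
      exact hb.mem ω ((hN c).trans h1) h2
    · intro ω h1 h2
      simp only [heq ω h1 h2]
      exact hb.eq ω ((hN c).trans h1) h2
    · intro ω h1 h2
      have hre : (ω + 2 * π * I).re = ω.re := by simp
      have h3 := heq (ω + 2 * π * I) (by rw [hre]; exact h1) (by rw [hre]; exact h2)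
      simp only [heq ω h1 h2, h3]
      exact hb.per ω ((hN c).trans h1) h2
  · intro ω h1 h2
    exact hΦsΨ _ ω h1 h2

end Pool.Agent.HQ
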