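import Pool.Agent.HQ.LvlTop

/-!
# HQ: conformal size and scale
-/

set_option autoImplicit false

open Complex Metric Set Filter Topology MeasureTheory
open scoped ComplexConjugate Real

namespace Pool.Agent.HQ

variable {A B : ℂ → ℂ} {s : ℝ} {z w : ℂ}

private lemma lvlRho_deriv (h : HPair A B) (hz : ‖z‖ < 1) :
    ‖deriv (fun w => A (mob z w)) 0‖ = rho A z := by
  have h1 := rho_comp_mob h.anA hz (mem_closedBall_self (x := (0 : ℂ)) zero_le_one)
  rw [mob_zero_right] at h1
  rw [← h1, rho]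
  simp

private lemma lvlRho_loc {K : ℝ} (hK : Loc K) (h : HPair A B) (hz : ‖z‖ < 1) (hw : ‖w‖ ≤ 1 / 2) :
    ‖A (mob z w) - A z‖ ≤ K * rho A z := by
  have h1 := hK.2 _ _ (h.comp_mob hz) w hw
  simp only [mob_zero_right] at h1
  rwa [lvlRho_deriv h hz] at h1

private lemma lvlRho_an (h : HPair A B) (hz : ‖z‖ < 1) :
    AnalyticOnNhd ℂ (fun w => A (mob z w)) (closedBall 0 1) := (h.comp_mob hz).anA

private lemma rho_nonneg' (hz : ‖z‖ ≤ 1) : 0 ≤ rho A z := by
  unfold rho
  have : 0 ≤ 1 - ‖z‖ ^ 2 := by nlinarith [norm_nonneg z]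
  positivity

/-- The local bound seen from `z`: for `|w| ≤ 1/2`, `|A (mob z w) - A z| ≤ K rho z`, and by the
Schwarz lemma `≤ 2 K |w| rho z`. -/
theorem local_le {K : ℝ} (hK : Loc K) (h : HPair A B) (hz : ‖z‖ < 1) (hw : ‖w‖ ≤ 1 / 2) :
    ‖A (mob z w) - A z‖ ≤ 2 * K * ‖w‖ * rho A z := by
  have hr := rho_nonneg' (A := A) hz.le
  rcases eq_or_lt_of_le hw with he | hl
  · have := lvlRho_loc hK h hz hw
    rw [he]
    linarith
  have hd : DifferentiableOn ℂ (fun w => A (mob z w)) (ball 0 (1 / 2)) := fun v hv => by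
    refine ((lvlRho_an h hz) v ?_).differentiableAt.differentiableWithinAt
    rw [mem_ball_zero_iff] at hv
    rw [mem_closedBall_zero_iff]
    linarith
  have hm : MapsTo (fun w => A (mob z w)) (ball 0 (1 / 2))
      (closedBall ((fun w => A (mob z w)) 0) (K * rho A z)) := fun v hv => by
    rw [mem_ball_zero_iff] at hv
    rw [mem_closedBall, dist_eq_norm]
    simp only [mob_zero_right]
    exact lvlRho_loc hK h hz hv.le
  have h1 := dist_le_div_mul_dist_of_mapsTo_ball hd hm (z := w) (by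
    rw [mem_ball_zero_iff]; exact hl)
  simp only [mob_zero_right, dist_eq_norm, sub_zero] at h1
  refine h1.trans (le_of_eq ?_)
  ring

private lemma lvlRho_deriv_le {K : ℝ} (hK : Loc K) (h : HPair A B) (hz : ‖z‖ < 1)
    (hw : ‖w‖ ≤ 1 / 4) : ‖deriv (fun w => A (mob z w)) w‖ ≤ 4 * K * rho A z := by
  have hs : closedBall w (1 / 4) ⊆ closedBall (0 : ℂ) (1 / 2) := by
    intro v hv
    rw [mem_closedBall, dist_eq_norm] at hv
    rw [mem_closedBall_zero_iff]
    calc ‖v‖ = ‖(v - w) + w‖ := by rw [sub_add_cancel]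
      _ ≤ ‖v - w‖ + ‖w‖ := norm_add_le _ _
      _ ≤ 1 / 2 := by linarith
  have hs1 : closedBall (0 : ℂ) (1 / 2) ⊆ closedBall 0 1 :=
    closedBall_subset_closedBall (by norm_num)
  have hd : DiffContOnCl ℂ (fun v => A (mob z v) - A z) (ball w (1 / 4)) := by
    refine DifferentiableOn.diffContOnCl ?_
    rw [closure_ball _ (by norm_num)]
    intro v hv
    exact (((lvlRho_an h hz) v (hs1 (hs hv))).differentiableAt.sub_const _).differentiableWithinAt
  have h1 := norm_deriv_le_of_forall_mem_sphere_norm_le (by norm_num : (0:ℝ) < 1 / 4) hd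
    (C := K * rho A z) (fun v hv => lvlRho_loc hK h hz (by
      have := hs (sphere_subset_closedBall hv)
      rwa [mem_closedBall_zero_iff] at this))
  have h2 : deriv (fun v => A (mob z v) - A z) w = deriv (fun w => A (mob z w)) w := by
    rw [deriv_sub_const]
  rw [h2] at h1
  refine h1.trans (le_of_eq ?_)
  ring

/-- Lower bound of the conformal size near `z`: `rho (mob z w) ≥ rho z / 4` for
`|w| ≤ 1 / (32 K)`.
(`rho (mob z w) = (1 - |w|²) |Ã' w|`, and `|Ã' w - Ã' 0| ≤ 20 K |w| ρ` for `|w| ≤ 1/4`: Cauchy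
gives `|Ã'| ≤ 4 K ρ` there, then the Schwarz lemma.) -/
theorem rho_ge {K : ℝ} (hK : Loc K) (h : HPair A B) (hz : ‖z‖ < 1) (hw : ‖w‖ ≤ 1 / (32 * K)) :
    rho A z / 4 ≤ rho A (mob z w) := by
  have hK1 : 1 ≤ K := hK.1
  have hr := rho_nonneg' (A := A) hz.le
  have hw32 : ‖w‖ ≤ 1 / 32 := hw.trans (by
    apply one_div_le_one_div_of_le <;> linarith)
  have hKw : K * ‖w‖ ≤ 1 / 32 := by
    have : K * ‖w‖ ≤ K * (1 / (32 * K)) := by gcongr
    have e : K * (1 / (32 * K)) = 1 / 32 := by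
      field_simp
    linarith
  have hd : DifferentiableOn ℂ (deriv (fun w => A (mob z w))) (ball 0 (1 / 4)) := fun v hv => by
    refine ((lvlRho_an h hz).deriv v ?_).differentiableAt.differentiableWithinAt
    rw [mem_ball_zero_iff] at hv
    rw [mem_closedBall_zero_iff]
    linarith
  have hm : MapsTo (deriv (fun w => A (mob z w))) (ball 0 (1 / 4))
      (closedBall ((deriv (fun w => A (mob z w))) 0) (5 * K * rho A z)) := fun v hv => by
    rw [mem_ball_zero_iff] at hv
    rw [mem_closedBall, dist_eq_norm]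
    have h1 := lvlRho_deriv_le hK h hz hv.le
    have h2 := lvlRho_deriv h hz
    calc _ ≤ ‖deriv (fun w => A (mob z w)) v‖ + ‖deriv (fun w => A (mob z w)) 0‖ := norm_sub_le _ _
      _ ≤ 4 * K * rho A z + rho A z := by rw [h2]; linarith
      _ ≤ 5 * K * rho A z := by nlinarith
  have h1 := dist_le_div_mul_dist_of_mapsTo_ball hd hm (z := w) (by
    rw [mem_ball_zero_iff]; linarith)
  rw [dist_eq_norm, dist_eq_norm, sub_zero] at h1
  have h3 := lvlRho_deriv h hz
  have h4 : rho A z - 20 * (K * ‖w‖) * rho A z ≤ ‖deriv (fun w => A (mob z w)) w‖ := by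
    have : ‖deriv (fun w => A (mob z w)) 0‖ - ‖deriv (fun w => A (mob z w)) w‖ ≤
        ‖deriv (fun w => A (mob z w)) w - deriv (fun w => A (mob z w)) 0‖ := by
      rw [norm_sub_rev]; exact norm_sub_norm_le _ _
    rw [h3] at this
    have e : 5 * K * rho A z / (1 / 4) * ‖w‖ = 20 * (K * ‖w‖) * rho A z := by ring
    linarith
  have h5 : rho A z * (3 / 8) ≤ ‖deriv (fun w => A (mob z w)) w‖ := by nlinarith
  have h7 : rho A (mob z w) = (1 - ‖w‖ ^ 2) * ‖deriv (fun w => A (mob z w)) w‖ := by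
    rw [← rho_comp_mob h.anA hz (by rw [mem_closedBall_zero_iff]; linarith)]
    rfl
  rw [h7]
  have h6 : 1 - 1 / 1024 ≤ 1 - ‖w‖ ^ 2 := by nlinarith [norm_nonneg w]
  nlinarith [norm_nonneg (deriv (fun w => A (mob z w)) w)]

private lemma lvlRho_quad {K : ℝ} (hK : Loc K) (h : HPair A B) (hz : ‖z‖ < 1) (hw : ‖w‖ < 1 / 2) :
    ‖A (mob z w) - A z - deriv (fun w => A (mob z w)) 0 * w‖ ≤ 8 * K * rho A z * ‖w‖ ^ 2 := by
  have hK1 : 1 ≤ K := hK.1
  have hr := rho_nonneg' (A := A) hz.le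
  set c := deriv (fun w => A (mob z w)) 0 with hc
  set g : ℂ → ℂ := fun w => A (mob z w) - A z - c * w with hg
  have hg0 : g 0 = 0 := by simp [hg]
  have han : AnalyticOnNhd ℂ (fun w => A (mob z w)) (closedBall 0 1) := lvlRho_an h hz
  have hd : DifferentiableOn ℂ g (ball 0 (1 / 2)) := fun v hv => by
    have hv' : v ∈ closedBall (0 : ℂ) 1 := by
      rw [mem_ball_zero_iff] at hv
      rw [mem_closedBall_zero_iff]
      linarith
    exact (((han v hv').differentiableAt.sub_const _).sub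
      (differentiableAt_id.const_mul c)).differentiableWithinAt
  have hm : MapsTo g (ball 0 (1 / 2)) (closedBall (g 0) (2 * K * rho A z)) := fun v hv => by
    rw [mem_ball_zero_iff] at hv
    rw [mem_closedBall, dist_eq_norm, hg0, sub_zero]
    have h1 := lvlRho_loc hK h hz hv.le
    have h2 : ‖c * v‖ ≤ rho A z * (1 / 2) := by
      rw [norm_mul, hc, lvlRho_deriv h hz]
      gcongr
    calc ‖g v‖ ≤ ‖A (mob z v) - A z‖ + ‖c * v‖ := norm_sub_le _ _
      _ ≤ 2 * K * rho A z := by nlinarith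
  have ho : (g · - g 0) =o[𝓝 0] (fun w : ℂ ↦ ‖w - 0‖ ^ 1) := by
    have h1 : HasDerivAt (fun w => A (mob z w)) c 0 :=
      (han 0 (mem_closedBall_self zero_le_one)).differentiableAt.hasDerivAt
    have h2 := h1.isLittleO
    simp only [pow_one]
    refine (h2.norm_right).congr_left fun v => ?_
    rw [hg0]
    simp only [hg, mob_zero_right, sub_zero, smul_eq_mul]
    ring
  have h1 := dist_le_mul_div_pow_of_mapsTo_ball_of_isLittleO hd hm ho (z := w) (by
    rw [mem_ball_zero_iff]; exact hw)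
  rw [dist_eq_norm, dist_eq_norm, hg0, sub_zero, sub_zero] at h1
  refine h1.trans (le_of_eq ?_)
  ring

/-- Lemma R: the conformal size is at most the scale.
Proof.  Let `Ã = A ∘ mob z`, so `|Ã' 0| = rho z =: ρ`, and by `Loc` and Cauchy,
`|Ã w - Ã 0 - Ã' 0 w| ≤ 8 K ρ |w|²` for `|w| ≤ 1/4`.  With `r₀ = 1 / (16 K)`: on `|w| = r₀`,
`|Ã w - Ã 0| ≥ ρ r₀ / 2`.  If `ρ > 4 s / r₀`, then `|Ã| > s` on `|w| = r₀`, whereas `z` is in the
closure of the connected set `lvl A s`; so `lvl A s ⊆ mob z '' ball 0 r₀`, in particular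
`0 = mob z w` with `|w| < r₀`, `|z| = |w| < r₀`, and `rho z ≤ |A' z| ≤ 8 K |A' 0| ≤ 8 K`
(Cauchy for `A` on the circle of radius `1/4` about `z`).  So `K2 = 64 K` works. -/
theorem rho_le {K : ℝ} (hK : Loc K) (h : HPair A B) (h0 : A 0 = 0) (h1 : ‖deriv A 0‖ ≤ 1)
    (hs : 1 ≤ s) (hz1 : ‖z‖ < 1) (hz : z ∈ closure (lvl A s)) : rho A z ≤ 64 * K * s := by
  by_contra hcon
  push Not at hcon
  have hK1 : 1 ≤ K := hK.1
  have hAc : ContinuousOn A (closedBall 0 1) := h.anA.continuousOn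
  have hAz : ‖A z‖ ≤ s := (norm_le_of_mem_closure hAc hz).2
  set r0 : ℝ := 1 / (16 * K) with hr0
  have hr0p : 0 < r0 := by positivity
  have hr0s : r0 ≤ 1 / 16 := by
    rw [hr0]; apply one_div_le_one_div_of_le <;> linarith
  have hKr : K * r0 = 1 / 16 := by rw [hr0]; field_simp
  -- no point of the level set at pseudo-hyperbolic distance `r0`
  have key : ∀ v ∈ lvl A s, ‖mob (-z) v‖ ≠ r0 := by
    intro v hv he
    have hvb : ‖v‖ < 1 := by
      have := lvl_subset_ball hv
      rwa [mem_ball_zero_iff] at this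
    have hz' : ‖-z‖ < 1 := by rwa [norm_neg]
    have hvm : mob z (mob (-z) v) = v := by
      have := mob_neg_mob hz' hvb.le
      rwa [neg_neg] at this
    have hq := lvlRho_quad hK h hz1 (w := mob (-z) v) (by rw [he]; linarith)
    rw [hvm, he] at hq
    have h2 : ‖deriv (fun w => A (mob z w)) 0 * mob (-z) v‖ = rho A z * r0 := by
      rw [norm_mul, lvlRho_deriv h hz1, he]
    have h3 : rho A z * r0 - 8 * K * rho A z * r0 ^ 2 ≤ ‖A v - A z‖ := by
      have := norm_sub_norm_le (deriv (fun w => A (mob z w)) 0 * mob (-z) v)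
        (deriv (fun w => A (mob z w)) 0 * mob (-z) v - (A v - A z))
      have e : deriv (fun w => A (mob z w)) 0 * mob (-z) v
          - (deriv (fun w => A (mob z w)) 0 * mob (-z) v - (A v - A z)) = A v - A z := by ring
      rw [e, h2, norm_sub_rev (deriv (fun w => A (mob z w)) 0 * mob (-z) v)] at this
      linarith
    have h4 : ‖A v - A z‖ ≤ ‖A v‖ + ‖A z‖ := norm_sub_le _ _
    have h5 := norm_lt_of_mem_lvl hv
    have h6 : 8 * K * rho A z * r0 ^ 2 = rho A z * r0 / 2 := by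
      have : 8 * K * rho A z * r0 ^ 2 = 8 * (K * r0) * (rho A z * r0) := by ring
      rw [this, hKr]; ring
    have h7 : 64 * K * s * r0 < rho A z * r0 := by gcongr
    have h8 : 64 * K * s * r0 = 4 * s := by
      have : 64 * K * s * r0 = 64 * (K * r0) * s := by ring
      rw [this, hKr]; ring
    linarith
  -- the function `v ↦ ‖mob (-z) v‖` on the level set
  have hcont : ContinuousOn (fun v => ‖mob (-z) v‖) (lvl A s) := by
    intro v hv
    have hvb : ‖v‖ < 1 := by
      have := lvl_subset_ball hv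
      rwa [mem_ball_zero_iff] at this
    exact ((analyticAt_mob (by rwa [norm_neg]) hvb.le).continuousAt.norm).continuousWithinAt
  have hpre : IsPreconnected ((fun v => ‖mob (-z) v‖) '' lvl A s) :=
    (isPreconnected_connectedComponentIn).image _ hcont
  obtain ⟨v, hv, hvr⟩ : ∃ v ∈ lvl A s, ‖mob (-z) v‖ < r0 := by
    have hca : ContinuousAt (fun v => ‖mob (-z) v‖) z :=
      (analyticAt_mob (by rwa [norm_neg]) hz1.le).continuousAt.norm
    have hz0 : mob (-z) z = 0 := by simp [mob]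
    have : {v | ‖mob (-z) v‖ < r0} ∈ 𝓝 z :=
      hca.eventually_lt_const (by simp only [hz0, norm_zero]; exact hr0p)
    obtain ⟨v, hv1, hv2⟩ := mem_closure_iff_nhds.1 hz _ this
    exact ⟨v, hv2, hv1⟩
  have h0mem : (0 : ℂ) ∈ lvl A s := zero_mem_lvl h0 (by linarith)
  have hzr : ‖z‖ < r0 := by
    by_contra hge
    push Not at hge
    have e0 : ‖mob (-z) 0‖ = ‖z‖ := by rw [mob_zero_right, norm_neg]
    have : r0 ∈ (fun v => ‖mob (-z) v‖) '' lvl A s :=
      hpre.Icc_subset (mem_image_of_mem _ hv) (mem_image_of_mem _ h0mem)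
        ⟨hvr.le, by simp only [e0]; exact hge⟩
    obtain ⟨u, hu, hur⟩ := this
    exact key u hu hur
  -- Cauchy
  have h9 : ‖deriv A z‖ ≤ 4 * K := by
    have h10 := lvlRho_deriv_le hK h (z := 0) (w := z) (by simp) (by linarith)
    simp only [mob_zero_left] at h10
    refine h10.trans ?_
    have : rho A 0 ≤ 1 := by
      rw [rho]; simpa using h1
    nlinarith
  have h11 : rho A z ≤ ‖deriv A z‖ := by
    rw [rho]
    nlinarith [norm_nonneg z, norm_nonneg (deriv A z)]
  nlinarith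

end Pool.Agent.HQ
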