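import Pool.Agent.HQ.Defs

/-!
# HQ: components of sublevel sets
-/

set_option autoImplicit false

open Complex Metric Set Filter Topology MeasureTheory
open scoped ComplexConjugate Real

namespace Pool.Agent.HQ

variable {A B : ℂ → ℂ} {s : ℝ} {z w : ℂ}

theorem lvl_subset_ball : lvl A s ⊆ ball 0 1 := fun _ hz => (connectedComponentIn_subset _ _ hz).1

theorem norm_lt_of_mem_lvl (h : z ∈ lvl A s) : ‖A z‖ < s := (connectedComponentIn_subset _ _ h).2

theorem zero_mem_lvl (h0 : A 0 = 0) (hs : 0 < s) : (0 : ℂ) ∈ lvl A s := by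
  refine mem_connectedComponentIn ⟨mem_ball_self one_pos, ?_⟩
  rw [h0, norm_zero]
  exact hs

private theorem isOpen_sub_LvlTop (hA : ContinuousOn A (closedBall 0 1)) (s : ℝ) :
    IsOpen {z ∈ ball (0 : ℂ) 1 | ‖A z‖ < s} := by
  have h1 : ContinuousOn (fun z => ‖A z‖) (ball 0 1) := (hA.mono ball_subset_closedBall).norm
  exact h1.isOpen_inter_preimage isOpen_ball isOpen_Iio

theorem isOpen_lvl (hA : ContinuousOn A (closedBall 0 1)) : IsOpen (lvl A s) :=
  (isOpen_sub_LvlTop hA s).connectedComponentIn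

theorem lvl_mono {s' : ℝ} (h : s ≤ s') : lvl A s ⊆ lvl A s' :=
  connectedComponentIn_mono _ fun _ hz => ⟨hz.1, hz.2.trans_le h⟩

theorem joinedIn_lvl (hA : ContinuousOn A (closedBall 0 1)) (hz : z ∈ lvl A s)
    (hw : w ∈ lvl A s) : JoinedIn (lvl A s) z w := by
  have h1 : IsConnected (lvl A s) := ⟨⟨z, hz⟩, isPreconnected_connectedComponentIn⟩
  have h2 : IsPathConnected (lvl A s) := (isOpen_lvl hA).isConnected_iff_isPathConnected.1 h1
  exact h2.joinedIn z hz w hw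

/-- A connected set in `{|A| < s}` which meets `lvl A s` is contained in it. -/
theorem subset_lvl {S : Set ℂ} (hS : IsPreconnected S) (hS1 : S ⊆ ball 0 1)
    (hS2 : ∀ v ∈ S, ‖A v‖ < s) (hz : z ∈ S) (hzl : z ∈ lvl A s) : S ⊆ lvl A s := by
  have h1 : lvl A s = connectedComponentIn {z ∈ ball (0 : ℂ) 1 | ‖A z‖ < s} z :=
    connectedComponentIn_eq hzl
  rw [h1]
  exact hS.subset_connectedComponentIn hz fun v hv => ⟨hS1 hv, hS2 v hv⟩

theorem norm_le_of_mem_closure (hA : ContinuousOn A (closedBall 0 1))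
    (h : z ∈ closure (lvl A s)) : ‖z‖ ≤ 1 ∧ ‖A z‖ ≤ s := by
  have h1 : lvl A s ⊆ closedBall 0 1 := lvl_subset_ball.trans ball_subset_closedBall
  have hz : z ∈ closedBall (0 : ℂ) 1 := closure_minimal h1 isClosed_closedBall h
  refine ⟨mem_closedBall_zero_iff.1 hz, ?_⟩
  have h2 : A z ∈ closure (A '' lvl A s) := ((hA z hz).mono h1).mem_closure_image h
  have h3 : A '' lvl A s ⊆ closedBall 0 s := by
    rintro _ ⟨w, hw, rfl⟩
    exact mem_closedBall_zero_iff.2 (norm_lt_of_mem_lvl hw).le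
  exact mem_closedBall_zero_iff.1 (closure_minimal h3 isClosed_closedBall h2)

/-- A point of the open disc in the closure of `lvl A s` at which `|A| < s'`, `s ≤ s'`, is in
`lvl A s'`. -/
theorem mem_lvl_of_closure (hA : ContinuousOn A (closedBall 0 1)) {s' : ℝ} (hs : s ≤ s')
    (hz : z ∈ closure (lvl A s)) (hz1 : ‖z‖ < 1) (hz2 : ‖A z‖ < s') : z ∈ lvl A s' := by
  have h1 : z ∈ {z ∈ ball (0 : ℂ) 1 | ‖A z‖ < s'} := ⟨mem_ball_zero_iff.2 hz1, hz2⟩
  obtain ⟨ε, hε, hsub⟩ := Metric.isOpen_iff.1 (isOpen_sub_LvlTop hA s') z h1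
  obtain ⟨w, hw, hwd⟩ := Metric.mem_closure_iff.1 hz ε hε
  have h2 : w ∈ ball z ε := by
    rw [mem_ball, dist_comm]
    exact hwd
  exact subset_lvl (convex_ball z ε).isPreconnected (fun v hv => (hsub hv).1)
    (fun v hv => (hsub hv).2) h2 (lvl_mono hs hw) (mem_ball_self hε)

theorem norm_eq_of_mem_frontier (hA : ContinuousOn A (closedBall 0 1))
    (h : z ∈ frontier (lvl A s)) (hz : ‖z‖ < 1) : ‖A z‖ = s := by
  refine le_antisymm (norm_le_of_mem_closure hA h.1).2 (le_of_not_gt fun h1 => h.2 ?_)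
  rw [(isOpen_lvl hA).interior_eq]
  exact mem_lvl_of_closure hA le_rfl h.1 hz h1

end Pool.Agent.HQ
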