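import Pool.Agent.HQ.SMean

/-!
# HQ: the kernel of the potential
-/

set_option autoImplicit false

open Complex Metric Set Filter Topology MeasureTheory
open scoped ComplexConjugate Real

namespace Pool.Agent.HQ

variable {N : Set ℂ} {ψ : ℂ → ℝ} {R M : ℝ}

private theorem PotK_ker_eq {ζ z : ℂ} (hζ : ‖ζ‖ < 1) (hz : ‖z‖ ≤ 1) :
    ker ζ z = 1 - ‖mob (-ζ) z‖ ^ 2 := by
  rw [one_sub_normSq_mob (by rwa [norm_neg]) hz, ker, norm_neg, map_neg, neg_mul,
    ← sub_eq_add_neg]

/-- `ker ζ` has the exact super mean value inequality `avg ≤ value` on circles whose closed disc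
is in the unit disc: `ker ζ z = 1 - |f z|²`, `f z = (z - ζ) / (1 - conj ζ z)`, and
`avg |f|² ≥ |f z|²`. -/
theorem ker_avg_le {ζ z : ℂ} (hζ : ‖ζ‖ < 1) {r : ℝ} (hr : 0 < r) (hz : ‖z‖ + r < 1) :
    Real.circleAverage (ker ζ) z r ≤ ker ζ z := by
  have hζ' : ‖-ζ‖ < 1 := by rwa [norm_neg]
  have hin : ∀ w ∈ closedBall z r, ‖w‖ ≤ 1 := by
    intro w hw
    have h1 : ‖w - z‖ ≤ r := by simpa [dist_eq_norm] using hw
    have h2 : ‖w‖ ≤ ‖w - z‖ + ‖z‖ := by
      have := norm_add_le (w - z) z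
      simpa using this
    linarith
  have hz1 : ‖z‖ ≤ 1 := by linarith
  set f : ℂ → ℂ := mob (-ζ) with hf
  have hd : DifferentiableOn ℂ f (closedBall z r) := fun w hw =>
    (analyticAt_mob hζ' (hin w hw)).differentiableAt.differentiableWithinAt
  have hc : ContinuousOn f (sphere z r) := hd.continuousOn.mono sphere_subset_closedBall
  have havg : Real.circleAverage f z r = f z := by
    refine DiffContOnCl.circleAverage ?_
    rw [abs_of_pos hr]
    exact hd.diffContOnCl_ball subset_rfl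
  set l : ℂ → ℂ := fun w => (1 + conj (f z) * f z) - (2 * conj (f z)) * f w with hl
  have hcl : ContinuousOn l (sphere z r) :=
    continuousOn_const.sub (continuousOn_const.mul hc)
  have hlavg : Real.circleAverage l z r = 1 - conj (f z) * f z := by
    have hfi : CircleIntegrable f z r := hc.circleIntegrable hr.le
    have h2 : Real.circleAverage (fun w => (2 * conj (f z)) * f w) z r =
        (2 * conj (f z)) * Real.circleAverage f z r :=
      Real.circleAverage_fun_smul (a := 2 * conj (f z)) (f := f)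
    have h3 : CircleIntegrable (fun w => (2 * conj (f z)) * f w) z r :=
      (continuousOn_const.mul hc).circleIntegrable hr.le
    rw [hl, Real.circleAverage_fun_sub (circleIntegrable_const _ _ _) h3, h2, havg,
      Real.circleAverage_const]
    ring
  have hlre : Real.circleAverage (fun w => (l w).re) z r = (1 - conj (f z) * f z).re := by
    have := Complex.reCLM.circleAverage_comp_comm (hcl.circleIntegrable hr.le)
    rw [hlavg] at this
    exact this
  have hire : CircleIntegrable (fun w => (l w).re) z r :=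
    (Complex.continuous_re.comp_continuousOn hcl).circleIntegrable hr.le
  have hcg : ContinuousOn (fun w => 1 - ‖f w‖ ^ 2) (sphere z r) :=
    continuousOn_const.sub (hc.norm.pow 2)
  have e1 : Real.circleAverage (ker ζ) z r =
      Real.circleAverage (fun w => 1 - ‖f w‖ ^ 2) z r := by
    refine Real.circleAverage_congr_sphere fun w hw => ?_
    rw [abs_of_pos hr] at hw
    exact PotK_ker_eq hζ (hin w (sphere_subset_closedBall hw))
  rw [e1, PotK_ker_eq hζ hz1]
  have e2 : 1 - ‖mob (-ζ) z‖ ^ 2 = (1 - conj (f z) * f z).re := by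
    rw [← hf, ← normSq_eq_norm_sq]
    simp only [normSq_apply, sub_re, mul_re, conj_re, conj_im, one_re]
    ring
  rw [e2, ← hlre]
  refine Real.circleAverage_mono (hcg.circleIntegrable hr.le) hire fun w _ => ?_
  have h3 : 0 ≤ normSq (f w - f z) := normSq_nonneg _
  rw [← normSq_eq_norm_sq, hl]
  simp only [normSq_apply, sub_re, sub_im, mul_re, mul_im, conj_re, conj_im, one_re, add_re,
    re_ofNat, im_ofNat] at h3 ⊢
  nlinarith [h3]

theorem ker_nonneg {ζ z : ℂ} (hζ : ‖ζ‖ < 1) (hz : ‖z‖ ≤ 1) : 0 ≤ ker ζ z := by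
  have h1 : 0 ≤ 1 - ‖ζ‖ ^ 2 := by nlinarith [norm_nonneg ζ]
  have h2 : 0 ≤ 1 - ‖z‖ ^ 2 := by nlinarith [norm_nonneg z]
  unfold ker
  positivity

/-- `ker (mob z w) z = 1 - |w|²`. -/
theorem ker_mob {z w : ℂ} (hz : ‖z‖ < 1) (hw : ‖w‖ < 1) : ker (mob z w) z = 1 - ‖w‖ ^ 2 := by
  have hne := one_add_conj_mul_ne hz hw.le
  have hne' : 1 + conj w * z ≠ 0 := one_add_conj_mul_ne hw hz.le
  have h1 : 1 - conj (mob z w) * z = ((1 - ‖z‖ ^ 2 : ℝ) : ℂ) / (1 + conj w * z) := by
    have h2 : ((‖z‖ ^ 2 : ℝ) : ℂ) = conj z * z := by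
      rw [mul_comm, mul_conj, normSq_eq_norm_sq]
    have h3 : conj (mob z w) = (conj w + conj z) / (1 + conj w * z) := by
      rw [mob, map_div₀, map_add, map_add, map_mul, map_one, conj_conj]
      congr 1
      ring
    rw [ofReal_sub, h2, h3, eq_div_iff hne', sub_mul, ofReal_one]
    field_simp
    ring
  have hN : ‖1 + conj w * z‖ = ‖1 + conj z * w‖ := by
    rw [← norm_conj (1 + conj w * z)]
    congr 1
    rw [map_add, map_mul, map_one, conj_conj]
    ring
  have hp : 0 < ‖1 + conj z * w‖ := norm_pos_iff.2 hne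
  have hz2 : 0 < 1 - ‖z‖ ^ 2 := by nlinarith [norm_nonneg z]
  unfold ker
  rw [one_sub_normSq_mob hz hw.le, h1, norm_div, hN, norm_real, Real.norm_of_nonneg hz2.le]
  field_simp

theorem pot_nonneg (hR1 : R < 1) (hN : N ⊆ closedBall 0 R) (hNm : MeasurableSet N)
    (hψ0 : ∀ ζ ∈ N, 0 ≤ ψ ζ) {z : ℂ} (hz : ‖z‖ ≤ 1) : 0 ≤ pot N ψ z := by
  unfold pot
  refine setIntegral_nonneg hNm fun ζ hζ => ?_
  have h1 : ‖ζ‖ < 1 := lt_of_le_of_lt (mem_closedBall_zero_iff.1 (hN hζ)) hR1
  exact mul_nonneg (hψ0 ζ hζ) (div_nonneg (ker_nonneg h1 hz) (sq_nonneg _))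

theorem pot_zero (hR1 : R < 1) (hN : N ⊆ closedBall 0 R) (hNm : MeasurableSet N) :
    pot N ψ 0 = ∫ ζ in N, ψ ζ / (1 - ‖ζ‖ ^ 2) := by
  unfold pot
  refine setIntegral_congr_fun hNm fun ζ hζ => ?_
  have h1 : ‖ζ‖ < 1 := lt_of_le_of_lt (mem_closedBall_zero_iff.1 (hN hζ)) hR1
  have h2 : 0 < 1 - ‖ζ‖ ^ 2 := by nlinarith [norm_nonneg ζ]
  have h3 : ker ζ 0 = 1 - ‖ζ‖ ^ 2 := by
    unfold ker
    simp
  rw [h3]
  field_simp

end Pool.Agent.HQ
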