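import Pool.Agent.HQ.Defs

/-!
# HQ: the super mean value property and its calculus
-/

set_option autoImplicit false

open Complex Metric Set Filter Topology MeasureTheory
open scoped ComplexConjugate Real

namespace Pool.Agent.HQ

variable {W V : ℂ → ℝ} {z : ℂ} {f : ℂ → ℂ}

private theorem ev_sphere_SMean {p : ℂ → Prop} {z : ℂ} (h : ∀ᶠ w in 𝓝 z, p w) :
    ∀ᶠ r in 𝓝[>] (0 : ℝ), 0 < r ∧ ∀ w ∈ closedBall z r, p w := by
  obtain ⟨δ, hδ, hp⟩ := Metric.eventually_nhds_iff_ball.1 h
  filter_upwards [Ioo_mem_nhdsGT hδ] with r hr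
  exact ⟨hr.1, fun w hw => hp w (closedBall_subset_ball hr.2 hw)⟩

theorem SMean.congr (h : SMean W z) (e : W =ᶠ[𝓝 z] V) : SMean V z := by
  intro ε hε
  filter_upwards [h ε hε, ev_sphere_SMean e] with r h1 h2
  have h3 : Set.EqOn W V (sphere z |r|) := fun w hw => by
    rw [abs_of_pos h2.1] at hw
    exact h2.2 w (sphere_subset_closedBall hw)
  refine ⟨(circleIntegrable_congr h3).1 h1.1, ?_⟩
  rw [← Real.circleAverage_congr_sphere h3, ← e.self_of_nhds]
  exact h1.2

theorem smean_const (c : ℝ) (z : ℂ) : SMean (fun _ => c) z := by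
  intro ε hε
  refine Eventually.of_forall fun r => ⟨circleIntegrable_const c z r, ?_⟩
  rw [Real.circleAverage_const]
  nlinarith [mul_nonneg hε.le (sq_nonneg r)]

theorem SMean.add (h1 : SMean W z) (h2 : SMean V z) : SMean (fun w => W w + V w) z := by
  intro ε hε
  filter_upwards [h1 (ε / 2) (by positivity), h2 (ε / 2) (by positivity)] with r a1 a2
  refine ⟨a1.1.add a2.1, ?_⟩
  rw [Real.circleAverage_fun_add a1.1 a2.1]
  linarith [a1.2, a2.2]

theorem SMean.const_mul (h : SMean W z) {c : ℝ} (hc : 0 ≤ c) : SMean (fun w => c * W w) z := by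
  intro ε hε
  filter_upwards [h (ε / (c + 1)) (by positivity)] with r a1
  refine ⟨a1.1.const_smul (a := c), ?_⟩
  have h1 : Real.circleAverage (fun w => c * W w) z r = c * Real.circleAverage W z r :=
    Real.circleAverage_fun_smul (a := c) (f := W)
  rw [h1]
  have h2 : c * Real.circleAverage W z r ≤ c * (W z + ε / (c + 1) * r ^ 2) :=
    mul_le_mul_of_nonneg_left a1.2 hc
  have h3 : c * (ε / (c + 1)) ≤ ε := by
    rw [← mul_div_assoc, div_le_iff₀ (by positivity)]
    nlinarith
  nlinarith [mul_le_mul_of_nonneg_right h3 (sq_nonneg r)]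

theorem SMean.min (h1 : SMean W z) (h2 : SMean V z) : SMean (fun w => min (W w) (V w)) z := by
  intro ε hε
  filter_upwards [h1 ε hε, h2 ε hε] with r a1 a2
  have hi : CircleIntegrable (fun w => Min.min (W w) (V w)) z r :=
    ⟨MeasureTheory.Integrable.inf a1.1.1 a2.1.1, MeasureTheory.Integrable.inf a1.1.2 a2.1.2⟩
  refine ⟨hi, ?_⟩
  have b1 : Real.circleAverage (fun w => Min.min (W w) (V w)) z r ≤ Real.circleAverage W z r :=
    Real.circleAverage_mono hi a1.1 fun x _ => min_le_left _ _
  have b2 : Real.circleAverage (fun w => Min.min (W w) (V w)) z r ≤ Real.circleAverage V z r :=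
    Real.circleAverage_mono hi a2.1 fun x _ => min_le_right _ _
  rw [← min_add_add_right]
  exact le_min (b1.trans a1.2) (b2.trans a2.2)

private theorem average_SMean (hf : AnalyticAt ℂ f z) :
    ∀ᶠ r in 𝓝[>] (0 : ℝ), 0 < r ∧ CircleIntegrable f z r ∧ Real.circleAverage f z r = f z ∧
      ContinuousOn f (sphere z r) := by
  filter_upwards [ev_sphere_SMean hf.eventually_analyticAt] with r hr
  have h1 : DifferentiableOn ℂ f (closedBall z r) := fun w hw =>
    (hr.2 w hw).differentiableAt.differentiableWithinAt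
  have h2 : ContinuousOn f (sphere z r) := h1.continuousOn.mono sphere_subset_closedBall
  refine ⟨hr.1, h2.circleIntegrable hr.1.le, ?_, h2⟩
  refine DiffContOnCl.circleAverage ?_
  rw [abs_of_pos hr.1]
  exact h1.diffContOnCl_ball subset_rfl

/-- Real parts of analytic functions have the exact mean value property
(`DiffContOnCl.circleAverage`). -/
theorem smean_re (hf : AnalyticAt ℂ f z) : SMean (fun w => (f w).re) z := by
  intro ε hε
  filter_upwards [average_SMean hf] with r hr
  have h1 : Real.circleAverage (fun w => (f w).re) z r = (f z).re := by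
    have := Complex.reCLM.circleAverage_comp_comm hr.2.1
    rw [hr.2.2.1] at this
    exact this
  refine ⟨?_, ?_⟩
  · exact ((Complex.continuous_re.comp_continuousOn hr.2.2.2)).circleIntegrable hr.1.le
  · rw [h1]
    nlinarith [mul_nonneg hε.le (sq_nonneg r)]

/-- The circle average of `|f|^2` is `|f z|^2 + r^2 |f' z|^2 + o(r^2)`.
Proof: `f (z+h) = f z + h f' z + h^2 g h` with `g` continuous at `0`; the averages of
`2 Re (conj (f z) (f (z+h) - f z))` vanish exactly (mean value property), and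
`|f (z+h) - f z|^2 = r^2 |f' z|^2 + O(r^3)`. -/
theorem circleAverage_normSq (hf : AnalyticAt ℂ f z) {ε : ℝ} (hε : 0 < ε) :
    ∀ᶠ r in 𝓝[>] (0 : ℝ), CircleIntegrable (fun w => ‖f w‖ ^ 2) z r ∧
      |Real.circleAverage (fun w => ‖f w‖ ^ 2) z r - ‖f z‖ ^ 2 - ‖deriv f z‖ ^ 2 * r ^ 2|
        ≤ ε * r ^ 2 := by
  set a : ℝ := ‖deriv f z‖ with ha
  have ha0 : 0 ≤ a := norm_nonneg _
  -- a small constant
  obtain ⟨η, hη0, hη1⟩ : ∃ η : ℝ, 0 < η ∧ η * (2 * a + η) ≤ ε := by
    refine ⟨Min.min 1 (ε / (2 * a + 1)), by positivity, ?_⟩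
    have h1 : Min.min 1 (ε / (2 * a + 1)) ≤ 1 := min_le_left _ _
    have h2 : Min.min 1 (ε / (2 * a + 1)) ≤ ε / (2 * a + 1) := min_le_right _ _
    have h0 : 0 ≤ Min.min 1 (ε / (2 * a + 1)) := by positivity
    calc Min.min 1 (ε / (2 * a + 1)) * (2 * a + Min.min 1 (ε / (2 * a + 1)))
        ≤ ε / (2 * a + 1) * (2 * a + 1) := by
          apply mul_le_mul h2 (by linarith) (by positivity) (by positivity)
      _ = ε := by field_simp
  have hd : ∀ᶠ w in 𝓝 z, ‖f w - f z - (w - z) * deriv f z‖ ≤ η * ‖w - z‖ := by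
    have h1 := hf.differentiableAt.hasDerivAt
    have h2 := (hasDerivAt_iff_isLittleO.1 h1).bound hη0
    filter_upwards [h2] with w hw
    simpa [smul_eq_mul] using hw
  set g : ℂ → ℝ := fun w => ‖f w - f z‖ ^ 2 with hg
  filter_upwards [average_SMean hf, ev_sphere_SMean hd] with r hr hs
  have hr0 : 0 < r := hr.1
  have hcg : ContinuousOn g (sphere z r) := by
    exact ((hr.2.2.2.sub continuousOn_const).norm).pow 2
  have hcf : ContinuousOn (fun w => ‖f w‖ ^ 2) (sphere z r) := (hr.2.2.2.norm).pow 2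
  refine ⟨hcf.circleIntegrable hr0.le, ?_⟩
  -- the linear term
  set l : ℂ → ℂ := fun w => conj (f z) * (f w - f z) with hl
  have hcl : ContinuousOn l (sphere z r) :=
    continuousOn_const.mul (hr.2.2.2.sub continuousOn_const)
  have hlavg : Real.circleAverage l z r = 0 := by
    have h1 : Real.circleAverage (fun w => f w - f z) z r = 0 := by
      rw [Real.circleAverage_fun_sub hr.2.1 (circleIntegrable_const _ _ _), hr.2.2.1,
        Real.circleAverage_const, sub_self]
    have h2 : Real.circleAverage l z r = conj (f z) * Real.circleAverage (fun w => f w - f z) z r :=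
      Real.circleAverage_fun_smul (a := conj (f z)) (f := fun w => f w - f z)
    rw [h2, h1, mul_zero]
  have hlre : Real.circleAverage (fun w => (l w).re) z r = 0 := by
    have := Complex.reCLM.circleAverage_comp_comm (hcl.circleIntegrable hr0.le)
    rw [hlavg, map_zero] at this
    exact this
  have hire : CircleIntegrable (fun w => (l w).re) z r :=
    (Complex.continuous_re.comp_continuousOn hcl).circleIntegrable hr0.le
  have hig : CircleIntegrable g z r := hcg.circleIntegrable hr0.le
  have hexp : (fun w => ‖f w‖ ^ 2) = fun w => (‖f z‖ ^ 2 + 2 * (l w).re) + g w := by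
    funext w
    have h1 : ‖f w‖ ^ 2 = normSq (f w) := (normSq_eq_norm_sq _).symm
    have h2 : ‖f z‖ ^ 2 = normSq (f z) := (normSq_eq_norm_sq _).symm
    have h3 : g w = normSq (f w - f z) := (normSq_eq_norm_sq _).symm
    rw [h1, h2, h3, hl]
    simp only [normSq_apply, sub_re, sub_im, mul_re, conj_re, conj_im]
    ring
  have hi2 : CircleIntegrable (fun w => 2 * (l w).re) z r := hire.const_smul (a := (2 : ℝ))
  have havg : Real.circleAverage (fun w => ‖f w‖ ^ 2) z r =
      ‖f z‖ ^ 2 + Real.circleAverage g z r := by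
    have hi3 : CircleIntegrable (fun w => ‖f z‖ ^ 2 + 2 * (l w).re) z r :=
      (circleIntegrable_const _ _ _).add hi2
    rw [hexp, Real.circleAverage_fun_add hi3 hig,
      Real.circleAverage_fun_add (circleIntegrable_const _ _ _) hi2, Real.circleAverage_const]
    have h2 : Real.circleAverage (fun w => 2 * (l w).re) z r =
        2 * Real.circleAverage (fun w => (l w).re) z r :=
      Real.circleAverage_fun_smul (a := (2 : ℝ)) (f := fun w => (l w).re)
    rw [h2, hlre, mul_zero, add_zero]
  -- the quadratic term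
  have hbd : ∀ w ∈ sphere z |r|, a ^ 2 * r ^ 2 - ε * r ^ 2 ≤ g w ∧
      g w ≤ a ^ 2 * r ^ 2 + ε * r ^ 2 := by
    intro w hw
    rw [abs_of_pos hr0] at hw
    have hwr : ‖w - z‖ = r := by simpa [dist_eq_norm] using hw
    have h1 := hs.2 w (sphere_subset_closedBall hw)
    rw [hwr] at h1
    have h2 : ‖(w - z) * deriv f z‖ = r * a := by rw [norm_mul, hwr]
    have h3 : |‖f w - f z‖ - r * a| ≤ η * r := by
      rw [← h2]
      exact (abs_norm_sub_norm_le _ _).trans h1
    have h4 := abs_le.1 h3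
    have h5 : 0 ≤ ‖f w - f z‖ := norm_nonneg _
    have h6 : ‖f w - f z‖ + r * a ≤ (2 * a + η) * r := by linarith [h4.2]
    have h7 : |g w - (r * a) ^ 2| ≤ ε * r ^ 2 := by
      have h8 : g w - (r * a) ^ 2 = (‖f w - f z‖ - r * a) * (‖f w - f z‖ + r * a) := by
        simp only [hg]
        ring
      rw [h8, abs_mul, abs_of_nonneg (by positivity : 0 ≤ ‖f w - f z‖ + r * a)]
      calc |‖f w - f z‖ - r * a| * (‖f w - f z‖ + r * a) ≤ (η * r) * ((2 * a + η) * r) :=
            mul_le_mul h3 h6 (by positivity) (by positivity)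
        _ = (η * (2 * a + η)) * r ^ 2 := by ring
        _ ≤ ε * r ^ 2 := mul_le_mul_of_nonneg_right hη1 (sq_nonneg r)
    have h9 := abs_le.1 h7
    constructor <;> nlinarith [h9.1, h9.2]
  have hup : Real.circleAverage g z r ≤ a ^ 2 * r ^ 2 + ε * r ^ 2 :=
    Real.circleAverage_mono_on_of_le_circle hig fun w hw => (hbd w hw).2
  have hlo : a ^ 2 * r ^ 2 - ε * r ^ 2 ≤ Real.circleAverage g z r := by
    have h1 : Real.circleAverage (fun _ : ℂ => a ^ 2 * r ^ 2 - ε * r ^ 2) z r ≤
        Real.circleAverage g z r :=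
      Real.circleAverage_mono (circleIntegrable_const _ _ _) hig fun w hw => (hbd w hw).1
    rwa [Real.circleAverage_const] at h1
  rw [havg, abs_le]
  constructor <;> linarith

/-- `Re f + Σ c_i |f_i|^2` has the super mean value property when `Σ c_i |f_i'|^2 < 0`; the two
term version used in `Travel` (`c_1 > 0 > c_2`). -/
theorem smean_normSq_sub {g : ℂ → ℂ} (hf : AnalyticAt ℂ f z) (hg : AnalyticAt ℂ g z)
    (h : ‖deriv f z‖ ^ 2 ≤ ‖deriv g z‖ ^ 2) : SMean (fun w => ‖f w‖ ^ 2 - ‖g w‖ ^ 2) z := by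
  intro ε hε
  filter_upwards [circleAverage_normSq hf (half_pos hε), circleAverage_normSq hg (half_pos hε)]
    with r a1 a2
  refine ⟨a1.1.sub a2.1, ?_⟩
  rw [Real.circleAverage_fun_sub a1.1 a2.1]
  have b1 := (abs_le.1 a1.2).2
  have b2 := (abs_le.1 a2.2).1
  nlinarith [mul_le_mul_of_nonneg_right h (sq_nonneg r)]

end Pool.Agent.HQ
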