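import Pool.Agent.HQ.LmapBox

/-! HQ exponent 3, file Sep: the separation lemma (section 7). -/

set_option autoImplicit false

open Complex Metric Set Filter Topology
open scoped ComplexConjugate Real

namespace Pool.Agent.HQ

/-- Continuous nonvanishing functions on `U` have continuous logarithms. -/
def HasLogs (U : Set ℂ) : Prop :=
  ∀ g : ℂ → ℂ, ContinuousOn g U → (∀ z ∈ U, g z ≠ 0) →
    ∃ f : ℂ → ℂ, ContinuousOn f U ∧ ∀ z ∈ U, exp (f z) = g z

/-- On a preconnected set a continuous real function that avoids `a + ℤ p` stays between two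
consecutive values. -/
private theorem sep_stay {S : Set ℂ} (hS : IsPreconnected S) {h : ℂ → ℝ} (hh : ContinuousOn h S)
    {c d : ℝ} (hc : ∀ z ∈ S, h z ≠ c) (hd : ∀ z ∈ S, h z ≠ d) {x y : ℂ} (hx : x ∈ S) (hy : y ∈ S)
    (h1 : c < h x) (h2 : h x < d) : c < h y ∧ h y < d := by
  constructor
  · by_contra hcon
    push Not at hcon
    obtain ⟨w, hw, hwc⟩ := hS.intermediate_value hy hx hh ⟨hcon, h1.le⟩
    exact hc w hw hwc
  · by_contra hcon
    push Not at hcon
    obtain ⟨w, hw, hwc⟩ := hS.intermediate_value hx hy hh ⟨h2.le, hcon⟩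
    exact hd w hw hwc

/-- SEPARATION LEMMA. -/
theorem sep_lemma {U : Set ℂ} (hU : HasLogs U) {Φ : ℂ → ℝ} (hΦ : ContinuousOn Φ U)
    {Γ R : Set ℂ} (hΓR : ∀ z ∈ U, Φ z = 0 → z ∈ Γ ∨ z ∈ R) (hΓ0 : ∀ z ∈ Γ, z ∈ U → z ∉ R)
    (hΓ : ∀ z ∈ U, z ∈ closure (Γ ∩ U) → z ∈ Γ) (hR : ∀ z ∈ U, z ∈ closure (R ∩ U) → z ∈ R)
    {S T : Set ℂ} (hS : IsPreconnected S) (hSU : S ⊆ U) (hSR : ∀ z ∈ S, z ∉ R)
    (hT : IsPreconnected T) (hTU : T ⊆ U) {x y : ℂ} (hxS : x ∈ S) (hyS : y ∈ S) (hxT : x ∈ T)
    (hyT : y ∈ T) (hx : Φ x < 0) (hy : 0 < Φ y) : ∃ z ∈ T, z ∈ Γ := by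
  by_contra hcon
  push Not at hcon
  -- both sets are nonempty
  have hΓne : (Γ ∩ U).Nonempty := by
    obtain ⟨w, hw, hw0⟩ := hS.intermediate_value hxS hyS (hΦ.mono hSU) ⟨hx.le, hy.le⟩
    rcases hΓR w (hSU hw) hw0 with h | h
    · exact ⟨w, h, hSU hw⟩
    · exact absurd h (hSR w hw)
  have hRne : (R ∩ U).Nonempty := by
    obtain ⟨w, hw, hw0⟩ := hT.intermediate_value hxT hyT (hΦ.mono hTU) ⟨hx.le, hy.le⟩
    rcases hΓR w (hTU hw) hw0 with h | h
    · exact absurd h (hcon w hw)
    · exact ⟨w, h, hTU hw⟩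
  set α : ℂ → ℝ := fun z => infDist z (Γ ∩ U) with hα
  set β : ℂ → ℝ := fun z => infDist z (R ∩ U) with hβ
  have hαc : Continuous α := continuous_infDist_pt _
  have hβc : Continuous β := continuous_infDist_pt _
  have hα0 : ∀ z ∈ U, α z = 0 ↔ z ∈ Γ := by
    intro z hz
    constructor
    · intro h
      exact hΓ z hz ((mem_closure_iff_infDist_zero hΓne).2 h)
    · intro h
      exact infDist_zero_of_mem ⟨h, hz⟩
  have hβ0 : ∀ z ∈ U, β z = 0 ↔ z ∈ R := by
    intro z hz
    constructor
    · intro h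
      exact hR z hz ((mem_closure_iff_infDist_zero hRne).2 h)
    · intro h
      exact infDist_zero_of_mem ⟨h, hz⟩
  have hαn : ∀ z, 0 ≤ α z := fun z => infDist_nonneg
  have hβn : ∀ z, 0 ≤ β z := fun z => infDist_nonneg
  -- the function
  set g : ℂ → ℂ := fun z => ((α z - β z : ℝ) : ℂ) + ((-Φ z : ℝ) : ℂ) * I with hg
  have hgre : ∀ z, (g z).re = α z - β z := by
    intro z
    simp [hg]
  have hgim : ∀ z, (g z).im = -Φ z := by
    intro z
    simp [hg]
  have hgc : ContinuousOn g U := by
    refine ContinuousOn.add ?_ (ContinuousOn.mul ?_ continuousOn_const)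
    · exact (continuous_ofReal.comp (hαc.sub hβc)).continuousOn
    · exact continuous_ofReal.comp_continuousOn hΦ.neg
  have hg0 : ∀ z ∈ U, g z ≠ 0 := by
    intro z hz h
    have h1 : Φ z = 0 := by
      have := congrArg Complex.im h
      rw [hgim, zero_im] at this
      linarith
    have h2 : α z = β z := by
      have := congrArg Complex.re h
      rw [hgre, zero_re] at this
      linarith
    rcases hΓR z hz h1 with h3 | h3
    · have h4 := (hα0 z hz).2 h3
      rw [h4] at h2
      exact hΓ0 z h3 hz ((hβ0 z hz).1 h2.symm)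
    · have h4 := (hβ0 z hz).2 h3
      rw [h4] at h2
      exact hΓ0 z ((hα0 z hz).1 h2) hz h3
  obtain ⟨f, hf, hfe⟩ := hU g hgc hg0
  set h : ℂ → ℝ := fun z => (f z).im with hh
  have hhc : ContinuousOn h U := continuous_im.comp_continuousOn hf
  have hre : ∀ z ∈ U, (g z).re = Real.exp (f z).re * Real.cos (h z) := by
    intro z hz
    rw [← hfe z hz, exp_re]
  have him : ∀ z ∈ U, (g z).im = Real.exp (f z).re * Real.sin (h z) := by
    intro z hz
    rw [← hfe z hz, exp_im]
  -- sign facts
  have hsinx : 0 < Real.sin (h x) := by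
    have h1 := him x (hSU hxS)
    rw [hgim] at h1
    have h2 := Real.exp_pos (f x).re
    by_contra hc
    push Not at hc
    nlinarith
  have hsiny : Real.sin (h y) < 0 := by
    have h1 := him y (hSU hyS)
    rw [hgim] at h1
    have h2 := Real.exp_pos (f y).re
    by_contra hc
    push Not at hc
    nlinarith
  -- zeros of sin
  have hzero : ∀ z ∈ U, Real.sin (h z) = 0 → Φ z = 0 := by
    intro z hz h0
    have h1 := him z hz
    rw [hgim, h0, mul_zero] at h1
    linarith
  -- on `S` the function `h` avoids `2 π k`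
  have hSav : ∀ z ∈ S, ∀ k : ℤ, h z ≠ k * (2 * π) := by
    intro z hz k hk
    have hzU := hSU hz
    have h0 : Real.sin (h z) = 0 := by
      rw [hk]
      have := Real.sin_int_mul_pi (2 * k)
      push_cast at this
      rw [← this]
      congr 1
      ring
    have hc1 : Real.cos (h z) = 1 := by
      rw [hk]
      exact Real.cos_int_mul_two_pi k
    have h1 := hre z hzU
    rw [hgre, hc1, mul_one] at h1
    have h2 := Real.exp_pos (f z).re
    have h3 : z ∈ Γ := by
      rcases hΓR z hzU (hzero z hzU h0) with h4 | h4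
      · exact h4
      · exact absurd h4 (hSR z hz)
    have h4 := (hα0 z hzU).2 h3
    have h5 := hβn z
    rw [h4] at h1
    linarith
  have hTav : ∀ z ∈ T, ∀ k : ℤ, h z ≠ k * (2 * π) + π := by
    intro z hz k hk
    have hzU := hTU hz
    have h0 : Real.sin (h z) = 0 := by
      rw [hk]
      have := Real.sin_int_mul_pi (2 * k + 1)
      push_cast at this
      rw [← this]
      congr 1
      ring
    have hc1 : Real.cos (h z) = -1 := by
      rw [hk]
      have := Real.cos_int_mul_two_pi_add_pi k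
      exact this
    have h1 := hre z hzU
    rw [hgre, hc1] at h1
    have h2 := Real.exp_pos (f z).re
    have h3 : z ∈ R := by
      rcases hΓR z hzU (hzero z hzU h0) with h4 | h4
      · exact absurd h4 (hcon z hz)
      · exact h4
    have h4 := (hβ0 z hzU).2 h3
    have h5 := hαn z
    rw [h4] at h1
    linarith
  -- normalise
  have hpi := Real.pi_pos
  set k : ℤ := ⌊h x / (2 * π)⌋ with hk
  have hk1 : (k : ℝ) * (2 * π) ≤ h x := by
    have := Int.floor_le (h x / (2 * π))
    rw [← hk, le_div_iff₀ (by positivity)] at this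
    exact this
  have hk2 : h x < (k : ℝ) * (2 * π) + 2 * π := by
    have := Int.lt_floor_add_one (h x / (2 * π))
    rw [← hk, div_lt_iff₀ (by positivity)] at this
    linarith
  have hsx : Real.sin (h x - k * (2 * π)) = Real.sin (h x) := Real.sin_sub_int_mul_two_pi _ _
  have hxlt : h x < k * (2 * π) + π := by
    by_contra hc
    push Not at hc
    have h1 : Real.sin (h x - k * (2 * π)) ≤ 0 := by
      have h2 : Real.sin (h x - k * (2 * π)) = -Real.sin (h x - k * (2 * π) - π) := by
        rw [Real.sin_sub_pi]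
        ring
      rw [h2]
      have h3 := Real.sin_nonneg_of_nonneg_of_le_pi (x := h x - k * (2 * π) - π) (by linarith)
        (by linarith)
      linarith
    rw [hsx] at h1
    linarith
  have hxgt : (k : ℝ) * (2 * π) < h x := lt_of_le_of_ne hk1 (hSav x hxS k).symm
  -- along `S`
  have hSy : (k : ℝ) * (2 * π) < h y ∧ h y < (k : ℝ) * (2 * π) + 2 * π := by
    refine sep_stay hS (hhc.mono hSU) (fun z hz => hSav z hz k) ?_ hxS hyS hxgt hk2
    intro z hz
    have := hSav z hz (k + 1)
    push_cast at this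
    intro h1
    apply this
    rw [h1]
    ring
  -- along `T`
  have hTy : (k : ℝ) * (2 * π) - π < h y ∧ h y < (k : ℝ) * (2 * π) + π := by
    refine sep_stay hT (hhc.mono hTU) ?_ (fun z hz => hTav z hz k) hxT hyT (by linarith) hxlt
    intro z hz
    have := hTav z hz (k - 1)
    push_cast at this
    intro h1
    apply this
    rw [h1]
    ring
  -- contradiction
  have hsy : Real.sin (h y - k * (2 * π)) = Real.sin (h y) := Real.sin_sub_int_mul_two_pi _ _
  have := Real.sin_nonneg_of_nonneg_of_le_pi (x := h y - k * (2 * π)) (by linarith [hSy.1])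
    (by linarith [hTy.2])
  rw [hsy] at this
  linarith

theorem hasLogs_convex {W : Set ℂ} (hW : IsOpen W) (hWc : Convex ℝ W) (hne : W.Nonempty) :
    HasLogs W := by
  intro g hg hg0
  have hsc : IsSimplyConnected W := by
    have : ContractibleSpace W := hWc.contractibleSpace hne
    show SimplyConnectedSpace W
    infer_instance
  obtain ⟨f, hf, hfe⟩ := Complex.exists_continuousOn_eqOn_exp_comp hsc hW hg (by
    rintro ⟨z, hz, h⟩
    exact hg0 z hz h)
  exact ⟨f, hf, fun z hz => hfe hz⟩

private theorem sep_inv {z : ℂ} (hz : z ∈ ball (0 : ℂ) 1) :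
    (exp (Lmap z) - 1) / (exp (Lmap z) + 1) = z := by
  have hz1 : ‖z‖ < 1 := by rwa [mem_ball_zero_iff] at hz
  have h1 : 1 - z ≠ 0 := by
    intro h
    have h2 : z = 1 := (sub_eq_zero.1 h).symm
    rw [h2, norm_one] at hz1
    exact lt_irrefl _ hz1
  have h2 : 1 + z ≠ 0 := by
    intro h
    have h2 : z = -1 := by linear_combination h
    rw [h2, norm_neg, norm_one] at hz1
    exact lt_irrefl _ hz1
  have h0 : exp (Lmap z) = (1 + z) / (1 - z) := by
    unfold Lmap
    exact exp_log (div_ne_zero h2 h1)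
  have h3 : exp (Lmap z) + 1 = 2 / (1 - z) := by
    rw [h0]
    field_simp
    ring
  have h4 : exp (Lmap z) - 1 = 2 * z / (1 - z) := by
    rw [h0]
    field_simp
    ring
  rw [h3, h4]
  have h5 : (2 : ℂ) ≠ 0 := two_ne_zero
  field_simp

/-- Continuous nonvanishing functions on the box domain have logarithms. -/
theorem hasLogs_Ubox {x₁ d : ℝ} (hd : d < π / 2) (hne0 : (Ubox x₁ d).Nonempty) :
    HasLogs (Ubox x₁ d) := by
  intro g hg hg0
  set W : Set ℂ := {w : ℂ | -d < w.re ∧ w.re < x₁ + d ∧ |w.im| < d} with hW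
  set G : ℂ → ℂ := fun w => (exp w - 1) / (exp w + 1) with hG
  have hWo : IsOpen W :=
    (isOpen_lt continuous_const continuous_re).inter
      ((isOpen_lt continuous_re continuous_const).inter
        (isOpen_lt (continuous_abs.comp continuous_im) continuous_const))
  have hWc : Convex ℝ W := by
    have e : W = (Complex.reLm ⁻¹' Ioo (-d) (x₁ + d)) ∩ (Complex.imLm ⁻¹' Ioo (-d) d) := by
      ext w
      simp only [hW, mem_ofPred_eq, mem_inter_iff, mem_preimage, mem_Ioo,
        Complex.reLm_coe, Complex.imLm_coe, abs_lt]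
      tauto
    rw [e]
    exact ((convex_Ioo _ _).linear_preimage _).inter ((convex_Ioo _ _).linear_preimage _)
  have hne : W.Nonempty := by
    obtain ⟨z, hz⟩ := hne0
    exact ⟨Lmap z, hz.2⟩
  have hGm : ∀ w ∈ W, G w ∈ Ubox x₁ d ∧ Lmap (G w) = w := by
    intro w hw
    obtain ⟨z, hz, hzw⟩ := exists_Lmap_eq (lt_trans hw.2.2 hd)
    have h1 : G w = z := by
      rw [← sep_inv hz, hzw]
    rw [h1]
    refine ⟨⟨hz, ?_⟩, hzw⟩
    rw [hzw]
    exact hw
  have hGc : ContinuousOn G W := by
    refine ContinuousOn.div ?_ ?_ ?_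
    · exact (continuous_exp.sub continuous_const).continuousOn
    · exact (continuous_exp.add continuous_const).continuousOn
    · intro w hw h
      have h2 : 0 < Real.cos w.im := by
        rw [← Real.cos_abs]
        exact Real.cos_pos_of_mem_Ioo ⟨by have := abs_nonneg w.im; linarith [Real.pi_pos],
          lt_trans hw.2.2 hd⟩
      have h3 : 0 < (exp w).re := by
        rw [exp_re]
        exact mul_pos (Real.exp_pos _) h2
      have h4 := congrArg Complex.re h
      rw [add_re, one_re, zero_re] at h4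
      linarith
  obtain ⟨f, hf, hfe⟩ := hasLogs_convex hWo hWc hne (fun w => g (G w))
    (hg.comp hGc fun w hw => (hGm w hw).1) (fun w hw => hg0 _ (hGm w hw).1)
  refine ⟨fun z => f (Lmap z), ?_, ?_⟩
  · exact hf.comp (differentiableOn_Lmap.continuousOn.mono fun z hz => hz.1) fun z hz => hz.2
  · intro z hz
    have h1 := hfe (Lmap z) hz.2
    have h2 : G (Lmap z) = z := sep_inv hz.1
    rw [h1, h2]

end Pool.Agent.HQ
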