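import Pool.Agent.HQ.SMean

/-!
# HQ: the plane side function
-/

set_option autoImplicit false

open Complex Metric Set Filter Topology MeasureTheory
open scoped ComplexConjugate Real

namespace Pool.Agent.HQ

private theorem exp_five_SideF : Real.exp 5 ≤ (93 / 7 : ℝ) ^ 2 := by
  have h1 : Real.exp 1 < 2.7182818286 := Real.exp_one_lt_d9
  have h2 : Real.exp 5 = Real.exp 1 ^ 5 := by
    rw [← Real.exp_nat_mul]
    norm_num
  rw [h2]
  calc Real.exp 1 ^ 5 ≤ (2.7182818286 : ℝ) ^ 5 :=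
        pow_le_pow_left₀ (Real.exp_pos 1).le h1.le 5
    _ ≤ (93 / 7 : ℝ) ^ 2 := by norm_num

private theorem log_big_SideF : (5 / 2 : ℝ) ≤ Real.log (93 / 7) := by
  rw [Real.le_log_iff_exp_le (by norm_num)]
  have h1 : Real.exp (5 / 2) ^ 2 = Real.exp 5 := by
    rw [← Real.exp_nat_mul]
    norm_num
  have h2 := exp_five_SideF
  rw [← h1] at h2
  exact (pow_le_pow_iff_left₀ (Real.exp_pos _).le (by norm_num) two_ne_zero).mp h2

private theorem log_five_SideF : Real.log 5 < (7 / 4 : ℝ) := by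
  rw [Real.log_lt_iff_lt_exp (by norm_num)]
  have h0 : (2.7182818283 : ℝ) < Real.exp 1 := Real.exp_one_gt_d9
  have h1 : Real.exp (7 / 4) ^ 4 = Real.exp 1 ^ 7 := by
    rw [← Real.exp_nat_mul, ← Real.exp_nat_mul]
    norm_num
  have h2 : (5 : ℝ) ^ 4 < Real.exp (7 / 4) ^ 4 := by
    rw [h1]
    calc (5 : ℝ) ^ 4 < (2.7182818283 : ℝ) ^ 7 := by norm_num
      _ ≤ Real.exp 1 ^ 7 := pow_le_pow_left₀ (by norm_num) h0.le 7
  exact lt_of_pow_lt_pow_left₀ 4 (Real.exp_pos _).le h2

private theorem arg_SideF {w : ℂ} (hw : w.re < 2) : |Complex.arg (2 - w)| < π / 2 := by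
  rw [Complex.abs_arg_lt_pi_div_two_iff]
  left
  simp only [Complex.sub_re, Complex.re_ofNat]
  linarith

private theorem cos_SideF {a : ℝ} (ha : 0 < a) (ha1 : a < 1) {w : ℂ} (hw : w.re < 2) :
    Real.cos (a * π / 2) ≤ Real.cos (Complex.arg (2 - w) * a) := by
  rw [← Real.cos_abs (Complex.arg (2 - w) * a), abs_mul, abs_of_pos ha]
  have h1 := arg_SideF hw
  have hpi := Real.pi_pos
  apply Real.cos_le_cos_of_nonneg_of_le_pi
  · positivity
  · nlinarith
  · nlinarith

private theorem cosa_SideF {a : ℝ} (ha : 0 < a) (ha1 : a < 1) : 0 < Real.cos (a * π / 2) := by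
  have hpi := Real.pi_pos
  apply Real.cos_pos_of_mem_Ioo
  constructor
  · nlinarith
  · nlinarith

private theorem re_cpow_SideF {a : ℝ} {w : ℂ} :
    ((2 - w) ^ (a : ℂ)).re = ‖2 - w‖ ^ a * Real.cos (Complex.arg (2 - w) * a) :=
  Complex.cpow_ofReal_re _ _

private theorem re_cpow_nonneg_SideF {a : ℝ} (ha : 0 < a) (ha1 : a < 1) {w : ℂ}
    (hw : w.re < 2) : 0 ≤ ((2 - w) ^ (a : ℂ)).re := by
  rw [re_cpow_SideF]
  exact mul_nonneg (Real.rpow_nonneg (norm_nonneg _) _)
    ((cosa_SideF ha ha1).le.trans (cos_SideF ha ha1 hw))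

private theorem norm_le_SideF {w : ℂ} (hw : w.re < 1) : ‖w‖ ≤ ‖2 - w‖ := by
  rw [← sq_le_sq₀ (norm_nonneg _) (norm_nonneg _), ← Complex.normSq_eq_norm_sq,
    ← Complex.normSq_eq_norm_sq, Complex.normSq_apply, Complex.normSq_apply]
  simp only [Complex.sub_re, Complex.re_ofNat, Complex.sub_im, Complex.im_ofNat]
  nlinarith

private theorem sideH_ge_SideF {a : ℝ} (ha : 0 < a) (ha1 : a < 1) {w : ℂ} (hw : w.re < 1) :
    Real.cos (a * π / 2) * ‖w‖ ^ a ≤ sideH a w := by
  unfold sideH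
  have h1 := norm_le_SideF hw
  have h2 : 0 ≤ Real.log (‖2 - w‖ / ‖w‖) := by
    rcases eq_or_lt_of_le (norm_nonneg w) with h0 | h0
    · rw [← h0, div_zero, Real.log_zero]
    · exact Real.log_nonneg ((one_le_div h0).mpr h1)
  have h3 : Real.cos (a * π / 2) * ‖w‖ ^ a ≤ ((2 - w) ^ (a : ℂ)).re := by
    rw [re_cpow_SideF, mul_comm]
    exact mul_le_mul (Real.rpow_le_rpow (norm_nonneg _) h1 ha.le)
      (cos_SideF ha ha1 (by linarith)) (cosa_SideF ha ha1).le
      (Real.rpow_nonneg (norm_nonneg _) _)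
  linarith

private theorem sideH_lt_SideF {a : ℝ} (ha : 0 < a) (ha1 : a < 1) {w : ℂ} (hw : ‖w‖ ≤ 1)
    (hw2 : 1 / 2 ≤ ‖w‖) : sideH a w < 10 := by
  unfold sideH
  have h1 : ‖2 - w‖ ≤ 2 + ‖w‖ := by
    have h := norm_sub_le (2 : ℂ) w
    simpa using h
  have h0 : 0 < ‖w‖ := by linarith
  have h20 : 0 < ‖2 - w‖ := by
    have h := norm_sub_norm_le (2 : ℂ) w
    simp only [Complex.norm_ofNat] at h
    linarith
  have h2 : Real.log (‖2 - w‖ / ‖w‖) ≤ Real.log 5 := by
    apply Real.log_le_log (div_pos h20 h0)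
    rw [div_le_iff₀ h0]
    linarith
  have h3 : ((2 - w) ^ (a : ℂ)).re ≤ 3 := by
    rw [re_cpow_SideF]
    have e1 : ‖2 - w‖ ^ a ≤ 3 := by
      calc ‖2 - w‖ ^ a ≤ (3 : ℝ) ^ a :=
            Real.rpow_le_rpow (norm_nonneg _) (by linarith) ha.le
        _ ≤ (3 : ℝ) ^ (1 : ℝ) := Real.rpow_le_rpow_of_exponent_le (by norm_num) ha1.le
        _ = 3 := Real.rpow_one 3
    have e0 : 0 ≤ ‖2 - w‖ ^ a := Real.rpow_nonneg (norm_nonneg _) _
    have e2 := Real.cos_le_one (Complex.arg (2 - w) * a)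
    nlinarith
  have h4 := log_five_SideF
  linarith

/-- `4 log (1.86 / 0.14) > 10`. -/
theorem sideFun_small {a : ℝ} (ha : 0 < a) (ha1 : a < 1) {w : ℂ} (hw : ‖w‖ ≤ 7 / 50) :
    sideFun a w = 10 := by
  unfold sideFun
  split_ifs with h1 h2
  · linarith
  · rfl
  · push Not at h2
    apply min_eq_right
    unfold sideH
    have h0 : 0 < ‖w‖ := by linarith
    have h3 : 93 / 50 ≤ ‖2 - w‖ := by
      have h := norm_sub_norm_le (2 : ℂ) w
      simp only [Complex.norm_ofNat] at h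
      linarith
    have h4 : Real.log (93 / 7) ≤ Real.log (‖2 - w‖ / ‖w‖) := by
      apply Real.log_le_log (by norm_num)
      rw [le_div_iff₀ h0]
      linarith
    have h5 := log_big_SideF
    have hre : w.re < 2 := by
      have h := Complex.re_le_norm w
      linarith
    have h6 := re_cpow_nonneg_SideF ha ha1 hre
    linarith

/-- `|2 - w| ≥ |w|` and `|arg (2 - w)| < π / 2` for `Re w < 1`. -/
theorem sideFun_ge {a : ℝ} (ha : 0 < a) (ha1 : a < 1) {w : ℂ} (hw : w.re < 1) :
    Real.cos (a * π / 2) * ‖w‖ ^ a ≤ sideFun a w := by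
  have h1 := sideH_ge_SideF ha ha1 hw
  have h2 : ‖w‖ ≤ 1 → Real.cos (a * π / 2) * ‖w‖ ^ a ≤ 10 := by
    intro h
    have e1 : ‖w‖ ^ a ≤ 1 := Real.rpow_le_one (norm_nonneg _) h ha.le
    have e2 := Real.cos_le_one (a * π / 2)
    have e3 : 0 ≤ ‖w‖ ^ a := Real.rpow_nonneg (norm_nonneg _) _
    nlinarith
  unfold sideFun
  split_ifs with k1 k2
  · exact h1
  · exact h2 (by linarith)
  · push Not at k1
    exact le_min h1 (h2 (by linarith))

/-- For `1/2 ≤ |w| ≤ 1`: `3 + 4 log 5 < 10`. -/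
theorem sideFun_le {a : ℝ} (ha : 0 < a) (ha1 : a < 1) {w : ℂ} (hw : ‖w‖ ≤ 1) :
    sideFun a w ≤ 10 := by
  unfold sideFun
  split_ifs with k1 k2
  · exact (sideH_lt_SideF ha ha1 hw k1).le
  · exact le_rfl
  · exact min_le_right _ _

/-- Composition with an analytic function.  Where `|g z| > 1/8`, `sideH a ∘ g` is near `z` the real
part of an analytic function (`(2 - g)^a + 4 log ((2 - g) / g)` with a local branch); near
`|g z| = 1/2` one has `sideH < 10` (`2.5 + 4 log 5 < 10`), so the minimum is `sideH`; near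
`|g z| ≤ 1/8` the function is `10` (`sideFun_small`). -/
theorem sideFun_smean {a : ℝ} (ha : 0 < a) (ha1 : a < 1) {g : ℂ → ℂ} {z : ℂ}
    (hg : AnalyticAt ℂ g z) (hz : (g z).re < 1) :
    SMean (fun w => sideFun a (g w)) z ∧ ContinuousAt (fun w => sideFun a (g w)) z := by
  have hcn : ContinuousAt (fun w => ‖g w‖) z := hg.continuousAt.norm
  by_cases h1 : ‖g z‖ ≤ 1 / 8
  · have e : (fun _ => (10 : ℝ)) =ᶠ[𝓝 z] fun w => sideFun a (g w) := by
      have h2 : ‖g z‖ < 7 / 50 := by linarith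
      filter_upwards [hcn.eventually_lt_const h2] with w hw
      exact (sideFun_small ha ha1 hw.le).symm
    exact ⟨(smean_const 10 z).congr e, ContinuousAt.congr continuousAt_const e⟩
  push Not at h1
  have hg0 : g z ≠ 0 := by
    intro h0
    rw [h0, norm_zero] at h1
    linarith
  have hre : 0 < (2 - g z).re := by
    simp only [Complex.sub_re, Complex.re_ofNat]
    linarith
  have h20 : 2 - g z ≠ 0 := by
    intro h0
    rw [h0] at hre
    simp at hre
  set q : ℂ := (2 - g z) / g z with hq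
  have hq0 : q ≠ 0 := div_ne_zero h20 hg0
  have hqn : ‖q‖ ≠ 0 := norm_ne_zero_iff.mpr hq0
  set c : ℂ := (‖q‖ : ℂ) / q with hc
  have hc1 : ‖c‖ = 1 := by
    rw [hc, norm_div, Complex.norm_real, norm_norm, div_self hqn]
  have hcq : c * q = (‖q‖ : ℂ) := by
    rw [hc, div_mul_cancel₀ _ hq0]
  set f : ℂ → ℂ := fun w => (2 - g w) ^ (a : ℂ) + 4 * Complex.log (c * ((2 - g w) / g w))
    with hf
  have hfa : AnalyticAt ℂ f z := by
    have e1 : AnalyticAt ℂ (fun w => 2 - g w) z := analyticAt_const.sub hg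
    refine (e1.cpow analyticAt_const (Or.inl hre)).add (analyticAt_const.mul ?_)
    refine (analyticAt_const.mul (e1.div hg hg0)).clog ?_
    change c * q ∈ Complex.slitPlane
    rw [hcq]
    exact Complex.ofReal_mem_slitPlane.mpr (lt_of_le_of_ne (norm_nonneg _) (Ne.symm hqn))
  have hfe : (fun w => (f w).re) = fun w => sideH a (g w) := by
    funext w
    have e1 : (Complex.log (c * ((2 - g w) / g w))).re = Real.log (‖2 - g w‖ / ‖g w‖) := by
      rw [Complex.log_re, norm_mul, hc1, one_mul, norm_div]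
    have e2 : (4 * Complex.log (c * ((2 - g w) / g w))).re =
        4 * (Complex.log (c * ((2 - g w) / g w))).re := by
      simp [Complex.mul_re]
    simp only [hf, Complex.add_re]
    rw [e2, e1]
    rfl
  have hs : SMean (fun w => sideH a (g w)) z := by
    rw [← hfe]
    exact smean_re hfa
  have hcH : ContinuousAt (fun w => sideH a (g w)) z := by
    rw [← hfe]
    exact Complex.continuous_re.continuousAt.comp hfa.continuousAt
  rcases lt_trichotomy ‖g z‖ (1 / 2) with h2 | h2 | h2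
  · have e : (fun w => min (sideH a (g w)) 10) =ᶠ[𝓝 z] fun w => sideFun a (g w) := by
      filter_upwards [hcn.eventually_lt_const h2, hcn.eventually_const_lt h1] with w hw1 hw2
      unfold sideFun
      rw [if_neg (not_le.mpr hw1), if_neg (not_le.mpr hw2)]
    exact ⟨(hs.min (smean_const 10 z)).congr e,
      ContinuousAt.congr (hcH.min continuousAt_const) e⟩
  · have e : (fun w => sideH a (g w)) =ᶠ[𝓝 z] fun w => sideFun a (g w) := by
      have h3 : sideH a (g z) < 10 := sideH_lt_SideF ha ha1 (by linarith) h2.ge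
      filter_upwards [hcH.eventually_lt_const h3, hcn.eventually_const_lt h1] with w hw1 hw2
      unfold sideFun
      split_ifs with k1 k2
      · rfl
      · linarith
      · exact (min_eq_left hw1.le).symm
    exact ⟨hs.congr e, ContinuousAt.congr hcH e⟩
  · have e : (fun w => sideH a (g w)) =ᶠ[𝓝 z] fun w => sideFun a (g w) := by
      filter_upwards [hcn.eventually_const_lt h2] with w hw1
      unfold sideFun
      rw [if_pos hw1.le]
    exact ⟨hs.congr e, ContinuousAt.congr hcH e⟩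

end Pool.Agent.HQ
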