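import Pool.Agent.HQ.LocInv

/-! HQ growth half, file Strands: an injective lift of a circle arc does not contain three
consecutive strands. -/

set_option autoImplicit false

open Complex Metric Set Filter Topology
open scoped ComplexConjugate Real

namespace Pool.Agent.HQ

variable {A B : ℂ → ℂ}

/-- VERTICAL MONOTONICITY.  Let `ψ` be a local inverse of `A` on a convex open set `W`.  Then
`v ↦ Im B (ψ (x + i v))` is strictly increasing along vertical segments in `W`.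
Proof. The derivative of `v ↦ Im (B (ψ (x + i v)))` is
`Im (i B'(ψ) ψ') = Im (i B'(ψ)/A'(ψ)) = Re (B'(ψ)/A'(ψ)) = Re (B' conj A') / |A'|² > 0`
(`ψ' = 1/A'(ψ)` by differentiating `A (ψ w) = w`).  Use `strictMonoOn_of_deriv_pos` on the segment
`Icc w₁.im w₂.im`. -/
theorem im_B_lt (h : HPair A B) {W : Set ℂ} (hW : IsOpen W) (hWc : Convex ℝ W) {ψ : ℂ → ℂ}
    (hψ : DifferentiableOn ℂ ψ W) (hψ1 : ∀ w ∈ W, ψ w ∈ ball (0 : ℂ) 1 ∧ A (ψ w) = w) {w₁ w₂ : ℂ}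
    (h1 : w₁ ∈ W) (h2 : w₂ ∈ W) (hre : w₁.re = w₂.re) (him : w₁.im < w₂.im) :
    (B (ψ w₁)).im < (B (ψ w₂)).im := by
  have hseg : ∀ v ∈ Icc w₁.im w₂.im, ((w₁.re : ℂ) + v * I) ∈ W := by
    intro v hv
    have hd : 0 < w₂.im - w₁.im := by linarith
    have e : ((w₁.re : ℂ) + v * I) = ((w₂.im - v) / (w₂.im - w₁.im) : ℝ) • w₁ +
        ((v - w₁.im) / (w₂.im - w₁.im) : ℝ) • w₂ := by
      apply Complex.ext
      · simp only [add_re, ofReal_re, mul_re, ofReal_im, I_re, I_im, real_smul]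
        rw [← hre]
        field_simp
        ring
      · simp only [add_im, ofReal_re, mul_im, ofReal_im, I_re, I_im, real_smul]
        field_simp
        ring
    rw [e]
    refine hWc h1 h2 (div_nonneg (by linarith [hv.2]) hd.le)
      (div_nonneg (by linarith [hv.1]) hd.le) ?_
    field_simp
    ring
  have hder : ∀ v ∈ Icc w₁.im w₂.im, ∃ d : ℝ, 0 < d ∧
      HasDerivAt (fun v : ℝ => (B (ψ ((w₁.re : ℂ) + v * I))).im) d v := by
    intro v hv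
    have hp := hseg v hv
    have hψd : HasDerivAt ψ (deriv ψ ((w₁.re : ℂ) + v * I)) ((w₁.re : ℂ) + v * I) :=
      ((hψ _ hp).differentiableAt (hW.mem_nhds hp)).hasDerivAt
    have hm := (hψ1 _ hp).1
    have hAd := (h.anA _ (ball_subset_closedBall hm)).differentiableAt.hasDerivAt
    have hBd := (h.anB _ (ball_subset_closedBall hm)).differentiableAt.hasDerivAt
    have hc : deriv A (ψ ((w₁.re : ℂ) + v * I)) * deriv ψ ((w₁.re : ℂ) + v * I) = 1 := by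
      have hA1 := hAd.comp _ hψd
      have hA2 : HasDerivAt (A ∘ ψ) 1 ((w₁.re : ℂ) + v * I) := by
        refine (hasDerivAt_id _).congr_of_eventuallyEq ?_
        filter_upwards [hW.mem_nhds hp] with w hw
        exact (hψ1 w hw).2
      exact hA1.unique hA2
    have hlin : HasDerivAt (fun v : ℝ => ((w₁.re : ℂ) + v * I)) I v := by
      have := ((Complex.ofRealCLM.hasDerivAt (x := v)).mul_const I).const_add (w₁.re : ℂ)
      simpa using this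
    have hcomp := (hBd.comp _ hψd).comp v hlin
    have him' := Complex.imCLM.hasFDerivAt.comp_hasDerivAt v hcomp
    refine ⟨_, ?_, him'⟩
    have hne : deriv A (ψ ((w₁.re : ℂ) + v * I)) ≠ 0 :=
      h.deriv_ne (ball_subset_closedBall hm)
    have hpos := h.pos _ (ball_subset_closedBall hm)
    have e1 : deriv ψ ((w₁.re : ℂ) + v * I) =
        conj (deriv A (ψ ((w₁.re : ℂ) + v * I))) *
          (((normSq (deriv A (ψ ((w₁.re : ℂ) + v * I))))⁻¹ : ℝ) : ℂ) := by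
      rw [← Complex.inv_def]
      exact (eq_inv_of_mul_eq_one_right hc)
    have e2 : (deriv B (ψ ((w₁.re : ℂ) + v * I)) * deriv ψ ((w₁.re : ℂ) + v * I)).re =
        (deriv B (ψ ((w₁.re : ℂ) + v * I)) * conj (deriv A (ψ ((w₁.re : ℂ) + v * I)))).re *
          (normSq (deriv A (ψ ((w₁.re : ℂ) + v * I))))⁻¹ := by
      rw [e1, ← mul_assoc, re_mul_ofReal]
    have e3 : Complex.imCLM (deriv B (ψ ((w₁.re : ℂ) + v * I)) *
        deriv ψ ((w₁.re : ℂ) + v * I) * I) =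
        (deriv B (ψ ((w₁.re : ℂ) + v * I)) * deriv ψ ((w₁.re : ℂ) + v * I)).re := by
      simp [mul_im]
    rw [e3, e2]
    exact mul_pos hpos (inv_pos.2 (normSq_pos.2 hne))
  have hmono : StrictMonoOn (fun v : ℝ => (B (ψ ((w₁.re : ℂ) + v * I))).im)
      (Icc w₁.im w₂.im) := by
    apply strictMonoOn_of_deriv_pos (convex_Icc _ _)
    · intro v hv
      obtain ⟨d, -, hd⟩ := hder v hv
      exact hd.continuousAt.continuousWithinAt
    · intro v hv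
      obtain ⟨d, hd0, hd⟩ := hder v (interior_subset hv)
      rw [hd.deriv]
      exact hd0
  have hfin := hmono (left_mem_Icc.2 him.le) (right_mem_Icc.2 him.le) him
  have r1 : ((w₁.re : ℂ) + w₁.im * I) = w₁ := re_add_im w₁
  have r2 : ((w₁.re : ℂ) + w₂.im * I) = w₂ := by rw [hre]; exact re_add_im w₂
  simp only [r1, r2] at hfin
  exact hfin

/-- Near an interior angle the lift is given by one local inverse. -/
private theorem cap_aux (h : HPair A B) {t : ℝ} {α β θ₁ : ℝ} (h1 : α < θ₁) (h2 : θ₁ < β)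
    {z : ℝ → ℂ} (hz : IsLift A t α β z) :
    ∃ (W : Set ℂ) (ψ : ℂ → ℂ), IsOpen W ∧ Convex ℝ W ∧ DifferentiableOn ℂ ψ W ∧
      (∀ w ∈ W, ψ w ∈ ball (0 : ℂ) 1 ∧ A (ψ w) = w) ∧
      ∀ᶠ θ in 𝓝 θ₁, ((t : ℂ) * exp ((θ : ℝ) * I) ∈ W ∧ z θ = ψ (t * exp ((θ : ℝ) * I))) := by
  have hmem : θ₁ ∈ Icc α β := ⟨h1.le, h2.le⟩
  obtain ⟨δ, hδ, r, hr, hK1, hK2⟩ := exists_locInv h.diffA
    (fun z hz => h.deriv_ne (ball_subset_closedBall hz)) (K := {z θ₁}) isCompact_singleton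
    (by rw [singleton_subset_iff]; exact hz.mem θ₁ hmem)
  obtain ⟨hb, hinj⟩ := hK1 (z θ₁) rfl
  obtain ⟨ψ, hψd, -, hψ1⟩ := hK2 (z θ₁) rfl
  refine ⟨ball (A (z θ₁)) r, ψ, isOpen_ball, convex_ball _ _, hψd,
    fun w hw => ⟨hb (hψ1 w hw).1, (hψ1 w hw).2⟩, ?_⟩
  have c1 : ∀ᶠ θ in 𝓝 θ₁, (t : ℂ) * exp ((θ : ℝ) * I) ∈ ball (A (z θ₁)) r := by
    have hcont : ContinuousAt (fun θ : ℝ => (t : ℂ) * exp ((θ : ℝ) * I)) θ₁ := by fun_prop
    apply hcont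
    rw [hz.eq θ₁ hmem]
    exact ball_mem_nhds _ hr
  have c2 : ∀ᶠ θ in 𝓝 θ₁, z θ ∈ ball (z θ₁) δ := by
    have hcz : ContinuousAt z θ₁ := hz.cont.continuousAt (Icc_mem_nhds h1 h2)
    exact hcz (ball_mem_nhds _ hδ)
  filter_upwards [c1, c2, Icc_mem_nhds h1 h2] with θ g1 g2 g3
  refine ⟨g1, ?_⟩
  apply hinj g2 (hψ1 _ g1).1
  rw [(hψ1 _ g1).2, hz.eq θ g3]

private theorem cap_side (h : HPair A B) {t : ℝ} {α β θ₁ : ℝ} (h1 : α < θ₁) (h2 : θ₁ < β)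
    {z : ℝ → ℂ} (hz : IsLift A t α β z) :
    ∃ (W : Set ℂ) (ψ : ℂ → ℂ), IsOpen W ∧ Convex ℝ W ∧ DifferentiableOn ℂ ψ W ∧
      (∀ w ∈ W, ψ w ∈ ball (0 : ℂ) 1 ∧ A (ψ w) = w) ∧
      ∀ᶠ ε in 𝓝[>] (0 : ℝ), (ε ∈ Ioo (0 : ℝ) π ∧
        (t : ℂ) * exp (((θ₁ + ε : ℝ) : ℂ) * I) ∈ W ∧
        z (θ₁ + ε) = ψ (t * exp (((θ₁ + ε : ℝ) : ℂ) * I)) ∧
        (t : ℂ) * exp (((θ₁ - ε : ℝ) : ℂ) * I) ∈ W ∧
        z (θ₁ - ε) = ψ (t * exp (((θ₁ - ε : ℝ) : ℂ) * I))) := by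
  obtain ⟨W, ψ, hW, hWc, hψ, hψ1, hev⟩ := cap_aux h h1 h2 hz
  refine ⟨W, ψ, hW, hWc, hψ, hψ1, ?_⟩
  have t1 : Tendsto (fun ε : ℝ => θ₁ + ε) (𝓝[>] (0 : ℝ)) (𝓝 θ₁) := by
    have : ContinuousAt (fun ε : ℝ => θ₁ + ε) 0 := by fun_prop
    have h0 := this.tendsto
    simp only [add_zero] at h0
    exact h0.mono_left nhdsWithin_le_nhds
  have t2 : Tendsto (fun ε : ℝ => θ₁ - ε) (𝓝[>] (0 : ℝ)) (𝓝 θ₁) := by
    have : ContinuousAt (fun ε : ℝ => θ₁ - ε) 0 := by fun_prop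
    have h0 := this.tendsto
    simp only [sub_zero] at h0
    exact h0.mono_left nhdsWithin_le_nhds
  filter_upwards [t1.eventually hev, t2.eventually hev, Ioo_mem_nhdsGT Real.pi_pos]
    with ε g1 g2 g3
  exact ⟨g3, g1.1, g1.2, g2.1, g2.2⟩

/-- LOCAL ORDER AT A LEFT CAP (`θ = (2j+1) π`, the leftmost point of the circle): the strand before
the cap lies ABOVE the strand after the cap.
Proof. Let `ψ` be the local inverse of `A` at `z θ₁` (`exists_locInv` for `K = {z θ₁}`), on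
`W = ball (A (z θ₁)) r`.  For small `ε > 0` both `t exp ((θ₁ ± ε) I)` lie in `W` and
`z (θ₁ ± ε) = ψ (t exp ((θ₁ ± ε) I))` (`z (θ₁ ± ε) ∈ ball z₁ δ` by continuity and `A` is injective
there).  `t exp ((θ₁ ± ε) I) = t (-cos ε ∓ i sin ε)`: same real part, so `im_B_lt` gives
`Im B (z (θ₁ + ε)) < Im B (z (θ₁ - ε))`. -/
theorem left_cap (h : HPair A B) {t : ℝ} (ht : 0 < t) {α β θ₁ : ℝ} {j : ℤ}
    (hθ₁ : θ₁ = (2 * j + 1) * π) (h1 : α < θ₁) (h2 : θ₁ < β) {z : ℝ → ℂ}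
    (hz : IsLift A t α β z) :
    ∀ᶠ ε in 𝓝[>] (0 : ℝ), (B (z (θ₁ + ε))).im < (B (z (θ₁ - ε))).im := by
  obtain ⟨W, ψ, hW, hWc, hψ, hψ1, hev⟩ := cap_side h h1 h2 hz
  filter_upwards [hev] with ε hε
  obtain ⟨hε0, m1, e1, m2, e2⟩ := hε
  have hsin : 0 < Real.sin ε := Real.sin_pos_of_mem_Ioo hε0
  have hexp : exp ((θ₁ : ℂ) * I) = -1 := by
    rw [hθ₁]
    push_cast
    rw [show (2 * (j : ℂ) + 1) * (π : ℂ) * I = π * I + j * (2 * π * I) by ring,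
      Complex.exp_add, Complex.exp_int_mul_two_pi_mul_I, mul_one, Complex.exp_pi_mul_I]
  have f1 : exp (((θ₁ + ε : ℝ) : ℂ) * I) = -(Real.cos ε + Real.sin ε * I) := by
    rw [ofReal_add, add_mul, Complex.exp_add, hexp, Complex.exp_mul_I, ← ofReal_cos, ← ofReal_sin]
    ring
  have f2 : exp (((θ₁ - ε : ℝ) : ℂ) * I) = -(Real.cos ε - Real.sin ε * I) := by
    rw [ofReal_sub, sub_mul, Complex.exp_sub, hexp, ← neg_one_mul, div_eq_mul_inv,
      ← Complex.exp_neg, ← neg_mul, Complex.exp_mul_I, Complex.cos_neg, Complex.sin_neg,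
      ← ofReal_cos, ← ofReal_sin]
    ring
  rw [e1, e2]
  apply im_B_lt h hW hWc hψ hψ1 m1 m2
  · rw [f1, f2]
    simp
  · rw [f1, f2]
    simp only [mul_im, ofReal_re, neg_im, add_im, ofReal_im, I_im, I_re, sub_im, neg_re, add_re,
      mul_re, sub_re]
    nlinarith [mul_pos ht hsin]

/-- LOCAL ORDER AT A RIGHT CAP (`θ = 2 j π`): the strand before the cap lies BELOW the strand
after the cap.  Same proof, `t exp ((θ₁ ± ε) I) = t (cos ε ± i sin ε)`. -/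
theorem right_cap (h : HPair A B) {t : ℝ} (ht : 0 < t) {α β θ₁ : ℝ} {j : ℤ}
    (hθ₁ : θ₁ = 2 * j * π) (h1 : α < θ₁) (h2 : θ₁ < β) {z : ℝ → ℂ}
    (hz : IsLift A t α β z) :
    ∀ᶠ ε in 𝓝[>] (0 : ℝ), (B (z (θ₁ - ε))).im < (B (z (θ₁ + ε))).im := by
  obtain ⟨W, ψ, hW, hWc, hψ, hψ1, hev⟩ := cap_side h h1 h2 hz
  filter_upwards [hev] with ε hε
  obtain ⟨hε0, m1, e1, m2, e2⟩ := hε
  have hsin : 0 < Real.sin ε := Real.sin_pos_of_mem_Ioo hε0
  have hexp : exp ((θ₁ : ℂ) * I) = 1 := by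
    rw [hθ₁]
    push_cast
    rw [show 2 * (j : ℂ) * (π : ℂ) * I = j * (2 * π * I) by ring,
      Complex.exp_int_mul_two_pi_mul_I]
  have f1 : exp (((θ₁ + ε : ℝ) : ℂ) * I) = Real.cos ε + Real.sin ε * I := by
    rw [ofReal_add, add_mul, Complex.exp_add, hexp, Complex.exp_mul_I, ← ofReal_cos, ← ofReal_sin]
    ring
  have f2 : exp (((θ₁ - ε : ℝ) : ℂ) * I) = Real.cos ε - Real.sin ε * I := by
    rw [ofReal_sub, sub_mul, Complex.exp_sub, hexp, div_eq_mul_inv,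
      ← Complex.exp_neg, ← neg_mul, Complex.exp_mul_I, Complex.cos_neg, Complex.sin_neg,
      ← ofReal_cos, ← ofReal_sin]
    ring
  rw [e1, e2]
  apply im_B_lt h hW hWc hψ hψ1 m2 m1
  · rw [f1, f2]
    simp
  · rw [f1, f2]
    simp only [mul_im, ofReal_re, add_im, ofReal_im, I_im, I_re, sub_im, add_re,
      mul_re, sub_re]
    nlinarith [mul_pos ht hsin]

end Pool.Agent.HQ
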