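import Pool.Agent.HQ.Strands

/-! HQ growth half, file StrandsB: no three consecutive strands. -/

set_option autoImplicit false

open Complex Metric Set Filter Topology MeasureTheory
open scoped ComplexConjugate Real

namespace Pool.Agent.HQ

variable {A B : ℂ → ℂ}

private theorem pos_StrandsB {S : Set ℝ} (hS : IsPreconnected S) {f : ℝ → ℝ}
    (hf : ContinuousOn f S) (h0 : ∀ s ∈ S, f s ≠ 0) {a : ℝ} (ha : a ∈ S) (hfa : 0 < f a) :
    ∀ s ∈ S, 0 < f s := by
  intro s hs
  by_contra hc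
  push Not at hc
  obtain ⟨c, hcS, hc0⟩ := hS.intermediate_value hs ha hf ⟨hc, hfa.le⟩
  exact h0 c hcS hc0

private theorem three_StrandsB {U D V : ℝ → ℝ} (hU : ContinuousOn U (Icc 0 π))
    (hD : ContinuousOn D (Icc 0 π)) (hV : ContinuousOn V (Icc 0 π)) (hUD : U π = D π)
    (hDV : D 0 = V 0) (h1 : ∀ s ∈ Ico (0 : ℝ) π, U s ≠ D s) (h2 : ∀ s ∈ Ioc (0 : ℝ) π, D s ≠ V s)
    (h3 : ∀ s ∈ Icc (0 : ℝ) π, U s ≠ V s) {a b : ℝ} (ha : a ∈ Ico (0 : ℝ) π)
    (hb : b ∈ Ioc (0 : ℝ) π) (hDa : D a < U a) (hDb : D b < V b) : False := by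
  have hpi := Real.pi_pos
  have e1 := pos_StrandsB (f := fun s => U s - D s) isPreconnected_Ico
    ((hU.sub hD).mono Ico_subset_Icc_self) (fun s hs => sub_ne_zero.2 (h1 s hs)) ha
    (sub_pos.2 hDa) 0 ⟨le_rfl, hpi⟩
  have e2 := pos_StrandsB (f := fun s => V s - D s) isPreconnected_Ioc
    ((hV.sub hD).mono Ioc_subset_Icc_self) (fun s hs => sub_ne_zero.2 (h2 s hs).symm) hb
    (sub_pos.2 hDb) π ⟨hpi, le_rfl⟩
  have e3 := pos_StrandsB (f := fun s => U s - V s) isPreconnected_Icc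
    (hU.sub hV) (fun s hs => sub_ne_zero.2 (h3 s hs)) (a := 0) ⟨le_rfl, hpi.le⟩
    (by linarith) π ⟨hpi.le, le_rfl⟩
  linarith

/-- NO THREE STRANDS (key lemma).
Proof. Put `y θ = Im B (z θ)`, continuous on the interval.  `Re A (z θ) = t cos θ`.  By
injectivity of
`z` and of `shearMap A B`: (*) if `θ ≠ θ'` and `cos θ = cos θ'` then `y θ ≠ y θ'`.
Case `k` even, `k = 2j`.  For `s ∈ [0, π]` consider the three points `θ = kπ + s`,
`(k+2)π - s`, `(k+2)π + s`, all with cosine `cos s`.  Put `U s = y (kπ + s)` , `D s = y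
((k+2)π - s)`,
`V s = y ((k+2)π + s)`, continuous on `[0, π]`.  (For `k` even the points `kπ`, `(k+2)π` are right
caps and `(k+1)π`, `(k+3)π` are left caps.)
`U s ≠ D s` for `s ∈ [0, π)` by (*), and `D s < U s` for `s` near `π` (left cap at `(k+1)π`, with
`ε = π - s`); by the intermediate value theorem `D s < U s` on `[0, π)`.
`D s ≠ V s` for `s ∈ (0, π]`, and `D s < V s` for small `s > 0` (right cap at `(k+2)π`); so
`D s < V s` on `(0, π]`.  `U s ≠ V s` for all `s ∈ [0, π]` by (*).  At `s = 0`: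
`V 0 = D 0 < U 0`.  At `s = π`: `U π = D π < V π`.  Contradiction with the intermediate value
theorem for `U - V`.
Case `k` odd: the same with the caps exchanged: `U s = y (kπ + s)`, `D s = y ((k+2)π - s)`,
`V s = y ((k+2)π + s)`; now `U s < D s` on `[0, π)` (right cap at `(k+1)π`), `V s < D s` on `(0, π]`
(left cap at `(k+2)π`), `U 0 < D 0 = V 0`, `V π < D π = U π`: contradiction. -/
theorem no_three_strands (h : HPair A B) {t : ℝ} (ht : 0 < t) {k : ℤ} {z : ℝ → ℂ}
    (hz : IsLift A t (k * π) ((k + 3) * π) z) (hinj : InjOn z (Icc (k * π) ((k + 3) * π))) :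
    False := by
  have hpi := Real.pi_pos
  set y : ℝ → ℝ := fun θ => (B (z θ)).im with hy
  have hyc : ContinuousOn y (Icc (k * π) ((k + 3) * π)) := by
    refine Complex.continuous_im.comp_continuousOn ?_
    exact h.diffB.continuousOn.comp hz.cont hz.mem
  have star : ∀ θ ∈ Icc (k * π) ((k + 3) * π), ∀ θ' ∈ Icc (k * π) ((k + 3) * π), θ ≠ θ' →
      Real.cos θ = Real.cos θ' → y θ ≠ y θ' := by
    intro θ hθ θ' hθ' hne hcos hyy
    refine hne (hinj hθ hθ' ?_)
    refine h.inj (ball_subset_closedBall (hz.mem θ hθ)) (ball_subset_closedBall (hz.mem θ' hθ')) ?_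
    have hre : ∀ x ∈ Icc (k * π) ((k + 3) * π), (A (z x)).re = t * Real.cos x := by
      intro x hx
      rw [hz.eq x hx, Complex.re_ofReal_mul, Complex.exp_ofReal_mul_I_re]
    unfold shearMap
    rw [hre θ hθ, hre θ' hθ', hcos]
    congr 1
  have mU : ∀ s ∈ Icc (0 : ℝ) π, k * π + s ∈ Icc (k * π) ((k + 3) * π) := by
    rintro s ⟨h1, h2⟩
    constructor <;> linarith
  have mD : ∀ s ∈ Icc (0 : ℝ) π, (k + 2) * π - s ∈ Icc (k * π) ((k + 3) * π) := by
    rintro s ⟨h1, h2⟩
    constructor <;> linarith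
  have mV : ∀ s ∈ Icc (0 : ℝ) π, (k + 2) * π + s ∈ Icc (k * π) ((k + 3) * π) := by
    rintro s ⟨h1, h2⟩
    constructor <;> linarith
  have cD : ∀ s : ℝ, Real.cos ((k + 2) * π - s) = Real.cos (k * π + s) := by
    intro s
    have e1 : (k + 2) * π - s = -(-(k * π) + s) + 1 * (2 * π) := by ring
    have e2 : k * π + s = (-(k * π) + s) + (k : ℤ) * (2 * π) := by ring
    rw [e1, e2, Real.cos_add_int_mul_two_pi, one_mul, Real.cos_add_two_pi, Real.cos_neg]
  have cV : ∀ s : ℝ, Real.cos ((k + 2) * π + s) = Real.cos (k * π + s) := by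
    intro s
    have e1 : (k + 2) * π + s = (k * π + s) + 2 * π := by ring
    rw [e1, Real.cos_add_two_pi]
  set U : ℝ → ℝ := fun s => y (k * π + s) with hU
  set D : ℝ → ℝ := fun s => y ((k + 2) * π - s) with hD
  set V : ℝ → ℝ := fun s => y ((k + 2) * π + s) with hV
  have cU' : ContinuousOn U (Icc 0 π) :=
    hyc.comp (continuous_const.add continuous_id).continuousOn mU
  have cD' : ContinuousOn D (Icc 0 π) :=
    hyc.comp (continuous_const.sub continuous_id).continuousOn mD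
  have cV' : ContinuousOn V (Icc 0 π) :=
    hyc.comp (continuous_const.add continuous_id).continuousOn mV
  have hUD : U π = D π := by
    simp only [hU, hD]
    congr 1
    ring
  have hDV : D 0 = V 0 := by
    simp only [hV, hD, sub_zero, add_zero]
  have h1 : ∀ s ∈ Ico (0 : ℝ) π, U s ≠ D s := by
    intro s hs
    have hs' := Ico_subset_Icc_self hs
    refine star _ (mU s hs') _ (mD s hs') ?_ (cD s).symm
    have h := hs.2
    intro he
    linarith
  have h2 : ∀ s ∈ Ioc (0 : ℝ) π, D s ≠ V s := by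
    intro s hs
    have hs' := Ioc_subset_Icc_self hs
    refine star _ (mD s hs') _ (mV s hs') ?_ ((cD s).trans (cV s).symm)
    have h := hs.1
    intro he
    linarith
  have h3 : ∀ s ∈ Icc (0 : ℝ) π, U s ≠ V s := by
    intro s hs
    refine star _ (mU s hs) _ (mV s hs) ?_ (cV s).symm
    intro he
    linarith
  have o1 : (k : ℝ) * π < (k + 1) * π := by linarith
  have o2 : ((k : ℝ) + 1) * π < (k + 3) * π := by linarith
  have o3 : (k : ℝ) * π < (k + 2) * π := by linarith
  have o4 : ((k : ℝ) + 2) * π < (k + 3) * π := by linarith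
  have hnh : Ioo (0 : ℝ) π ∈ 𝓝[>] (0 : ℝ) := Ioo_mem_nhdsGT hpi
  have f1 : ∀ ε : ℝ, y ((k + 1) * π + ε) = D (π - ε) := by
    intro ε
    simp only [hD]
    congr 1
    ring
  have f2 : ∀ ε : ℝ, y ((k + 1) * π - ε) = U (π - ε) := by
    intro ε
    simp only [hU]
    congr 1
    ring
  rcases Int.even_or_odd' k with ⟨j, hj | hj⟩
  · have c1 := left_cap h ht (θ₁ := (k + 1) * π) (j := j) (by rw [hj]; push_cast; ring) o1 o2 hz
    have c2 := right_cap h ht (θ₁ := (k + 2) * π) (j := j + 1) (by rw [hj]; push_cast; ring)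
      o3 o4 hz
    obtain ⟨a, ha, ha'⟩ := (c1.and hnh).exists
    obtain ⟨b, hb, hb'⟩ := (c2.and hnh).exists
    change y ((k + 1) * π + a) < y ((k + 1) * π - a) at ha
    rw [f1, f2] at ha
    exact three_StrandsB cU' cD' cV' hUD hDV h1 h2 h3 (a := π - a) (b := b)
      ⟨by linarith [ha'.2], by linarith [ha'.1]⟩ ⟨hb'.1, hb'.2.le⟩ ha hb
  · have c1 := right_cap h ht (θ₁ := (k + 1) * π) (j := j + 1) (by rw [hj]; push_cast; ring)
      o1 o2 hz
    have c2 := left_cap h ht (θ₁ := (k + 2) * π) (j := j + 1) (by rw [hj]; push_cast; ring)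
      o3 o4 hz
    obtain ⟨a, ha, ha'⟩ := (c1.and hnh).exists
    obtain ⟨b, hb, hb'⟩ := (c2.and hnh).exists
    change y ((k + 1) * π - a) < y ((k + 1) * π + a) at ha
    rw [f1, f2] at ha
    exact three_StrandsB (U := fun s => -U s) (D := fun s => -D s) (V := fun s => -V s)
      cU'.neg cD'.neg cV'.neg (congrArg Neg.neg hUD) (congrArg Neg.neg hDV)
      (fun s hs he => h1 s hs (neg_injective he)) (fun s hs he => h2 s hs (neg_injective he))
      (fun s hs he => h3 s hs (neg_injective he)) (a := π - a) (b := b)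
      ⟨by linarith [ha'.2], by linarith [ha'.1]⟩ ⟨hb'.1, hb'.2.le⟩ (neg_lt_neg ha)
      (neg_lt_neg hb)

end Pool.Agent.HQ
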