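import Pool.Agent.HQ.LocInv

/-! HQ growth half, file Thick: an injective arc can be thickened to a flow box. -/

set_option autoImplicit false

open Complex Metric Set Filter Topology
open scoped ComplexConjugate Real

namespace Pool.Agent.HQ

/-- The open rectangle around the segment `i[α, β]`. -/
def rectNhd (σ α β : ℝ) : Set ℂ := {ω | |ω.re| < σ ∧ α - σ < ω.im ∧ ω.im < β + σ}

/-- FLOW BOX ALONG AN ARC.
Proof. `K := z '' Icc α β` is compact in `ball 0 1`; let `δ, r` be from `exists_locInv` for `K`, and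
`ψ κ` (`κ ∈ K`) the inverses.  Let `zc θ = z (projIcc θ)` (clamped to `[α, β]`), `pc θ` the clamped
value.  For `|Re ω| < σ`, `α - σ < Im ω < β + σ` put `Z ω := ψ (zc ω.im) (t exp ω)`; it is
defined if
`σ` is small: `|t exp ω - t exp (pc ω.im * I)| < r`.
Differentiable, and `Z ω = ψ (zc θ₁) (t exp ω)` for `ω` near `ω₁`, `θ₁ = ω₁.im`: both are lifts
of `t exp` along the horizontal (or broken) segment from `i pc ω.im` to `ω` and agree at
`i pc ω.im` (there both are `zc ω.im`: `θ ↦ ψ (zc θ₁) (t exp (θ I))` and `z` are lifts on the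
interval between `pc θ₁` and `pc ω.im`), `lift_eqOn`.  `Z (θ I) = z θ`, `A (Z ω) = t exp ω`.
`Z ω ∈ V` for small `σ`: `|Z ω - zc ω.im|` is small: choose `δ' < δ` with
`ball (z θ) δ' ⊆ V` for all `θ` (compactness) and apply `exists_locInv` with values in a smaller
ball
(or: `Z` is continuous on the larger rectangle and `Z` maps the compact segment into the open
`V`, so
it maps a smaller rectangle into `V`: `generalized tube lemma`/compactness).
INJECTIVITY for small `σ`: suppose `Z ω₁ = Z ω₂`, `ω₁ ≠ ω₂` with `Im ∈ [α, β]`.  Then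
`exp ω₁ = exp ω₂`, so `Re ω₁ = Re ω₂`, `Im ω₁ - Im ω₂ = 2π k ≠ 0`.  Let `σ` be so small that
`|Z ω - Z (i Im ω)| < δ/2` on the rectangle (uniform continuity).  Then
`|z θ₁ - z θ₂| < δ`, `θ_j = Im ω_j ∈ [α, β]`, and `A (z θ₁) = A (z θ₂)`; `A` is injective on
`ball (z θ₁) δ`, so `z θ₁ = z θ₂`, contradicting the injectivity of `z`. -/
theorem exists_thick {A : ℂ → ℂ} (hA : DifferentiableOn ℂ A (ball 0 1))
    (hA' : ∀ z ∈ ball (0 : ℂ) 1, deriv A z ≠ 0) {t α β : ℝ} (ht : 0 < t) (hαβ : α < β)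
    {z : ℝ → ℂ} (hz : IsLift A t α β z) (hinj : InjOn z (Icc α β)) {V : Set ℂ} (hV : IsOpen V)
    (hVD : V ⊆ ball 0 1) (hzV : ∀ θ ∈ Icc α β, z θ ∈ V) :
    ∃ σ > 0, ∃ Z : ℂ → ℂ, DifferentiableOn ℂ Z (rectNhd σ α β) ∧
      (∀ θ ∈ Icc α β, Z (θ * I) = z θ) ∧
      (∀ ω ∈ rectNhd σ α β, Z ω ∈ V ∧ A (Z ω) = t * exp ω) ∧
      InjOn Z {ω | |ω.re| < σ ∧ α ≤ ω.im ∧ ω.im ≤ β} := by
  classical
  have hKc : IsCompact (z '' Icc α β) := isCompact_Icc.image_of_continuousOn hz.cont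
  have hKD : z '' Icc α β ⊆ ball (0 : ℂ) 1 := by
    rintro _ ⟨θ, hθ, rfl⟩
    exact hz.mem θ hθ
  have hKV : z '' Icc α β ⊆ V := by
    rintro _ ⟨θ, hθ, rfl⟩
    exact hzV θ hθ
  obtain ⟨δ, hδ, r, hr, hball, hex⟩ := exists_locInv hA hA' hKc hKD
  obtain ⟨ε₁, hε₁, hthick⟩ := hKc.exists_thickening_subset_open hV hKV
  choose! ψ hψd hψ0 hψ using hex
  -- the clamped parameter
  let cl : ℝ → ℝ := fun θ => max α (min β θ)
  have hcl_mem : ∀ θ, cl θ ∈ Icc α β := fun θ =>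
    ⟨le_max_left _ _, max_le hαβ.le (min_le_left _ _)⟩
  have hcl_cont : Continuous cl := continuous_const.max (continuous_const.min continuous_id)
  have hcl_eq : ∀ θ ∈ Icc α β, cl θ = θ := by
    intro θ hθ
    change max α (min β θ) = θ
    rw [min_eq_right hθ.2, max_eq_right hθ.1]
  have hcl_dist : ∀ σ θ : ℝ, 0 < σ → α - σ < θ → θ < β + σ → |θ - cl θ| < σ := by
    intro σ θ hσ h1 h2
    change |θ - max α (min β θ)| < σ
    rcases le_total θ β with h3 | h3
    · rw [min_eq_right h3]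
      rcases le_total α θ with h4 | h4
      · rw [max_eq_right h4, sub_self, abs_zero]
        exact hσ
      · rw [max_eq_left h4, abs_lt]
        constructor <;> linarith
    · rw [min_eq_left h3, max_eq_right hαβ.le, abs_lt]
      constructor <;> linarith
  let zc : ℝ → ℂ := fun θ => z (cl θ)
  have hzc_cont : Continuous zc := hz.cont.comp_continuous hcl_cont hcl_mem
  have hzc_K : ∀ θ, zc θ ∈ z '' Icc α β := fun θ => ⟨cl θ, hcl_mem θ, rfl⟩
  have hzc_A : ∀ θ, A (zc θ) = t * exp (cl θ * I) := fun θ => hz.eq _ (hcl_mem θ)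
  -- the constants
  set ε : ℝ := min (δ / 4) ε₁ with hε
  have hε0 : 0 < ε := lt_min (by positivity) hε₁
  have hεδ : ε ≤ δ / 4 := min_le_left _ _
  obtain ⟨σ, hσ0, hσ1, hσr, hσε⟩ : ∃ σ : ℝ, 0 < σ ∧ 2 * σ ≤ 1 ∧ 4 * t * σ ≤ r ∧
      δ / r * (4 * t * σ) ≤ ε := by
    refine ⟨min (1 / 2) (min (r / (4 * t)) (ε * r / (δ * (4 * t)))), by positivity, ?_, ?_, ?_⟩
    · have := min_le_left (1 / 2 : ℝ) (min (r / (4 * t)) (ε * r / (δ * (4 * t))))
      linarith
    · have h1 : min (1 / 2 : ℝ) (min (r / (4 * t)) (ε * r / (δ * (4 * t)))) ≤ r / (4 * t) :=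
        (min_le_right _ _).trans (min_le_left _ _)
      calc 4 * t * min (1 / 2 : ℝ) (min (r / (4 * t)) (ε * r / (δ * (4 * t))))
          ≤ 4 * t * (r / (4 * t)) := by
            apply mul_le_mul_of_nonneg_left h1
            positivity
        _ = r := by
            field_simp
    · have h1 : min (1 / 2 : ℝ) (min (r / (4 * t)) (ε * r / (δ * (4 * t)))) ≤
          ε * r / (δ * (4 * t)) := (min_le_right _ _).trans (min_le_right _ _)
      calc δ / r * (4 * t * min (1 / 2 : ℝ) (min (r / (4 * t)) (ε * r / (δ * (4 * t)))))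
          ≤ δ / r * (4 * t * (ε * r / (δ * (4 * t)))) := by
            apply mul_le_mul_of_nonneg_left _ (by positivity)
            apply mul_le_mul_of_nonneg_left h1
            positivity
        _ = ε := by
            field_simp
  -- distance of the values
  have hexp : ∀ ω ∈ rectNhd σ α β, ‖t * exp ω - A (zc ω.im)‖ < 4 * t * σ := by
    rintro ω ⟨h1, h2, h3⟩
    have h4 := hcl_dist σ ω.im hσ0 h2 h3
    set d : ℂ := ω - cl ω.im * I with hd
    have hdn : ‖d‖ < 2 * σ := by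
      have h5 : d.re = ω.re := by simp [hd]
      have h6 : d.im = ω.im - cl ω.im := by simp [hd]
      calc ‖d‖ ≤ |d.re| + |d.im| := Complex.norm_le_abs_re_add_abs_im d
        _ < 2 * σ := by
          rw [h5, h6]
          linarith
    have h7 : (t : ℂ) * exp ω - A (zc ω.im) = t * exp (cl ω.im * I) * (exp d - 1) := by
      rw [hzc_A, hd, exp_sub]
      have : exp (cl ω.im * I) ≠ 0 := exp_ne_zero _
      field_simp
    rw [h7, norm_mul, norm_mul, norm_exp_ofReal_mul_I, mul_one, norm_real,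
      Real.norm_of_nonneg ht.le]
    have h8 := Complex.norm_exp_sub_one_le (x := d) (by linarith)
    calc t * ‖exp d - 1‖ ≤ t * (2 * ‖d‖) := mul_le_mul_of_nonneg_left h8 ht.le
      _ < 4 * t * σ := by nlinarith
  -- the Schwarz lemma
  have hsch : ∀ κ ∈ z '' Icc α β, ∀ w, ‖w - A κ‖ < 4 * t * σ → ‖ψ κ w - κ‖ < ε := by
    intro κ hκ w hw
    have hwr : w ∈ ball (A κ) r := by
      rw [mem_ball, dist_eq_norm]
      linarith
    have hmaps : MapsTo (ψ κ) (ball (A κ) r) (closedBall (ψ κ (A κ)) δ) := by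
      intro w' hw'
      rw [hψ0 κ hκ]
      exact ball_subset_closedBall (hψ κ hκ w' hw').1
    have h1 := Complex.dist_le_div_mul_dist_of_mapsTo_ball (hψd κ hκ) hmaps hwr
    rw [hψ0 κ hκ, dist_eq_norm, dist_eq_norm] at h1
    calc ‖ψ κ w - κ‖ ≤ δ / r * ‖w - A κ‖ := h1
      _ < δ / r * (4 * t * σ) := mul_lt_mul_of_pos_left hw (by positivity)
      _ ≤ ε := hσε
  let Z : ℂ → ℂ := fun ω => ψ (zc ω.im) (t * exp ω)
  have hZ : ∀ ω ∈ rectNhd σ α β, ‖Z ω - zc ω.im‖ < ε ∧ A (Z ω) = t * exp ω := by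
    intro ω hω
    have h1 := hexp ω hω
    refine ⟨hsch _ (hzc_K _) _ h1, (hψ _ (hzc_K _) _ ?_).2⟩
    rw [mem_ball, dist_eq_norm]
    linarith
  have hopen : IsOpen (rectNhd σ α β) := by
    have h1 : IsOpen {ω : ℂ | |ω.re| < σ} :=
      isOpen_lt (continuous_abs.comp continuous_re) continuous_const
    have h2 : IsOpen {ω : ℂ | α - σ < ω.im} := isOpen_lt continuous_const continuous_im
    have h3 : IsOpen {ω : ℂ | ω.im < β + σ} := isOpen_lt continuous_im continuous_const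
    exact h1.inter (h2.inter h3)
  refine ⟨σ, hσ0, Z, ?_, ?_, ?_, ?_⟩
  · intro ω₁ hω₁
    apply DifferentiableAt.differentiableWithinAt
    have hκ := hzc_K ω₁.im
    have hg : DifferentiableAt ℂ (fun ω => ψ (zc ω₁.im) (t * exp ω)) ω₁ := by
      have h1 : t * exp ω₁ ∈ ball (A (zc ω₁.im)) r := by
        rw [mem_ball, dist_eq_norm]
        linarith [hexp ω₁ hω₁]
      have h2 : DifferentiableAt ℂ (ψ (zc ω₁.im)) (t * exp ω₁) :=
        (hψd _ hκ).differentiableAt (isOpen_ball.mem_nhds h1)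
      have h3 : DifferentiableAt ℂ (fun ω : ℂ => t * exp ω) ω₁ := by fun_prop
      exact h2.comp ω₁ h3
    refine hg.congr_of_eventuallyEq ?_
    have e1 : ∀ᶠ ω in 𝓝 ω₁, ω ∈ rectNhd σ α β := hopen.mem_nhds hω₁
    have e2 : ∀ᶠ ω : ℂ in 𝓝 ω₁, ‖zc ω.im - zc ω₁.im‖ < ε := by
      have h1 : ContinuousAt (fun ω : ℂ => ‖zc ω.im - zc ω₁.im‖) ω₁ := by
        have : Continuous (fun ω : ℂ => ‖zc ω.im - zc ω₁.im‖) :=
          ((hzc_cont.comp continuous_im).sub continuous_const).norm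
        exact this.continuousAt
      refine h1.eventually_lt continuousAt_const ?_
      rw [sub_self, norm_zero]
      exact hε0
    have e3 : ∀ᶠ ω : ℂ in 𝓝 ω₁, ‖t * exp ω - A (zc ω₁.im)‖ < 4 * t * σ := by
      have h1 : ContinuousAt (fun ω : ℂ => ‖t * exp ω - A (zc ω₁.im)‖) ω₁ := by
        fun_prop
      exact h1.eventually_lt continuousAt_const (hexp ω₁ hω₁)
    filter_upwards [e1, e2, e3] with ω h1 h2 h3
    obtain ⟨h4, h5⟩ := hZ ω h1
    have h6 := hsch _ hκ _ h3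
    have h7 : t * exp ω ∈ ball (A (zc ω₁.im)) r := by
      rw [mem_ball, dist_eq_norm]
      linarith
    have h8 := (hψ _ hκ _ h7).2
    apply (hball _ hκ).2
    · rw [mem_ball, dist_eq_norm]
      calc ‖Z ω - zc ω₁.im‖ = ‖(Z ω - zc ω.im) + (zc ω.im - zc ω₁.im)‖ := by ring_nf
        _ ≤ ‖Z ω - zc ω.im‖ + ‖zc ω.im - zc ω₁.im‖ := norm_add_le _ _
        _ < δ := by linarith
    · rw [mem_ball, dist_eq_norm]
      linarith
    · rw [h5, h8]
  · intro θ hθ
    have h1 : ((θ : ℂ) * I).im = θ := by simp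
    have h2 : zc θ = z θ := by
      change z (cl θ) = z θ
      rw [hcl_eq θ hθ]
    change ψ (zc ((θ : ℂ) * I).im) (t * exp (θ * I)) = z θ
    rw [h1, h2, ← hz.eq θ hθ]
    exact hψ0 _ ⟨θ, hθ, rfl⟩
  · intro ω hω
    obtain ⟨h1, h2⟩ := hZ ω hω
    refine ⟨hthick ?_, h2⟩
    rw [mem_thickening_iff]
    refine ⟨zc ω.im, hzc_K _, ?_⟩
    rw [dist_eq_norm]
    exact h1.trans_le (min_le_right _ _)
  · rintro ω₁ ⟨a1, a2, a3⟩ ω₂ ⟨b1, b2, b3⟩ heq
    have hm₁ : ω₁ ∈ rectNhd σ α β := ⟨a1, by linarith, by linarith⟩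
    have hm₂ : ω₂ ∈ rectNhd σ α β := ⟨b1, by linarith, by linarith⟩
    obtain ⟨h1, h2⟩ := hZ ω₁ hm₁
    obtain ⟨h3, h4⟩ := hZ ω₂ hm₂
    have h5 : exp ω₁ = exp ω₂ := by
      have h6 : (t : ℂ) * exp ω₁ = t * exp ω₂ := by rw [← h2, ← h4, heq]
      exact mul_left_cancel₀ (ofReal_ne_zero.2 ht.ne') h6
    have h6 : ω₁.re = ω₂.re := by
      have h7 := congrArg norm h5
      rw [norm_exp, norm_exp] at h7
      exact Real.exp_injective h7
    have h7 : exp (ω₁.im * I) = exp (ω₂.im * I) := by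
      have e1 : ω₁ = (ω₁.re : ℂ) + ω₁.im * I := (re_add_im ω₁).symm
      have e2 : ω₂ = (ω₁.re : ℂ) + ω₂.im * I := by
        rw [h6]
        exact (re_add_im ω₂).symm
      have e3 : exp ((ω₁.re : ℂ) + ω₁.im * I) = exp ((ω₁.re : ℂ) + ω₂.im * I) := by
        rw [← e1, ← e2]
        exact h5
      rw [exp_add, exp_add] at e3
      exact mul_left_cancel₀ (exp_ne_zero _) e3
    have i1 : ω₁.im ∈ Icc α β := ⟨a2, a3⟩
    have i2 : ω₂.im ∈ Icc α β := ⟨b2, b3⟩
    have z1 : zc ω₁.im = z ω₁.im := by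
      change z (cl ω₁.im) = z ω₁.im
      rw [hcl_eq _ i1]
    have z2 : zc ω₂.im = z ω₂.im := by
      change z (cl ω₂.im) = z ω₂.im
      rw [hcl_eq _ i2]
    have h8 : A (z ω₂.im) = A (z ω₁.im) := by rw [hz.eq _ i1, hz.eq _ i2, h7]
    have h9 : z ω₂.im = z ω₁.im := by
      apply (hball (z ω₁.im) ⟨_, i1, rfl⟩).2 _ (mem_ball_self hδ) h8
      rw [mem_ball, dist_eq_norm]
      rw [z1, heq] at h1
      rw [z2] at h3
      calc ‖z ω₂.im - z ω₁.im‖ = ‖(Z ω₂ - z ω₁.im) - (Z ω₂ - z ω₂.im)‖ := by ring_nf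
        _ ≤ ‖Z ω₂ - z ω₁.im‖ + ‖Z ω₂ - z ω₂.im‖ := norm_sub_le _ _
        _ < δ := by linarith
    exact Complex.ext h6 (hinj i2 i1 h9).symm

end Pool.Agent.HQ
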