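import Pool.Agent.HQ.Boot

/-!
# HQ: pairs and harmonic maps
-/

set_option autoImplicit false

open Complex Metric Set Filter Topology MeasureTheory
open scoped ComplexConjugate Real

namespace Pool.Agent.HQ

theorem hpair_swap {A B : ℂ → ℂ} (h : HPair A B) : HPair (fun z => I * B z) (fun z => I * A z) := by
  refine ⟨fun z hz => ?_, fun z hz => ?_, ?_, ?_⟩
  · have := h.anB z hz
    fun_prop
  · have := h.anA z hz
    fun_prop
  · intro z hz w hw hzw
    apply h.inj hz hw
    simp only [shearMap, Complex.mk.injEq] at hzw ⊢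
    obtain ⟨h1, h2⟩ := hzw
    simp only [mul_re, mul_im, I_re, I_im, zero_mul, one_mul, zero_sub, zero_add] at h1 h2
    exact ⟨h2, by linarith⟩
  · intro z hz
    have dA : deriv (fun z => I * A z) z = I * deriv A z :=
      ((h.anA z hz).differentiableAt.hasDerivAt.const_mul I).deriv
    have dB : deriv (fun z => I * B z) z = I * deriv B z :=
      ((h.anB z hz).differentiableAt.hasDerivAt.const_mul I).deriv
    rw [dA, dB]
    have h1 := h.pos z hz
    have h2 : (I * deriv A z * conj (I * deriv B z)).re = (deriv B z * conj (deriv A z)).re := by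
      simp only [map_mul, conj_I, mul_re, mul_im, conj_re, conj_im, I_re, I_im, neg_re, neg_im]
      ring
    rw [h2]
    exact h1

/-- Dilations of a univalent sense preserving harmonic map give pairs. -/
theorem hpair_of_harmonic {h g : ℂ → ℂ} (hh : DifferentiableOn ℂ h (ball 0 1))
    (hg : DifferentiableOn ℂ g (ball 0 1))
    (hinj : InjOn (fun z => h z + conj (g z)) (ball 0 1))
    (hor : ∀ z ∈ ball (0 : ℂ) 1, ‖deriv g z‖ < ‖deriv h z‖) {r : ℝ} (hr : 0 < r) (hr1 : r < 1) :
    HPair (fun z => h (r * z) + g (r * z)) (fun z => h (r * z) - g (r * z)) := by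
  have hmem : ∀ z ∈ closedBall (0 : ℂ) 1, (r : ℂ) * z ∈ ball (0 : ℂ) 1 := by
    intro z hz
    rw [mem_closedBall_zero_iff] at hz
    rw [mem_ball_zero_iff, norm_mul, norm_real, Real.norm_of_nonneg hr.le]
    nlinarith [norm_nonneg z]
  have hha : ∀ z ∈ closedBall (0 : ℂ) 1, AnalyticAt ℂ (fun z : ℂ => h (r * z)) z := by
    intro z hz
    have h1 : AnalyticAt ℂ h (r * z) := (hh.analyticOnNhd isOpen_ball) _ (hmem z hz)
    exact h1.comp_of_eq (f := fun z : ℂ => (r : ℂ) * z) (by fun_prop) rfl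
  have hga : ∀ z ∈ closedBall (0 : ℂ) 1, AnalyticAt ℂ (fun z : ℂ => g (r * z)) z := by
    intro z hz
    have h1 : AnalyticAt ℂ g (r * z) := (hg.analyticOnNhd isOpen_ball) _ (hmem z hz)
    exact h1.comp_of_eq (f := fun z : ℂ => (r : ℂ) * z) (by fun_prop) rfl
  have hd : ∀ (f : ℂ → ℂ), DifferentiableOn ℂ f (ball 0 1) → ∀ z ∈ closedBall (0 : ℂ) 1,
      HasDerivAt (fun z : ℂ => f (r * z)) (deriv f (r * z) * r) z := by
    intro f hf z hz
    have h1 : HasDerivAt f (deriv f (r * z)) (r * z) :=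
      (hf.differentiableAt (isOpen_ball.mem_nhds (hmem z hz))).hasDerivAt
    have h2 : HasDerivAt (fun z : ℂ => (r : ℂ) * z) r z := by
      simpa using (hasDerivAt_id z).const_mul (r : ℂ)
    exact h1.comp z h2
  refine ⟨fun z hz => (hha z hz).add (hga z hz), fun z hz => (hha z hz).sub (hga z hz), ?_, ?_⟩
  · intro z hz w hw hzw
    have h1 : (r : ℂ) * z = r * w := by
      apply hinj (hmem z hz) (hmem w hw)
      simp only [shearMap, Complex.mk.injEq, add_re, sub_im] at hzw
      obtain ⟨e1, e2⟩ := hzw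
      apply Complex.ext
      · simpa using e1
      · simp only [add_im, conj_im]
        linarith
    exact mul_left_cancel₀ (ofReal_ne_zero.mpr hr.ne') h1
  · intro z hz
    have h1 := hd h hh z hz
    have h2 := hd g hg z hz
    have e1 : deriv (fun z : ℂ => h (r * z) - g (r * z)) z =
        deriv h (r * z) * r - deriv g (r * z) * r := (h1.sub h2).deriv
    have e2 : deriv (fun z : ℂ => h (r * z) + g (r * z)) z =
        deriv h (r * z) * r + deriv g (r * z) * r := (h1.add h2).deriv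
    rw [e1, e2]
    have h3 := hor _ (hmem z hz)
    have h4 : ‖deriv g (r * z)‖ ^ 2 < ‖deriv h (r * z)‖ ^ 2 :=
      pow_lt_pow_left₀ h3 (norm_nonneg _) two_ne_zero
    rw [← Complex.normSq_eq_norm_sq, ← Complex.normSq_eq_norm_sq, normSq_apply,
      normSq_apply] at h4
    have h5 : ((deriv h (r * z) * r - deriv g (r * z) * r) *
        conj (deriv h (r * z) * r + deriv g (r * z) * r)).re =
        r ^ 2 * (((deriv h (r * z)).re * (deriv h (r * z)).re +
          (deriv h (r * z)).im * (deriv h (r * z)).im) -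
          ((deriv g (r * z)).re * (deriv g (r * z)).re +
          (deriv g (r * z)).im * (deriv g (r * z)).im)) := by
      simp only [map_add, map_mul, conj_ofReal, mul_re, mul_im, add_re, add_im, sub_re, sub_im,
        conj_re, conj_im, ofReal_re, ofReal_im]
      ring
    rw [h5]
    exact mul_pos (by positivity) (by linarith)

private lemma transA_re_pos {A B : ℂ → ℂ} (h : HPair A B) : 0 < (Qf A B 0).re := by
  have h0 : (0 : ℂ) ∈ closedBall (0 : ℂ) 1 := by simp
  have h1 := h.pos 0 h0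
  have h2 := h.deriv_ne h0
  have h3 : (Qf A B 0).re = (deriv B 0 * conj (deriv A 0)).re / normSq (deriv A 0) := by
    rw [Qf, Complex.div_re, mul_re, conj_re, conj_im]
    ring
  rw [h3]
  exact div_pos h1 (normSq_pos.mpr h2)

/-- Normalisation (`HPair.affine` with `c = 1 / |A' 0|`, `s = Im Q 0`, `q = c / Re Q 0`) and
`nrm_mean`. -/
theorem pair_mean {K : ℝ} (hK : Loc K) {α K1 p : ℝ} (hα : 1 ≤ α) (hK1 : 0 < K1) (hp : 0 < p)
    (hp1 : p < 1 / α) : ∃ M : ℝ, 0 < M ∧ ∀ A B : ℂ → ℂ, HPair A B →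
      (∀ z : ℂ, ‖z‖ < 1 → ‖A z - A 0‖ ≤ K1 * ‖deriv A 0‖ * (1 - ‖z‖) ^ (-α)) →
        Real.circleAverage (fun z => ‖A z - A 0‖ ^ p) 0 1 ≤ M * ‖deriv A 0‖ ^ p := by
  obtain ⟨M, hM, H⟩ := nrm_mean hK hα hK1 hp hp1
  refine ⟨M, hM, fun A B hAB hgr => ?_⟩
  have h0 : (0 : ℂ) ∈ closedBall (0 : ℂ) 1 := by simp
  have hdA := hAB.deriv_ne h0
  have hn : 0 < ‖deriv A 0‖ := norm_pos_iff.mpr hdA
  have hre := transA_re_pos hAB
  set c : ℝ := ‖deriv A 0‖⁻¹ with hc
  have hc0 : 0 < c := inv_pos.mpr hn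
  have hcn : c * ‖deriv A 0‖ = 1 := inv_mul_cancel₀ hn.ne'
  set s : ℝ := (Qf A B 0).im with hs
  set q : ℝ := c / (Qf A B 0).re with hq
  have hq0 : 0 < q := div_pos hc0 hre
  set A' : ℂ → ℂ := fun z => c * A z + -(c * A 0) with hA'
  set B' : ℂ → ℂ := fun z => q * (B z - I * s * A z) + -(q * (B 0 - I * s * A 0)) with hB'
  have hpair : HPair A' B' := hAB.affine hc0 hq0 _ _
  have dA : deriv A' 0 = c * deriv A 0 :=
    (((hAB.anA 0 h0).differentiableAt.hasDerivAt.const_mul (c:ℂ)).add_const _).deriv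
  have dB : deriv B' 0 = q * (deriv B 0 - I * s * deriv A 0) :=
    ((((hAB.anB 0 h0).differentiableAt.hasDerivAt.sub
      ((hAB.anA 0 h0).differentiableAt.hasDerivAt.const_mul (I * s))).const_mul (q:ℂ)).add_const
        _).deriv
  have hnrm : Nrm A' B' := by
    refine ⟨hpair, ?_, ?_, ?_, ?_⟩
    · simp only [hA']
      ring
    · simp only [hB']
      ring
    · rw [dA, norm_mul, norm_real, Real.norm_of_nonneg hc0.le, hcn]
    · have h1 : Qf A' B' 0 = (q / c : ℝ) * (Qf A B 0 - I * s) := by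
        have hcc : (c : ℂ) ≠ 0 := ofReal_ne_zero.mpr hc0.ne'
        rw [Qf, Qf, dA, dB]
        push_cast
        field_simp
      have h2 : Qf A B 0 - I * s = ((Qf A B 0).re : ℂ) := by
        apply Complex.ext
        · simp
        · simp [hs]
      rw [h1, h2, ← ofReal_mul, hq]
      rw [← ofReal_one]
      congr 1
      field_simp
  have hnA : ∀ z, ‖A' z‖ = c * ‖A z - A 0‖ := by
    intro z
    have h1 : A' z = (c : ℂ) * (A z - A 0) := by
      simp only [hA']
      ring
    rw [h1, norm_mul, norm_real, Real.norm_of_nonneg hc0.le]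
  have h1 := H A' B' hnrm (by
    intro z hz
    rw [hnA]
    have h2 := hgr z hz
    calc c * ‖A z - A 0‖ ≤ c * (K1 * ‖deriv A 0‖ * (1 - ‖z‖) ^ (-α)) :=
          mul_le_mul_of_nonneg_left h2 hc0.le
      _ = (c * ‖deriv A 0‖) * (K1 * (1 - ‖z‖) ^ (-α)) := by ring
      _ = K1 * (1 - ‖z‖) ^ (-α) := by rw [hcn, one_mul])
  have h2 : (fun z => ‖A z - A 0‖ ^ p) = fun z => ‖deriv A 0‖ ^ p • ‖A' z‖ ^ p := by
    funext z
    rw [smul_eq_mul, ← Real.mul_rpow (norm_nonneg _) (norm_nonneg _), hnA, ← mul_assoc,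
      mul_comm _ c, hcn, one_mul]
  rw [h2, Real.circleAverage_fun_smul, smul_eq_mul, mul_comm]
  exact mul_le_mul_of_nonneg_right h1 (by positivity)

end Pool.Agent.HQ
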