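import Pool.Agent.HQ.TransA

/-!
# HQ: growth implies Hardy
-/

set_option autoImplicit false

open Complex Metric Set Filter Topology MeasureTheory
open scoped ComplexConjugate Real

namespace Pool.Agent.HQ

private theorem transB_mem {r : ℝ} (h0 : 0 ≤ r) (h1 : r < 1) (θ : ℝ) :
    (r : ℂ) * exp (θ * I) ∈ ball (0 : ℂ) 1 := by
  rw [mem_ball_zero_iff, norm_mul, norm_exp_ofReal_mul_I, mul_one, norm_real,
    Real.norm_eq_abs, abs_of_nonneg h0]
  exact h1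

private theorem transB_cont {h : ℂ → ℂ} (hh : DifferentiableOn ℂ h (ball 0 1)) {r : ℝ}
    (h0 : 0 ≤ r) (h1 : r < 1) : Continuous fun θ : ℝ => h (r * exp (θ * I)) :=
  hh.continuousOn.comp_continuous (by fun_prop) fun θ => transB_mem h0 h1 θ

/-- the bound for one function of the pair -/
private theorem transB_one {K : ℝ} {α : ℝ} (hα : 1 ≤ α) {p M δ K1 D : ℝ} (hδ : 0 < δ)
    (hK1 : 0 ≤ K1) (hp : 0 < p)
    (hM : 0 < M) (hmean : ∀ A B : ℂ → ℂ, HPair A B →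
      (∀ z : ℂ, ‖z‖ < 1 → ‖A z - A 0‖ ≤ (8 * (K1 + 1) / δ) * ‖deriv A 0‖ *
        (1 - ‖z‖) ^ (-α)) →
        Real.circleAverage (fun z => ‖A z - A 0‖ ^ p) 0 1 ≤ M * ‖deriv A 0‖ ^ p)
    (_hK : Loc K) {u : ℂ → ℂ} {c : ℂ} (hc : ‖c‖ = 1) (hu : DifferentiableOn ℂ u (ball 0 1))
    (hgr : ∀ z ∈ ball (0 : ℂ) 1, ‖u z‖ ≤ 2 * K1 * (1 - ‖z‖) ^ (-α))
    (hd : δ ≤ ‖deriv u 0‖) (hd' : ‖deriv u 0‖ ≤ D) {r : ℝ} (hr : 1 / 2 ≤ r) (hr1 : r < 1)
    {B : ℂ → ℂ} (hAB : HPair (fun z => c * u (r * z)) B) :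
    ∫ θ in (0 : ℝ)..2 * π, ‖u (r * exp (θ * I)) - u 0‖ ^ p ≤ 2 * π * (M * D ^ p) := by
  have hr0 : 0 < r := by linarith
  have hder : deriv (fun z => c * u (r * z)) 0 = c * (r * deriv u 0) := by
    have h1 : DifferentiableAt ℂ u 0 := hu.differentiableAt (ball_mem_nhds 0 one_pos)
    have h2 : HasDerivAt (fun z : ℂ => (r : ℂ) * z) r 0 := by
      simpa using (hasDerivAt_id (0 : ℂ)).const_mul (r : ℂ)
    have h3 : HasDerivAt u (deriv u 0) ((r : ℂ) * 0) := by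
      rw [mul_zero]
      exact h1.hasDerivAt
    have h4 := (h3.comp (0 : ℂ) h2).const_mul c
    have h5 := h4.deriv
    rw [show (fun z => c * u (r * z)) = fun y => c * (u ∘ fun z : ℂ => (r : ℂ) * z) y from rfl,
      h5]
    ring
  have hnd : ‖deriv (fun z => c * u (r * z)) 0‖ = r * ‖deriv u 0‖ := by
    rw [hder, norm_mul, hc, one_mul, norm_mul, norm_real, Real.norm_eq_abs, abs_of_pos hr0]
  have h6 := hmean _ B hAB (by
    intro z hz
    have hz0 : 0 < 1 - ‖z‖ := by linarith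
    have hrz : ‖(r : ℂ) * z‖ ≤ ‖z‖ := by
      rw [norm_mul, norm_real, Real.norm_eq_abs, abs_of_pos hr0]
      exact mul_le_of_le_one_left (norm_nonneg _) hr1.le
    have h7 : ‖u (r * z)‖ ≤ 2 * K1 * (1 - ‖z‖) ^ (-α) := by
      refine (hgr _ (mem_ball_zero_iff.2 (hrz.trans_lt hz))).trans ?_
      refine mul_le_mul_of_nonneg_left ?_ (by positivity)
      exact Real.rpow_le_rpow_of_nonpos hz0 (by linarith) (by linarith)
    have h8 : ‖u 0‖ ≤ 2 * K1 * (1 - ‖z‖) ^ (-α) := by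
      refine (hgr _ (mem_ball_self one_pos)).trans ?_
      refine mul_le_mul_of_nonneg_left ?_ (by positivity)
      refine Real.rpow_le_rpow_of_nonpos hz0 ?_ (by linarith)
      rw [norm_zero]
      linarith [norm_nonneg z]
    have h9 : ‖c * u (r * z) - c * u (r * 0)‖ ≤ 4 * K1 * (1 - ‖z‖) ^ (-α) := by
      rw [← mul_sub, norm_mul, hc, one_mul, mul_zero]
      refine (norm_sub_le _ _).trans ?_
      linarith
    refine h9.trans ?_
    have h10 : (0 : ℝ) ≤ (1 - ‖z‖) ^ (-α) := Real.rpow_nonneg hz0.le _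
    refine mul_le_mul_of_nonneg_right ?_ h10
    rw [hnd]
    have h11 : δ / 2 ≤ r * ‖deriv u 0‖ := by
      have := mul_le_mul hr hd hδ.le hr0.le
      linarith
    have h12 : 8 * (K1 + 1) / δ * (δ / 2) ≤ 8 * (K1 + 1) / δ * (r * ‖deriv u 0‖) :=
      mul_le_mul_of_nonneg_left h11 (by positivity)
    have h13 : 8 * (K1 + 1) / δ * (δ / 2) = 4 * (K1 + 1) := by
      field_simp
      norm_num
    rw [h13] at h12
    linarith)
  rw [Real.circleAverage_def, hnd, smul_eq_mul] at h6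
  have h14 : ∫ θ in (0 : ℝ)..2 * π, ‖c * u (r * circleMap 0 1 θ) - c * u (r * 0)‖ ^ p =
      ∫ θ in (0 : ℝ)..2 * π, ‖u (r * exp (θ * I)) - u 0‖ ^ p := by
    congr 1
    ext θ
    rw [← mul_sub, norm_mul, hc, one_mul, mul_zero, circleMap_zero]
    simp
  rw [h14] at h6
  have h15 : (r * ‖deriv u 0‖) ^ p ≤ D ^ p := by
    refine Real.rpow_le_rpow (by positivity) ?_ hp.le
    exact (mul_le_of_le_one_left (norm_nonneg _) hr1.le).trans hd'
  have h16 : (2 * π)⁻¹ * (∫ θ in (0 : ℝ)..2 * π, ‖u (r * exp (θ * I)) - u 0‖ ^ p) ≤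
      M * D ^ p := h6.trans (mul_le_mul_of_nonneg_left h15 hM.le)
  have hpi : 0 < 2 * π := by positivity
  calc _ = 2 * π * ((2 * π)⁻¹ *
        (∫ θ in (0 : ℝ)..2 * π, ‖u (r * exp (θ * I)) - u 0‖ ^ p)) := by
        rw [← mul_assoc, mul_inv_cancel₀ hpi.ne', one_mul]
    _ ≤ _ := mul_le_mul_of_nonneg_left h16 hpi.le

/-- the combination of the bounds for `h + g` and `h - g` -/
private theorem transB_two {p : ℝ} (hp : 0 < p) (hp1 : p ≤ 1) {v a b : ℝ → ℂ}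
    {v0 : ℂ} (hv : Continuous v) (ha : Continuous a) (hb : Continuous b)
    (hvab : ∀ θ, v θ - v0 = (a θ + b θ) / 2) {C : ℝ}
    (h1 : ∫ θ in (0 : ℝ)..2 * π, ‖a θ‖ ^ p ≤ C) (h2 : ∫ θ in (0 : ℝ)..2 * π, ‖b θ‖ ^ p ≤ C) :
    ∫ θ in (0 : ℝ)..2 * π, ‖v θ‖ ^ p ≤ C + C + 2 * π * ‖v0‖ ^ p := by
  have hpi : (0 : ℝ) ≤ 2 * π := by positivity
  have hc : ∀ w : ℝ → ℂ, Continuous w → Continuous fun θ => ‖w θ‖ ^ p := fun w hw =>
    hw.norm.rpow_const fun _ => Or.inr hp.le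
  have h3 : ∀ θ, ‖v θ‖ ^ p ≤ ‖a θ‖ ^ p + ‖b θ‖ ^ p + ‖v0‖ ^ p := by
    intro θ
    have h4 : ‖v θ‖ ≤ ‖a θ‖ + ‖b θ‖ + ‖v0‖ := by
      have h5 : v θ = (a θ + b θ) / 2 + v0 := by
        rw [← hvab θ]
        ring
      rw [h5]
      refine (norm_add_le _ _).trans ?_
      have h6 : ‖(a θ + b θ) / 2‖ ≤ ‖a θ‖ + ‖b θ‖ := by
        rw [norm_div, norm_ofNat]
        have h7 := norm_add_le (a θ) (b θ)
        have h8 := norm_nonneg (a θ)
        have h9 := norm_nonneg (b θ)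
        linarith
      linarith
    calc ‖v θ‖ ^ p ≤ (‖a θ‖ + ‖b θ‖ + ‖v0‖) ^ p :=
          Real.rpow_le_rpow (norm_nonneg _) h4 hp.le
      _ ≤ (‖a θ‖ + ‖b θ‖) ^ p + ‖v0‖ ^ p :=
          Real.rpow_add_le_add_rpow (by positivity) (norm_nonneg _) hp.le hp1
      _ ≤ _ := by
          have := Real.rpow_add_le_add_rpow (norm_nonneg (a θ)) (norm_nonneg (b θ)) hp.le hp1
          linarith
  have hab : Continuous fun θ => ‖a θ‖ ^ p + ‖b θ‖ ^ p := (hc a ha).add (hc b hb)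
  have habc : Continuous fun θ => ‖a θ‖ ^ p + ‖b θ‖ ^ p + ‖v0‖ ^ p := hab.add continuous_const
  have h4 : ∫ θ in (0 : ℝ)..2 * π, ‖v θ‖ ^ p ≤
      ∫ θ in (0 : ℝ)..2 * π, (‖a θ‖ ^ p + ‖b θ‖ ^ p + ‖v0‖ ^ p) :=
    intervalIntegral.integral_mono_on hpi ((hc v hv).intervalIntegrable _ _)
      (habc.intervalIntegrable _ _) fun θ _ => h3 θ
  have h5 : ∫ θ in (0 : ℝ)..2 * π, (‖a θ‖ ^ p + ‖b θ‖ ^ p + ‖v0‖ ^ p) =
      (∫ θ in (0 : ℝ)..2 * π, ‖a θ‖ ^ p) + (∫ θ in (0 : ℝ)..2 * π, ‖b θ‖ ^ p) +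
        2 * π * ‖v0‖ ^ p := by
    rw [intervalIntegral.integral_add (hab.intervalIntegrable _ _)
      (continuous_const.intervalIntegrable _ _), intervalIntegral.integral_add
      ((hc a ha).intervalIntegrable _ _) ((hc b hb).intervalIntegrable _ _),
      intervalIntegral.integral_const, sub_zero, smul_eq_mul]
  linarith

/-- Growth of `h` and `g` with exponent `α` implies boundedness of the integral means of order
`p < 1 / α`.  `pair_mean` for the pairs of `hpair_of_harmonic`, `1/2 ≤ r < 1`, and for the swapped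
pairs (`hpair_swap`); `h = (A + B) / 2`, `g = (A - B) / 2`, `(x + y)^p ≤ x^p + y^p`. -/
theorem hardy_of_growth {K : ℝ} (hK : Loc K) {α : ℝ} (hα : 1 ≤ α) {h g : ℂ → ℂ}
    (hh : DifferentiableOn ℂ h (ball 0 1)) (hg : DifferentiableOn ℂ g (ball 0 1))
    (hinj : InjOn (fun z => h z + conj (g z)) (ball 0 1))
    (hor : ∀ z ∈ ball (0 : ℂ) 1, ‖deriv g z‖ < ‖deriv h z‖) {K1 : ℝ}
    (hgr : ∀ z ∈ ball (0 : ℂ) 1, ‖h z‖ ≤ K1 * (1 - ‖z‖) ^ (-α) ∧
      ‖g z‖ ≤ K1 * (1 - ‖z‖) ^ (-α)) {p : ℝ} (hp : 0 < p) (hp1 : p < 1 / α) :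
    ∃ M : ℝ, ∀ r : ℝ, 0 ≤ r → r < 1 →
      (∫ θ in (0 : ℝ)..2 * π, ‖h (r * exp (θ * I))‖ ^ p) ≤ M ∧
      (∫ θ in (0 : ℝ)..2 * π, ‖g (r * exp (θ * I))‖ ^ p) ≤ M := by
  have hα0 : 0 < α := by linarith
  have hp1' : p ≤ 1 := hp1.le.trans (by rw [div_le_one hα0]; exact hα)
  have h0m : (0 : ℂ) ∈ ball (0 : ℂ) 1 := mem_ball_self one_pos
  have hK1 : 0 ≤ K1 := by
    have h1 := (hgr 0 h0m).1
    rw [norm_zero, sub_zero, Real.one_rpow, mul_one] at h1
    exact (norm_nonneg _).trans h1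
  obtain ⟨δ, hδd⟩ : ∃ δ : ℝ, δ = ‖deriv h 0‖ - ‖deriv g 0‖ := ⟨_, rfl⟩
  have hδ : 0 < δ := by
    rw [hδd]
    linarith [hor 0 h0m]
  obtain ⟨D, hDd⟩ : ∃ D : ℝ, D = ‖deriv h 0‖ + ‖deriv g 0‖ := ⟨_, rfl⟩
  obtain ⟨M, hM, hmean⟩ := pair_mean hK (K1 := 8 * (K1 + 1) / δ) hα (by positivity) hp hp1
  have hdh : DifferentiableAt ℂ h 0 := hh.differentiableAt (ball_mem_nhds 0 one_pos)
  have hdg : DifferentiableAt ℂ g 0 := hg.differentiableAt (ball_mem_nhds 0 one_pos)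
  have hda : deriv (fun z => h z + g z) 0 = deriv h 0 + deriv g 0 := deriv_fun_add hdh hdg
  have hdb : deriv (fun z => h z - g z) 0 = deriv h 0 - deriv g 0 := deriv_fun_sub hdh hdg
  obtain ⟨C, hC⟩ : ∃ C : ℝ, C = 2 * π * (M * D ^ p) := ⟨_, rfl⟩
  -- the bounds for the sum and the difference
  have hsum : ∀ r : ℝ, 1 / 2 ≤ r → r < 1 →
      ∫ θ in (0 : ℝ)..2 * π, ‖(h (r * exp (θ * I)) + g (r * exp (θ * I))) -
        (h 0 + g 0)‖ ^ p ≤ C := by
    intro r hr hr1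
    rw [hC]
    refine transB_one (u := fun z => h z + g z) (c := 1) (B := fun z => h (r * z) - g (r * z))
      hα hδ hK1 hp hM hmean hK norm_one (hh.add hg) ?_ ?_ ?_ hr hr1 ?_
    · intro z hz
      obtain ⟨h1, h2⟩ := hgr z hz
      refine (norm_add_le _ _).trans ?_
      linarith
    · rw [hda, hδd]
      have := norm_sub_le (deriv h 0 + deriv g 0) (deriv g 0)
      rw [add_sub_cancel_right] at this
      linarith
    · rw [hda, hDd]
      exact norm_add_le _ _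
    · have := hpair_of_harmonic hh hg hinj hor (show (0 : ℝ) < r by linarith) hr1
      simpa only [one_mul] using this
  have hdiff : ∀ r : ℝ, 1 / 2 ≤ r → r < 1 →
      ∫ θ in (0 : ℝ)..2 * π, ‖(h (r * exp (θ * I)) - g (r * exp (θ * I))) -
        (h 0 - g 0)‖ ^ p ≤ C := by
    intro r hr hr1
    rw [hC]
    refine transB_one (u := fun z => h z - g z) (c := I)
      (B := fun z => I * (h (r * z) + g (r * z)))
      hα hδ hK1 hp hM hmean hK norm_I (hh.sub hg) ?_ ?_ ?_ hr hr1 ?_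
    · intro z hz
      obtain ⟨h1, h2⟩ := hgr z hz
      refine (norm_sub_le _ _).trans ?_
      linarith
    · rw [hdb, hδd]
      exact norm_sub_norm_le _ _
    · rw [hdb, hDd]
      exact norm_sub_le _ _
    · exact hpair_swap (hpair_of_harmonic hh hg hinj hor (show (0 : ℝ) < r by linarith) hr1)
  -- small radii
  have hsmall : ∀ u : ℂ → ℂ, DifferentiableOn ℂ u (ball 0 1) →
      (∀ z ∈ ball (0 : ℂ) 1, ‖u z‖ ≤ K1 * (1 - ‖z‖) ^ (-α)) → ∀ r : ℝ, 0 ≤ r → r < 1 / 2 →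
      ∫ θ in (0 : ℝ)..2 * π, ‖u (r * exp (θ * I))‖ ^ p ≤
        2 * π * (K1 * (1 / 2) ^ (-α)) ^ p := by
    intro u hu hgu r hr hr1
    have hr2 : r < 1 := by linarith
    have h1 : ∀ θ : ℝ, ‖u (r * exp (θ * I))‖ ^ p ≤ (K1 * (1 / 2) ^ (-α)) ^ p := by
      intro θ
      refine Real.rpow_le_rpow (norm_nonneg _) ?_ hp.le
      refine (hgu _ (transB_mem hr hr2 θ)).trans ?_
      rw [norm_mul, norm_exp_ofReal_mul_I, mul_one, norm_real, Real.norm_eq_abs,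
        abs_of_nonneg hr]
      refine mul_le_mul_of_nonneg_left ?_ hK1
      exact Real.rpow_le_rpow_of_nonpos (by norm_num) (by linarith) (by linarith)
    have h2 : ∫ θ in (0 : ℝ)..2 * π, ‖u (r * exp (θ * I))‖ ^ p ≤
        ∫ θ in (0 : ℝ)..2 * π, (K1 * (1 / 2) ^ (-α)) ^ p :=
      intervalIntegral.integral_mono_on (by positivity)
        (((transB_cont hu hr hr2).norm.rpow_const fun _ => Or.inr hp.le).intervalIntegrable _ _)
        (continuous_const.intervalIntegrable _ _) fun θ _ => h1 θ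
    rw [intervalIntegral.integral_const, sub_zero, smul_eq_mul] at h2
    exact h2
  have hbig : ∀ u w : ℂ → ℂ, DifferentiableOn ℂ u (ball 0 1) →
      DifferentiableOn ℂ w (ball 0 1) → ∀ r : ℝ, 1 / 2 ≤ r → r < 1 →
      (∫ θ in (0 : ℝ)..2 * π, ‖(u (r * exp (θ * I)) + w (r * exp (θ * I))) -
        (u 0 + w 0)‖ ^ p ≤ C) →
      (∫ θ in (0 : ℝ)..2 * π, ‖(u (r * exp (θ * I)) - w (r * exp (θ * I))) -
        (u 0 - w 0)‖ ^ p ≤ C) →
      ∫ θ in (0 : ℝ)..2 * π, ‖u (r * exp (θ * I))‖ ^ p ≤ C + C + 2 * π * ‖u 0‖ ^ p := by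
    intro u w hu hw r hr hr1 h1 h2
    have hr0 : 0 ≤ r := by linarith
    have hcu := transB_cont hu hr0 hr1
    have hcw := transB_cont hw hr0 hr1
    refine transB_two (a := fun θ : ℝ => (u (r * exp (θ * I)) + w (r * exp (θ * I))) -
      (u 0 + w 0)) (b := fun θ : ℝ => (u (r * exp (θ * I)) - w (r * exp (θ * I))) -
      (u 0 - w 0)) hp hp1' hcu ((hcu.add hcw).sub continuous_const)
      ((hcu.sub hcw).sub continuous_const) (fun θ => ?_) h1 h2
    ring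
  refine ⟨max (2 * π * (K1 * (1 / 2) ^ (-α)) ^ p) (C + C + 2 * π * ‖h 0‖ ^ p +
    2 * π * ‖g 0‖ ^ p), fun r hr hr1 => ?_⟩
  have hq : ∀ x : ℂ, 0 ≤ 2 * π * ‖x‖ ^ p := fun x =>
    mul_nonneg (by positivity) (Real.rpow_nonneg (norm_nonneg _) _)
  by_cases hr2 : r < 1 / 2
  · exact ⟨(hsmall h hh (fun z hz => (hgr z hz).1) r hr hr2).trans (le_max_left _ _),
      (hsmall g hg (fun z hz => (hgr z hz).2) r hr hr2).trans (le_max_left _ _)⟩
  · push Not at hr2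
    constructor
    · refine (hbig h g hh hg r hr2 hr1 (hsum r hr2 hr1) (hdiff r hr2 hr1)).trans
        (le_trans ?_ (le_max_right _ _))
      linarith [hq (g 0)]
    · refine (hbig g h hg hh r hr2 hr1 ?_ ?_).trans (le_trans ?_ (le_max_right _ _))
      · have h1 := hsum r hr2 hr1
        have h2 : ∀ θ : ℝ, (g (r * exp (θ * I)) + h (r * exp (θ * I))) - (g 0 + h 0) =
            (h (r * exp (θ * I)) + g (r * exp (θ * I))) - (h 0 + g 0) := fun θ => by ring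
        simp only [h2]
        exact h1
      · have h1 := hdiff r hr2 hr1
        have h2 : ∀ θ : ℝ, ‖(g (r * exp (θ * I)) - h (r * exp (θ * I))) - (g 0 - h 0)‖ =
            ‖(h (r * exp (θ * I)) - g (r * exp (θ * I))) - (h 0 - g 0)‖ := fun θ => by
          rw [← norm_neg]
          congr 1
          ring
        simp only [h2]
        exact h1
      · linarith [hq (h 0)]

end Pool.Agent.HQ
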