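import Pool.Agent.HQ.SMean
import Pool.Agent.HQ.LvlQ

/-!
# HQ: the cosh function
-/

set_option autoImplicit false

open Complex Metric Set Filter Topology MeasureTheory
open scoped ComplexConjugate Real

namespace Pool.Agent.HQ

/-- One of the two terms: `E = exp (c b)` with `|c| = k / 2`. -/
private theorem TravelC_term {A E : ℂ → ℂ} {z c q : ℂ} {m R : ℝ} (hAz : AnalyticAt ℂ A z)
    (hE : AnalyticAt ℂ E z) (hm : 0 < m) (hR : 0 < R) (hc : ‖c‖ = 1 / (4 * m * R))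
    (hd : deriv E z = c * (q * deriv A z) * E z) (hq : ‖q‖ ≤ m) (hA : ‖A z‖ ≤ R) :
    SMean (fun w => ‖E w‖ ^ 2 * (2 - ‖A w‖ ^ 2 / R ^ 2)) z := by
  have hRne : (R : ℂ) ≠ 0 := by exact_mod_cast hR.ne'
  have h1 : AnalyticAt ℂ (fun w => ((√2 : ℝ) : ℂ) * E w) z := analyticAt_const.mul hE
  have h2 : AnalyticAt ℂ (fun w => (R : ℂ)⁻¹ * (A w * E w)) z :=
    analyticAt_const.mul (hAz.mul hE)
  have dE := hE.differentiableAt.hasDerivAt
  have dA := hAz.differentiableAt.hasDerivAt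
  have d1 : deriv (fun w => ((√2 : ℝ) : ℂ) * E w) z = ((√2 : ℝ) : ℂ) * deriv E z :=
    (dE.const_mul _).deriv
  have d2 : deriv (fun w => (R : ℂ)⁻¹ * (A w * E w)) z =
      (R : ℂ)⁻¹ * (deriv A z * E z + A z * deriv E z) := ((dA.mul dE).const_mul _).deriv
  have hs2 : (√2 : ℝ) ^ 2 = 2 := Real.sq_sqrt (by norm_num)
  set a : ℝ := ‖deriv A z‖ * ‖E z‖ with ha
  have ha0 : 0 ≤ a := by positivity
  have n1 : ‖deriv E z‖ ≤ a / (4 * R) := by
    rw [hd, norm_mul, norm_mul, norm_mul, hc]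
    have h3 : 1 / (4 * m * R) * (‖q‖ * ‖deriv A z‖) * ‖E z‖ ≤
        1 / (4 * m * R) * (m * ‖deriv A z‖) * ‖E z‖ := by gcongr
    refine h3.trans (le_of_eq ?_)
    rw [ha]
    field_simp
  have n2 : 3 / 4 * a ≤ ‖deriv A z * E z + A z * deriv E z‖ := by
    have h3 : ‖deriv A z * E z‖ ≤ ‖deriv A z * E z + A z * deriv E z‖ + ‖A z * deriv E z‖ := by
      have := norm_sub_le (deriv A z * E z + A z * deriv E z) (A z * deriv E z)
      simpa using this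
    have h4 : ‖A z * deriv E z‖ ≤ R * (a / (4 * R)) := by
      rw [norm_mul]
      exact mul_le_mul hA n1 (norm_nonneg _) hR.le
    have h5 : R * (a / (4 * R)) = a / 4 := by field_simp
    have h6 : ‖deriv A z * E z‖ = a := by rw [norm_mul]
    linarith
  have key : ‖deriv (fun w => ((√2 : ℝ) : ℂ) * E w) z‖ ^ 2 ≤
      ‖deriv (fun w => (R : ℂ)⁻¹ * (A w * E w)) z‖ ^ 2 := by
    rw [d1, d2, norm_mul, norm_mul, norm_inv, norm_real, norm_real, Real.norm_of_nonneg hR.le,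
      Real.norm_of_nonneg (Real.sqrt_nonneg 2), mul_pow, mul_pow, hs2]
    have h3 : ‖deriv E z‖ ^ 2 ≤ (a / (4 * R)) ^ 2 := by gcongr
    have h4 : (3 / 4 * a) ^ 2 ≤ ‖deriv A z * E z + A z * deriv E z‖ ^ 2 := by gcongr
    have h5 : 2 * (a / (4 * R)) ^ 2 ≤ R⁻¹ ^ 2 * (3 / 4 * a) ^ 2 := by
      have h6 : R⁻¹ ^ 2 * (3 / 4 * a) ^ 2 - 2 * (a / (4 * R)) ^ 2 = 7 / 16 * (a / R) ^ 2 := by
        field_simp
        ring
      have h7 : 0 ≤ 7 / 16 * (a / R) ^ 2 := by positivity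
      linarith
    have h8 : R⁻¹ ^ 2 * (3 / 4 * a) ^ 2 ≤
        R⁻¹ ^ 2 * ‖deriv A z * E z + A z * deriv E z‖ ^ 2 := by gcongr
    linarith
  refine (smean_normSq_sub h1 h2 key).congr (Eventually.of_forall fun w => ?_)
  show ‖((√2 : ℝ) : ℂ) * E w‖ ^ 2 - ‖(R : ℂ)⁻¹ * (A w * E w)‖ ^ 2 =
    ‖E w‖ ^ 2 * (2 - ‖A w‖ ^ 2 / R ^ 2)
  rw [norm_mul, norm_mul, norm_mul, norm_inv, norm_real, norm_real, Real.norm_of_nonneg hR.le,
    Real.norm_of_nonneg (Real.sqrt_nonneg 2), mul_pow, mul_pow, mul_pow, hs2]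
  field_simp

/-- Let `E = exp (∓ i k b / 2)`, `b z = (B z - B ζ) - i Im Q(ζ) (A z - A ζ)`, so `Im b = yp`,
`b' = (Q - i Im Q(ζ)) A'` and `coshW = (1/2) Σ_± (2 |E|² - |A E|² / R²)`.  With
`|Q - i Im Q(ζ)| ≤ m`, `k = 1 / (2 m R)`, `|A| ≤ R`:  `2 |E'|² ≤ (1/8) |A'|² |E|² / R²` and
`|(A E)'| ≥ (3/4) |A'| |E|`.  Use `smean_normSq_sub`. -/
theorem smean_coshW {A B : ℂ → ℂ} (h : HPair A B) {ζ z : ℂ} (hζ : ‖ζ‖ < 1) (hz : ‖z‖ < 1)
    {m R : ℝ} (hm : 0 < m) (hR : 0 < R)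
    (hQ : ‖Qf A B z - (Qf A B ζ).im * I‖ ≤ m) (hA : ‖A z‖ ≤ R) :
    SMean (coshW A B ζ (1 / (2 * m * R)) R) z := by
  have hzc : z ∈ closedBall (0 : ℂ) 1 := by
    rw [mem_closedBall_zero_iff]
    exact hz.le
  have hAz := h.anA z hzc
  have hBz := h.anB z hzc
  have hA' := h.deriv_ne hzc
  set s : ℝ := (Qf A B ζ).im with hs
  set b : ℂ → ℂ := fun w => (B w - B ζ) - s * I * (A w - A ζ) with hb
  have hbim : ∀ w, (b w).im = yp A B ζ w := by
    intro w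
    simp only [hb, yp, sub_im, mul_im, mul_re, ofReal_re, ofReal_im, I_re, I_im, sub_re, ← hs]
    ring
  have hban : AnalyticAt ℂ b z :=
    (hBz.sub analyticAt_const).sub (analyticAt_const.mul (hAz.sub analyticAt_const))
  have hbd : HasDerivAt b ((Qf A B z - s * I) * deriv A z) z := by
    have h1 := ((hBz.differentiableAt.hasDerivAt.sub_const (B ζ)).sub
      ((hAz.differentiableAt.hasDerivAt.sub_const (A ζ)).const_mul ((s : ℂ) * I)))
    refine h1.congr_deriv ?_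
    rw [Qf, sub_mul, div_mul_cancel₀ _ hA']
  have hterm : ∀ c : ℂ, ‖c‖ = 1 / (4 * m * R) →
      SMean (fun w => ‖exp (c * b w)‖ ^ 2 * (2 - ‖A w‖ ^ 2 / R ^ 2)) z := by
    intro c hc
    have hEa : AnalyticAt ℂ (fun w => exp (c * b w)) z := (analyticAt_const.mul hban).cexp
    refine TravelC_term (q := Qf A B z - s * I) hAz hEa hm hR hc ?_ hQ hA
    rw [((hbd.const_mul c).cexp).deriv]
    ring
  have hc0 : (0 : ℝ) ≤ 1 / (4 * m * R) := by positivity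
  have hcn : ‖((1 / (4 * m * R) : ℝ) : ℂ) * I‖ = 1 / (4 * m * R) := by
    rw [norm_mul, norm_I, mul_one, norm_real, Real.norm_of_nonneg hc0]
  have hcn' : ‖-(((1 / (4 * m * R) : ℝ) : ℂ) * I)‖ = 1 / (4 * m * R) := by
    rw [norm_neg, hcn]
  have hsum := ((hterm _ hcn).const_mul (c := 1 / 2) (by norm_num)).add
    ((hterm _ hcn').const_mul (c := 1 / 2) (by norm_num))
  refine hsum.congr (Eventually.of_forall fun w => ?_)
  have e1 : ‖exp (((1 / (4 * m * R) : ℝ) : ℂ) * I * b w)‖ ^ 2 =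
      Real.exp (-(1 / (2 * m * R) * yp A B ζ w)) := by
    rw [norm_exp, ← Real.exp_nat_mul]
    congr 1
    simp only [mul_re, mul_im, ofReal_re, ofReal_im, I_re, I_im, hbim]
    push_cast
    field_simp
    ring
  have e2 : ‖exp (-(((1 / (4 * m * R) : ℝ) : ℂ) * I) * b w)‖ ^ 2 =
      Real.exp (1 / (2 * m * R) * yp A B ζ w) := by
    rw [norm_exp, ← Real.exp_nat_mul]
    congr 1
    simp only [neg_re, neg_im, mul_re, mul_im, ofReal_re, ofReal_im, I_re, I_im, hbim]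
    push_cast
    field_simp
    ring
  show 1 / 2 * (‖exp (((1 / (4 * m * R) : ℝ) : ℂ) * I * b w)‖ ^ 2 * (2 - ‖A w‖ ^ 2 / R ^ 2)) +
    1 / 2 * (‖exp (-(((1 / (4 * m * R) : ℝ) : ℂ) * I) * b w)‖ ^ 2 *
      (2 - ‖A w‖ ^ 2 / R ^ 2)) = coshW A B ζ (1 / (2 * m * R)) R w
  rw [e1, e2, coshW, Real.cosh_eq]
  ring

end Pool.Agent.HQ
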